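import Pool.Agent.Helper79.G.Reg

/-!
# MP_e98778_an (full), module G: gaps, basic facts on runs

`insertion` (G1) is proved by helper60 in `Pool/Agent/Helper60/G1`; the files of G3 take it as the
hypothesis `Insertion T E`.
-/

set_option autoImplicit false

open Pool.Agent.Helper87.LS

namespace Pool.Agent.Helper79.G

variable {H : Type}

/-- All edges outside `E` of all triangulations reachable without flips of `E` are longer than `L`. -/
def Gap (T : Tri H) (E : Set H) (L : ℝ) : Prop :=
  ∀ T', Reach E T T' → ∀ g, g ∉ E → L < ‖T'.vec g‖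

/-- Conclusion of the insertion lemma G1 for `T` and `E`. -/
def Insertion (T : Tri H) (E : Set H) : Prop :=
  ∀ (h : H) (v : ℂ) (l : List (H × ℂ)), T.Sad h v l → (∀ s ∈ l, s.1 ∉ E) →
    ∃ T' g, Reach E T T' ∧ g ∉ E ∧ T'.vec g = v

/-- Translation of a state by `-a`. -/
def sh (a : ℂ) (s : H × ℂ) : H × ℂ := (s.1, s.2 - a)

/-- Runs all of whose states avoid `E` (the first state included). -/
inductive RunsE (T : Tri H) (E : Set H) (v : ℂ) (s : H × ℂ) : H × ℂ → Prop
  | refl : s.1 ∉ E → RunsE T E v s s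
  | up {t : H × ℂ} : RunsE T E v s t → 0 < cr v (T.apex t) → (T.up t).1 ∉ E → RunsE T E v s (T.up t)
  | dn {t : H × ℂ} : RunsE T E v s t → cr v (T.apex t) < 0 → (T.dn t).1 ∉ E → RunsE T E v s (T.dn t)

namespace Tri

variable (T : Tri H)

theorem vec_opp_next_add (g : H) : T.vec (T.opp g) = - T.vec g := T.vec_opp g

/-- End point of the next state, upper case. -/
theorem up_end (s : H × ℂ) : (T.up s).2 + T.vec (T.up s).1 = s.2 + T.vec s.1 := by
  unfold up apex
  simp only
  rw [T.vec_opp]; ring

/-- End point of the next state, lower case: the apex. -/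
theorem dn_end (s : H × ℂ) : (T.dn s).2 + T.vec (T.dn s).1 = T.apex s := by
  unfold dn apex
  simp only
  rw [T.vec_opp, T.vec_prev]; ring

theorem crs_up {v : ℂ} {s : H × ℂ} (h : T.Crs v s) (ha : 0 < cr v (T.apex s)) : T.Crs v (T.up s) := by
  refine ⟨ha, ?_⟩
  rw [T.up_end]
  exact h.2

theorem crs_dn {v : ℂ} {s : H × ℂ} (h : T.Crs v s) (ha : cr v (T.apex s) < 0) : T.Crs v (T.dn s) := by
  refine ⟨h.1, ?_⟩
  rw [T.dn_end]
  exact ha

theorem crs_runs {v : ℂ} {s t : H × ℂ} (h : T.Crs v s) (hr : T.Runs v s t) : T.Crs v t := by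
  induction hr with
  | refl => exact h
  | up _ ha ih => exact T.crs_up ih ha
  | dn _ ha ih => exact T.crs_dn ih ha

theorem up_sh (a : ℂ) (s : H × ℂ) : T.up (sh a s) = sh a (T.up s) := by
  unfold up sh apex
  simp only [Prod.mk.injEq, true_and]
  ring

theorem dn_sh (a : ℂ) (s : H × ℂ) : T.dn (sh a s) = sh a (T.dn s) := by
  unfold dn sh
  rfl

theorem apex_sh (a : ℂ) (s : H × ℂ) : T.apex (sh a s) = T.apex s - a := by
  unfold sh apex
  simp only
  ring

/-- The crossing direction: `v` enters the triangle of `g`. -/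
theorem crs_vec {v : ℂ} {s : H × ℂ} (h : T.Crs v s) : cr v (T.vec s.1) < 0 := by
  obtain ⟨h1, h2⟩ := h
  rw [cr_add_right] at h2
  linarith

/-- The point `tin v s * v` is on the edge of the state. -/
theorem tin_mem {v : ℂ} {s : H × ℂ} (h : T.Crs v s) :
    ∃ t : ℝ, 0 < t ∧ t < 1 ∧ (T.tin v s : ℂ) * v = s.2 + t * T.vec s.1 := by
  have hv := T.crs_vec h
  obtain ⟨h1, h2⟩ := h
  rw [cr_add_right] at h2
  refine ⟨cr v s.2 / (-(cr v (T.vec s.1))), by apply div_pos h1; linarith, ?_, ?_⟩
  · rw [div_lt_one (by linarith)]; linarith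
  · have hne : cr v (T.vec s.1) ≠ 0 := hv.ne
    have key : (T.tin v s : ℂ) * v - (s.2 + ((cr v s.2 / (-(cr v (T.vec s.1))) : ℝ) : ℂ) * T.vec s.1) = 0 := by
      apply Surf.cr_solve46 hne
      · rw [cr_sub_right, cr_add_right, cr_mul_right, cr_mul_right, cr_self]
        field_simp
        ring
      · rw [cr_sub_right, cr_add_right, cr_mul_right, cr_mul_right, cr_self]
        unfold tin
        have h3 : cr (T.vec s.1) v = - cr v (T.vec s.1) := cr_swap _ _
        have h4 : cr (T.vec s.1) s.2 = - cr s.2 (T.vec s.1) := cr_swap _ _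
        rw [h3, h4]
        field_simp
        ring
    linear_combination key

end Tri

/-- Lists from runs: a run which avoids `E` and whose last apex is `v` is a saddle. -/
theorem RunsE.hits {T : Tri H} {E : Set H} {v : ℂ} {s t : H × ℂ} (h : RunsE T E v s t) :
    ∀ l, T.Hits v t l → (∀ x ∈ l, x.1 ∉ E) → ∃ l', T.Hits v s l' ∧ ∀ x ∈ l', x.1 ∉ E := by
  induction h with
  | refl _ => intro l hl hE; exact ⟨l, hl, hE⟩
  | @up t ht ha hE ih =>
    intro l hl hlE
    refine ih (t :: l) (Tri.Hits.up ha hl) ?_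
    intro x hx
    rcases List.mem_cons.1 hx with rfl | hx
    · cases ht with
      | refl h => exact h
      | up _ _ h => exact h
      | dn _ _ h => exact h
    · exact hlE x hx
  | @dn t ht ha hE ih =>
    intro l hl hlE
    refine ih (t :: l) (Tri.Hits.dn ha hl) ?_
    intro x hx
    rcases List.mem_cons.1 hx with rfl | hx
    · cases ht with
      | refl h => exact h
      | up _ _ h => exact h
      | dn _ _ h => exact h
    · exact hlE x hx

/-- Gap and insertion: a saddle (from a corner, crossing at least one edge) which avoids `E` is longer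
than `L`. -/
theorem gap_saddle {T : Tri H} {E : Set H} {L : ℝ} (hgap : Gap T E L) (hins : Insertion T E)
    {h : H} {v : ℂ} (hi : T.Into h v) {t : H × ℂ} (hr : RunsE T E v (T.cst h) t)
    (ha : T.apex t = v) : L < ‖v‖ := by
  have htE : t.1 ∉ E := by
    cases hr with
    | refl h => exact h
    | up _ _ h => exact h
    | dn _ _ h => exact h
  obtain ⟨l, hl, hlE⟩ := hr.hits [t] (Tri.Hits.hit ha) (by
    intro x hx
    rw [List.mem_singleton] at hx
    rw [hx]; exact htE)
  obtain ⟨T', g, hT', hg, hv⟩ := hins h v l ⟨hi, hl⟩ hlE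
  rw [← hv]
  exact hgap T' hT' g hg

/-- The relation `RunsE` depends only on the direction. -/
theorem RunsE.smul {T : Tri H} {E : Set H} {v : ℂ} {s t : H × ℂ} (h : RunsE T E v s t) {c : ℝ}
    (hc : 0 < c) : RunsE T E (c * v) s t := by
  induction h with
  | refl h => exact RunsE.refl h
  | up _ ha hE ih => exact RunsE.up ih (by rw [cr_mul_left]; exact mul_pos hc ha) hE
  | dn _ ha hE ih => exact RunsE.dn ih (by rw [cr_mul_left]; exact mul_neg_of_pos_of_neg hc ha) hE

end Pool.Agent.Helper79.G
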