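import Pool.Agent.Helper79.G.Base

/-!
# MP_e98778_an (full): flips

Flip of the edge `e`. Write `e' = opp e`, `a = next e`, `b = prev e`, `c = next e'`, `d = prev e'`,
`P` = start of `e`, `Q` = end of `e`, `R` = end of `a`, `S` = end of `c`; the quadrilateral is
`P S Q R` with sides `c, d, a, b`. After the flip `e` runs from `S` to `R`, the triangles are
`e, b, c` and `e', d, a`. All labels persist, `opp` does not change.
-/

set_option autoImplicit false

open Pool.Agent.Helper87.LS

namespace Pool.Agent.Helper79.G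

namespace Tri

variable {H : Type} (T : Tri H)

open Classical in
/-- The new `next` function after the flip of `e`. -/
noncomputable def flipNext (e h : H) : H :=
  if h = e then T.prev e else if h = T.prev e then T.next (T.opp e)
  else if h = T.next (T.opp e) then e
  else if h = T.opp e then T.prev (T.opp e) else if h = T.prev (T.opp e) then T.next e
  else if h = T.next e then T.opp e else T.next h

open Classical in
/-- The new vectors after the flip of `e`. -/
noncomputable def flipVec (e h : H) : ℂ :=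
  if h = e then T.vec (T.prev (T.opp e)) + T.vec (T.next e)
  else if h = T.opp e then -(T.vec (T.prev (T.opp e)) + T.vec (T.next e)) else T.vec h

theorem vec_ne_zero (h : H) : T.vec h ≠ 0 := by
  intro h0
  have := T.pos h
  rw [h0] at this
  simp [cr] at this

theorem next_ne (h : H) : T.next h ≠ h := by
  intro h0
  have := T.pos h
  rw [h0, cr_self] at this
  exact lt_irrefl _ this

theorem prev_ne (h : H) : T.prev h ≠ h := by
  intro h0
  have h1 := T.next3 h
  unfold Tri.prev at h0
  rw [h0] at h1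
  exact T.next_ne h h1

theorem prev_ne_next (h : H) : T.prev h ≠ T.next h := by
  intro h0
  unfold Tri.prev at h0
  exact T.next_ne _ h0

theorem opp_ne (h : H) : T.opp h ≠ h := by
  intro h0
  have h1 := T.vec_opp h
  rw [h0] at h1
  have h2 : T.vec h = 0 := by
    have : (2 : ℂ) * T.vec h = 0 := by linear_combination h1
    simpa using this
  exact T.vec_ne_zero h h2

theorem opp_ne_next (h : H) : T.opp h ≠ T.next h := by
  intro h0
  have h1 := T.vec_opp h
  rw [h0] at h1
  have := T.pos h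
  rw [h1] at this
  simp [cr] at this
  linarith

theorem next_prev (h : H) : T.next (T.prev h) = h := T.next3 h
theorem prev_next (h : H) : T.prev (T.next h) = h := T.next3 h
theorem next_next (h : H) : T.next (T.next h) = T.prev h := rfl
theorem prev_prev (h : H) : T.prev (T.prev h) = T.next h := by
  unfold prev; rw [T.next3]

theorem vec_prev (h : H) : T.vec (T.prev h) = -(T.vec h + T.vec (T.next h)) := by
  have := T.closed h
  unfold prev
  linear_combination this

theorem opp_ne_prev (h : H) : T.opp h ≠ T.prev h := by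
  intro h0
  have h1 := T.vec_opp h
  rw [h0, T.vec_prev] at h1
  exact T.vec_ne_zero (T.next h) (by linear_combination -h1)

theorem prev_inj {x y : H} (h : T.prev x = T.prev y) : x = y := by
  rw [← T.next_prev x, h, T.next_prev]

/-- The six labels of the quadrilateral are different. -/
theorem six (e : H) :
    T.prev e ≠ e ∧ T.next e ≠ e ∧ T.prev e ≠ T.next e ∧
    T.opp e ≠ e ∧ T.opp e ≠ T.next e ∧ T.opp e ≠ T.prev e ∧
    T.next (T.opp e) ≠ e ∧ T.next (T.opp e) ≠ T.next e ∧ T.next (T.opp e) ≠ T.prev e ∧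
    T.next (T.opp e) ≠ T.opp e ∧
    T.prev (T.opp e) ≠ e ∧ T.prev (T.opp e) ≠ T.next e ∧ T.prev (T.opp e) ≠ T.prev e ∧
    T.prev (T.opp e) ≠ T.opp e ∧ T.prev (T.opp e) ≠ T.next (T.opp e) := by
  have h1 := T.opp_ne e
  have h2 := T.opp_ne_next e
  have h3 := T.opp_ne_prev e
  refine ⟨T.prev_ne e, T.next_ne e, T.prev_ne_next e, h1, h2, h3, ?_, ?_, ?_, T.next_ne _, ?_, ?_, ?_,
    T.prev_ne _, T.prev_ne_next _⟩
  · intro h; exact h3 (by have := congrArg T.prev h; rwa [T.prev_next] at this)
  · intro h; exact h1 (T.next.injective h)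
  · intro h; exact h2 (T.next.injective (by rw [h, T.next_next]))
  · intro h; exact h2 (by have := congrArg T.next h; rwa [T.next_prev] at this)
  · intro h; exact h3 (by rw [← T.next_prev (T.opp e), h, T.next_next])
  · intro h; exact h1 (T.prev_inj h)

theorem flipNext_e (e : H) : T.flipNext e e = T.prev e := by simp [flipNext]
theorem flipNext_b (e : H) : T.flipNext e (T.prev e) = T.next (T.opp e) := by
  have h := T.six e; simp only [flipNext]; simp [h]
theorem flipNext_c (e : H) : T.flipNext e (T.next (T.opp e)) = e := by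
  have h := T.six e; simp only [flipNext]; simp [h]
theorem flipNext_e' (e : H) : T.flipNext e (T.opp e) = T.prev (T.opp e) := by
  have h := T.six e; simp only [flipNext]; simp [h, Ne.symm h.2.2.2.2.2.2.2.2.2.1]
theorem flipNext_d (e : H) : T.flipNext e (T.prev (T.opp e)) = T.next e := by
  have h := T.six e; simp only [flipNext]; simp [h]
theorem flipNext_a (e : H) : T.flipNext e (T.next e) = T.opp e := by
  have h := T.six e
  simp only [flipNext]
  simp [h, Ne.symm h.2.2.1, Ne.symm h.2.2.2.2.1, Ne.symm h.2.2.2.2.2.2.2.1,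
    Ne.symm h.2.2.2.2.2.2.2.2.2.2.2.1]

/-- A dart outside the two triangles of the edge `e`. -/
def Out (e h : H) : Prop :=
  h ≠ e ∧ h ≠ T.next e ∧ h ≠ T.prev e ∧ h ≠ T.opp e ∧ h ≠ T.next (T.opp e) ∧ h ≠ T.prev (T.opp e)

theorem flipNext_out {e h : H} (ho : T.Out e h) : T.flipNext e h = T.next h := by
  simp [flipNext, ho.1, ho.2.1, ho.2.2.1, ho.2.2.2.1, ho.2.2.2.2.1, ho.2.2.2.2.2]

theorem Out.next {e h : H} (ho : T.Out e h) : T.Out e (T.next h) := by
  obtain ⟨h1, h2, h3, h4, h5, h6⟩ := ho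
  refine ⟨?_, ?_, ?_, ?_, ?_, ?_⟩
  · intro h; exact h3 (by rw [← h, T.prev_next])
  · intro h; exact h1 (T.next.injective h)
  · intro h; exact h2 (T.next.injective h)
  · intro h; exact h6 (by rw [← h, T.prev_next])
  · intro h; exact h4 (T.next.injective h)
  · intro h; exact h5 (T.next.injective h)

theorem cases_six (e h : H) : T.Out e h ∨ h = e ∨ h = T.next e ∨ h = T.prev e ∨ h = T.opp e ∨
    h = T.next (T.opp e) ∨ h = T.prev (T.opp e) := by
  unfold Out
  tauto

theorem flipNext3 (e h : H) : T.flipNext e (T.flipNext e (T.flipNext e h)) = h := by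
  rcases T.cases_six e h with ho | rfl | rfl | rfl | rfl | rfl | rfl
  · rw [T.flipNext_out ho, T.flipNext_out ho.next, T.flipNext_out ho.next.next, T.next3]
  · rw [T.flipNext_e, T.flipNext_b, T.flipNext_c]
  · rw [T.flipNext_a, T.flipNext_e', T.flipNext_d]
  · rw [T.flipNext_b, T.flipNext_c, T.flipNext_e]
  · rw [T.flipNext_e', T.flipNext_d, T.flipNext_a]
  · rw [T.flipNext_c, T.flipNext_e, T.flipNext_b]
  · rw [T.flipNext_d, T.flipNext_a, T.flipNext_e']

theorem flipVec_e (e : H) : T.flipVec e e = T.vec (T.prev (T.opp e)) + T.vec (T.next e) := by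
  simp [flipVec]
theorem flipVec_e' (e : H) :
    T.flipVec e (T.opp e) = -(T.vec (T.prev (T.opp e)) + T.vec (T.next e)) := by
  simp [flipVec, T.opp_ne e]
theorem flipVec_ne {e h : H} (h1 : h ≠ e) (h2 : h ≠ T.opp e) : T.flipVec e h = T.vec h := by
  simp [flipVec, h1, h2]

theorem cr_opp_sum {a b c d : ℂ} (h : a + b + c + d = 0) : cr (d + a) b = cr b c := by
  have h1 : d + a = -(b + c) := by linear_combination h
  rw [h1]; unfold cr; simp; ring

/-- The flip of the edge `e`. -/
noncomputable def flip (e : H) (he : T.Flippable e) : Tri H where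
  next := ⟨T.flipNext e, fun h => T.flipNext e (T.flipNext e h), T.flipNext3 e, T.flipNext3 e⟩
  opp := T.opp
  vec := T.flipVec e
  next3 := T.flipNext3 e
  opp2 := T.opp2
  vec_opp := by
    intro h
    by_cases h1 : h = e
    · rw [h1, T.flipVec_e', T.flipVec_e]
    by_cases h2 : h = T.opp e
    · rw [h2, T.opp2, T.flipVec_e', T.flipVec_e]; ring
    rw [T.flipVec_ne h1 h2, T.flipVec_ne, T.vec_opp]
    · intro h3; exact h2 (by rw [← h3, T.opp2])
    · intro h3; exact h1 (T.opp.injective h3)
  closed := by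
    intro h
    have hs := T.six e
    have v1 := T.vec_prev e
    have v2 := T.vec_prev (T.opp e)
    have v3 := T.vec_opp e
    change T.flipVec e h + T.flipVec e (T.flipNext e h) + T.flipVec e (T.flipNext e (T.flipNext e h)) = 0
    have key : T.vec (T.prev (T.opp e)) + T.vec (T.next e) + T.vec (T.prev e) + T.vec (T.next (T.opp e)) = 0 := by
      rw [v1, v2, v3]; ring
    rcases T.cases_six e h with ho | rfl | rfl | rfl | rfl | rfl | rfl
    · rw [T.flipNext_out ho, T.flipNext_out ho.next, T.flipVec_ne ho.1 ho.2.2.2.1,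
        T.flipVec_ne ho.next.1 ho.next.2.2.2.1, T.flipVec_ne ho.next.next.1 ho.next.next.2.2.2.1, T.closed]
    · rw [T.flipNext_e, T.flipNext_b, T.flipVec_e, T.flipVec_ne hs.1 (Ne.symm hs.2.2.2.2.2.1),
        T.flipVec_ne hs.2.2.2.2.2.2.1 hs.2.2.2.2.2.2.2.2.2.1]
      exact key
    · rw [T.flipNext_a, T.flipNext_e', T.flipVec_e', T.flipVec_ne hs.2.1 (Ne.symm hs.2.2.2.2.1),
        T.flipVec_ne hs.2.2.2.2.2.2.2.2.2.2.1 hs.2.2.2.2.2.2.2.2.2.2.2.2.2.1]
      ring
    · rw [T.flipNext_b, T.flipNext_c, T.flipVec_e, T.flipVec_ne hs.1 (Ne.symm hs.2.2.2.2.2.1),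
        T.flipVec_ne hs.2.2.2.2.2.2.1 hs.2.2.2.2.2.2.2.2.2.1]
      linear_combination key
    · rw [T.flipNext_e', T.flipNext_d, T.flipVec_e', T.flipVec_ne hs.2.1 (Ne.symm hs.2.2.2.2.1),
        T.flipVec_ne hs.2.2.2.2.2.2.2.2.2.2.1 hs.2.2.2.2.2.2.2.2.2.2.2.2.2.1]
      ring
    · rw [T.flipNext_c, T.flipNext_e, T.flipVec_e, T.flipVec_ne hs.1 (Ne.symm hs.2.2.2.2.2.1),
        T.flipVec_ne hs.2.2.2.2.2.2.1 hs.2.2.2.2.2.2.2.2.2.1]
      linear_combination key
    · rw [T.flipNext_d, T.flipNext_a, T.flipVec_e', T.flipVec_ne hs.2.1 (Ne.symm hs.2.2.2.2.1),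
        T.flipVec_ne hs.2.2.2.2.2.2.2.2.2.2.1 hs.2.2.2.2.2.2.2.2.2.2.2.2.2.1]
      ring
  pos := by
    intro h
    have hs := T.six e
    have v1 := T.vec_prev e
    have v2 := T.vec_prev (T.opp e)
    have v3 := T.vec_opp e
    change 0 < cr (T.flipVec e h) (T.flipVec e (T.flipNext e h))
    have key : T.vec (T.prev (T.opp e)) + T.vec (T.next e) + T.vec (T.prev e) + T.vec (T.next (T.opp e)) = 0 := by
      rw [v1, v2, v3]; ring
    obtain ⟨f1, f2⟩ := he
    rcases T.cases_six e h with ho | rfl | rfl | rfl | rfl | rfl | rfl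
    · rw [T.flipNext_out ho, T.flipVec_ne ho.1 ho.2.2.2.1,
        T.flipVec_ne ho.next.1 ho.next.2.2.2.1]
      exact T.pos h
    · rw [T.flipNext_e, T.flipVec_e, T.flipVec_ne hs.1 (Ne.symm hs.2.2.2.2.2.1)]
      rw [cr_opp_sum (a := T.vec (T.next h)) (d := T.vec (T.prev (T.opp h))) (b := T.vec (T.prev h))
        (c := T.vec (T.next (T.opp h))) (by linear_combination key)]
      exact f1
    · rw [T.flipNext_a, T.flipVec_e', T.flipVec_ne hs.2.1 (Ne.symm hs.2.2.2.2.1)]
      have : cr (T.vec (T.next e)) (-(T.vec (T.prev (T.opp e)) + T.vec (T.next e)))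
          = cr (T.vec (T.prev (T.opp e))) (T.vec (T.next e)) := by
        unfold cr; simp; ring
      rw [this]; exact f2
    · rw [T.flipNext_b, T.flipVec_ne hs.1 (Ne.symm hs.2.2.2.2.2.1),
        T.flipVec_ne hs.2.2.2.2.2.2.1 hs.2.2.2.2.2.2.2.2.2.1]
      exact f1
    · rw [T.flipNext_e', T.flipVec_e',
        T.flipVec_ne hs.2.2.2.2.2.2.2.2.2.2.1 hs.2.2.2.2.2.2.2.2.2.2.2.2.2.1]
      have : cr (-(T.vec (T.prev (T.opp e)) + T.vec (T.next e))) (T.vec (T.prev (T.opp e)))
          = cr (T.vec (T.prev (T.opp e))) (T.vec (T.next e)) := by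
        unfold cr; simp; ring
      rw [this]; exact f2
    · rw [T.flipNext_c, T.flipVec_e, T.flipVec_ne hs.2.2.2.2.2.2.1 hs.2.2.2.2.2.2.2.2.2.1]
      have h1 : T.vec (T.prev (T.opp e)) + T.vec (T.next e)
          = -(T.vec (T.prev e) + T.vec (T.next (T.opp e))) := by linear_combination key
      rw [h1]
      have : cr (T.vec (T.next (T.opp e))) (-(T.vec (T.prev e) + T.vec (T.next (T.opp e))))
          = cr (T.vec (T.prev e)) (T.vec (T.next (T.opp e))) := by
        unfold cr; simp; ring
      rw [this]; exact f1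
    · rw [T.flipNext_d, T.flipVec_ne hs.2.1 (Ne.symm hs.2.2.2.2.1),
        T.flipVec_ne hs.2.2.2.2.2.2.2.2.2.2.1 hs.2.2.2.2.2.2.2.2.2.2.2.2.2.1]
      exact f2

end Tri

/-- `T'` is obtained from `T` by successive flips of edges outside `E`. -/
inductive Reach {H : Type} (E : Set H) (T : Tri H) : Tri H → Prop
  | refl : Reach E T T
  | flip {T' : Tri H} (e : H) (he : T'.Flippable e) (hE : e ∉ E) (hE' : T'.opp e ∉ E) :
      Reach E T T' → Reach E T (T'.flip e he)

end Pool.Agent.Helper79.G
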