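import Pool.Agent.Helper79.G.Sdl
import Pool.Agent.Helper60.G1.Insert

/-!
# G1 with charts: `InsertionX` from helper60's step and germ
-/

set_option autoImplicit false

open Pool.Agent.Helper87.LS

namespace Pool.Agent.Helper79.G

theorem insertionX (H X : Type) : InsertionX H X := by
  classical
  intro c E hE h v l hs hl
  -- all developed vertices
  set V : Finset ℂ := insert 0 (((l.map (fun s => s.2)).toFinset) ∪
    ((l.map (fun s => s.2 + c.T.vec s.1)).toFinset)) with hVdef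
  have hV0 : (0 : ℂ) ∈ V := by simp [hVdef]
  have hV : ∀ s ∈ l, s.2 ∈ V ∧ s.2 + c.T.vec s.1 ∈ V := by
    intro s hs'
    constructor
    · rw [hVdef]
      refine Finset.mem_insert_of_mem (Finset.mem_union_left _ ?_)
      rw [List.mem_toFinset]
      exact List.mem_map.2 ⟨s, hs', rfl⟩
    · rw [hVdef]
      refine Finset.mem_insert_of_mem (Finset.mem_union_right _ ?_)
      rw [List.mem_toFinset]
      exact List.mem_map.2 ⟨s, hs', rfl⟩
  clear_value V
  have main : ∀ n : ℕ, ∀ (c0 : CT H X) (h0 : H) (l : List (H × ℂ)), CReach E c c0 →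
      c0.T.Sad h0 v l → (∀ s ∈ l, s.1 ∉ E) →
      (∀ s ∈ l, s.2 ∈ V ∧ s.2 + c0.T.vec s.1 ∈ V) →
      (∃ ε : ℝ, 0 < ε ∧ ∀ τ : ℝ, 0 < τ → τ < ε → c0.C.φ h0 (τ * v) = c.C.φ h (τ * v)) →
      Pool.Agent.Helper60.G1.measH c0.T V v l ≤ n →
      ∃ c' g, CReach E c c' ∧ g ∉ E ∧ c'.T.vec g = v ∧
        ∃ ε : ℝ, 0 < ε ∧ ∀ τ : ℝ, 0 < τ → τ < ε → c'.C.φ g (τ * v) = c.C.φ h (τ * v) := by
    intro n
    induction n with
    | zero =>
      intro c0 h0 l hR hs hl hV hg hn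
      obtain ⟨e, he, heE, heE', h1 | ⟨h1, l1, c1, c2, c3, c4, c5⟩⟩ :=
        Pool.Agent.Helper60.G1.step (E := E) (by rw [hR.opp_eq]; exact hE) V hs hl hV0 hV
      · obtain ⟨ε, hε, hg⟩ := hg
        obtain ⟨ε', hε', hg'⟩ := Pool.Agent.Helper60.G1.germ c0.C (e := e) (h1 := c0.T.opp e)
          hs.1 (Or.inr ⟨h1.1, Or.inr rfl⟩)
        refine ⟨c0.flip e he, c0.T.opp e, CReach.flip e he heE heE' hR, heE', h1.2,
          min ε ε', lt_min hε hε', ?_⟩
        intro τ h0 h1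
        rw [← hg τ h0 (lt_of_lt_of_le h1 (min_le_left _ _))]
        exact hg' τ ⟨h0, lt_of_lt_of_le h1 (min_le_right _ _)⟩
      · omega
    | succ n ih =>
      intro c0 h0 l hR hs hl hV hg hn
      obtain ⟨e, he, heE, heE', h1 | ⟨h1, l1, c1, c2, c3, c4, c5⟩⟩ :=
        Pool.Agent.Helper60.G1.step (E := E) (by rw [hR.opp_eq]; exact hE) V hs hl hV0 hV
      · obtain ⟨ε, hε, hg⟩ := hg
        obtain ⟨ε', hε', hg'⟩ := Pool.Agent.Helper60.G1.germ c0.C (e := e) (h1 := c0.T.opp e)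
          hs.1 (Or.inr ⟨h1.1, Or.inr rfl⟩)
        refine ⟨c0.flip e he, c0.T.opp e, CReach.flip e he heE heE' hR, heE', h1.2,
          min ε ε', lt_min hε hε', ?_⟩
        intro τ h0 h1
        rw [← hg τ h0 (lt_of_lt_of_le h1 (min_le_left _ _))]
        exact hg' τ ⟨h0, lt_of_lt_of_le h1 (min_le_right _ _)⟩
      · refine ih (c0.flip e he) h1 l1 (CReach.flip e he heE heE' hR) c2 c3 c4 ?_ (by
          change Pool.Agent.Helper60.G1.measH (c0.T.flip e he) V v l1 ≤ n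
          omega)
        obtain ⟨ε, hε, hg⟩ := hg
        obtain ⟨ε', hε', hg'⟩ := Pool.Agent.Helper60.G1.germ c0.C (e := e) (h1 := h1) hs.1 c1
        refine ⟨min ε ε', lt_min hε hε', ?_⟩
        intro τ h0 h1
        rw [← hg τ h0 (lt_of_lt_of_le h1 (min_le_left _ _))]
        exact hg' τ ⟨h0, lt_of_lt_of_le h1 (min_le_right _ _)⟩
  exact main _ c h l CReach.refl hs hl hV ⟨1, one_pos, fun _ _ _ => rfl⟩ le_rfl

end Pool.Agent.Helper79.G
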