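import Pool.Agent.Helper79.G.Cross
import Pool.Agent.Helper72.TF.Core

/-!
# TF-G-ACT: linear maps and flips, runs

`act T A hA` (Helper72/TF/Core) has the vectors `A (T.vec h)`; `cr (A z) (A w) = cr z w`
(`Pool.Agent.Helper87.LS.cr_map`, `hA`). Flips, reachability and runs commute with `A`; note that
`act T A hA` and its flips are equal as structures (`rfl`-like proofs: `flipNext` is the same function of
`next`, `opp`; `flipVec` is additive).
-/

set_option autoImplicit false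

open Pool.Agent.Helper87.LS Pool.Agent.Helper72.TF

namespace Pool.Agent.Helper79.G

variable {H : Type}

theorem cr_act {A : ℂ ≃ₗ[ℝ] ℂ} (hA : LinearMap.det (A : ℂ →ₗ[ℝ] ℂ) = 1) (z w : ℂ) :
    cr (A z) (A w) = cr z w := by
  rw [cr_map, hA, one_mul]

theorem flippable_act {T : Tri H} {A : ℂ ≃ₗ[ℝ] ℂ} (hA : LinearMap.det (A : ℂ →ₗ[ℝ] ℂ) = 1) (e : H) :
    (act T A hA).Flippable e ↔ T.Flippable e := by
  have h : ∀ x y : H, cr ((act T A hA).vec x) ((act T A hA).vec y) = cr (T.vec x) (T.vec y) :=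
    fun x y => cr_act hA _ _
  unfold Tri.Flippable
  rw [h, h]
  exact Iff.rfl

theorem tri_ext4 {T₁ T₂ : Tri H} (h1 : T₁.next = T₂.next) (h2 : T₁.opp = T₂.opp)
    (h3 : T₁.vec = T₂.vec) : T₁ = T₂ := by
  cases T₁
  cases T₂
  simp only at h1 h2 h3
  subst h1 h2 h3
  rfl

theorem flip_act {T : Tri H} {A : ℂ ≃ₗ[ℝ] ℂ} (hA : LinearMap.det (A : ℂ →ₗ[ℝ] ℂ) = 1) {e : H}
    (he : T.Flippable e) (he' : (act T A hA).Flippable e) :
    (act T A hA).flip e he' = act (T.flip e he) A hA := by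
  apply tri_ext4
  · rfl
  · rfl
  · funext h
    change (act T A hA).flipVec e h = A (T.flipVec e h)
    by_cases h1 : h = e
    · subst h1
      rw [Tri.flipVec_e, Tri.flipVec_e, map_add]
      rfl
    by_cases h2 : h = T.opp e
    · subst h2
      rw [Tri.flipVec_e', map_neg, map_add]
      exact (act T A hA).flipVec_e' e
    rw [Tri.flipVec_ne T h1 h2]
    exact (act T A hA).flipVec_ne h1 h2

theorem reach_act {T : Tri H} {E : Set H} {A : ℂ ≃ₗ[ℝ] ℂ}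
    (hA : LinearMap.det (A : ℂ →ₗ[ℝ] ℂ) = 1) {T₂ : Tri H} (h : Reach E (act T A hA) T₂) :
    ∃ T₁, Reach E T T₁ ∧ T₂ = act T₁ A hA := by
  induction h with
  | refl => exact ⟨T, Reach.refl, rfl⟩
  | flip e he hE hE' _ ih =>
    obtain ⟨T₁, h1, rfl⟩ := ih
    have he1 := (flippable_act hA e).1 he
    exact ⟨T₁.flip e he1, Reach.flip e he1 hE hE' h1, flip_act hA he1 he⟩

theorem reach_act' {T T₁ : Tri H} {E : Set H} {A : ℂ ≃ₗ[ℝ] ℂ}
    (hA : LinearMap.det (A : ℂ →ₗ[ℝ] ℂ) = 1) (h : Reach E T T₁) :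
    Reach E (act T A hA) (act T₁ A hA) := by
  induction h with
  | refl => exact Reach.refl
  | flip e he hE hE' _ ih =>
    rw [← flip_act hA he ((flippable_act hA e).2 he)]
    exact Reach.flip e _ hE hE' ih

theorem crs_act {T : Tri H} {A : ℂ ≃ₗ[ℝ] ℂ} (hA : LinearMap.det (A : ℂ →ₗ[ℝ] ℂ) = 1) {v : ℂ}
    {s : H × ℂ} : (act T A hA).Crs (A v) (s.1, A s.2) ↔ T.Crs v s := by
  unfold Tri.Crs
  change (0 < cr (A v) (A s.2) ∧ cr (A v) (A s.2 + A (T.vec s.1)) < 0) ↔ _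
  rw [← map_add, cr_act hA, cr_act hA]

theorem apex_act {T : Tri H} {A : ℂ ≃ₗ[ℝ] ℂ} (hA : LinearMap.det (A : ℂ →ₗ[ℝ] ℂ) = 1)
    {s : H × ℂ} : (act T A hA).apex (s.1, A s.2) = A (T.apex s) := by
  unfold Tri.apex
  change A s.2 + A (T.vec s.1) + A (T.vec (T.next s.1)) = _
  rw [map_add, map_add]

theorem runs_act {T : Tri H} {A : ℂ ≃ₗ[ℝ] ℂ} (hA : LinearMap.det (A : ℂ →ₗ[ℝ] ℂ) = 1) {v : ℂ}
    {s t : H × ℂ} (h : T.Runs v s t) :
    (act T A hA).Runs (A v) (s.1, A s.2) (t.1, A t.2) := by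
  induction h with
  | refl => exact Tri.Runs.refl
  | @up t _ hp ih =>
    have h1 : (act T A hA).up (t.1, A t.2) = ((T.up t).1, A (T.up t).2) :=
      Prod.ext rfl (apex_act (s := t) hA)
    rw [← h1]
    refine Tri.Runs.up ih ?_
    rw [apex_act, cr_act hA]
    exact hp
  | @dn t _ hp ih =>
    have h1 : (act T A hA).dn (t.1, A t.2) = ((T.dn t).1, A (T.dn t).2) := rfl
    rw [← h1]
    refine Tri.Runs.dn ih ?_
    rw [apex_act, cr_act hA]
    exact hp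

theorem tin_act {T : Tri H} {A : ℂ ≃ₗ[ℝ] ℂ} (hA : LinearMap.det (A : ℂ →ₗ[ℝ] ℂ) = 1) {v : ℂ}
    {s : H × ℂ} : (act T A hA).tin (A v) (s.1, A s.2) = T.tin v s := by
  unfold Tri.tin
  change cr (A s.2) (A (T.vec s.1)) / cr (A v) (A (T.vec s.1)) = _
  rw [cr_act hA, cr_act hA]

end Pool.Agent.Helper79.G
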