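import Pool.Agent.Helper79.G.Act

/-!
# TF-G-AREA: flips preserve the area and connectedness; unflipped edges

* `area_flip`: with `a + b + c + d = 0` (sides of the quadrilateral)
  `cr a b + cr c d = cr d a + cr b c`; the sum over all darts of `cr (vec h) (vec (next h))` changes only in
  the six labels (each of the two triangles contributes its value three times).
* `conn_flip`: a set closed under the new `next` and `opp` is closed under the old one: it contains
  with one of the six labels all of them (`e ∈ s → opp e ∈ s`, orbits `e, b, c` and `opp e, d, a`).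
* `exists_long`: `6 area = ∑ cr (A vec h) (A vec (next h)) ≤ card H * L^2` if all edges of `A T'` are
  `≤ L` (`abs_cr_le`), for every reachable `T'` (`area_flip`).
* `bdry_edge`: if every edge of `E` had another side of its triangle in `E` then (triangle inequality,
  `2 l < L`, edges outside `E` are longer than `L`) all three sides are in `E`, so `E` is closed under `next`
  and `opp` and equals `univ` by connectedness.
-/

set_option autoImplicit false

open Pool.Agent.Helper87.LS Pool.Agent.Helper72.TF

namespace Pool.Agent.Helper79.G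

variable {H : Type}

theorem area_flip [Fintype H] (T : Tri H) {e : H} (he : T.Flippable e) :
    (T.flip e he).area = T.area := by
  classical
  have hs := T.six e
  set f : H → ℝ := fun h => cr (T.vec h) (T.vec (T.next h)) with hf
  set g : H → ℝ := fun h => cr (T.flipVec e h) (T.flipVec e (T.flipNext e h)) with hg
  have harea : (T.flip e he).area = (∑ h, g h) / 6 := rfl
  have harea' : T.area = (∑ h, f h) / 6 := rfl
  have hout : ∀ h, T.Out e h → g h - f h = 0 := by
    intro h ho
    simp only [hf, hg]
    rw [T.flipNext_out ho, T.flipVec_ne ho.1 ho.2.2.2.1, T.flipVec_ne ho.next.1 ho.next.2.2.2.1,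
      sub_self]
  obtain ⟨s1, s2, s3, s4, s5, s6, s7, s8, s9, s10, s11, s12, s13, s14, s15⟩ := hs
  have v1 := T.vec_prev e
  have v2 := T.vec_prev (T.opp e)
  have v3 := T.vec_opp e
  have key : ∑ h, (g h - f h) = 0 := by
    have hsub : ∑ h, (g h - f h) =
        ∑ h ∈ ({e, T.next e, T.prev e, T.opp e, T.next (T.opp e), T.prev (T.opp e)} : Finset H),
          (g h - f h) := by
      symm
      refine Finset.sum_subset (Finset.subset_univ _) ?_
      intro h _ hh
      simp only [Finset.mem_insert, Finset.mem_singleton, not_or] at hh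
      exact hout h hh
    rw [hsub, Finset.sum_insert, Finset.sum_insert, Finset.sum_insert, Finset.sum_insert,
      Finset.sum_insert, Finset.sum_singleton]
    · have n1 : T.next (T.next e) = T.prev e := rfl
      have n2 : T.next (T.next (T.opp e)) = T.prev (T.opp e) := rfl
      simp only [hf, hg]
      rw [T.flipNext_e, T.flipNext_a, T.flipNext_b, T.flipNext_e', T.flipNext_c, T.flipNext_d,
        T.flipVec_e, T.flipVec_e', T.flipVec_ne s1 (Ne.symm s6), T.flipVec_ne s2 (Ne.symm s5),
        T.flipVec_ne s7 s10, T.flipVec_ne s11 s14, n1, n2, T.next_prev, T.next_prev, v1, v2, v3]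
      unfold cr
      simp only [Complex.add_re, Complex.add_im, Complex.neg_re, Complex.neg_im]
      ring
    · simp only [Finset.mem_singleton]
      exact fun h => s15 h.symm
    · simp only [Finset.mem_insert, Finset.mem_singleton, not_or]
      exact ⟨fun h => s10 h.symm, fun h => s14 h.symm⟩
    · simp only [Finset.mem_insert, Finset.mem_singleton, not_or]
      exact ⟨fun h => s6 h.symm, fun h => s9 h.symm, fun h => s13 h.symm⟩
    · simp only [Finset.mem_insert, Finset.mem_singleton, not_or]
      exact ⟨fun h => s3 h.symm, fun h => s5 h.symm, fun h => s8 h.symm, fun h => s12 h.symm⟩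
    · simp only [Finset.mem_insert, Finset.mem_singleton, not_or]
      exact ⟨fun h => s2 h.symm, fun h => s1 h.symm, fun h => s4 h.symm, fun h => s7 h.symm,
        fun h => s11 h.symm⟩
  rw [harea, harea']
  rw [Finset.sum_sub_distrib] at key
  linarith

theorem area_reach [Fintype H] {T T' : Tri H} {E : Set H} (h : Reach E T T') : T'.area = T.area := by
  induction h with
  | refl => rfl
  | flip e he _ _ _ ih => rw [area_flip, ih]

theorem area_pos [Fintype H] [Nonempty H] (T : Tri H) : 0 < T.area := by
  unfold Tri.area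
  have : 0 < ∑ h, cr (T.vec h) (T.vec (T.next h)) :=
    Finset.sum_pos (fun h _ => T.pos h) Finset.univ_nonempty
  linarith

theorem conn_flip {T : Tri H} {e : H} (he : T.Flippable e) (hc : T.Conn) : (T.flip e he).Conn := by
  intro s hne hcl
  have hn : ∀ h ∈ s, T.flipNext e h ∈ s := fun h hh => (hcl h hh).1
  have ho : ∀ h ∈ s, T.opp h ∈ s := fun h hh => (hcl h hh).2
  have hall : e ∈ s → T.next e ∈ s ∧ T.prev e ∈ s ∧ T.opp e ∈ s ∧ T.next (T.opp e) ∈ s ∧
      T.prev (T.opp e) ∈ s := by
    intro h
    have hb : T.prev e ∈ s := by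
      have := hn _ h
      rwa [T.flipNext_e] at this
    have hc' : T.next (T.opp e) ∈ s := by
      have := hn _ hb
      rwa [T.flipNext_b] at this
    have he' : T.opp e ∈ s := ho _ h
    have hd : T.prev (T.opp e) ∈ s := by
      have := hn _ he'
      rwa [T.flipNext_e'] at this
    have ha : T.next e ∈ s := by
      have := hn _ hd
      rwa [T.flipNext_d] at this
    exact ⟨ha, hb, he', hc', hd⟩
  have hopp : T.opp e ∈ s → e ∈ s := by
    intro h
    have := ho _ h
    rwa [T.opp2] at this
  have ha : T.next e ∈ s → e ∈ s := by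
    intro h
    have := hn _ h
    rw [T.flipNext_a] at this
    exact hopp this
  have hcc : T.next (T.opp e) ∈ s → e ∈ s := by
    intro h
    have := hn _ h
    rwa [T.flipNext_c] at this
  have hb : T.prev e ∈ s → e ∈ s := by
    intro h
    have := hn _ h
    rw [T.flipNext_b] at this
    exact hcc this
  have hd : T.prev (T.opp e) ∈ s → e ∈ s := by
    intro h
    have := hn _ h
    rw [T.flipNext_d] at this
    exact ha this
  refine hc s hne fun h hh => ⟨?_, ho h hh⟩
  rcases T.cases_six e h with hout | rfl | rfl | rfl | rfl | rfl | rfl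
  · have := hn _ hh
    rwa [T.flipNext_out hout] at this
  · exact (hall hh).1
  · exact (hall (ha hh)).2.1
  · rw [T.next_prev]
    exact hb hh
  · exact (hall (hopp hh)).2.2.2.1
  · exact (hall (hcc hh)).2.2.2.2
  · rw [T.next_prev]
    exact (hall (hd hh)).2.2.1

theorem conn_reach {T T' : Tri H} {E : Set H} (h : Reach E T T') (hc : T.Conn) : T'.Conn := by
  induction h with
  | refl => exact hc
  | flip e he _ _ _ ih => exact conn_flip he ih

theorem reach_vec {T T' : Tri H} {E : Set H} (h : Reach E T T') {g : H} (hg : g ∈ E) :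
    T'.vec g = T.vec g := by
  induction h with
  | refl => rfl
  | flip e he hE hE' _ ih =>
    rw [← ih]
    exact Tri.flipVec_ne _ (fun h => hE (h ▸ hg)) (fun h => hE' (h ▸ hg))

theorem reach_opp {T T' : Tri H} {E : Set H} (h : Reach E T T') : T'.opp = T.opp := by
  induction h with
  | refl => rfl
  | flip e he hE hE' _ ih => exact ih

theorem exists_long [Fintype H] [Nonempty H] {T T' : Tri H} (h : Reach ∅ T T') {A : ℂ ≃ₗ[ℝ] ℂ}
    (hA : LinearMap.det (A : ℂ →ₗ[ℝ] ℂ) = 1) {L : ℝ} (hL : 0 ≤ L)
    (hLa : Fintype.card H * L ^ 2 ≤ T.area) : ∃ g, L < ‖A (T'.vec g)‖ := by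
  by_contra hcon
  push Not at hcon
  have h1 : ∑ h, cr (T'.vec h) (T'.vec (T'.next h)) ≤ Fintype.card H * L ^ 2 := by
    have h2 : ∀ h ∈ (Finset.univ : Finset H), cr (T'.vec h) (T'.vec (T'.next h)) ≤ L ^ 2 := by
      intro h _
      rw [← cr_act hA]
      refine (le_abs_self _).trans ((abs_cr_le _ _).trans ?_)
      rw [pow_two]
      exact mul_le_mul (hcon _) (hcon _) (norm_nonneg _) hL
    have h3 := Finset.sum_le_card_nsmul _ _ _ h2
    rwa [nsmul_eq_mul, Finset.card_univ] at h3
  have h4 : T'.area = T.area := area_reach h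
  have h5 : 0 < T.area := area_pos T
  have h6 : T'.area = (∑ h, cr (T'.vec h) (T'.vec (T'.next h))) / 6 := rfl
  rw [h4] at h6
  linarith

theorem bdry_edge {T : Tri H} (hc : T.Conn) {E : Set H} (hE : ∀ g, g ∈ E → T.opp g ∈ E)
    (hne : E.Nonempty) (hnu : E ≠ Set.univ) {A : ℂ ≃ₗ[ℝ] ℂ} {l L : ℝ} (hl : 2 * l < L)
    (h1 : ∀ g ∈ E, ‖A (T.vec g)‖ ≤ l) (h2 : ∀ g, g ∉ E → L < ‖A (T.vec g)‖) :
    ∃ g ∈ E, T.next g ∉ E ∧ T.prev g ∉ E := by
  by_contra hcon
  push Not at hcon
  apply hnu
  refine hc E hne fun g hg => ⟨?_, hE g hg⟩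
  by_contra hn
  have hp := hcon g hg hn
  have h3 := h2 _ hn
  have h4 : A (T.vec (T.next g)) = -(A (T.vec g) + A (T.vec (T.prev g))) := by
    rw [← map_add, ← map_neg]
    congr 1
    rw [T.vec_prev]
    ring
  rw [h4, norm_neg] at h3
  have h5 := norm_add_le (A (T.vec g)) (A (T.vec (T.prev g)))
  have h6 := h1 _ hg
  have h7 := h1 _ hp
  linarith

end Pool.Agent.Helper79.G
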