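import Pool.Agent.Helper87.LS.Geo

/-!
# MP_e98778_an (full): triangulated translation surfaces by darts

`Tri H`: a triangulation with dart (oriented edge) set `H`. `next` turns around a triangle
(counterclockwise), `opp` reverses a dart, `vec h` is the vector of the dart `h`.
A dart `h` also stands for the corner (vertex of a triangle) at its starting point, and for the
triangle on its left. Points of the closed triangle of `h` are coded by `(h, z)`, where `z` is the
position relative to the starting point of `h`; the three functions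

`a0 h z = cr (vec h) z`, `a1 h z = cr (vec (next h)) (z - vec h)`,
`a2 h z = cr (vec (next (next h))) z`

are the barycentric coordinates (times twice the area).
-/

set_option autoImplicit false

open Pool.Agent.Helper87.LS

namespace Pool.Agent.Helper79.G

/-- A triangulated translation surface with dart set `H`. -/
structure Tri (H : Type) where
  next : Equiv.Perm H
  opp : Equiv.Perm H
  vec : H → ℂ
  next3 : ∀ h, next (next (next h)) = h
  opp2 : ∀ h, opp (opp h) = h
  vec_opp : ∀ h, vec (opp h) = -vec h
  closed : ∀ h, vec h + vec (next h) + vec (next (next h)) = 0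
  pos : ∀ h, 0 < cr (vec h) (vec (next h))

namespace Tri

variable {H : Type} (T : Tri H)

/-- The previous dart of the triangle. -/
def prev (h : H) : H := T.next (T.next h)

/-- Barycentric coordinates of the point `z` of the triangle of `h` (relative to the start of `h`). -/
def a0 (h : H) (z : ℂ) : ℝ := cr (T.vec h) z
def a1 (h : H) (z : ℂ) : ℝ := cr (T.vec (T.next h)) (z - T.vec h)
def a2 (h : H) (z : ℂ) : ℝ := cr (T.vec (T.prev h)) z

/-- Interior point of the triangle. -/
def Int (h : H) (z : ℂ) : Prop := 0 < T.a0 h z ∧ 0 < T.a1 h z ∧ 0 < T.a2 h z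

/-- Interior point of the edge `h`. -/
def Edg (h : H) (z : ℂ) : Prop := T.a0 h z = 0 ∧ 0 < T.a1 h z ∧ 0 < T.a2 h z

/-- Point of the closed triangle, not a vertex. -/
def Reg (h : H) (z : ℂ) : Prop :=
  0 ≤ T.a0 h z ∧ 0 ≤ T.a1 h z ∧ 0 ≤ T.a2 h z ∧
    0 < T.a0 h z + T.a1 h z ∧ 0 < T.a1 h z + T.a2 h z ∧ 0 < T.a2 h z + T.a0 h z

/-- The underlying graph of darts is connected. -/
def Conn : Prop := ∀ s : Set H, s.Nonempty → (∀ h ∈ s, T.next h ∈ s ∧ T.opp h ∈ s) → s = Set.univ

/-- The area. -/
noncomputable def area [Fintype H] : ℝ := (∑ h, cr (T.vec h) (T.vec (T.next h))) / 6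

/-- A set of darts which is a set of (unoriented) edges. -/
def IsEdgeSet (E : Set H) : Prop := ∀ h, h ∈ E ↔ T.opp h ∈ E

/-- The edge `e` can be flipped: the two adjacent triangles form a strictly convex quadrilateral. -/
def Flippable (e : H) : Prop :=
  0 < cr (T.vec (T.prev e)) (T.vec (T.next (T.opp e))) ∧
    0 < cr (T.vec (T.prev (T.opp e))) (T.vec (T.next e))

end Tri

end Pool.Agent.Helper79.G
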