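import Pool.Agent.Helper79.G.CrossDn

/-!
# TF-G-BOUND: a segment of bounded length crosses a bounded number of edges

`T` finite. There are `m0 > 0` (minimum of `‖vec h‖`), `M0` (maximum), `c0 > 0` such that for every
triangle and two points on two different sides at distances `r, r'` from the common corner the distance
of the two points is `≥ c0 max r r'` (the sine of the angle is `cr / (|.| |.|) ≥` a positive minimum).
(1) An `up` step followed by a `dn` step (or conversely): crossing points `p0, p1, p2` on the edges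
 `[U0, D0]`, `[U1, D0]`, `[U1, D1]`: `|p0 p1| ≥ c0 |p1 - D0|`, `|p1 p2| ≥ c0 |p1 - U1|`, so
 `|p0 p2| = |p0 p1| + |p1 p2| ≥ c0 |D0 - U1| ≥ c0 m0`.
(2) A block of consecutive `up` steps rotates about the fixed lower corner `D`: unit vectors
 `w_i = (U_i - D) / |U_i - D|` in the open half plane `cr v (·) > 0`, moving clockwise; with `v` of length one
 and `x_i = ` the component of `w_i` along `v`: `x_{i+1} - x_i ≥ |w_{i+1} - w_i|^2 / 2 ≥ κ^2 / 2`,
 `κ` = minimum of `cr / (|.| |.|)` over the corners (for unit vectors `a, b` of the upper half plane with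
 `Re a ≤ Re b`: `1 - a·b ≤ Re b - Re a`, see below), and `-1 ≤ x_i ≤ 1`; so a block has at most
 `4 / κ^2 + 1` steps. The same for `dn` blocks. [`(1 + Ra)(1 - Rb) ≤ Ia Ib` if `Ra ≤ Rb`: square both sides.]
(3) Hence `N` steps contain at least `N / (4/κ^2 + 2) - 1` changes `up/dn`; every second change gives disjoint
 pieces of length `≥ c0 m0`. For given `R` take `N` large.
-/

set_option autoImplicit false

open Pool.Agent.Helper87.LS

namespace Pool.Agent.Helper79.G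

variable {H : Type}

/-- Runs with the number of steps. -/
inductive RunsN (T : Tri H) (v : ℂ) (s : H × ℂ) : ℕ → H × ℂ → Prop
  | refl : RunsN T v s 0 s
  | up {n : ℕ} {t : H × ℂ} : RunsN T v s n t → 0 < cr v (T.apex t) → RunsN T v s (n + 1) (T.up t)
  | dn {n : ℕ} {t : H × ℂ} : RunsN T v s n t → cr v (T.apex t) < 0 → RunsN T v s (n + 1) (T.dn t)

/-! ### Plane geometry -/

theorem abs_cr_le53 (a b : ℂ) : |cr a b| ≤ ‖a‖ * ‖b‖ := by
  have h1 : cr a b = ((starRingEnd ℂ) a * b).im := by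
    unfold cr; simp; ring
  rw [h1]
  refine (Complex.abs_im_le_norm _).trans ?_
  rw [norm_mul, Complex.norm_conj]

/-- Two points on the two sides of a corner at `0`. -/
theorem corner53 {a b : ℂ} {κ l m : ℝ} (ha : a ≠ 0) (hm : 0 ≤ m)
    (hk : κ * (‖a‖ * ‖b‖) ≤ |cr a b|) : κ * ‖(m : ℂ) * b‖ ≤ ‖(m : ℂ) * b - (l : ℂ) * a‖ := by
  have h1 : cr a ((m : ℂ) * b - (l : ℂ) * a) = m * cr a b := by
    rw [cr_sub_right, cr_mul_right, cr_mul_right, cr_self]; ring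
  have h2 := abs_cr_le53 a ((m : ℂ) * b - (l : ℂ) * a)
  rw [h1, abs_mul, abs_of_nonneg hm] at h2
  have h3 : ‖(m : ℂ) * b‖ = m * ‖b‖ := by
    rw [norm_mul, Complex.norm_real, Real.norm_of_nonneg hm]
  have ha' : 0 < ‖a‖ := norm_pos_iff.2 ha
  have h4 : m * (κ * (‖a‖ * ‖b‖)) ≤ m * |cr a b| := mul_le_mul_of_nonneg_left hk hm
  rw [h3]
  have h5 : ‖a‖ * (κ * (m * ‖b‖)) ≤ ‖a‖ * ‖(m : ℂ) * b - (l : ℂ) * a‖ := by nlinarith
  exact le_of_mul_le_mul_left h5 ha'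

/-- The component of the direction of `a` along `v`. -/
noncomputable def X53 (v a : ℂ) : ℝ :=
  ((starRingEnd ℂ) v * a).re / ‖(starRingEnd ℂ) v * a‖

theorem abs_X53_le (v a : ℂ) : |X53 v a| ≤ 1 := by
  unfold X53
  rw [abs_div, abs_norm]
  exact div_le_one_of_le₀ (Complex.abs_re_le_norm _) (norm_nonneg _)

theorem unit_aux53 {x y x' y' κ : ℝ} (h1 : x ^ 2 + y ^ 2 = 1) (h2 : x' ^ 2 + y' ^ 2 = 1) (hy : 0 < y)
    (hy' : 0 < y') (hκ : 0 < κ) (h : κ ≤ x' * y - x * y') : x + κ ^ 2 / 2 ≤ x' := by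
  -- first `x ≤ x'`
  have hx1 : -1 ≤ x := by nlinarith
  have hx2 : x ≤ 1 := by nlinarith
  have hx3 : -1 ≤ x' := by nlinarith
  have hx4 : x' ≤ 1 := by nlinarith
  have hxx : x ≤ x' := by
    by_contra hcon
    push Not at hcon
    -- `x' < x`: the identity `S (y + y') = (x' - x) (1 + x x' + y y')`
    have e1 : (x' * y - x * y') * (y + y') = (x' - x) * (1 + x * x' + y * y') := by
      have : y ^ 2 = 1 - x ^ 2 := by linarith
      have h3 : y' ^ 2 = 1 - x' ^ 2 := by linarith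
      linear_combination x' * this - x * h3
    have h5 : 0 ≤ 1 + x * x' + y * y' := by
      have := mul_pos hy hy'
      nlinarith [mul_nonneg (by linarith : 0 ≤ 1 + x) (by linarith : 0 ≤ 1 + x'),
        mul_nonneg (by linarith : 0 ≤ 1 - x) (by linarith : 0 ≤ 1 - x')]
    have h6 : 0 < (x' * y - x * y') * (y + y') := mul_pos (by linarith) (by linarith)
    rw [e1] at h6
    nlinarith
  have key : (1 + x) * (1 - x') ≤ y * y' := by
    have ha : 0 ≤ (1 + x) * (1 - x') := mul_nonneg (by linarith) (by linarith)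
    have hb : 0 ≤ y * y' := (mul_pos hy hy').le
    refine (sq_le_sq₀ ha hb).1 ?_
    have e2 : (y * y') ^ 2 = (1 - x ^ 2) * (1 - x' ^ 2) := by
      rw [mul_pow]
      rw [show y ^ 2 = 1 - x ^ 2 by linarith, show y' ^ 2 = 1 - x' ^ 2 by linarith]
    rw [e2]
    have e3 : (1 - x ^ 2) * (1 - x' ^ 2) - ((1 + x) * (1 - x')) ^ 2
        = (1 + x) * (1 - x') * (2 * (x' - x)) := by ring
    have : 0 ≤ (1 + x) * (1 - x') * (2 * (x' - x)) := mul_nonneg ha (by linarith)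
    linarith
  set C := x * x' + y * y' with hC
  have e4 : (x' * y - x * y') ^ 2 = 1 - C ^ 2 := by
    rw [hC]
    linear_combination (y' ^ 2 + x' ^ 2) * h1 + h2
  have h7 : κ ^ 2 ≤ 1 - C ^ 2 := by
    rw [← e4]
    exact pow_le_pow_left₀ hκ.le h 2
  have h8 : C ≤ 1 := by nlinarith
  have h9 : -1 ≤ C := by nlinarith
  have h10 : 1 - C ≤ x' - x := by rw [hC]; nlinarith
  nlinarith

theorem X53_add_le {v a b : ℂ} {κ : ℝ} (hκ : 0 < κ) (ha : 0 < cr v a) (hb : 0 < cr v b)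
    (hab : κ * (‖a‖ * ‖b‖) ≤ cr b a) : X53 v a + κ ^ 2 / 2 ≤ X53 v b := by
  have hv : v ≠ 0 := by
    rintro rfl
    simp [cr] at ha
  have hva : 0 < ‖v‖ := norm_pos_iff.2 hv
  have hIm : ∀ c : ℂ, ((starRingEnd ℂ) v * c).im = cr v c := by
    intro c; unfold cr; simp; ring
  have hN : ∀ c : ℂ, 0 < cr v c → 0 < ‖(starRingEnd ℂ) v * c‖ := by
    intro c hc
    rw [norm_pos_iff]
    intro h0
    have := hIm c
    rw [h0] at this
    simp at this
    linarith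
  have hU : ∀ c : ℂ, 0 < cr v c →
      (((starRingEnd ℂ) v * c).re / ‖(starRingEnd ℂ) v * c‖) ^ 2
        + (cr v c / ‖(starRingEnd ℂ) v * c‖) ^ 2 = 1 := by
    intro c hc
    have h1 := (hN c hc).ne'
    have h2 := Complex.sq_norm ((starRingEnd ℂ) v * c)
    rw [Complex.normSq_apply, hIm] at h2
    field_simp
    nlinarith
  have hcr : cr b a * ‖v‖ ^ 2 = ((starRingEnd ℂ) v * b).re * cr v a
      - ((starRingEnd ℂ) v * a).re * cr v b := by
    rw [Complex.sq_norm, Complex.normSq_apply]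
    unfold cr; simp; ring
  unfold X53
  refine unit_aux53 (hU a ha) (hU b hb) (div_pos ha (hN a ha)) (div_pos hb (hN b hb)) hκ ?_
  have h3 := (hN a ha)
  have h4 := (hN b hb)
  rw [div_mul_div_comm, div_mul_div_comm, mul_comm ‖(starRingEnd ℂ) v * a‖ ‖(starRingEnd ℂ) v * b‖,
    ← sub_div, le_div_iff₀ (mul_pos h4 h3), ← hcr, norm_mul, norm_mul, Complex.norm_conj]
  nlinarith [mul_le_mul_of_nonneg_right hab (sq_nonneg ‖v‖)]

/-! ### One step -/

theorem norm_tin53 (T : Tri H) {v : ℂ} {s t : H × ℂ} (h : T.tin v s ≤ T.tin v t) :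
    ‖(T.tin v t : ℂ) * v - (T.tin v s : ℂ) * v‖ = (T.tin v t - T.tin v s) * ‖v‖ := by
  rw [← sub_mul, norm_mul, ← Complex.ofReal_sub, Complex.norm_real,
    Real.norm_of_nonneg (by linarith)]

/-- Distances of the point of the line to the two ends of the edge. -/
noncomputable def dU53 (T : Tri H) (v : ℂ) (s : H × ℂ) : ℝ := ‖(T.tin v s : ℂ) * v - s.2‖
noncomputable def dD53 (T : Tri H) (v : ℂ) (s : H × ℂ) : ℝ :=
  ‖(T.tin v s : ℂ) * v - (s.2 + T.vec s.1)‖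

theorem dU_add_dD53 (T : Tri H) {v : ℂ} {s : H × ℂ} (h : T.Crs v s) :
    dU53 T v s + dD53 T v s = ‖T.vec s.1‖ := by
  obtain ⟨t, h0, h1, h2⟩ := T.tin_mem h
  unfold dU53 dD53
  rw [h2]
  rw [show s.2 + (t : ℂ) * T.vec s.1 - s.2 = (t : ℂ) * T.vec s.1 by ring,
    show s.2 + (t : ℂ) * T.vec s.1 - (s.2 + T.vec s.1) = ((-(1 - t) : ℝ) : ℂ) * T.vec s.1 by
      push_cast; ring,
    norm_mul, norm_mul, Complex.norm_real, Complex.norm_real, Real.norm_of_nonneg h0.le,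
    Real.norm_eq_abs, abs_neg, abs_of_pos (by linarith : 0 < 1 - t)]
  ring

theorem step_up53 (T : Tri H) {κ : ℝ} (hκ : 0 < κ)
    (hk : ∀ h, κ * (‖T.vec h‖ * ‖T.vec (T.next h)‖) ≤ cr (T.vec h) (T.vec (T.next h)))
    {v : ℂ} {s : H × ℂ} (h : T.Crs v s) (ha : 0 < cr v (T.apex s)) :
    X53 v (-T.vec s.1) + κ ^ 2 / 2 ≤ X53 v (-T.vec (T.up s).1) ∧
    κ * dD53 T v s ≤ (T.tin v (T.up s) - T.tin v s) * ‖v‖ ∧
    κ * dD53 T v (T.up s) ≤ (T.tin v (T.up s) - T.tin v s) * ‖v‖ := by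
  have hc := T.crs_up h ha
  have hv1 : cr v (T.vec s.1) < 0 := T.crs_vec h
  have hv2 : cr v (T.vec (T.up s).1) < 0 := T.crs_vec hc
  have e1 : T.vec (T.up s).1 = - T.vec (T.next s.1) := T.vec_opp _
  have hD : (T.up s).2 + T.vec (T.up s).1 = s.2 + T.vec s.1 := T.up_end s
  obtain ⟨t, h0, h1, h2⟩ := T.tin_mem h
  obtain ⟨t', h0', h1', h2'⟩ := T.tin_mem hc
  have neg : ∀ a b : ℂ, cr a (-b) = - cr a b := by intro a b; unfold cr; simp; ring
  have neg' : ∀ a b : ℂ, cr (-a) b = - cr a b := by intro a b; unfold cr; simp; ring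
  have hne1 : T.vec s.1 ≠ 0 := T.vec_ne_zero _
  have hne2 : T.vec (T.next s.1) ≠ 0 := T.vec_ne_zero _
  have hd := hk s.1
  have hpos := T.pos s.1
  refine ⟨?_, ?_, ?_⟩
  · refine X53_add_le hκ ?_ ?_ ?_
    · rw [neg]; linarith
    · rw [neg]; linarith
    · rw [e1, neg_neg, norm_neg, neg]
      rw [cr_swap]
      linarith
  · rw [← norm_tin53 T (tin_lt_up T h ha).le]
    unfold dD53
    have e2 : (T.tin v s : ℂ) * v - (s.2 + T.vec s.1) = ((1 - t : ℝ) : ℂ) * (-T.vec s.1) := by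
      rw [h2]; push_cast; ring
    have e3 : (T.tin v (T.up s) : ℂ) * v - (s.2 + T.vec s.1)
        = ((1 - t' : ℝ) : ℂ) * (T.vec (T.next s.1)) := by
      rw [h2', ← hD, e1]; push_cast; ring
    rw [norm_sub_rev ((T.tin v (T.up s) : ℂ) * v), show (T.tin v s : ℂ) * v - (T.tin v (T.up s) : ℂ) * v
      = ((T.tin v s : ℂ) * v - (s.2 + T.vec s.1)) - ((T.tin v (T.up s) : ℂ) * v - (s.2 + T.vec s.1))
      by ring, e2, e3]
    refine corner53 hne2 (by linarith) ?_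
    rw [norm_neg, neg, abs_neg, cr_swap, abs_neg, abs_of_pos hpos]
    linarith
  · rw [← norm_tin53 T (tin_lt_up T h ha).le]
    unfold dD53
    rw [hD]
    have e2 : (T.tin v s : ℂ) * v - (s.2 + T.vec s.1) = ((1 - t : ℝ) : ℂ) * (-T.vec s.1) := by
      rw [h2]; push_cast; ring
    have e3 : (T.tin v (T.up s) : ℂ) * v - (s.2 + T.vec s.1)
        = ((1 - t' : ℝ) : ℂ) * (T.vec (T.next s.1)) := by
      rw [h2', ← hD, e1]; push_cast; ring
    rw [show (T.tin v (T.up s) : ℂ) * v - (T.tin v s : ℂ) * v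
      = ((T.tin v (T.up s) : ℂ) * v - (s.2 + T.vec s.1)) - ((T.tin v s : ℂ) * v - (s.2 + T.vec s.1))
      by ring, e2, e3]
    refine corner53 (neg_ne_zero.2 hne1) (by linarith) ?_
    rw [norm_neg, neg', abs_neg, abs_of_pos hpos]
    exact hd

theorem step_dn53 (T : Tri H) {κ : ℝ} (hκ : 0 < κ)
    (hk : ∀ h, κ * (‖T.vec h‖ * ‖T.vec (T.next h)‖) ≤ cr (T.vec h) (T.vec (T.next h)))
    {v : ℂ} {s : H × ℂ} (h : T.Crs v s) (ha : cr v (T.apex s) < 0) :
    X53 v (-T.vec (T.dn s).1) + κ ^ 2 / 2 ≤ X53 v (-T.vec s.1) ∧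
    κ * dU53 T v s ≤ (T.tin v (T.dn s) - T.tin v s) * ‖v‖ ∧
    κ * dU53 T v (T.dn s) ≤ (T.tin v (T.dn s) - T.tin v s) * ‖v‖ := by
  have hc := T.crs_dn h ha
  have hv1 : cr v (T.vec s.1) < 0 := T.crs_vec h
  have hv2 : cr v (T.vec (T.dn s).1) < 0 := T.crs_vec hc
  have e1 : T.vec (T.dn s).1 = - T.vec (T.prev s.1) := T.vec_opp _
  have hU : (T.dn s).2 = s.2 := rfl
  obtain ⟨t, h0, h1, h2⟩ := T.tin_mem h
  obtain ⟨t', h0', h1', h2'⟩ := T.tin_mem hc
  have neg : ∀ a b : ℂ, cr a (-b) = - cr a b := by intro a b; unfold cr; simp; ring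
  have neg' : ∀ a b : ℂ, cr (-a) b = - cr a b := by intro a b; unfold cr; simp; ring
  have hne1 : T.vec s.1 ≠ 0 := T.vec_ne_zero _
  have hne2 : T.vec (T.prev s.1) ≠ 0 := T.vec_ne_zero _
  have hd := hk (T.prev s.1)
  rw [T.next_prev] at hd
  have hpos := T.pos_prev s.1
  refine ⟨?_, ?_, ?_⟩
  · refine X53_add_le hκ ?_ ?_ ?_
    · rw [neg]; linarith
    · rw [neg]; linarith
    · rw [e1, neg_neg, norm_neg, neg']
      rw [cr_swap, neg_neg]
      exact hd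
  · rw [← norm_tin53 T (tin_lt_dn T h ha).le]
    unfold dU53
    have e2 : (T.tin v s : ℂ) * v - s.2 = ((t : ℝ) : ℂ) * (T.vec s.1) := by
      rw [h2]; ring
    have e3 : (T.tin v (T.dn s) : ℂ) * v - s.2 = ((t' : ℝ) : ℂ) * (-T.vec (T.prev s.1)) := by
      rw [h2', hU, e1]; ring
    rw [norm_sub_rev ((T.tin v (T.dn s) : ℂ) * v), show (T.tin v s : ℂ) * v - (T.tin v (T.dn s) : ℂ) * v
      = ((T.tin v s : ℂ) * v - s.2) - ((T.tin v (T.dn s) : ℂ) * v - s.2)
      by ring, e2, e3]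
    refine corner53 (neg_ne_zero.2 hne2) h0.le ?_
    rw [norm_neg, neg', abs_neg, abs_of_pos hpos]
    exact hd
  · rw [← norm_tin53 T (tin_lt_dn T h ha).le]
    unfold dU53
    rw [hU]
    have e2 : (T.tin v s : ℂ) * v - s.2 = ((t : ℝ) : ℂ) * (T.vec s.1) := by
      rw [h2]; ring
    have e3 : (T.tin v (T.dn s) : ℂ) * v - s.2 = ((t' : ℝ) : ℂ) * (-T.vec (T.prev s.1)) := by
      rw [h2', hU, e1]; ring
    rw [show (T.tin v (T.dn s) : ℂ) * v - (T.tin v s : ℂ) * v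
      = ((T.tin v (T.dn s) : ℂ) * v - s.2) - ((T.tin v s : ℂ) * v - s.2)
      by ring, e2, e3]
    refine corner53 hne1 h0'.le ?_
    rw [norm_neg, neg, abs_neg, cr_swap, abs_neg, abs_of_pos hpos]
    linarith

theorem crs_runsN53 (T : Tri H) {v : ℂ} {s t : H × ℂ} {n : ℕ} (h : T.Crs v s)
    (hr : RunsN T v s n t) : T.Crs v t := by
  induction hr with
  | refl => exact h
  | up _ ha ih => exact T.crs_up ih ha
  | dn _ ha ih => exact T.crs_dn ih ha

/-- The bound, with constants. The two potentials are `β X - (κ/2) dD` and `-β X - (κ/2) dU`. -/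
theorem runs_bound_aux53 (T : Tri H) {κ m M : ℝ} (hκ : 0 < κ) (hm : 0 < m)
    (hk : ∀ h, κ * (‖T.vec h‖ * ‖T.vec (T.next h)‖) ≤ cr (T.vec h) (T.vec (T.next h)))
    (hmv : ∀ h, m ≤ ‖T.vec h‖) (hMv : ∀ h, ‖T.vec h‖ ≤ M) {η : ℝ}
    (hη1 : η ≤ κ * m / 8 * (κ ^ 2 / 2)) (hη2 : η ≤ κ * m / 4)
    {v : ℂ} {s t : H × ℂ} {n : ℕ} (h : T.Crs v s) (hr : RunsN T v s n t) :
    (n * η - (κ * m / 8 + κ / 2 * M) ≤ (T.tin v t - T.tin v s) * ‖v‖
      + (κ * m / 8 * X53 v (-T.vec t.1) - κ / 2 * dD53 T v t)) ∨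
    (n * η - (κ * m / 8 + κ / 2 * M) ≤ (T.tin v t - T.tin v s) * ‖v‖
      + (-(κ * m / 8 * X53 v (-T.vec t.1)) - κ / 2 * dU53 T v t)) := by
  have hβ : 0 < κ * m / 8 := by positivity
  have hX : ∀ a : ℂ, κ * m / 8 * X53 v a ≤ κ * m / 8 ∧ -(κ * m / 8) ≤ κ * m / 8 * X53 v a := by
    intro a
    obtain ⟨h1, h2⟩ := abs_le.1 (abs_X53_le v a)
    constructor <;> nlinarith
  have hdU : ∀ u : H × ℂ, 0 ≤ dU53 T v u := fun u => norm_nonneg _
  have hdD : ∀ u : H × ℂ, 0 ≤ dD53 T v u := fun u => norm_nonneg _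
  induction hr with
  | refl =>
    left
    have h1 := (hX (-T.vec s.1)).2
    have h2 := dU_add_dD53 T h
    have h3 := hMv s.1
    have h4 := hdU s
    have h5 : κ / 2 * dD53 T v s ≤ κ / 2 * M := mul_le_mul_of_nonneg_left (by linarith) (by linarith)
    simp only [Nat.cast_zero, zero_mul, sub_self, zero_add, zero_sub]
    linarith
  | @up n t hr ha ih =>
    left
    have hc := crs_runsN53 T h hr
    obtain ⟨a1, a2, a3⟩ := step_up53 T hκ hk hc ha
    have a4 := mul_le_mul_of_nonneg_left a1 hβ.le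
    have b1 := hdD t
    have b2 := hdD (T.up t)
    have b3 := hdU t
    have e1 : (T.tin v (T.up t) - T.tin v s) * ‖v‖
      = (T.tin v (T.up t) - T.tin v t) * ‖v‖ + (T.tin v t - T.tin v s) * ‖v‖ := by ring
    rw [e1]
    push_cast
    rcases ih with ih | ih
    · have : 0 ≤ κ / 2 * dD53 T v t := by positivity
      have : 0 ≤ κ / 2 * dD53 T v (T.up t) := by positivity
      nlinarith
    · have c1 := dU_add_dD53 T hc
      have c2 := hmv t.1
      have c3 := (hX (-T.vec t.1)).2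
      have c4 := (hX (-T.vec (T.up t).1)).2
      have c5 : κ / 2 * m ≤ κ / 2 * (dU53 T v t + dD53 T v t) :=
        mul_le_mul_of_nonneg_left (by linarith) (by linarith)
      nlinarith
  | @dn n t hr ha ih =>
    right
    have hc := crs_runsN53 T h hr
    obtain ⟨a1, a2, a3⟩ := step_dn53 T hκ hk hc ha
    have a4 := mul_le_mul_of_nonneg_left a1 hβ.le
    have b1 := hdU t
    have b2 := hdU (T.dn t)
    have b3 := hdD t
    have e1 : (T.tin v (T.dn t) - T.tin v s) * ‖v‖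
      = (T.tin v (T.dn t) - T.tin v t) * ‖v‖ + (T.tin v t - T.tin v s) * ‖v‖ := by ring
    rw [e1]
    push_cast
    rcases ih with ih | ih
    · have c1 := dU_add_dD53 T hc
      have c2 := hmv t.1
      have c3 := (hX (-T.vec t.1)).1
      have c4 := (hX (-T.vec (T.dn t).1)).1
      have c5 : κ / 2 * m ≤ κ / 2 * (dU53 T v t + dD53 T v t) :=
        mul_le_mul_of_nonneg_left (by linarith) (by linarith)
      nlinarith
    · have : 0 ≤ κ / 2 * dU53 T v t := by positivity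
      have : 0 ≤ κ / 2 * dU53 T v (T.dn t) := by positivity
      nlinarith

theorem runs_bound [Finite H] (T : Tri H) (R : ℝ) : ∃ N : ℕ, ∀ (v : ℂ) (s t : H × ℂ) (n : ℕ),
    T.Crs v s → RunsN T v s n t → N ≤ n → R ≤ (T.tin v t - T.tin v s) * ‖v‖ := by
  rcases isEmpty_or_nonempty H with hH | hH
  · exact ⟨0, fun v s => (hH.false s.1).elim⟩
  have hvp : ∀ h, 0 < ‖T.vec h‖ := fun h => norm_pos_iff.2 (T.vec_ne_zero h)
  obtain ⟨h0, hh0⟩ := Finite.exists_min (fun h => cr (T.vec h) (T.vec (T.next h)) /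
    (‖T.vec h‖ * ‖T.vec (T.next h)‖))
  obtain ⟨h1, hh1⟩ := Finite.exists_min (fun h => ‖T.vec h‖)
  obtain ⟨h2, hh2⟩ := Finite.exists_max (fun h => ‖T.vec h‖)
  obtain ⟨κ, hκd⟩ : ∃ κ, κ = cr (T.vec h0) (T.vec (T.next h0)) /
    (‖T.vec h0‖ * ‖T.vec (T.next h0)‖) := ⟨_, rfl⟩
  have hκ : 0 < κ := by
    rw [hκd]
    exact div_pos (T.pos h0) (mul_pos (hvp _) (hvp _))
  have hk : ∀ h, κ * (‖T.vec h‖ * ‖T.vec (T.next h)‖) ≤ cr (T.vec h) (T.vec (T.next h)) := by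
    intro h
    have h3 := hh0 h
    rw [← hκd, le_div_iff₀ (mul_pos (hvp _) (hvp _))] at h3
    exact h3
  obtain ⟨m, hmd⟩ : ∃ m, m = ‖T.vec h1‖ := ⟨_, rfl⟩
  obtain ⟨M, hMd⟩ : ∃ M, M = ‖T.vec h2‖ := ⟨_, rfl⟩
  have hm : 0 < m := by rw [hmd]; exact hvp _
  have hM : 0 < M := by rw [hMd]; exact hvp _
  have hmv : ∀ h, m ≤ ‖T.vec h‖ := fun h => by rw [hmd]; exact hh1 h
  have hMv : ∀ h, ‖T.vec h‖ ≤ M := fun h => by rw [hMd]; exact hh2 h
  obtain ⟨η, hηd⟩ : ∃ η, η = min (κ * m / 8 * (κ ^ 2 / 2)) (κ * m / 4) := ⟨_, rfl⟩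
  have hη : 0 < η := by rw [hηd]; exact lt_min (by positivity) (by positivity)
  have hη1 : η ≤ κ * m / 8 * (κ ^ 2 / 2) := by rw [hηd]; exact min_le_left _ _
  have hη2 : η ≤ κ * m / 4 := by rw [hηd]; exact min_le_right _ _
  obtain ⟨N, hN⟩ := exists_nat_ge ((R + 2 * (κ * m / 8 + κ / 2 * M)) / η)
  refine ⟨N, ?_⟩
  intro v s t n hc hr hn
  have hN' : R + 2 * (κ * m / 8 + κ / 2 * M) ≤ n * η := by
    rw [div_le_iff₀ hη] at hN
    have : (N : ℝ) * η ≤ n * η := mul_le_mul_of_nonneg_right (by exact_mod_cast hn) hη.le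
    linarith
  have hβ : 0 < κ * m / 8 := by positivity
  obtain ⟨h4, h5⟩ := abs_le.1 (abs_X53_le v (-T.vec t.1))
  have h6 : κ * m / 8 * X53 v (-T.vec t.1) ≤ κ * m / 8 := by nlinarith
  have h7 : -(κ * m / 8 * X53 v (-T.vec t.1)) ≤ κ * m / 8 := by nlinarith
  have h8 : 0 ≤ κ / 2 * dD53 T v t := mul_nonneg (by linarith) (norm_nonneg _)
  have h9 : 0 ≤ κ / 2 * dU53 T v t := mul_nonneg (by linarith) (norm_nonneg _)
  have h10 : 0 ≤ κ / 2 * M := by positivity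
  rcases runs_bound_aux53 T hκ hm hk hmv hMv hη1 hη2 hc hr with h11 | h11 <;> linarith

end Pool.Agent.Helper79.G
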