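import Pool.Agent.Helper79.G.Struct

/-!
# MP_e98778_an (full), module G: charted triangulations
-/

set_option autoImplicit false

open Pool.Agent.Helper87.LS

namespace Pool.Agent.Helper79.G

variable {H X : Type}

/-- A triangulation with a chart in `X`. -/
structure CT (H X : Type) where
  T : Tri H
  C : Chart T X

/-- The flip of a charted triangulation. -/
noncomputable def CT.flip (c : CT H X) (e : H) (he : c.T.Flippable e) : CT H X :=
  ⟨c.T.flip e he, c.C.flip e he⟩

/-- `c'` is obtained from `c` by successive flips of edges outside `E`. -/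
inductive CReach (E : Set H) (c : CT H X) : CT H X → Prop
  | refl : CReach E c c
  | flip {c' : CT H X} (e : H) (he : c'.T.Flippable e) (hE : e ∉ E) (hE' : c'.T.opp e ∉ E) :
      CReach E c c' → CReach E c (c'.flip e he)

theorem CReach.trans {E : Set H} {a b c : CT H X} (h1 : CReach E a b) (h2 : CReach E b c) :
    CReach E a c := by
  induction h2 with
  | refl => exact h1
  | flip e he hE hE' _ ih => exact CReach.flip e he hE hE' ih

theorem CReach.mono {E F : Set H} (hEF : F ⊆ E) {a b : CT H X} (h : CReach E a b) :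
    CReach F a b := by
  induction h with
  | refl => exact CReach.refl
  | flip e he hE hE' _ ih => exact CReach.flip e he (fun h => hE (hEF h)) (fun h => hE' (hEF h)) ih

theorem CReach.reach {E : Set H} {a b : CT H X} (h : CReach E a b) : Reach E a.T b.T := by
  induction h with
  | refl => exact Reach.refl
  | flip e he hE hE' _ ih => exact Reach.flip e he hE hE' ih

theorem Reach.lift {E : Set H} {T T' : Tri H} (h : Reach E T T') (C : Chart T X) :
    ∃ c' : CT H X, CReach E ⟨T, C⟩ c' ∧ c'.T = T' := by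
  induction h with
  | refl => exact ⟨_, CReach.refl, rfl⟩
  | flip e he hE hE' _ ih =>
    obtain ⟨c', hc', rfl⟩ := ih
    exact ⟨c'.flip e he, CReach.flip e he hE hE' hc', rfl⟩

theorem CReach.opp_eq {E : Set H} {a b : CT H X} (h : CReach E a b) : b.T.opp = a.T.opp := by
  induction h with
  | refl => rfl
  | flip e he hE hE' _ ih => exact ih

theorem VP.creach {E : Set H} {a b : CT H X} (h : CReach E a b) {v : ℂ} {f : ℝ → X} :
    VP b.C v f ↔ VP a.C v f := by
  induction h with
  | refl => exact Iff.rfl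
  | flip e he hE hE' _ ih => exact (VP.flip_iff he).trans ih

/-- Edges which are not flipped persist. -/
theorem flip_persist (c : CT H X) {e g : H} (he : c.T.Flippable e) (h1 : g ≠ e) (h2 : g ≠ c.T.opp e) :
    (c.flip e he).T.vec g = c.T.vec g ∧
      ∀ t : ℝ, 0 < t → t < 1 → (c.flip e he).C.φ g (t * c.T.vec g) = c.C.φ g (t * c.T.vec g) := by
  refine ⟨c.T.flipVec_ne h1 h2, fun t ht0 ht1 => ?_⟩
  exact flipφ_eq43 c.C h1 h2 (c.T.edg_iff.2 ⟨t, ht0, ht1, rfl⟩).reg

theorem CReach.persist {E : Set H} {a b : CT H X} (h : CReach E a b)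
    {g : H} (hg : g ∈ E) : b.T.vec g = a.T.vec g ∧
      ∀ t : ℝ, 0 < t → t < 1 → b.C.φ g (t * a.T.vec g) = a.C.φ g (t * a.T.vec g) := by
  induction h with
  | refl => exact ⟨rfl, fun _ _ _ => rfl⟩
  | @flip c' e he hE hE' _ ih =>
    obtain ⟨i1, i2⟩ := ih
    obtain ⟨j1, j2⟩ := flip_persist c' he (g := g) (fun h => hE (h ▸ hg)) (fun h => hE' (h ▸ hg))
    refine ⟨j1.trans i1, fun t h0 h1 => ?_⟩
    rw [← i2 t h0 h1, ← i1]
    exact j2 t h0 h1

end Pool.Agent.Helper79.G
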