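import Pool.Agent.Helper79.G.ChartQuad

/-!
# TF-G-CF2: injectivity of the flipped chart

`quad_inj`: `quad` is injective in the following sense: if `ζ` is inside the quadrilateral (inside one of
the two triangles or on the open diagonal `e`) and `ζ'` is a point of the closed quadrilateral without
vertices and `quad ζ = quad ζ'` then `ζ = ζ'`; if `quad ζ = φ h z` with `h` outside the six labels
(`T.Out e h`) and `T.Reg h z`: impossible. Both from `int_inj`, `edg_inj` of the old chart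
(`quad_left`, `quad_right`; a point on the open diagonal is a point of `Edg e`; the positions of the
three darts of a triangle, `rot`, `reg_cases`).
`flip_int_inj`, `flip_edg_inj`: fields `int_inj`, `edg_inj` of the flipped chart. For `Int` points of the
new triangles: they are inside the quadrilateral; use `quad_inj` and then compare the positions in the
two new triangles (an inner point of one new triangle is not in the closed other one). For `Edg` points:
on the four sides the flipped chart agrees with the old one (`quad_left`, `quad_right`, `rot`), for the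
new diagonal use `quad_inj`.
-/

set_option autoImplicit false

open Pool.Agent.Helper87.LS

namespace Pool.Agent.Helper79.G

variable {H X : Type} {T : Tri H}

/-- Inside the quadrilateral. -/
def QInt (T : Tri H) (e : H) (ζ : ℂ) : Prop :=
  T.Int e ζ ∨ T.Edg e ζ ∨ T.Int (T.opp e) (ζ - T.vec e)

/-! ### Rotations of a coded point -/

/-- `(h', z')` is a rotation of the coded point `(h, z)`. -/
def Rot4 (T : Tri H) (h : H) (z : ℂ) (h' : H) (z' : ℂ) : Prop :=
  (h' = h ∧ z' = z) ∨ (h' = T.next h ∧ z' = z - T.vec h) ∨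
    (h' = T.prev h ∧ z' = z + T.vec (T.prev h))

theorem Rot4.symm {h h' : H} {z z' : ℂ} (hr : Rot4 T h z h' z') : Rot4 T h' z' h z := by
  rcases hr with ⟨rfl, rfl⟩ | ⟨rfl, rfl⟩ | ⟨rfl, rfl⟩
  · left; exact ⟨rfl, rfl⟩
  · right; right
    rw [T.prev_next]
    exact ⟨rfl, by ring⟩
  · right; left
    rw [T.next_prev]
    exact ⟨rfl, by ring⟩

theorem Rot4.trans {h h' h'' : H} {z z' z'' : ℂ} (hr : Rot4 T h z h' z') (hs : Rot4 T h' z' h'' z'') :
    Rot4 T h z h'' z'' := by
  rcases hr with ⟨rfl, rfl⟩ | ⟨rfl, rfl⟩ | ⟨rfl, rfl⟩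
  · exact hs
  · rcases hs with ⟨rfl, rfl⟩ | ⟨rfl, rfl⟩ | ⟨rfl, rfl⟩
    · right; left; exact ⟨rfl, rfl⟩
    · right; right
      refine ⟨rfl, ?_⟩
      rw [T.vec_prev]; ring
    · left
      rw [T.prev_next]
      exact ⟨rfl, by ring⟩
  · rcases hs with ⟨rfl, rfl⟩ | ⟨rfl, rfl⟩ | ⟨rfl, rfl⟩
    · right; right; exact ⟨rfl, rfl⟩
    · left
      rw [T.next_prev]
      exact ⟨rfl, by ring⟩
    · right; left
      rw [T.prev_prev]
      refine ⟨rfl, ?_⟩
      rw [T.vec_prev]; ring

/-! ### Injectivity facts of a chart -/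

theorem int_reg4 (C : Chart T X) {k k' : H} {y y' : ℂ} (h : T.Int k y) (h' : T.Reg k' y')
    (hq : C.φ k y = C.φ k' y') : Rot4 T k y k' y' := C.int_inj k y k' y' h h' hq

/-- a point on an edge and a regular point of the triangle of the dart `k'` -/
theorem edg_reg4 (C : Chart T X) {k k' : H} {y y' : ℂ} (h : T.Edg k y) (h' : T.Reg k' y')
    (hq : C.φ k y = C.φ k' y') : ∃ k'' y'', Rot4 T k' y' k'' y'' ∧
      ((k'' = k ∧ y'' = y) ∨ (k'' = T.opp k ∧ y'' = y - T.vec k)) := by
  rcases T.reg_cases h' with h1 | h1 | h1 | h1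
  · have h2 := C.int_inj k' y' k y h1 h.reg hq.symm
    exact ⟨k, y, h2, Or.inl ⟨rfl, rfl⟩⟩
  · exact ⟨k', y', Or.inl ⟨rfl, rfl⟩, C.edg_inj k y k' y' h h1 hq⟩
  · refine ⟨T.next k', y' - T.vec k', Or.inr (Or.inl ⟨rfl, rfl⟩), ?_⟩
    refine C.edg_inj k y _ _ h h1 ?_
    rw [C.rot k' y' h', hq]
  · refine ⟨T.prev k', y' + T.vec (T.prev k'), Or.inr (Or.inr ⟨rfl, rfl⟩), ?_⟩
    refine C.edg_inj k y _ _ h h1 ?_
    rw [hq]
    have := C.rot (T.prev k') (y' + T.vec (T.prev k')) (T.reg_prev.2 h')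
    rw [T.next_prev, add_sub_cancel_right] at this
    exact this

theorem int_same4 (C : Chart T X) {k : H} {y y' : ℂ} (h : T.Int k y) (h' : T.Reg k y')
    (hq : C.φ k y = C.φ k y') : y = y' := by
  rcases int_reg4 C h h' hq with ⟨_, h2⟩ | ⟨h2, _⟩ | ⟨h2, _⟩
  · exact h2.symm
  · exact absurd h2.symm (T.next_ne k)
  · exact absurd h2.symm (T.prev_ne k)

theorem edg_same4 (C : Chart T X) {k : H} {y y' : ℂ} (h : T.Edg k y) (h' : T.Reg k y')
    (hq : C.φ k y = C.φ k y') : y = y' := by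
  obtain ⟨k'', y'', h1, h2⟩ := edg_reg4 C h h' hq
  rcases h1 with ⟨rfl, rfl⟩ | ⟨rfl, rfl⟩ | ⟨rfl, rfl⟩
  · rcases h2 with ⟨_, h2⟩ | ⟨h2, _⟩
    · exact h2.symm
    · exact absurd h2.symm (T.opp_ne _)
  · rcases h2 with ⟨h2, _⟩ | ⟨h2, _⟩
    · exact absurd h2 (T.next_ne _)
    · exact absurd h2.symm (T.opp_ne_next _)
  · rcases h2 with ⟨h2, _⟩ | ⟨h2, _⟩
    · exact absurd h2 (T.prev_ne _)
    · exact absurd h2.symm (T.opp_ne_prev _)

theorem quad_inj (C : Chart T X) {e : H} {ζ ζ' : ℂ} (h : QInt T e ζ)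
    (h' : T.Reg e ζ' ∨ T.Reg (T.opp e) (ζ' - T.vec e)) (hq : C.quad e ζ = C.quad e ζ') : ζ = ζ' := by
  rcases h with h | h | h
  · rw [quad_left C h.reg] at hq
    rcases h' with h' | h'
    · rw [quad_left C h'] at hq
      exact int_same4 C h h' hq
    · rw [quad_right C h'] at hq
      rcases int_reg4 C h h' hq with ⟨h2, _⟩ | ⟨h2, _⟩ | ⟨h2, _⟩
      · exact absurd h2 (T.opp_ne e)
      · exact absurd h2 (T.opp_ne_next e)
      · exact absurd h2 (T.opp_ne_prev e)
  · rw [quad_left C h.reg] at hq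
    rcases h' with h' | h'
    · rw [quad_left C h'] at hq
      exact edg_same4 C h h' hq
    · rw [quad_right C h', ← C.glue e ζ h] at hq
      have := edg_same4 C (T.edg_opp.2 h) h' hq
      linear_combination this
  · rw [quad_right C h.reg] at hq
    rcases h' with h' | h'
    · rw [quad_left C h'] at hq
      rcases int_reg4 C h h' hq with ⟨h2, _⟩ | ⟨h2, _⟩ | ⟨h2, _⟩
      · exact absurd h2.symm (T.opp_ne e)
      · exact absurd (by rw [T.opp2]; exact h2) (T.opp_ne_next (T.opp e))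
      · exact absurd (by rw [T.opp2]; exact h2) (T.opp_ne_prev (T.opp e))
    · rw [quad_right C h'] at hq
      have := int_same4 C h h' hq
      linear_combination this

theorem quad_out (C : Chart T X) {e h : H} {ζ z : ℂ} (hζ : QInt T e ζ) (ho : T.Out e h)
    (hz : T.Reg h z) : C.quad e ζ ≠ C.φ h z := by
  intro hq
  obtain ⟨o1, o2, o3, o4, o5, o6⟩ := ho
  rcases hζ with hζ | hζ | hζ
  · rw [quad_left C hζ.reg] at hq
    rcases int_reg4 C hζ hz hq with ⟨h2, _⟩ | ⟨h2, _⟩ | ⟨h2, _⟩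
    · exact o1 h2
    · exact o2 h2
    · exact o3 h2
  · rw [quad_left C hζ.reg] at hq
    obtain ⟨k'', y'', h1, h2⟩ := edg_reg4 C hζ hz hq
    rcases h1 with ⟨rfl, rfl⟩ | ⟨rfl, rfl⟩ | ⟨rfl, rfl⟩
    · rcases h2 with ⟨h2, _⟩ | ⟨h2, _⟩
      · exact o1 h2
      · exact o4 h2
    · rcases h2 with ⟨h2, _⟩ | ⟨h2, _⟩
      · exact o3 (by rw [← h2, T.prev_next])
      · exact o6 (by rw [← h2, T.prev_next])
    · rcases h2 with ⟨h2, _⟩ | ⟨h2, _⟩
      · exact o2 (by rw [← h2, T.next_prev])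
      · exact o5 (by rw [← h2, T.next_prev])
  · rw [quad_right C hζ.reg] at hq
    rcases int_reg4 C hζ hz hq with ⟨h2, _⟩ | ⟨h2, _⟩ | ⟨h2, _⟩
    · exact o4 h2
    · exact o5 h2
    · exact o6 h2

/-- a point inside the quadrilateral is not on the other edges -/
theorem quad_edg4 (C : Chart T X) {e h : H} {ζ z : ℂ} (hζ : QInt T e ζ) (h1 : h ≠ e)
    (h2 : h ≠ T.opp e) (hz : T.Edg h z) : C.quad e ζ ≠ C.φ h z := by
  intro hq
  have key : ∀ {k : H} {y : ℂ}, T.Int k y → C.φ k y ≠ C.φ h z := by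
    intro k y hk hq
    rcases int_reg4 C hk hz.reg hq with ⟨rfl, rfl⟩ | ⟨rfl, rfl⟩ | ⟨rfl, rfl⟩
    · exact hk.1.ne' hz.1
    · exact (T.int_next.2 hk).1.ne' hz.1
    · exact (T.int_prev.2 hk).1.ne' hz.1
  rcases hζ with hζ | hζ | hζ
  · rw [quad_left C hζ.reg] at hq
    exact key hζ hq
  · rw [quad_left C hζ.reg] at hq
    rcases C.edg_inj e ζ h z hζ hz hq with ⟨h3, _⟩ | ⟨h3, _⟩
    · exact h1 h3
    · exact h2 h3
  · rw [quad_right C hζ.reg] at hq
    exact key hζ hq

theorem QInt.reg4 {e : H} {ζ : ℂ} (h : QInt T e ζ) : T.Reg e ζ ∨ T.Reg (T.opp e) (ζ - T.vec e) := by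
  rcases h with h | h | h
  · exact Or.inl h.reg
  · exact Or.inl h.reg
  · exact Or.inr h.reg

/-! ### Geometry of the quadrilateral -/

theorem qint_of4 {e : H} {ζ : ℂ} (hA : 0 < cr (T.vec (T.next e)) (ζ - T.vec e))
    (hB : 0 < cr (T.vec (T.prev e)) ζ) (hC : 0 < cr (T.vec (T.next (T.opp e))) ζ)
    (hD : 0 < cr (T.vec (T.prev (T.opp e))) (ζ - T.vec e)) : QInt T e ζ := by
  rcases lt_trichotomy 0 (cr (T.vec e) ζ) with h | h | h
  · left; exact ⟨h, hA, hB⟩
  · right; left; exact ⟨h.symm, hA, hB⟩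
  · right; right
    refine ⟨?_, ?_, hD⟩
    · unfold Tri.a0
      rw [T.vec_opp]
      have : cr (-T.vec e) (ζ - T.vec e) = - cr (T.vec e) ζ := by
        unfold cr; simp; ring
      rw [this]; linarith
    · unfold Tri.a1
      rw [T.vec_opp]
      have : ζ - T.vec e - -T.vec e = ζ := by ring
      rw [this]; exact hC

theorem flip_vec4 (e : H) (he : T.Flippable e) (h : H) : (T.flip e he).vec h = T.flipVec e h := rfl
theorem flip_next4 (e : H) (he : T.Flippable e) (h : H) : (T.flip e he).next h = T.flipNext e h := rfl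
theorem flip_prev4 (e : H) (he : T.Flippable e) (h : H) :
    (T.flip e he).prev h = T.flipNext e (T.flipNext e h) := rfl

theorem flip_diag4 {e : H} (he : T.Flippable e) {t : ℝ} (h0 : 0 < t) (h1 : t < 1) :
    QInt T e (T.vec (T.next (T.opp e)) + t * (T.vec (T.prev (T.opp e)) + T.vec (T.next e))) := by
  obtain ⟨f1, f2⟩ := he
  have v1 := T.vec_prev e
  have v2 := T.vec_prev (T.opp e)
  have v3 := T.vec_opp e
  rw [v3] at v2
  have ht : 0 < 1 - t := by linarith
  apply qint_of4
  · have : cr (T.vec (T.next e)) (T.vec (T.next (T.opp e)) +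
        t * (T.vec (T.prev (T.opp e)) + T.vec (T.next e)) - T.vec e) =
        (1 - t) * cr (T.vec (T.prev (T.opp e))) (T.vec (T.next e)) := by
      rw [v2]; unfold cr; simp; ring
    rw [this]; positivity
  · have : cr (T.vec (T.prev e)) (T.vec (T.next (T.opp e)) +
        t * (T.vec (T.prev (T.opp e)) + T.vec (T.next e))) =
        (1 - t) * cr (T.vec (T.prev e)) (T.vec (T.next (T.opp e))) := by
      rw [v2, v1]; unfold cr; simp; ring
    rw [this]; positivity
  · have : cr (T.vec (T.next (T.opp e))) (T.vec (T.next (T.opp e)) +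
        t * (T.vec (T.prev (T.opp e)) + T.vec (T.next e))) =
        t * cr (T.vec (T.prev e)) (T.vec (T.next (T.opp e))) := by
      rw [v2, v1]; unfold cr; simp; ring
    rw [this]; positivity
  · have : cr (T.vec (T.prev (T.opp e))) (T.vec (T.next (T.opp e)) +
        t * (T.vec (T.prev (T.opp e)) + T.vec (T.next e)) - T.vec e) =
        t * cr (T.vec (T.prev (T.opp e))) (T.vec (T.next e)) := by
      rw [v2]; unfold cr; simp; ring
    rw [this]; positivity

theorem flip_intc4 {e : H} (he : T.Flippable e) {ζ : ℂ}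
    (h : (T.flip e he).Int (T.next (T.opp e)) ζ) : QInt T e ζ := by
  have hs := T.six e
  obtain ⟨f1, f2⟩ := id he
  have v1 := T.vec_prev e
  have v2 := T.vec_prev (T.opp e)
  have v3 := T.vec_opp e
  rw [v3] at v2
  have p1 := T.pos e
  have p2 := T.pos (T.opp e)
  rw [v3] at p2
  have p3 := (T.flip e he).pos (T.next (T.opp e))
  have hp := T.pos_prev e
  obtain ⟨h0, h1, h2⟩ := h
  unfold Tri.a0 at h0
  unfold Tri.a1 at h1
  unfold Tri.a2 at h2
  rw [flip_prev4, T.flipNext_c, T.flipNext_e] at h2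
  rw [flip_next4, T.flipNext_c] at h1 p3
  rw [flip_vec4, flip_vec4, T.flipVec_e, T.flipVec_ne hs.2.2.2.2.2.2.1 hs.2.2.2.2.2.2.2.2.2.1] at h1 p3
  rw [flip_vec4, T.flipVec_ne hs.2.2.2.2.2.2.1 hs.2.2.2.2.2.2.2.2.2.1] at h0
  rw [flip_vec4, T.flipVec_ne hs.1 (Ne.symm hs.2.2.2.2.2.1)] at h2
  apply qint_of4
  · have key : cr (T.vec (T.next (T.opp e))) (T.vec (T.prev (T.opp e)) + T.vec (T.next e)) *
        cr (T.vec (T.next e)) (ζ - T.vec e) =
        cr (T.vec (T.prev (T.opp e)) + T.vec (T.next e)) (ζ - T.vec (T.next (T.opp e))) *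
          cr (T.vec e) (T.vec (T.next e)) +
        cr (T.vec (T.prev e)) ζ * cr (T.vec (T.prev (T.opp e))) (T.vec (T.next e)) := by
      rw [v2, v1]; unfold cr; simp; ring
    have : 0 < cr (T.vec (T.next (T.opp e))) (T.vec (T.prev (T.opp e)) + T.vec (T.next e)) *
        cr (T.vec (T.next e)) (ζ - T.vec e) := by rw [key]; positivity
    exact (pos_iff_pos_of_mul_pos this).1 p3
  · exact h2
  · exact h0
  · have key : cr (T.vec (T.next (T.opp e))) (T.vec (T.prev (T.opp e)) + T.vec (T.next e)) *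
        cr (T.vec (T.prev (T.opp e))) (ζ - T.vec e) =
        cr (T.vec (T.prev (T.opp e)) + T.vec (T.next e)) (ζ - T.vec (T.next (T.opp e))) *
          cr (-T.vec e) (T.vec (T.next (T.opp e))) +
        cr (T.vec (T.next (T.opp e))) ζ * cr (T.vec (T.prev (T.opp e))) (T.vec (T.next e)) := by
      rw [v2]; unfold cr; simp; ring
    have : 0 < cr (T.vec (T.next (T.opp e))) (T.vec (T.prev (T.opp e)) + T.vec (T.next e)) *
        cr (T.vec (T.prev (T.opp e))) (ζ - T.vec e) := by rw [key]; positivity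
    exact (pos_iff_pos_of_mul_pos this).1 p3

theorem flip_inta4 {e : H} (he : T.Flippable e) {ζ : ℂ}
    (h : (T.flip e he).Int (T.next e) (ζ - T.vec e)) : QInt T e ζ := by
  have hs := T.six e
  obtain ⟨f1, f2⟩ := id he
  have v1 := T.vec_prev e
  have v2 := T.vec_prev (T.opp e)
  have v3 := T.vec_opp e
  rw [v3] at v2
  have p1 := T.pos e
  have p2 := T.pos (T.opp e)
  rw [v3] at p2
  have p3 := (T.flip e he).pos (T.next e)
  obtain ⟨h0, h1, h2⟩ := h
  unfold Tri.a0 at h0
  unfold Tri.a1 at h1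
  unfold Tri.a2 at h2
  rw [flip_prev4, T.flipNext_a, T.flipNext_e'] at h2
  rw [flip_next4, T.flipNext_a] at h1 p3
  rw [flip_vec4, flip_vec4, T.flipVec_e', T.flipVec_ne hs.2.1 (Ne.symm hs.2.2.2.2.1)] at h1 p3
  rw [flip_vec4, T.flipVec_ne hs.2.1 (Ne.symm hs.2.2.2.2.1)] at h0
  rw [flip_vec4, T.flipVec_ne hs.2.2.2.2.2.2.2.2.2.2.1 hs.2.2.2.2.2.2.2.2.2.2.2.2.2.1] at h2
  apply qint_of4
  · exact h0
  · have key : cr (T.vec (T.next e)) (-(T.vec (T.prev (T.opp e)) + T.vec (T.next e))) *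
        cr (T.vec (T.prev e)) ζ =
        cr (-(T.vec (T.prev (T.opp e)) + T.vec (T.next e))) (ζ - T.vec e - T.vec (T.next e)) *
          cr (T.vec e) (T.vec (T.next e)) +
        cr (T.vec (T.next e)) (ζ - T.vec e) * cr (T.vec (T.prev e)) (T.vec (T.next (T.opp e))) := by
      rw [v2, v1]; unfold cr; simp; ring
    have : 0 < cr (T.vec (T.next e)) (-(T.vec (T.prev (T.opp e)) + T.vec (T.next e))) *
        cr (T.vec (T.prev e)) ζ := by rw [key]; positivity
    exact (pos_iff_pos_of_mul_pos this).1 p3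
  · have key : cr (T.vec (T.next e)) (-(T.vec (T.prev (T.opp e)) + T.vec (T.next e))) *
        cr (T.vec (T.next (T.opp e))) ζ =
        cr (-(T.vec (T.prev (T.opp e)) + T.vec (T.next e))) (ζ - T.vec e - T.vec (T.next e)) *
          cr (-T.vec e) (T.vec (T.next (T.opp e))) +
        cr (T.vec (T.prev (T.opp e))) (ζ - T.vec e) *
          cr (T.vec (T.prev e)) (T.vec (T.next (T.opp e))) := by
      rw [v2, v1]; unfold cr; simp; ring
    have : 0 < cr (T.vec (T.next e)) (-(T.vec (T.prev (T.opp e)) + T.vec (T.next e))) *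
        cr (T.vec (T.next (T.opp e))) ζ := by rw [key]; positivity
    exact (pos_iff_pos_of_mul_pos this).1 p3
  · exact h2

/-- the two new triangles are on different sides of the new diagonal -/
theorem flip_sep4 {e : H} (he : T.Flippable e) (ζ : ℂ) :
    (T.flip e he).a1 (T.next e) (ζ - T.vec e) = - (T.flip e he).a1 (T.next (T.opp e)) ζ := by
  have hs := T.six e
  have v1 := T.vec_prev e
  have v2 := T.vec_prev (T.opp e)
  have v3 := T.vec_opp e
  rw [v3] at v2
  unfold Tri.a1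
  rw [flip_next4, T.flipNext_a, flip_next4, T.flipNext_c]
  rw [flip_vec4, flip_vec4, flip_vec4, flip_vec4, T.flipVec_e', T.flipVec_e,
    T.flipVec_ne hs.2.1 (Ne.symm hs.2.2.2.2.1),
    T.flipVec_ne hs.2.2.2.2.2.2.1 hs.2.2.2.2.2.2.2.2.2.1]
  rw [v2]; unfold cr; simp; ring

/-- every coded point of the flipped triangulation is a rotation of a point whose dart is outside the
six labels, or `next (opp e)`, or `next e` -/
theorem flip_norm4 {e : H} (he : T.Flippable e) (h : H) (z : ℂ) :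
    ∃ k y, Rot4 (T.flip e he) h z k y ∧ (T.Out e k ∨ k = T.next (T.opp e) ∨ k = T.next e) := by
  rcases T.cases_six e h with ho | rfl | rfl | rfl | rfl | rfl | rfl
  · exact ⟨h, z, Or.inl ⟨rfl, rfl⟩, Or.inl ho⟩
  · refine ⟨_, _, Or.inr (Or.inr ⟨rfl, rfl⟩), Or.inr (Or.inl ?_)⟩
    rw [flip_prev4, T.flipNext_e, T.flipNext_b]
  · exact ⟨_, z, Or.inl ⟨rfl, rfl⟩, Or.inr (Or.inr rfl)⟩
  · refine ⟨_, _, Or.inr (Or.inl ⟨rfl, rfl⟩), Or.inr (Or.inl ?_)⟩
    rw [flip_next4, T.flipNext_b]
  · refine ⟨_, _, Or.inr (Or.inr ⟨rfl, rfl⟩), Or.inr (Or.inr ?_)⟩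
    rw [flip_prev4, T.flipNext_e', T.flipNext_d]
  · exact ⟨_, z, Or.inl ⟨rfl, rfl⟩, Or.inr (Or.inl rfl)⟩
  · refine ⟨_, _, Or.inr (Or.inl ⟨rfl, rfl⟩), Or.inr (Or.inr ?_)⟩
    rw [flip_next4, T.flipNext_d]

theorem flip_rot4 (C : Chart T X) {e : H} (he : T.Flippable e) {h k : H} {z y : ℂ}
    (hz : (T.flip e he).Reg h z) (hr : Rot4 (T.flip e he) h z k y) :
    (T.flip e he).Reg k y ∧ C.flipφ e k y = C.flipφ e h z ∧
      ((T.flip e he).Int h z → (T.flip e he).Int k y) := by
  rcases hr with ⟨rfl, rfl⟩ | ⟨rfl, rfl⟩ | ⟨rfl, rfl⟩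
  · exact ⟨hz, rfl, id⟩
  · exact ⟨(T.flip e he).reg_next.2 hz, flip_rot C he h z hz, (T.flip e he).int_next.2⟩
  · have h1 := (T.flip e he).reg_prev.2 hz
    refine ⟨h1, ?_, (T.flip e he).int_prev.2⟩
    have := flip_rot C he _ _ h1
    rw [(T.flip e he).next_prev, add_sub_cancel_right] at this
    exact this.symm

theorem flip_out4 {e : H} (he : T.Flippable e) {k : H} (ho : T.Out e k) (y : ℂ) :
    ((T.flip e he).Reg k y ↔ T.Reg k y) ∧ ((T.flip e he).Int k y ↔ T.Int k y) := by
  have e0 : (T.flip e he).a0 k y = T.a0 k y := by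
    unfold Tri.a0
    rw [flip_vec4, T.flipVec_ne ho.1 ho.2.2.2.1]
  have e1 : (T.flip e he).a1 k y = T.a1 k y := by
    unfold Tri.a1
    rw [flip_next4, T.flipNext_out ho, flip_vec4, flip_vec4, T.flipVec_ne ho.1 ho.2.2.2.1,
      T.flipVec_ne ho.next.1 ho.next.2.2.2.1]
  have e2 : (T.flip e he).a2 k y = T.a2 k y := by
    unfold Tri.a2
    rw [flip_prev4, T.flipNext_out ho, T.flipNext_out ho.next, flip_vec4,
      T.flipVec_ne ho.next.next.1 ho.next.next.2.2.2.1]
    rfl
  unfold Tri.Reg Tri.Int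
  rw [e0, e1, e2]
  exact ⟨Iff.rfl, Iff.rfl⟩

theorem flipφ_out4 (C : Chart T X) {e k : H} (ho : T.Out e k) (y : ℂ) : C.flipφ e k y = C.φ k y := by
  obtain ⟨o1, o2, o3, o4, o5, o6⟩ := ho
  unfold Chart.flipφ
  simp only [if_neg o1, if_neg o2, if_neg o3, if_neg o4, if_neg o5, if_neg o6]

theorem flipφ_c4 (C : Chart T X) (e : H) (y : ℂ) : C.flipφ e (T.next (T.opp e)) y = C.quad e y := by
  have hs := T.six e
  unfold Chart.flipφ
  simp only [if_neg hs.2.2.2.2.2.2.1, if_neg hs.2.2.2.2.2.2.2.2.1, if_true]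

theorem flipφ_a4 (C : Chart T X) (e : H) (y : ℂ) : C.flipφ e (T.next e) y = C.quad e (y + T.vec e) := by
  have hs := T.six e
  unfold Chart.flipφ
  simp only [if_neg hs.2.1, if_neg (Ne.symm hs.2.2.1), if_neg (Ne.symm hs.2.2.2.2.2.2.2.1),
    if_neg (Ne.symm hs.2.2.2.2.1), if_neg (Ne.symm hs.2.2.2.2.2.2.2.2.2.2.2.1), if_true]

theorem flip_int_inj (C : Chart T X) {e : H} (he : T.Flippable e) (h : H) (z : ℂ) (h' : H) (z' : ℂ)
    (hz : (T.flip e he).Int h z) (hz' : (T.flip e he).Reg h' z')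
    (heq : C.flipφ e h z = C.flipφ e h' z') :
    (h' = h ∧ z' = z) ∨ (h' = (T.flip e he).next h ∧ z' = z - (T.flip e he).vec h) ∨
      (h' = (T.flip e he).prev h ∧ z' = z + (T.flip e he).vec ((T.flip e he).prev h)) := by
  obtain ⟨k, y, hr, hk⟩ := flip_norm4 he h z
  obtain ⟨k', y', hr', hk'⟩ := flip_norm4 he h' z'
  obtain ⟨g1, g2, g3⟩ := flip_rot4 C he hz.reg hr
  obtain ⟨g1', g2', -⟩ := flip_rot4 C he hz' hr'
  have g4 := g3 hz
  have hkk : C.flipφ e k y = C.flipφ e k' y' := by rw [g2, g2', heq]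
  suffices hgoal : Rot4 (T.flip e he) k y k' y' from (hr.trans hgoal).trans hr'.symm
  rcases hk with ho | rfl | rfl
  · -- outside
    have hI := (flip_out4 he ho y).2.1 g4
    rw [flipφ_out4 C ho] at hkk
    have hno : ∀ ζ, (T.Reg e ζ ∨ T.Reg (T.opp e) (ζ - T.vec e)) → C.φ k y ≠ C.quad e ζ := by
      intro ζ hζ hq
      obtain ⟨o1, o2, o3, o4, o5, o6⟩ := ho
      rcases hζ with hζ | hζ
      · rw [quad_left C hζ] at hq
        rcases int_reg4 C hI hζ hq with ⟨h2, _⟩ | ⟨h2, _⟩ | ⟨h2, _⟩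
        · exact o1 h2.symm
        · exact o3 (by rw [h2, T.prev_next])
        · exact o2 (by rw [h2, T.next_prev])
      · rw [quad_right C hζ] at hq
        rcases int_reg4 C hI hζ hq with ⟨h2, _⟩ | ⟨h2, _⟩ | ⟨h2, _⟩
        · exact o4 h2.symm
        · exact o6 (by rw [h2, T.prev_next])
        · exact o5 (by rw [h2, T.next_prev])
    rcases hk' with ho' | rfl | rfl
    · rw [flipφ_out4 C ho'] at hkk
      have := int_reg4 C hI ((flip_out4 he ho' y').1.1 g1') hkk
      have e1 : (T.flip e he).next k = T.next k := T.flipNext_out ho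
      have e2 : (T.flip e he).prev k = T.prev k := by
        rw [flip_prev4, T.flipNext_out ho, T.flipNext_out ho.next]; rfl
      have e3 : (T.flip e he).vec k = T.vec k := T.flipVec_ne ho.1 ho.2.2.2.1
      have e4 : (T.flip e he).vec (T.prev k) = T.vec (T.prev k) :=
        T.flipVec_ne ho.next.next.1 ho.next.next.2.2.2.1
      unfold Rot4 at this ⊢
      rw [e1, e2, e3, e4]
      exact this
    · rw [flipφ_c4] at hkk
      exact absurd hkk (hno _ ((quad_reg he _).2 (Or.inl g1')))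
    · rw [flipφ_a4] at hkk
      refine absurd hkk (hno _ ((quad_reg he _).2 (Or.inr ?_)))
      rw [add_sub_cancel_right]; exact g1'
  · -- triangle c
    have hQ := flip_intc4 he g4
    rw [flipφ_c4] at hkk
    rcases hk' with ho' | rfl | rfl
    · rw [flipφ_out4 C ho'] at hkk
      exact absurd hkk (quad_out C hQ ho' ((flip_out4 he ho' y').1.1 g1'))
    · rw [flipφ_c4] at hkk
      left
      exact ⟨rfl, (quad_inj C hQ ((quad_reg he _).2 (Or.inl g1')) hkk).symm⟩
    · rw [flipφ_a4] at hkk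
      have h1 := quad_inj C hQ ((quad_reg he _).2 (Or.inr (by
        rw [add_sub_cancel_right]; exact g1'))) hkk
      have h2 := flip_sep4 he y
      have h3 : y - T.vec e = y' := by rw [h1]; ring
      rw [h3] at h2
      have h4 := g4.2.1
      have h5 := g1'.2.1
      linarith
  · -- triangle a
    have hQ : QInt T e (y + T.vec e) := flip_inta4 he (by rw [add_sub_cancel_right]; exact g4)
    rw [flipφ_a4] at hkk
    rcases hk' with ho' | rfl | rfl
    · rw [flipφ_out4 C ho'] at hkk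
      exact absurd hkk (quad_out C hQ ho' ((flip_out4 he ho' y').1.1 g1'))
    · rw [flipφ_c4] at hkk
      have h1 := quad_inj C hQ ((quad_reg he _).2 (Or.inl g1')) hkk
      have h2 := flip_sep4 he y'
      have h3 : y' - T.vec e = y := by rw [← h1]; ring
      rw [h3] at h2
      have h4 := g4.2.1
      have h5 := g1'.2.1
      linarith
    · rw [flipφ_a4] at hkk
      have h1 := quad_inj C hQ ((quad_reg he _).2 (Or.inr (by
        rw [add_sub_cancel_right]; exact g1'))) hkk
      left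
      exact ⟨rfl, by linear_combination -h1⟩

theorem flipφ_e4 (C : Chart T X) (e : H) (y : ℂ) :
    C.flipφ e e y = C.quad e (y + T.vec (T.next (T.opp e))) := by
  unfold Chart.flipφ
  simp only [if_true]

theorem flipφ_opp4 (C : Chart T X) (e : H) (y : ℂ) :
    C.flipφ e (T.opp e) y = C.quad e (y - T.vec (T.prev e)) := by
  have hs := T.six e
  unfold Chart.flipφ
  simp only [if_neg hs.2.2.2.1, if_neg hs.2.2.2.2.2.1, if_neg (Ne.symm hs.2.2.2.2.2.2.2.2.2.1), if_true]

/-- on the sides of the quadrilateral (and outside) the flipped chart is the old one -/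
theorem flip_side4 (C : Chart T X) {e h : H} (he : T.Flippable e) (h1 : h ≠ e) (h2 : h ≠ T.opp e)
    {z : ℂ} (hz : (T.flip e he).Edg h z) : T.Edg h z ∧ C.flipφ e h z = C.φ h z := by
  have hs := T.six e
  have hE : T.Edg h z := by
    rw [Tri.edg_iff] at hz ⊢
    rwa [flip_vec4, T.flipVec_ne h1 h2] at hz
  refine ⟨hE, ?_⟩
  have v1 := T.vec_prev e
  have v2 := T.vec_prev (T.opp e)
  have v3 := T.vec_opp e
  rw [v3] at v2
  rcases T.cases_six e h with ho | rfl | rfl | rfl | rfl | rfl | rfl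
  · exact flipφ_out4 C ho z
  · exact absurd rfl h1
  · -- a
    rw [flipφ_a4]
    have hr : T.Reg e (z + T.vec e) := by
      have := T.reg_next (h := e) (z := z + T.vec e)
      rw [add_sub_cancel_right] at this
      exact this.1 hE.reg
    rw [quad_left C hr]
    have := C.rot e _ hr
    rw [add_sub_cancel_right] at this
    exact this.symm
  · -- b
    have hr : T.Reg e (z - T.vec (T.prev e)) := by
      have := T.reg_next (h := T.prev e) (z := z)
      rw [T.next_prev] at this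
      exact this.2 hE.reg
    have e1 : C.flipφ e (T.prev e) z = C.quad e (z - T.vec (T.prev e)) := by
      unfold Chart.flipφ
      simp only [if_neg hs.1, if_true]
    rw [e1, quad_left C hr]
    have := C.rot (T.prev e) z hE.reg
    rw [T.next_prev] at this
    exact this
  · exact absurd rfl h2
  · -- c
    rw [flipφ_c4]
    have hr : T.Reg (T.opp e) (z - T.vec e) := by
      have := T.reg_next (h := T.opp e) (z := z - T.vec e)
      rw [v3] at this
      rw [show z - T.vec e - -T.vec e = z by ring] at this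
      exact this.1 hE.reg
    rw [quad_right C hr]
    have := C.rot (T.opp e) _ hr
    rw [v3, show z - T.vec e - -T.vec e = z by ring] at this
    exact this.symm
  · -- d
    have e1 : C.flipφ e (T.prev (T.opp e)) z = C.quad e (z + T.vec (T.next (T.opp e))) := by
      unfold Chart.flipφ
      simp only [if_neg hs.2.2.2.2.2.2.2.2.2.2.1, if_neg hs.2.2.2.2.2.2.2.2.2.2.2.2.1,
        if_neg hs.2.2.2.2.2.2.2.2.2.2.2.2.2.2, if_neg hs.2.2.2.2.2.2.2.2.2.2.2.2.2.1, if_true]
    have e2 : z + T.vec (T.next (T.opp e)) - T.vec e = z - T.vec (T.prev (T.opp e)) := by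
      rw [v2]; ring
    have hr : T.Reg (T.opp e) (z + T.vec (T.next (T.opp e)) - T.vec e) := by
      rw [e2]
      have := T.reg_next (h := T.prev (T.opp e)) (z := z)
      rw [T.next_prev] at this
      exact this.2 hE.reg
    rw [e1, quad_right C hr, e2]
    have := C.rot (T.prev (T.opp e)) z hE.reg
    rw [T.next_prev] at this
    exact this

theorem flip_edge4 {e : H} (he : T.Flippable e) {z : ℂ} (hz : (T.flip e he).Edg e z) :
    QInt T e (z + T.vec (T.next (T.opp e))) := by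
  rw [Tri.edg_iff, flip_vec4, T.flipVec_e] at hz
  obtain ⟨t, h0, h1, rfl⟩ := hz
  rw [add_comm]
  exact flip_diag4 he h0 h1

theorem flip_edgo4 {e : H} (he : T.Flippable e) {z : ℂ} (hz : (T.flip e he).Edg (T.opp e) z) :
    QInt T e (z - T.vec (T.prev e)) := by
  rw [Tri.edg_iff, flip_vec4, T.flipVec_e'] at hz
  obtain ⟨t, h0, h1, rfl⟩ := hz
  have v1 := T.vec_prev e
  have v2 := T.vec_prev (T.opp e)
  have v3 := T.vec_opp e
  rw [v3] at v2
  have := flip_diag4 he (t := 1 - t) (by linarith) (by linarith)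
  have e1 : T.vec (T.next (T.opp e)) + ((1 - t : ℝ) : ℂ) * (T.vec (T.prev (T.opp e)) + T.vec (T.next e)) =
      (t : ℂ) * -(T.vec (T.prev (T.opp e)) + T.vec (T.next e)) - T.vec (T.prev e) := by
    rw [v1, v2]; push_cast; ring
  rwa [e1] at this

theorem flip_edg_inj (C : Chart T X) {e : H} (he : T.Flippable e) (h : H) (z : ℂ) (h' : H) (z' : ℂ)
    (hz : (T.flip e he).Edg h z) (hz' : (T.flip e he).Edg h' z')
    (heq : C.flipφ e h z = C.flipφ e h' z') :
    (h' = h ∧ z' = z) ∨ (h' = (T.flip e he).opp h ∧ z' = z - (T.flip e he).vec h) := by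
  have v1 := T.vec_prev e
  have v2 := T.vec_prev (T.opp e)
  have v3 := T.vec_opp e
  rw [v3] at v2
  by_cases h1 : h = e
  · subst h1
    have hQ := flip_edge4 he hz
    rw [flipφ_e4] at heq
    by_cases h2 : h' = h
    · subst h2
      rw [flipφ_e4] at heq
      have h3 := quad_inj C hQ (flip_edge4 he hz').reg4 heq
      left; exact ⟨rfl, by linear_combination -h3⟩
    by_cases h3 : h' = T.opp h
    · subst h3
      rw [flipφ_opp4] at heq
      have h4 := quad_inj C hQ (flip_edgo4 he hz').reg4 heq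
      right
      refine ⟨rfl, ?_⟩
      rw [flip_vec4, T.flipVec_e, v2]
      rw [v1] at h4
      linear_combination -h4
    · obtain ⟨g1, g2⟩ := flip_side4 C he h2 h3 hz'
      rw [g2] at heq
      exact absurd heq (quad_edg4 C hQ h2 h3 g1)
  by_cases h1' : h = T.opp e
  · subst h1'
    have hQ := flip_edgo4 he hz
    rw [flipφ_opp4] at heq
    by_cases h2 : h' = e
    · subst h2
      rw [flipφ_e4] at heq
      have h3 := quad_inj C hQ (flip_edge4 he hz').reg4 heq
      right
      refine ⟨(T.opp2 _).symm, ?_⟩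
      rw [flip_vec4, T.flipVec_e', v2]
      rw [v1] at h3
      linear_combination -h3
    by_cases h3 : h' = T.opp e
    · subst h3
      rw [flipφ_opp4] at heq
      have h4 := quad_inj C hQ (flip_edgo4 he hz').reg4 heq
      left; exact ⟨rfl, by linear_combination -h4⟩
    · obtain ⟨g1, g2⟩ := flip_side4 C he h2 h3 hz'
      rw [g2] at heq
      exact absurd heq (quad_edg4 C hQ h2 h3 g1)
  obtain ⟨g1, g2⟩ := flip_side4 C he h1 h1' hz
  rw [g2] at heq
  by_cases h2 : h' = e
  · subst h2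
    rw [flipφ_e4] at heq
    exact absurd heq.symm (quad_edg4 C (flip_edge4 he hz') h1 h1' g1)
  by_cases h3 : h' = T.opp e
  · subst h3
    rw [flipφ_opp4] at heq
    exact absurd heq.symm (quad_edg4 C (flip_edgo4 he hz') h1 h1' g1)
  obtain ⟨g1', g2'⟩ := flip_side4 C he h2 h3 hz'
  rw [g2'] at heq
  have := C.edg_inj h z h' z' g1 g1' heq
  rw [flip_vec4, T.flipVec_ne h1 h1']
  exact this

/-- The chart of the flipped triangulation. -/
noncomputable def Chart.flip (C : Chart T X) (e : H) (he : T.Flippable e) :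
    Chart (T.flip e he) X where
  φ := C.flipφ e
  rot := flip_rot C he
  glue := flip_glue C he
  surj := flip_surj C he
  int_inj := flip_int_inj C he
  edg_inj := flip_edg_inj C he

end Pool.Agent.Helper79.G
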