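import Pool.Agent.Helper79.G.Reg

/-!
# TF-G-CF1: the chart of the quadrilateral, easy fields of the flipped chart

Notation of `G/Flip.lean`: `e' = opp e`, `a = next e`, `b = prev e`, `c = next e'`, `d = prev e'`; positions
with the origin at the start `P` of `e`: `P = 0`, `S = vec c`, `Q = vec e`, `R = vec e + vec a = - vec b`
(`S = vec c = vec e - vec (opp e).. `: `vec c + vec d = vec e`). `T' = T.flip e he`.
* `quad_left`: on the closed triangle of `e` (left of `e`) `quad` is `φ e` (as `a0 e ζ = cr (vec e) ζ ≥ 0`).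
* `quad_right`: on the closed triangle of `e'`, `quad ζ = φ e' (ζ - vec e)`: by definition if
  `cr (vec e) ζ < 0`; if it is `0` the point is on the edge (`Edg`) and both values agree by `glue`.
* `quad_reg`: the closed quadrilateral without its vertices, by the old and the new triangles: the
  triangle of `c` in `T'` is `c, e, b` with vertices `P, S, R`, the triangle of `a` is `a, e', d` with
  vertices `Q, R, S`. (The quadrilateral is strictly convex, `Flippable`; all the conditions are linear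
  inequalities between `cr`s.) The vertices themselves are in none of the sets.
* `flip_rot`, `flip_glue`, `flip_surj`: fields `rot`, `glue`, `surj` for `flipφ` (cases by
  `T.cases_six`; for darts outside the six labels `flipφ` is `φ` and the triangle is unchanged).
-/

set_option autoImplicit false

open Pool.Agent.Helper87.LS

namespace Pool.Agent.Helper79.G

variable {H X : Type} {T : Tri H}

theorem quad_left (C : Chart T X) {e : H} {ζ : ℂ} (h : T.Reg e ζ) : C.quad e ζ = C.φ e ζ := by
  unfold Chart.quad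
  exact if_pos h.1

theorem quad_right (C : Chart T X) {e : H} {ζ : ℂ} (h : T.Reg (T.opp e) (ζ - T.vec e)) :
    C.quad e ζ = C.φ (T.opp e) (ζ - T.vec e) := by
  have h0 : T.a0 (T.opp e) (ζ - T.vec e) = - cr (T.vec e) ζ := by
    unfold Tri.a0
    rw [T.vec_opp]
    unfold cr; simp; ring
  obtain ⟨g0, g1, g2, g3, g4, g5⟩ := h
  unfold Chart.quad
  split_ifs with hc
  · have hz : T.a0 (T.opp e) (ζ - T.vec e) = 0 := by
      rw [h0] at g0 ⊢
      linarith
    have hE : T.Edg (T.opp e) (ζ - T.vec e) :=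
      ⟨hz, by rw [hz] at g3; linarith, by rw [hz] at g5; linarith⟩
    exact (C.glue e ζ (T.edg_opp.1 hE)).symm
  · rfl

/-- The real inequalities behind `quad_reg`: one closed triangle without vertices is in the union of
the two triangles with the other diagonal. -/
theorem tri_key43 {A B C D E F K1 K2 K3 K4 : ℝ} (k1 : 0 < K1) (k2 : 0 < K2) (k3 : 0 < K3)
    (k4 : 0 < K4) (hC : K1 * C = B * K2 + E * K3) (hD : K1 * D = A * K2 + E * K4)
    (hF : K1 * F = A * K3 - B * K4) (hE0 : 0 ≤ E) (hA0 : 0 ≤ A) (hB0 : 0 ≤ B)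
    (hEA : 0 < E + A) (hAB : 0 < A + B) (hBE : 0 < B + E) :
    (0 ≤ C ∧ 0 ≤ F ∧ 0 ≤ B ∧ 0 < C + F ∧ 0 < F + B ∧ 0 < B + C) ∨
      (0 ≤ A ∧ 0 ≤ -F ∧ 0 ≤ D ∧ 0 < A + -F ∧ 0 < -F + D ∧ 0 < D + A) := by
  have hCpos : 0 < C := by
    have h1 : 0 < K1 * C := by
      rw [hC]
      rcases hB0.eq_or_lt with hb | hb
      · rw [← hb] at hBE ⊢
        have : 0 < E := by linarith
        have := mul_pos this k3
        linarith
      · have h1 := mul_pos hb k2
        have h2 := mul_nonneg hE0 k3.le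
        linarith
    exact (mul_pos_iff_of_pos_left k1).1 h1
  have hDpos : 0 < D := by
    have h1 : 0 < K1 * D := by
      rw [hD]
      rcases hA0.eq_or_lt with hb | hb
      · rw [← hb] at hEA ⊢
        have : 0 < E := by linarith
        have := mul_pos this k4
        linarith
      · have h1 := mul_pos hb k2
        have h2 := mul_nonneg hE0 k4.le
        linarith
    exact (mul_pos_iff_of_pos_left k1).1 h1
  rcases le_total 0 F with hF0 | hF0
  · left
    refine ⟨hCpos.le, hF0, hB0, by linarith, ?_, by linarith⟩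
    rcases hB0.eq_or_lt with hb | hb
    · have hApos : 0 < A := by linarith
      have h1 : 0 < K1 * F := by
        rw [hF, ← hb]
        have := mul_pos hApos k3
        linarith
      have := (mul_pos_iff_of_pos_left k1).1 h1
      linarith
    · linarith
  · right
    refine ⟨hA0, by linarith, hDpos.le, ?_, by linarith, by linarith⟩
    rcases hA0.eq_or_lt with hb | hb
    · have hBpos : 0 < B := by linarith
      have h1 : 0 < K1 * (-F) := by
        have h2 : K1 * (-F) = B * K4 - A * K3 := by linear_combination -hF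
        rw [h2, ← hb]
        have := mul_pos hBpos k4
        linarith
      have := (mul_pos_iff_of_pos_left k1).1 h1
      linarith
    · linarith

/-- The vectors of the quadrilateral. -/
theorem vec_d43 (T : Tri H) (e : H) :
    T.vec (T.prev (T.opp e)) = T.vec e - T.vec (T.next (T.opp e)) := by
  rw [T.vec_prev, T.vec_opp]; ring

theorem flip_prev_c43 {e : H} (he : T.Flippable e) :
    (T.flip e he).prev (T.next (T.opp e)) = T.prev e := by
  change T.flipNext e (T.flipNext e (T.next (T.opp e))) = T.prev e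
  rw [T.flipNext_c, T.flipNext_e]

theorem flip_prev_a43 {e : H} (he : T.Flippable e) :
    (T.flip e he).prev (T.next e) = T.prev (T.opp e) := by
  change T.flipNext e (T.flipNext e (T.next e)) = T.prev (T.opp e)
  rw [T.flipNext_a, T.flipNext_e']

theorem flip_next_c43 {e : H} (he : T.Flippable e) :
    (T.flip e he).next (T.next (T.opp e)) = e := T.flipNext_c e

theorem flip_next_a43 {e : H} (he : T.Flippable e) :
    (T.flip e he).next (T.next e) = T.opp e := T.flipNext_a e

theorem flip_vec_a43 {e : H} (he : T.Flippable e) :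
    (T.flip e he).vec (T.next e) = T.vec (T.next e) := by
  have hs := T.six e
  exact T.flipVec_ne hs.2.1 (Ne.symm hs.2.2.2.2.1)

theorem flip_vec_b43 {e : H} (he : T.Flippable e) :
    (T.flip e he).vec (T.prev e) = T.vec (T.prev e) := by
  have hs := T.six e
  exact T.flipVec_ne hs.1 (Ne.symm hs.2.2.2.2.2.1)

theorem flip_vec_c43 {e : H} (he : T.Flippable e) :
    (T.flip e he).vec (T.next (T.opp e)) = T.vec (T.next (T.opp e)) := by
  have hs := T.six e
  exact T.flipVec_ne hs.2.2.2.2.2.2.1 hs.2.2.2.2.2.2.2.2.2.1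

theorem flip_vec_d43 {e : H} (he : T.Flippable e) :
    (T.flip e he).vec (T.prev (T.opp e)) = T.vec (T.prev (T.opp e)) := by
  have hs := T.six e
  exact T.flipVec_ne hs.2.2.2.2.2.2.2.2.2.2.1 hs.2.2.2.2.2.2.2.2.2.2.2.2.2.1

theorem flip_vec_e43 {e : H} (he : T.Flippable e) :
    (T.flip e he).vec e = T.vec (T.prev (T.opp e)) + T.vec (T.next e) := T.flipVec_e e

theorem flip_vec_e'43 {e : H} (he : T.Flippable e) :
    (T.flip e he).vec (T.opp e) = -(T.vec (T.prev (T.opp e)) + T.vec (T.next e)) := T.flipVec_e' e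

theorem quad_reg {e : H} (he : T.Flippable e) (ζ : ℂ) :
    (T.Reg e ζ ∨ T.Reg (T.opp e) (ζ - T.vec e)) ↔
      ((T.flip e he).Reg (T.next (T.opp e)) ζ ∨ (T.flip e he).Reg (T.next e) (ζ - T.vec e)) := by
  have hb : T.vec (T.prev e) = -(T.vec e + T.vec (T.next e)) := T.vec_prev e
  have hd := vec_d43 T e
  have hop := T.vec_opp e
  have p1 := T.pos e
  have p2 := T.pos (T.opp e)
  obtain ⟨p3, p4⟩ := id he
  -- the coordinates
  have n0 : (T.flip e he).a0 (T.next (T.opp e)) ζ = cr (T.vec (T.next (T.opp e))) ζ := by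
    unfold Tri.a0; rw [flip_vec_c43]
  have n1 : (T.flip e he).a1 (T.next (T.opp e)) ζ
      = cr (T.vec (T.prev (T.opp e)) + T.vec (T.next e)) (ζ - T.vec (T.next (T.opp e))) := by
    unfold Tri.a1; rw [flip_next_c43, flip_vec_e43, flip_vec_c43]
  have n2 : (T.flip e he).a2 (T.next (T.opp e)) ζ = cr (T.vec (T.prev e)) ζ := by
    unfold Tri.a2; rw [flip_prev_c43, flip_vec_b43]
  have m0 : (T.flip e he).a0 (T.next e) (ζ - T.vec e) = cr (T.vec (T.next e)) (ζ - T.vec e) := by
    unfold Tri.a0; rw [flip_vec_a43]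
  have m1 : (T.flip e he).a1 (T.next e) (ζ - T.vec e)
      = - cr (T.vec (T.prev (T.opp e)) + T.vec (T.next e)) (ζ - T.vec (T.next (T.opp e))) := by
    unfold Tri.a1; rw [flip_next_a43, flip_vec_e'43, flip_vec_a43, hd]
    unfold cr; simp; ring
  have m2 : (T.flip e he).a2 (T.next e) (ζ - T.vec e)
      = cr (T.vec (T.prev (T.opp e))) (ζ - T.vec e) := by
    unfold Tri.a2; rw [flip_prev_a43, flip_vec_d43]
  have q0 : T.a0 (T.opp e) (ζ - T.vec e) = - cr (T.vec e) ζ := by
    unfold Tri.a0
    rw [T.vec_opp]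
    unfold cr; simp; ring
  have q1 : T.a1 (T.opp e) (ζ - T.vec e) = cr (T.vec (T.next (T.opp e))) ζ := by
    unfold Tri.a1
    rw [T.vec_opp]
    congr 1; ring
  unfold Tri.Reg
  rw [n0, n1, n2, m0, m1, m2, q0, q1]
  unfold Tri.a0 Tri.a1 Tri.a2
  rw [hd, hb] at *
  rw [hop] at p2
  generalize T.vec (T.next (T.opp e)) = q at *
  generalize T.vec (T.next e) = p at *
  generalize T.vec e = u at *
  clear n0 n1 n2 m0 m1 m2 q0 q1
  constructor
  · rintro (⟨g0, g1, g2, g3, g4, g5⟩ | ⟨g0, g1, g2, g3, g4, g5⟩)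
    · exact tri_key43 p1 p2 p3 p4 (by unfold cr; simp; ring) (by unfold cr; simp; ring)
        (by unfold cr; simp; ring) g0 g1 g2 g3 g4 g5
    · have h := tri_key43 (C := cr p (ζ - u)) (D := cr (-(u + p)) ζ)
        (F := - cr (u - q + p) (ζ - q)) p2 p1 p4 p3
        (by unfold cr; simp; ring) (by unfold cr; simp; ring) (by unfold cr; simp; ring)
        g0 g1 g2 g3 g4 g5
      rw [neg_neg] at h
      rcases h with h | h
      · right; exact h
      · left; exact h
  · rintro (⟨g0, g1, g2, g3, g4, g5⟩ | ⟨g0, g1, g2, g3, g4, g5⟩)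
    · have h := tri_key43 (C := cr (u - q) (ζ - u)) (D := cr p (ζ - u))
        (F := - cr u ζ) p3 p4 p2 p1
        (by unfold cr; simp; ring) (by unfold cr; simp; ring) (by unfold cr; simp; ring)
        g1 g2 g0 g4 g5 g3
      rw [neg_neg] at h
      rcases h with h | h
      · right
        obtain ⟨f0, f1, f2, f3, f4, f5⟩ := h
        exact ⟨f1, f2, f0, f4, f5, f3⟩
      · left
        obtain ⟨f0, f1, f2, f3, f4, f5⟩ := h
        exact ⟨f1, f2, f0, f4, f5, f3⟩
    · have h := tri_key43 (C := cr (-(u + p)) ζ) (D := cr q ζ)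
        (F := cr u ζ) p4 p3 p1 p2
        (by unfold cr; simp; ring) (by unfold cr; simp; ring) (by unfold cr; simp; ring)
        g1 g2 g0 g4 g5 g3
      rcases h with h | h
      · left
        obtain ⟨f0, f1, f2, f3, f4, f5⟩ := h
        exact ⟨f1, f2, f0, f4, f5, f3⟩
      · right
        obtain ⟨f0, f1, f2, f3, f4, f5⟩ := h
        exact ⟨f1, f2, f0, f4, f5, f3⟩

/-! ### Values of `flipφ` -/

theorem flipφ_at_e (C : Chart T X) (e : H) (z : ℂ) :
    C.flipφ e e z = C.quad e (z + T.vec (T.next (T.opp e))) := by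
  unfold Chart.flipφ
  rw [if_pos rfl]

theorem flipφ_at_b (C : Chart T X) (e : H) (z : ℂ) :
    C.flipφ e (T.prev e) z = C.quad e (z - T.vec (T.prev e)) := by
  have h := T.six e
  unfold Chart.flipφ
  rw [if_neg h.1, if_pos rfl]

theorem flipφ_at_c (C : Chart T X) (e : H) (z : ℂ) :
    C.flipφ e (T.next (T.opp e)) z = C.quad e z := by
  have h := T.six e
  unfold Chart.flipφ
  rw [if_neg h.2.2.2.2.2.2.1, if_neg h.2.2.2.2.2.2.2.2.1, if_pos rfl]

theorem flipφ_at_e' (C : Chart T X) (e : H) (z : ℂ) :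
    C.flipφ e (T.opp e) z = C.quad e (z - T.vec (T.prev e)) := by
  have h := T.six e
  unfold Chart.flipφ
  rw [if_neg h.2.2.2.1, if_neg h.2.2.2.2.2.1, if_neg (Ne.symm h.2.2.2.2.2.2.2.2.2.1), if_pos rfl]

theorem flipφ_at_d (C : Chart T X) (e : H) (z : ℂ) :
    C.flipφ e (T.prev (T.opp e)) z = C.quad e (z + T.vec (T.next (T.opp e))) := by
  have h := T.six e
  unfold Chart.flipφ
  rw [if_neg h.2.2.2.2.2.2.2.2.2.2.1, if_neg h.2.2.2.2.2.2.2.2.2.2.2.2.1,
    if_neg h.2.2.2.2.2.2.2.2.2.2.2.2.2.2, if_neg h.2.2.2.2.2.2.2.2.2.2.2.2.2.1, if_pos rfl]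

theorem flipφ_at_a (C : Chart T X) (e : H) (z : ℂ) :
    C.flipφ e (T.next e) z = C.quad e (z + T.vec e) := by
  have h := T.six e
  unfold Chart.flipφ
  rw [if_neg h.2.1, if_neg (Ne.symm h.2.2.1), if_neg (Ne.symm h.2.2.2.2.2.2.2.1),
    if_neg (Ne.symm h.2.2.2.2.1), if_neg (Ne.symm h.2.2.2.2.2.2.2.2.2.2.2.1), if_pos rfl]

theorem flipφ_out (C : Chart T X) {e h : H} (ho : T.Out e h) (z : ℂ) :
    C.flipφ e h z = C.φ h z := by
  unfold Chart.flipφ
  rw [if_neg ho.1, if_neg ho.2.2.1, if_neg ho.2.2.2.2.1, if_neg ho.2.2.2.1, if_neg ho.2.2.2.2.2,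
    if_neg ho.2.1]

theorem flip_next_out43 {e h : H} (he : T.Flippable e) (ho : T.Out e h) :
    (T.flip e he).next h = T.next h := T.flipNext_out ho

theorem flip_vec_out43 {e h : H} (he : T.Flippable e) (ho : T.Out e h) :
    (T.flip e he).vec h = T.vec h := T.flipVec_ne ho.1 ho.2.2.2.1

theorem flip_prev_out43 {e h : H} (he : T.Flippable e) (ho : T.Out e h) :
    (T.flip e he).prev h = T.prev h := by
  change (T.flip e he).next ((T.flip e he).next h) = T.next (T.next h)
  rw [flip_next_out43 he ho, flip_next_out43 he ho.next]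

theorem flip_a0_out43 {e h : H} (he : T.Flippable e) (ho : T.Out e h) (z : ℂ) :
    (T.flip e he).a0 h z = T.a0 h z := by
  unfold Tri.a0
  rw [flip_vec_out43 he ho]

theorem flip_a1_out43 {e h : H} (he : T.Flippable e) (ho : T.Out e h) (z : ℂ) :
    (T.flip e he).a1 h z = T.a1 h z := by
  unfold Tri.a1
  rw [flip_vec_out43 he ho, flip_next_out43 he ho, flip_vec_out43 he ho.next]

theorem flip_a2_out43 {e h : H} (he : T.Flippable e) (ho : T.Out e h) (z : ℂ) :
    (T.flip e he).a2 h z = T.a2 h z := by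
  unfold Tri.a2
  rw [flip_prev_out43 he ho]
  have h1 : T.Out e (T.prev h) := ho.next.next
  rw [flip_vec_out43 he h1]

/-- The triangles outside the quadrilateral do not change. -/
theorem flip_reg_out43 {e h : H} (he : T.Flippable e) (ho : T.Out e h) {z : ℂ} :
    (T.flip e he).Reg h z ↔ T.Reg h z := by
  unfold Tri.Reg
  rw [flip_a0_out43 he ho, flip_a1_out43 he ho, flip_a2_out43 he ho]

theorem flip_int_out43 {e h : H} (he : T.Flippable e) (ho : T.Out e h) {z : ℂ} :
    (T.flip e he).Int h z ↔ T.Int h z := by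
  unfold Tri.Int
  rw [flip_a0_out43 he ho, flip_a1_out43 he ho, flip_a2_out43 he ho]

/-- The edges different from `e` do not change. -/
theorem flip_edg43 {e h : H} (he : T.Flippable e) (h1 : h ≠ e) (h2 : h ≠ T.opp e) {z : ℂ} :
    (T.flip e he).Edg h z ↔ T.Edg h z := by
  rw [Tri.edg_iff, Tri.edg_iff, show (T.flip e he).vec h = T.vec h from T.flipVec_ne h1 h2]

/-- On the old triangle of a dart different from `e`, `opp e` the new chart is the old one. -/
theorem flipφ_eq43 (C : Chart T X) {e h : H} (h1 : h ≠ e) (h2 : h ≠ T.opp e) {z : ℂ}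
    (hz : T.Reg h z) : C.flipφ e h z = C.φ h z := by
  rcases T.cases_six e h with ho | rfl | rfl | rfl | rfl | rfl | rfl
  · exact flipφ_out C ho z
  · exact absurd rfl h1
  · have hz' : T.Reg e (z + T.vec e) := by
      rw [← T.reg_next]; rwa [add_sub_cancel_right]
    rw [flipφ_at_a, quad_left C hz', ← C.rot e _ hz', add_sub_cancel_right]
  · have hz' : T.Reg e (z - T.vec (T.prev e)) := by
      rw [← T.reg_prev]; rwa [sub_add_cancel]
    rw [flipφ_at_b, quad_left C hz']
    have := C.rot (T.prev e) z hz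
    rwa [T.next_prev] at this
  · exact absurd rfl h2
  · have hz' : T.Reg (T.opp e) (z - T.vec e) := by
      rw [← T.reg_next]
      rwa [show z - T.vec e - T.vec (T.opp e) = z by rw [T.vec_opp]; ring]
    rw [flipφ_at_c, quad_right C hz', ← C.rot _ _ hz']
    rw [show z - T.vec e - T.vec (T.opp e) = z by rw [T.vec_opp]; ring]
  · have e1 : z + T.vec (T.next (T.opp e)) - T.vec e = z - T.vec (T.prev (T.opp e)) := by
      rw [vec_d43]; ring
    have hz' : T.Reg (T.opp e) (z - T.vec (T.prev (T.opp e))) := by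
      rw [← T.reg_prev]; rwa [sub_add_cancel]
    rw [flipφ_at_d, quad_right C (by rwa [e1]), e1]
    have := C.rot (T.prev (T.opp e)) z hz
    rwa [T.next_prev] at this

theorem flip_rot (C : Chart T X) {e : H} (he : T.Flippable e) (h : H) (z : ℂ)
    (hz : (T.flip e he).Reg h z) :
    C.flipφ e ((T.flip e he).next h) (z - (T.flip e he).vec h) = C.flipφ e h z := by
  have hb : T.vec (T.prev e) = -(T.vec e + T.vec (T.next e)) := T.vec_prev e
  have hd := vec_d43 T e
  have hop := T.vec_opp e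
  rcases T.cases_six e h with ho | rfl | rfl | rfl | rfl | rfl | rfl
  · rw [flip_next_out43 he ho, flip_vec_out43 he ho, flipφ_out C ho.next, flipφ_out C ho]
    exact C.rot h z ((flip_reg_out43 he ho).1 hz)
  · rw [show (T.flip h he).next h = T.prev h from T.flipNext_e h, flip_vec_e43, flipφ_at_b,
      flipφ_at_e]
    congr 1
    rw [hb, hd]; ring
  · rw [flip_next_a43, flip_vec_a43, flipφ_at_e', flipφ_at_a]
    congr 1
    rw [hb]; ring
  · rw [show (T.flip e he).next (T.prev e) = T.next (T.opp e) from T.flipNext_b e, flip_vec_b43,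
      flipφ_at_c, flipφ_at_b]
  · rw [show (T.flip e he).next (T.opp e) = T.prev (T.opp e) from T.flipNext_e' e, flip_vec_e'43,
      flipφ_at_d, flipφ_at_e']
    congr 1
    rw [hb, hd]; ring
  · rw [flip_next_c43, flip_vec_c43, flipφ_at_e, flipφ_at_c, sub_add_cancel]
  · rw [show (T.flip e he).next (T.prev (T.opp e)) = T.next e from T.flipNext_d e, flip_vec_d43,
      flipφ_at_a, flipφ_at_d]
    congr 1
    rw [hd]; ring

theorem flip_glue (C : Chart T X) {e : H} (he : T.Flippable e) (h : H) (z : ℂ)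
    (hz : (T.flip e he).Edg h z) :
    C.flipφ e ((T.flip e he).opp h) (z - (T.flip e he).vec h) = C.flipφ e h z := by
  have hb : T.vec (T.prev e) = -(T.vec e + T.vec (T.next e)) := T.vec_prev e
  have hd := vec_d43 T e
  change C.flipφ e (T.opp h) (z - (T.flip e he).vec h) = C.flipφ e h z
  by_cases h1 : h = e
  · subst h1
    rw [flip_vec_e43, flipφ_at_e', flipφ_at_e]
    congr 1
    rw [hb, hd]; ring
  by_cases h2 : h = T.opp e
  · subst h2
    rw [flip_vec_e'43, T.opp2, flipφ_at_e, flipφ_at_e']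
    congr 1
    rw [hb, hd]; ring
  have hz' := (flip_edg43 he h1 h2).1 hz
  rw [show (T.flip e he).vec h = T.vec h from T.flipVec_ne h1 h2, flipφ_eq43 C h1 h2 hz'.reg,
    flipφ_eq43 C ?_ ?_ (T.edg_opp.2 hz').reg]
  · exact C.glue h z hz'
  · intro h3; exact h2 (by rw [← h3, T.opp2])
  · intro h3; exact h1 (T.opp.injective h3)

/-- Every point of the closed quadrilateral is a value of the new chart. -/
theorem flip_surj_quad43 (C : Chart T X) {e : H} (he : T.Flippable e) {ζ : ℂ}
    (h : T.Reg e ζ ∨ T.Reg (T.opp e) (ζ - T.vec e)) :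
    ∃ h z, (T.flip e he).Reg h z ∧ C.flipφ e h z = C.quad e ζ := by
  rcases (quad_reg he ζ).1 h with h1 | h1
  · exact ⟨_, _, h1, flipφ_at_c C e ζ⟩
  · exact ⟨_, _, h1, by rw [flipφ_at_a, sub_add_cancel]⟩

theorem flip_surj (C : Chart T X) {e : H} (he : T.Flippable e) (x : X) :
    ∃ h z, (T.flip e he).Reg h z ∧ C.flipφ e h z = x := by
  obtain ⟨h, z, hz, rfl⟩ := C.surj x
  -- the two old triangles
  have hl : ∀ ζ, T.Reg e ζ → ∃ h z, (T.flip e he).Reg h z ∧ C.flipφ e h z = C.φ e ζ := by
    intro ζ hζ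
    obtain ⟨h, z, h1, h2⟩ := flip_surj_quad43 C he (Or.inl hζ)
    exact ⟨h, z, h1, by rw [h2, quad_left C hζ]⟩
  have hr : ∀ ζ, T.Reg (T.opp e) ζ →
      ∃ h z, (T.flip e he).Reg h z ∧ C.flipφ e h z = C.φ (T.opp e) ζ := by
    intro ζ hζ
    have hζ' : T.Reg (T.opp e) (ζ + T.vec e - T.vec e) := by rwa [add_sub_cancel_right]
    obtain ⟨h, z, h1, h2⟩ := flip_surj_quad43 C he (Or.inr hζ')
    exact ⟨h, z, h1, by rw [h2, quad_right C hζ', add_sub_cancel_right]⟩
  rcases T.cases_six e h with ho | rfl | rfl | rfl | rfl | rfl | rfl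
  · exact ⟨h, z, (flip_reg_out43 he ho).2 hz, flipφ_out C ho z⟩
  · exact hl z hz
  · have hz' : T.Reg e (z + T.vec e) := by
      rw [← T.reg_next]; rwa [add_sub_cancel_right]
    have h1 := C.rot e _ hz'
    rw [add_sub_cancel_right] at h1
    rw [h1]
    exact hl _ hz'
  · have hz' : T.Reg e (z - T.vec (T.prev e)) := by
      rw [← T.reg_prev]; rwa [sub_add_cancel]
    have h1 := C.rot (T.prev e) z hz
    rw [T.next_prev] at h1
    rw [← h1]
    exact hl _ hz'
  · exact hr z hz
  · have hz' : T.Reg (T.opp e) (z + T.vec (T.opp e)) := by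
      rw [← T.reg_next]; rwa [add_sub_cancel_right]
    have h1 := C.rot (T.opp e) _ hz'
    rw [add_sub_cancel_right] at h1
    rw [h1]
    exact hr _ hz'
  · have hz' : T.Reg (T.opp e) (z - T.vec (T.prev (T.opp e))) := by
      rw [← T.reg_prev]; rwa [sub_add_cancel]
    have h1 := C.rot (T.prev (T.opp e)) z hz
    rw [T.next_prev] at h1
    rw [← h1]
    exact hr _ hz'

end Pool.Agent.Helper79.G
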