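import Pool.Agent.Helper79.G.Sdl

/-!
# TF-G-CLIQUE: pairwise non crossing saddles are edges of one triangulation

`realize_one`: let `c'` be reachable from `c`, `E` a set of darts closed under `opp`, `a` a saddle of `c`
which crosses no edge `Sdl.edge h g`, `g ∈ E`, of `c'`. Then there is `c''` reachable from `c'` by flips
outside `E` in which `a` is an edge. Proof: `VP.struct` in `c'` (`VP.creach`). If `a` is an edge `g` of
`c'`: done (`c'' = c'`; equality of saddles by `Sdl.ext`, `nrm`). Otherwise a code `Sad k v l`; each state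
`s ∈ l` has `a.f (tin v s) = φ s.1 (tin v s * v - s.2)`, a point of the edge `s.1` of `c'` (`edg_tin`,
`edg_iff`: `= y vec s.1`, `0 < y < 1`), so `a` meets `Sdl.edge h s.1`; if `s.1 ∈ E` then, as they do not cross,
`a = Sdl.edge h s.1` or `a = (Sdl.edge h s.1).rev`; then the vectors are parallel, but `Crs v s` gives
`cr v (vec s.1) < 0` (`crs_vec`): contradiction. So `l` avoids `E`, `InsertionX` gives `c''` and `g` with the
same germ, `VP.eq_of_germ` and `Sdl.ext` give `a = Sdl.edge _ g`.

`realize`: induction on `F` (`Finset.induction_on`): for `insert a F` take `c'` for `F`,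
`E = {d b, opp (d b) : b ∈ F}`; the edges of `E` are the saddles of `F` and their reverses
(`Sdl.edge h (opp g) = (Sdl.edge h g).rev` by `glue`), which `a` does not cross (`Cross a b.rev → Cross a b`);
`realize_one`; the saddles of `F` persist (`CReach.persist`).

`clique`: `d` is injective on `F`, so `F.card ≤ card H`.
-/

set_option autoImplicit false

open Pool.Agent.Helper87.LS

namespace Pool.Agent.Helper79.G

variable {H X : Type}

/-- Two saddles with the same vector which agree on `(0, 1)` are equal. -/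
theorem Sdl.ext_in80 {c : CT H X} {a b : Sdl c} (hv : a.v = b.v)
    (hf : ∀ t : ℝ, 0 < t → t < 1 → a.f t = b.f t) : a = b := by
  refine Sdl.ext hv (funext fun t => ?_)
  by_cases ht : 0 < t ∧ t < 1
  · exact hf t ht.1 ht.2
  · rw [a.out t ht, b.out t ht]
    exact hf (1 / 2) (by norm_num) (by norm_num)

theorem Cross.of_rev80 {c : CT H X} {a b : Sdl c} (h : Cross a b.rev) : Cross a b := by
  obtain ⟨⟨x, y, h1, h2, h3, h4, h5⟩, h6, h7⟩ := h
  refine ⟨⟨x, 1 - y, h1, h2, by linarith, by linarith, h5⟩, fun e => h7 ?_, h6⟩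
  rw [Sdl.rev_rev]
  exact e

theorem realize_one [Finite H] (hins : InsertionX H X) {c c' : CT H X} (h : CReach ∅ c c')
    {E : Set H} (hE : ∀ g, g ∈ E → c'.T.opp g ∈ E) (a : Sdl c)
    (ha : ∀ g ∈ E, ¬ Cross a (Sdl.edge h g)) :
    ∃ c'', ∃ h' : CReach E c' c'', ∃ g, a = Sdl.edge (h.trans (h'.mono (Set.empty_subset E))) g := by
  have hvp : VP c'.C a.v a.f := (VP.creach h).2 a.vp
  rcases hvp.struct with ⟨g, hg, hf⟩ | ⟨k, l, hsad, ⟨ε, hε, hgerm⟩, hl⟩
  · refine ⟨c', CReach.refl, g, Sdl.ext_in80 hg.symm fun t h0 h1 => ?_⟩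
    rw [Sdl.edge_f _ _ h0 h1, hg]
    exact hf t h0 h1
  · have hlE : ∀ s ∈ l, s.1 ∉ E := by
      intro s hs hsE
      obtain ⟨h0, h1, hc, hfs⟩ := hl s hs
      obtain ⟨y, hy0, hy1, hy⟩ := c'.T.edg_iff.1 (edg_tin hc)
      have hcr := c'.T.crs_vec hc
      refine ha _ hsE ⟨⟨c'.T.tin a.v s, y, h0, h1, hy0, hy1, ?_⟩, fun e => ?_, fun e => ?_⟩
      · rw [Sdl.edge_f _ _ hy0 hy1, ← hy]
        exact hfs
      · have e1 : a.v = c'.T.vec s.1 := congrArg Sdl.v e
        rw [e1, cr_self] at hcr
        exact lt_irrefl _ hcr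
      · have e1 : a.v = -c'.T.vec s.1 := congrArg Sdl.v e
        have e2 : cr a.v (c'.T.vec s.1) = 0 := by
          rw [e1]
          unfold cr
          simp
          ring
        rw [e2] at hcr
        exact lt_irrefl _ hcr
    obtain ⟨c'', g, h', -, hg, ε', hε', hgerm'⟩ := hins c' E hE k a.v l hsad hlE
    refine ⟨c'', h', g, Sdl.ext_in80 hg.symm fun t h0 h1 => ?_⟩
    rw [Sdl.edge_f _ _ h0 h1]
    have hv1 : VP c''.C a.v a.f := (VP.creach h').2 hvp
    have hv2 : VP c''.C a.v fun t => c''.C.φ g (t * c''.T.vec g) := by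
      have := edge_vp c''.C g
      rw [hg] at this ⊢
      exact this
    refine hv1.eq_of_germ hv2 (ε := min ε ε') (lt_min hε hε') (fun τ k0 k1 => ?_) t h0 h1
    rw [hgerm τ k0 (k1.trans_le (min_le_left _ _)), hg]
    exact (hgerm' τ k0 (k1.trans_le (min_le_right _ _))).symm

theorem edge_opp {c c' : CT H X} (h : CReach ∅ c c') (g : H) :
    Sdl.edge h (c'.T.opp g) = (Sdl.edge h g).rev := by
  refine Sdl.ext_in80 (c'.T.vec_opp g) fun t h0 h1 => ?_
  have h2 : (Sdl.edge h g).rev.f t = (Sdl.edge h g).f (1 - t) := rfl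
  rw [h2, Sdl.edge_f _ _ h0 h1, Sdl.edge_f _ _ (show (0 : ℝ) < 1 - t by linarith) (by linarith)]
  have h3 := c'.C.glue g (((1 - t : ℝ) : ℂ) * c'.T.vec g)
    (c'.T.edg_iff.2 ⟨1 - t, by linarith, by linarith, rfl⟩)
  rw [← h3, c'.T.vec_opp]
  congr 1
  push_cast
  ring

theorem edge_persist {c c' c'' : CT H X} (h : CReach ∅ c c') {E : Set H} (h' : CReach E c' c'')
    {g : H} (hg : g ∈ E) :
    Sdl.edge (h.trans (h'.mono (Set.empty_subset E))) g = Sdl.edge h g := by
  obtain ⟨h1, h2⟩ := h'.persist hg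
  refine Sdl.ext_in80 h1 fun t k0 k1 => ?_
  rw [Sdl.edge_f _ _ k0 k1, Sdl.edge_f _ _ k0 k1, h1]
  exact h2 t k0 k1

theorem realize [Finite H] (hins : InsertionX H X) {c : CT H X} (F : Finset (Sdl c))
    (hF : ∀ a ∈ F, ∀ b ∈ F, ¬ Cross a b) :
    ∃ c', ∃ h : CReach ∅ c c', ∃ d : Sdl c → H, ∀ a ∈ F, Sdl.edge h (d a) = a := by
  classical
  induction F using Finset.induction_on with
  | empty =>
    exact ⟨c, CReach.refl, fun a => Classical.choose a.vp.start, fun a ha =>
      absurd ha (Finset.notMem_empty a)⟩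
  | insert a F haF ih =>
    obtain ⟨c', h, d, hd⟩ := ih fun x hx y hy =>
      hF x (Finset.mem_insert_of_mem hx) y (Finset.mem_insert_of_mem hy)
    obtain ⟨c'', h', g, hg⟩ := realize_one hins h
      (E := {g | ∃ b ∈ F, g = d b ∨ g = c'.T.opp (d b)})
      (by
        rintro g ⟨b, hb, rfl | rfl⟩
        · exact ⟨b, hb, Or.inr rfl⟩
        · exact ⟨b, hb, Or.inl (c'.T.opp2 _)⟩) a
      (by
        rintro g ⟨b, hb, rfl | rfl⟩
        · rw [hd b hb]
          exact hF a (Finset.mem_insert_self a F) b (Finset.mem_insert_of_mem hb)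
        · rw [edge_opp, hd b hb]
          exact fun hc => hF a (Finset.mem_insert_self a F) b (Finset.mem_insert_of_mem hb)
            hc.of_rev80)
    refine ⟨c'', h.trans (h'.mono (Set.empty_subset _)), fun x => if x = a then g else d x,
      fun x hx => ?_⟩
    rcases Finset.mem_insert.1 hx with rfl | hx'
    · simp only [if_true]
      exact hg.symm
    · have hne : x ≠ a := fun e => haF (e ▸ hx')
      simp only [if_neg hne]
      rw [edge_persist h h' (g := d x) ⟨x, hx', Or.inl rfl⟩]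
      exact hd x hx'

theorem clique [Fintype H] (hins : InsertionX H X) {c : CT H X} (F : Finset (Sdl c))
    (hF : ∀ a ∈ F, ∀ b ∈ F, ¬ Cross a b) : F.card ≤ Fintype.card H := by
  classical
  obtain ⟨c', h, d, hd⟩ := realize hins F hF
  have hinj : Set.InjOn d F := by
    intro a ha b hb hab
    rw [← hd a ha, ← hd b hb, hab]
  calc F.card = (F.image d).card := (Finset.card_image_of_injOn hinj).symm
    _ ≤ Fintype.card H := Finset.card_le_univ _

end Pool.Agent.Helper79.G
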