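import Pool.Agent.Helper79.G.Gap

/-!
# TF-G3-UP: the crossing lemma, case apex of the first triangle above the line

Mirror image of `G/CrossDn.lean` (read its header; the same proof with above and below exchanged).
Now `A := P` is the upper end of the edge, `h := g` is the corner at `A`, the apex `C` is above the line,
the next state is `s₁ := up (g, P)` (`s₁.2 = C`, lower end `P + vec g`). The invariant: a vector `w`,
`L < ‖w‖`, `1 ≤ ρ`, `0 < τ ≤ 1` with
 (1) `A + ρ w = p + τ (U - p)`, (2) `cr w (p - A) < 0`,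
 (3) for `0 < σ < τ`, `x = p + σ (U - p)`: `Into h (x - A)` and `RunsE T E (x - A) (cst h) (sh A s)`.
Start: `w = C - A = - vec (prev g)`, `cst g = sh A s₁`.
-/

set_option autoImplicit false

open Pool.Agent.Helper87.LS

namespace Pool.Agent.Helper79.G

variable {H : Type}

/-! ### Plane algebra -/

theorem cr_sub_left63 (a b z : ℂ) : cr (a - b) z = cr a z - cr b z := by
  unfold cr; simp; ring

theorem pluecker63 (x y e v : ℂ) :
    cr x y * cr e v = cr x e * cr y v - cr x v * cr y e := by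
  unfold cr; ring

/-- WEST LEMMA. -/
theorem west63 {v U D A U' : ℂ} (hev : 0 < cr (D - U) v) (hD : cr v D < 0)
    (hA : 0 < cr v A) (hU' : 0 < cr v U') (he : 0 < cr (D - U) (U' - U))
    (hw : cr (D - U) (A - U) < 0) : cr (D - U') (A - U') < 0 := by
  have key := pluecker63 (A - D) (U' - D) (D - U) v
  have e1 : cr (A - D) (D - U) = - cr (D - U) (A - U) := by unfold cr; simp; ring
  have e2 : cr (U' - D) v = -(cr v U' - cr v D) := by unfold cr; simp; ring
  have e3 : cr (A - D) v = -(cr v A - cr v D) := by unfold cr; simp; ring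
  have e4 : cr (U' - D) (D - U) = - cr (D - U) (U' - U) := by unfold cr; simp; ring
  have e5 : cr (D - U') (A - U') = cr (A - D) (U' - D) := by unfold cr; simp; ring
  rw [e1, e2, e3, e4] at key
  rw [e5]
  by_contra hcon
  push Not at hcon
  have h1 : 0 ≤ cr (A - D) (U' - D) * cr (D - U) v := mul_nonneg hcon hev.le
  rw [key] at h1
  have h2 : 0 < -cr (D - U) (A - U) * (cr v U' - cr v D) := mul_pos (by linarith) (by linarith)
  have h3 : 0 < (cr v A - cr v D) * cr (D - U) (U' - U) := mul_pos (by linarith) he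
  nlinarith

/-- The ray meets a new segment. -/
theorem ray63 {e w A U p Z : ℂ} {ρ : ℝ} (hew : 0 < cr e w) (hr : cr e (A + ρ * w - U) = 0)
    (ha : cr w (p - A) < 0) (hd : 0 ≤ cr w (Z - A)) (hp : 0 ≤ cr e (p - U)) (hZ : 0 ≤ cr e (Z - U)) :
    ∃ ρ' τ' : ℝ, ρ ≤ ρ' ∧ 0 < τ' ∧ τ' ≤ 1 ∧ A + ρ' * w = p + τ' * (Z - p) := by
  set a := cr w (p - A) with hadef
  set d := cr w (Z - A) with hddef
  have hda : 0 < d - a := by linarith
  have hτ1 : -a / (d - a) ≤ 1 := by rw [div_le_one hda]; linarith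
  have hτ0 : 0 < -a / (d - a) := div_pos (by linarith) hda
  refine ⟨cr e (p + (-a / (d - a) : ℝ) * (Z - p) - A) / cr e w, -a / (d - a), ?_, hτ0, hτ1, ?_⟩
  · rw [le_div_iff₀ hew]
    have e1 : cr e (p + (-a / (d - a) : ℝ) * (Z - p) - A)
        = (1 - -a / (d - a)) * cr e (p - U) + (-a / (d - a)) * cr e (Z - U) - cr e (A - U) := by
      rw [cr_sub_right, cr_add_right, cr_mul_right]
      simp only [cr_sub_right]
      ring
    have e2 : cr e (A - U) = - (ρ * cr e w) := by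
      have : cr e (A + ρ * w - U) = cr e (A - U) + ρ * cr e w := by
        rw [cr_sub_right, cr_add_right, cr_mul_right, cr_sub_right]; ring
      linarith
    rw [e1, e2]
    have h1 : 0 ≤ (1 - -a / (d - a)) * cr e (p - U) := mul_nonneg (by linarith) hp
    have h2 : 0 ≤ (-a / (d - a)) * cr e (Z - U) := mul_nonneg hτ0.le hZ
    linarith
  · have key : A + ((cr e (p + (-a / (d - a) : ℝ) * (Z - p) - A) / cr e w : ℝ) : ℂ) * w
        - (p + (-a / (d - a) : ℝ) * (Z - p)) = 0 := by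
      apply Surf.cr_solve46 hew.ne'
      · have e3 : cr e (A + ((cr e (p + (-a / (d - a) : ℝ) * (Z - p) - A) / cr e w : ℝ) : ℂ) * w
            - (p + (-a / (d - a) : ℝ) * (Z - p)))
            = (cr e (p + (-a / (d - a) : ℝ) * (Z - p) - A) / cr e w) * cr e w
              - cr e (p + (-a / (d - a) : ℝ) * (Z - p) - A) := by
          rw [cr_sub_right, cr_add_right, cr_mul_right, cr_sub_right e _ A]; ring
        rw [e3, div_mul_cancel₀ _ hew.ne', sub_self]
      · have e4 : cr w (A + ((cr e (p + (-a / (d - a) : ℝ) * (Z - p) - A) / cr e w : ℝ) : ℂ) * w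
            - (p + (-a / (d - a) : ℝ) * (Z - p))) = -((1 - -a / (d - a)) * a + (-a / (d - a)) * d) := by
          rw [cr_sub_right, cr_add_right, cr_mul_right, cr_self, cr_add_right, cr_mul_right, hadef, hddef]
          simp only [cr_sub_right]
          ring
        rw [e4]
        field_simp
        ring
    linear_combination key

/-- The ray does not cross the line `0, v` too early. -/
theorem ahead63 {v w A r : ℂ} {l L m m' ρ : ℝ} (hl0 : 0 < l) (hL : 20 * l ≤ L) (hA : 0 < cr v A)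
    (hAl : ‖A‖ ≤ l) (hm : 0 ≤ m) (hmm : m < m') (hm' : m' * ‖v‖ ≤ L / 4) (hwL : L < ‖w‖)
    (hρ : 1 ≤ ρ) (hr : A + ρ * w = r) (hvr : 0 < cr v r) (hb : cr w (m * v - A) < 0) :
    cr w (m' * v - A) < 0 := by
  by_contra hcon
  push Not at hcon
  rw [cr_sub_right, cr_mul_right] at hb hcon
  have hwv : 0 < cr w v := by
    by_contra h
    push Not at h
    nlinarith
  have hvw : cr v w = - cr w v := cr_swap _ _
  have h1 : ρ * cr w v < cr v A := by
    rw [← hr, cr_add_right, cr_mul_right, hvw] at hvr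
    linarith
  set q := cr v A / cr w v with hq
  have hq1 : 1 < q := by
    rw [hq, lt_div_iff₀ hwv]
    nlinarith
  set μ := cr w A / cr w v with hμ
  have hμ1 : m < μ := by rw [hμ, lt_div_iff₀ hwv]; linarith
  have hμ2 : μ ≤ m' := by rw [hμ, div_le_iff₀ hwv]; linarith
  have hqw : q * cr w v = cr v A := by rw [hq]; exact div_mul_cancel₀ _ hwv.ne'
  have hμw : μ * cr w v = cr w A := by rw [hμ]; exact div_mul_cancel₀ _ hwv.ne'
  have key : (μ : ℂ) * v - A - q * w = 0 := by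
    apply Surf.cr_solve46 hwv.ne'
    · rw [cr_sub_right, cr_sub_right, cr_mul_right, cr_mul_right, cr_self, hμw]; ring
    · rw [cr_sub_right, cr_sub_right, cr_mul_right, cr_mul_right, cr_self, hvw]; linarith
  have h2 : (q : ℂ) * w = μ * v - A := by linear_combination -key
  have h3 : ‖(q : ℂ) * w‖ = q * ‖w‖ := by
    rw [norm_mul, Complex.norm_real, Real.norm_of_nonneg (by linarith)]
  have h4 : ‖(μ : ℂ) * v - A‖ ≤ μ * ‖v‖ + l := by
    refine (norm_sub_le _ _).trans ?_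
    rw [norm_mul, Complex.norm_real, Real.norm_of_nonneg (by linarith)]
    linarith
  rw [← h2, h3] at h4
  have h5 : μ * ‖v‖ ≤ m' * ‖v‖ := mul_le_mul_of_nonneg_right hμ2 (norm_nonneg _)
  have h6 : 0 < ‖w‖ := by linarith
  nlinarith

/-! ### Generic cross product identities -/

theorem cr_lerp63 (w p U A : ℂ) (σ : ℝ) :
    cr w (p + σ * (U - p) - A) = (1 - σ) * cr w (p - A) + σ * cr w (U - A) := by
  unfold cr; simp; ring

theorem cr_lerp0_63 (w p U : ℂ) (σ : ℝ) :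
    cr w (p + σ * (U - p)) = (1 - σ) * cr w p + σ * cr w U := by
  unfold cr; simp; ring

theorem cr_ray63 (e A w U : ℂ) (ρ : ℝ) :
    cr e (A + ρ * w - U) = cr e (A - U) + ρ * cr e w := by
  unfold cr; simp; ring

/-- The point of the line on the edge of the state. -/
noncomputable def pt63 (T : Tri H) (v : ℂ) (s : H × ℂ) : ℂ := (T.tin v s : ℂ) * v

theorem pt63_mem (T : Tri H) {v : ℂ} {s : H × ℂ} (h : T.Crs v s) :
    ∃ t : ℝ, 0 < t ∧ t < 1 ∧ pt63 T v s = s.2 + t * T.vec s.1 := T.tin_mem h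

theorem cr_pt63 (T : Tri H) (v : ℂ) (s : H × ℂ) : cr v (pt63 T v s) = 0 := by
  unfold pt63
  rw [cr_mul_right, cr_self, mul_zero]

/-- The invariant, without the runs. -/
structure InvU0 (T : Tri H) (A : ℂ) (L : ℝ) (v : ℂ) (s : H × ℂ) (w : ℂ) (ρ τ : ℝ) : Prop where
  hw : L < ‖w‖
  hρ : 1 ≤ ρ
  hτ0 : 0 < τ
  hτ1 : τ ≤ 1
  ray : A + ρ * w = pt63 T v s + τ * (s.2 - pt63 T v s)
  below : cr w (pt63 T v s - A) < 0

/-- The invariant. -/
structure InvU (T : Tri H) (E : Set H) (A : ℂ) (L : ℝ) (h : H) (v : ℂ) (s : H × ℂ) (w : ℂ)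
    (ρ τ : ℝ) : Prop extends InvU0 T A L v s w ρ τ where
  runs : ∀ σ : ℝ, 0 < σ → σ < τ →
    T.Into h (pt63 T v s + σ * (s.2 - pt63 T v s) - A) ∧
      RunsE T E (pt63 T v s + σ * (s.2 - pt63 T v s) - A) (T.cst h) (sh A s)

theorem cr_vec_pos63 (T : Tri H) {v : ℂ} {s : H × ℂ} (hc : T.Crs v s) : 0 < cr (T.vec s.1) v := by
  have := T.crs_vec hc
  rw [cr_swap]
  linarith

/-- The line of the edge: `cr e (p - U) = 0`. -/
theorem cr_e_pt63 (T : Tri H) {v : ℂ} {s : H × ℂ} (hc : T.Crs v s) :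
    cr (T.vec s.1) (pt63 T v s - s.2) = 0 := by
  obtain ⟨t, _, _, htp⟩ := pt63_mem T hc
  rw [htp, show s.2 + (t : ℂ) * T.vec s.1 - s.2 = (t : ℂ) * T.vec s.1 by ring, cr_mul_right, cr_self,
    mul_zero]

/-- `a < 0 ≤ d`, `0 < cr e w`, the ray is on the line of the edge, `A` is west of it. -/
theorem InvU0.facts {T : Tri H} {A : ℂ} {L : ℝ} {v : ℂ} {s : H × ℂ} {w : ℂ}
    {ρ τ : ℝ} (hi : InvU0 T A L v s w ρ τ) (hc : T.Crs v s) :
    0 ≤ cr w (s.2 - A) ∧
    (1 - τ) * cr w (pt63 T v s - A) + τ * cr w (s.2 - A) = 0 ∧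
    0 < cr (T.vec s.1) w ∧ cr (T.vec s.1) (A + ρ * w - s.2) = 0 ∧ cr (T.vec s.1) (A - s.2) < 0 := by
  obtain ⟨t, ht0, ht1, htp⟩ := pt63_mem T hc
  have h1 : (1 - τ) * cr w (pt63 T v s - A) + τ * cr w (s.2 - A) = 0 := by
    rw [← cr_lerp63, ← hi.ray, show A + (ρ : ℂ) * w - A = ρ * w by ring, cr_mul_right, cr_self,
      mul_zero]
  have hτ0 := hi.hτ0
  have hτ1 := hi.hτ1
  have hb := hi.below
  have h3 : 0 ≤ cr w (s.2 - A) := by
    by_contra hcon
    push Not at hcon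
    have h4 : (1 - τ) * cr w (pt63 T v s - A) ≤ 0 :=
      mul_nonpos_of_nonneg_of_nonpos (by linarith) hb.le
    have h5 : τ * cr w (s.2 - A) < 0 := mul_neg_of_pos_of_neg hτ0 hcon
    linarith
  have h6 : cr w (s.2 - pt63 T v s) = -(t * cr w (T.vec s.1)) := by
    rw [htp, show s.2 - (s.2 + (t : ℂ) * T.vec s.1) = ((-t : ℝ) : ℂ) * T.vec s.1 by push_cast; ring,
      cr_mul_right]
    ring
  have h7 : 0 < cr w (s.2 - pt63 T v s) := by
    have : cr w (s.2 - pt63 T v s) = cr w (s.2 - A) - cr w (pt63 T v s - A) := by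
      rw [← cr_sub_right]; congr 1; ring
    linarith
  have h8 : 0 < cr (T.vec s.1) w := by
    rw [cr_swap]
    rw [h6] at h7
    have : 0 < t * (-cr w (T.vec s.1)) := by linarith
    exact (pos_iff_pos_of_mul_pos this).1 ht0
  have h9 : cr (T.vec s.1) (A + ρ * w - s.2) = 0 := by
    rw [hi.ray, cr_lerp63, cr_e_pt63 T hc, sub_self]
    unfold cr; simp
  refine ⟨h3, h1, h8, h9, ?_⟩
  have h10 := cr_ray63 (T.vec s.1) A w s.2 ρ
  have h11 : 0 < ρ * cr (T.vec s.1) w := mul_pos (by linarith [hi.hρ]) h8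
  linarith

/-- `A` is west of the edge, seen from the points of the edge. -/
theorem InvU0.west {T : Tri H} {A : ℂ} {L : ℝ} {v : ℂ} {s : H × ℂ} {w : ℂ}
    {ρ τ : ℝ} (hi : InvU0 T A L v s w ρ τ) (hc : T.Crs v s) (σ : ℝ) :
    cr (pt63 T v s + σ * (s.2 - pt63 T v s) - A) (T.vec s.1) < 0 := by
  obtain ⟨-, -, -, -, hw⟩ := hi.facts hc
  have h1 := cr_e_pt63 T hc
  have h2 := cr_lerp63 (T.vec s.1) (pt63 T v s) s.2 s.2 σ
  rw [h1] at h2
  have h3 : cr (T.vec s.1) (s.2 - s.2) = 0 := by unfold cr; simp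
  rw [h3] at h2
  rw [cr_swap]
  have h4 : cr (T.vec s.1) (pt63 T v s + σ * (s.2 - pt63 T v s) - A)
      = cr (T.vec s.1) (pt63 T v s + σ * (s.2 - pt63 T v s) - s.2) - cr (T.vec s.1) (A - s.2) := by
    rw [← cr_sub_right]; congr 1; ring
  rw [h4, h2]
  linarith

theorem InvU0.allow_up {T : Tri H} {A : ℂ} {L : ℝ} {v : ℂ} {s : H × ℂ} {w : ℂ}
    {ρ τ : ℝ} (hi : InvU0 T A L v s w ρ τ) (hc : T.Crs v s) {σ : ℝ} (h1 : σ < 1) :
    0 < cr (pt63 T v s + σ * (s.2 - pt63 T v s) - A) (s.2 - A) := by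
  have hw := hi.west hc σ
  obtain ⟨t, ht0, ht1, htp⟩ := pt63_mem T hc
  have key : cr (pt63 T v s + σ * (s.2 - pt63 T v s) - A) (s.2 - A)
      = -((1 - σ) * t * cr (pt63 T v s + σ * (s.2 - pt63 T v s) - A) (T.vec s.1)) := by
    rw [htp]
    unfold cr; simp; ring
  rw [key]
  have : 0 < (1 - σ) * t := mul_pos (by linarith) ht0
  nlinarith

theorem InvU0.allow_dn {T : Tri H} {A : ℂ} {L : ℝ} {v : ℂ} {s : H × ℂ} {w : ℂ}
    {ρ τ : ℝ} (hi : InvU0 T A L v s w ρ τ) (hc : T.Crs v s) {σ : ℝ} (h0 : 0 < σ) (h1 : σ < 1) :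
    cr (pt63 T v s + σ * (s.2 - pt63 T v s) - A) (s.2 + T.vec s.1 - A) < 0 := by
  have hw := hi.west hc σ
  obtain ⟨t, ht0, ht1, htp⟩ := pt63_mem T hc
  have key : cr (pt63 T v s + σ * (s.2 - pt63 T v s) - A) (s.2 + T.vec s.1 - A)
      = (1 - (1 - σ) * t) * cr (pt63 T v s + σ * (s.2 - pt63 T v s) - A) (T.vec s.1) := by
    rw [htp]
    unfold cr; simp; ring
  rw [key]
  have : 0 < 1 - (1 - σ) * t := by nlinarith
  nlinarith

theorem Into.smul63 {T : Tri H} {h : H} {x : ℂ} (hx : T.Into h x) {c : ℝ} (hc : 0 < c) :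
    T.Into h (c * x) := by
  obtain ⟨h1, h2⟩ := hx
  refine ⟨?_, ?_⟩
  · rw [cr_mul_right]; exact mul_pos hc h1
  · rw [cr_mul_left]; exact mul_pos hc h2

/-- (b) CROSSING. -/
theorem InvU.cross {T : Tri H} {E : Set H} {A : ℂ} {L : ℝ} {h : H} {v : ℂ} {s : H × ℂ} {w : ℂ}
    {ρ τ : ℝ} (hi : InvU T E A L h v s w ρ τ) (hc : T.Crs v s) (hA : 0 < cr v A) {x' : ℂ}
    (he : 0 < cr (T.vec s.1) (x' - s.2)) (hv : 0 ≤ cr v x') (hw : cr w (x' - A) < 0) :
    T.Into h (x' - A) ∧ RunsE T E (x' - A) (T.cst h) (sh A s) := by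
  obtain ⟨hd, hτ, hew, hr, hwest⟩ := hi.toInvU0.facts hc
  have hev := cr_vec_pos63 T hc
  have hvp := cr_pt63 T v s
  have hep := cr_e_pt63 T hc
  have hU : 0 < cr v s.2 := hc.1
  have hruns := hi.runs
  have hb := hi.below
  generalize pt63 T v s = p at hvp hep hτ hruns hb
  generalize T.vec s.1 = e at he hew hr hwest hev hep
  obtain ⟨den, hden⟩ : ∃ d, d = cr e (x' - s.2) - cr e (A - s.2) := ⟨_, rfl⟩
  have hden0 : 0 < den := by rw [hden]; linarith
  obtain ⟨lam, hlam⟩ : ∃ d, d = -cr e (A - s.2) / den := ⟨_, rfl⟩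
  have hlam0 : 0 < lam := by rw [hlam]; exact div_pos (by linarith) hden0
  have hlam1 : lam < 1 := by rw [hlam, div_lt_one hden0, hden]; linarith
  have hlamd : lam * den = -cr e (A - s.2) := by rw [hlam]; exact div_mul_cancel₀ _ hden0.ne'
  obtain ⟨x, hx⟩ : ∃ x : ℂ, x = A + lam * (x' - A) := ⟨_, rfl⟩
  have hxe : cr e (x - s.2) = 0 := by
    have : cr e (x - s.2) = cr e (A - s.2) + lam * (cr e (x' - s.2) - cr e (A - s.2)) := by
      rw [hx, cr_lerp63]; ring
    rw [this, ← hden, hlamd]; ring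
  have hxv : cr v x = (1 - lam) * cr v A + lam * cr v x' := by
    rw [hx, cr_lerp0_63]
  have hxv0 : 0 < cr v x := by
    rw [hxv]
    have h1 : 0 < (1 - lam) * cr v A := mul_pos (by linarith) hA
    have h2 : 0 ≤ lam * cr v x' := mul_nonneg hlam0.le hv
    linarith
  obtain ⟨σ, hσ⟩ : ∃ σ, σ = cr v x / cr v s.2 := ⟨_, rfl⟩
  have hσ0 : 0 < σ := by rw [hσ]; exact div_pos hxv0 hU
  have hσU : σ * cr v s.2 = cr v x := by rw [hσ]; exact div_mul_cancel₀ _ hU.ne'
  have hpx : p + σ * (s.2 - p) = x := by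
    have key : p + σ * (s.2 - p) - x = 0 := by
      apply Surf.cr_solve46 hev.ne'
      · have e1 : cr e (p + σ * (s.2 - p) - x)
            = (1 - σ) * cr e (p - s.2) - cr e (x - s.2) := by
          unfold cr; simp; ring
        rw [e1, hep, hxe]; ring
      · have e2 : cr v (p + σ * (s.2 - p) - x)
            = (1 - σ) * cr v p + σ * cr v s.2 - cr v x := by
          unfold cr; simp; ring
        rw [e2, hvp, hσU]; ring
    linear_combination key
  have hwx : cr w (x - A) = lam * cr w (x' - A) := by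
    rw [hx, show A + (lam : ℂ) * (x' - A) - A = lam * (x' - A) by ring, cr_mul_right]
  have hwx2 : cr w (x - A) = (1 - σ) * cr w (p - A) + σ * cr w (s.2 - A) := by
    rw [← hpx, cr_lerp63]
  have hστ : σ < τ := by
    have h1 : lam * cr w (x' - A) < 0 := mul_neg_of_pos_of_neg hlam0 hw
    by_contra hcon
    push Not at hcon
    have h2 : (1 - σ) * cr w (p - A) + σ * cr w (s.2 - A) < 0 := by rw [← hwx2, hwx]; exact h1
    nlinarith
  obtain ⟨g1, g2⟩ := hruns σ hσ0 hστ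
  rw [hpx] at g1 g2
  have hxx : x' - A = ((lam⁻¹ : ℝ) : ℂ) * (x - A) := by
    have : (lam : ℂ) ≠ 0 := by exact_mod_cast hlam0.ne'
    rw [hx]
    push_cast
    field_simp
    ring
  rw [hxx]
  exact ⟨Into.smul63 g1 (inv_pos.2 hlam0), g2.smul (inv_pos.2 hlam0)⟩

/-! ### Steps -/

theorem apex_east63 (T : Tri H) (s : H × ℂ) : 0 < cr (T.vec s.1) (T.apex s - s.2) := by
  have : T.apex s - s.2 = T.vec s.1 + T.vec (T.next s.1) := by unfold Tri.apex; ring
  rw [this, cr_add_right, cr_self, zero_add]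
  exact T.pos s.1

theorem pt_east_up63 (T : Tri H) {v : ℂ} {s : H × ℂ} (hc : T.Crs v (T.up s)) :
    0 < cr (T.vec s.1) (pt63 T v (T.up s) - s.2) := by
  obtain ⟨t, ht0, ht1, htp⟩ := pt63_mem T hc
  have h1 := apex_east63 T s
  have h2 := T.up_end s
  have h3 : (T.up s).2 = T.apex s := rfl
  have h4 : T.vec (T.up s).1 = s.2 + T.vec s.1 - T.apex s := by rw [← h2, h3]; ring
  have h5 : cr (T.vec s.1) (pt63 T v (T.up s) - s.2) = (1 - t) * cr (T.vec s.1) (T.apex s - s.2) := by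
    rw [htp, h4, h3]
    unfold cr; simp; ring
  rw [h5]
  exact mul_pos (by linarith) h1

theorem pt_east_dn63 (T : Tri H) {v : ℂ} {s : H × ℂ} (hc : T.Crs v (T.dn s)) :
    0 < cr (T.vec s.1) (pt63 T v (T.dn s) - s.2) := by
  obtain ⟨t, ht0, ht1, htp⟩ := pt63_mem T hc
  have h1 := apex_east63 T s
  have h2 := T.dn_end s
  have h3 : (T.dn s).2 = s.2 := rfl
  have h4 : T.vec (T.dn s).1 = T.apex s - s.2 := by rw [← h2, h3]; ring
  have h5 : cr (T.vec s.1) (pt63 T v (T.dn s) - s.2) = t * cr (T.vec s.1) (T.apex s - s.2) := by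
    rw [htp, h4, h3]
    unfold cr; simp; ring
  rw [h5]
  exact mul_pos ht0 h1

/-- A point `m v` of the line strictly east of the edge has `tin < m`. -/
theorem tin_lt63 (T : Tri H) {v : ℂ} {s : H × ℂ} (hc : T.Crs v s) {m : ℝ}
    (h : 0 < cr (T.vec s.1) (m * v - s.2)) : T.tin v s < m := by
  have h1 := cr_e_pt63 T hc
  have h2 := cr_vec_pos63 T hc
  unfold pt63 at h1
  rw [cr_sub_right, cr_mul_right] at h1 h
  have h3 : T.tin v s * cr (T.vec s.1) v < m * cr (T.vec s.1) v := by linarith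
  exact lt_of_mul_lt_mul_right h3 h2.le

theorem notE63 {T : Tri H} {E : Set H} {A : ℂ} {l L : ℝ} {v : ℂ} {s : H × ℂ} {w : ℂ} {ρ τ : ℝ}
    (hi : InvU0 T A L v s w ρ τ) (hc : T.Crs v s) (hl0 : 0 < l) (hL : 20 * l ≤ L)
    (hshort : ∀ g ∈ E, ‖T.vec g‖ ≤ l) (hAl : ‖A‖ ≤ l) (ht : 0 ≤ T.tin v s)
    (ht' : T.tin v s * ‖v‖ ≤ L / 4) : s.1 ∉ E := by
  intro hE
  have h1 := hshort _ hE
  obtain ⟨t, ht0, ht1, htp⟩ := pt63_mem T hc
  have h2 : (ρ : ℂ) * w = pt63 T v s + ((-(τ * t) : ℝ) : ℂ) * T.vec s.1 - A := by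
    have h3 := hi.ray
    have h4 : s.2 - pt63 T v s = ((-t : ℝ) : ℂ) * T.vec s.1 := by rw [htp]; push_cast; ring
    rw [h4] at h3
    push_cast at h3 ⊢
    linear_combination h3
  have h5 : ‖(ρ : ℂ) * w‖ ≤ L / 4 + l + l := by
    rw [h2]
    refine (norm_sub_le _ _).trans ?_
    refine add_le_add ((norm_add_le _ _).trans ?_) hAl
    refine add_le_add ?_ ?_
    · unfold pt63
      rw [norm_mul, Complex.norm_real, Real.norm_of_nonneg ht]
      exact ht'
    · rw [norm_mul, Complex.norm_real, norm_neg, Real.norm_of_nonneg (mul_nonneg hi.hτ0.le ht0.le)]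
      have : τ * t ≤ 1 := by nlinarith [hi.hτ0, hi.hτ1]
      have h6 := norm_nonneg (T.vec s.1)
      nlinarith [mul_nonneg hi.hτ0.le ht0.le]
  rw [norm_mul, Complex.norm_real, Real.norm_of_nonneg (by linarith [hi.hρ])] at h5
  have h7 := hi.hw
  have h8 := hi.hρ
  nlinarith [norm_nonneg w]

/-- The points of the new edge: conclusion of `cross`. -/
theorem InvU.next {T : Tri H} {E : Set H} {A : ℂ} {L : ℝ} {h : H} {v : ℂ} {s s' : H × ℂ} {w : ℂ}
    {ρ τ : ℝ} (hi : InvU T E A L h v s w ρ τ) (hc : T.Crs v s) (hc' : T.Crs v s') (hA : 0 < cr v A)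
    (he : 0 < cr (T.vec s.1) (pt63 T v s' - s.2)) (he' : 0 ≤ cr (T.vec s.1) (s'.2 - s.2))
    {σ : ℝ} (h0 : 0 < σ) (h1 : σ < 1)
    (hn : (1 - σ) * cr w (pt63 T v s' - A) + σ * cr w (s'.2 - A) < 0) :
    T.Into h (pt63 T v s' + σ * (s'.2 - pt63 T v s') - A) ∧
      RunsE T E (pt63 T v s' + σ * (s'.2 - pt63 T v s') - A) (T.cst h) (sh A s) := by
  apply hi.cross hc hA
  · rw [cr_lerp63]
    have g1 : 0 < (1 - σ) * cr (T.vec s.1) (pt63 T v s' - s.2) := mul_pos (by linarith) he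
    have g2 : 0 ≤ σ * cr (T.vec s.1) (s'.2 - s.2) := mul_nonneg h0.le he'
    linarith
  · rw [cr_lerp0_63, cr_pt63, mul_zero, zero_add]
    exact mul_nonneg h0.le hc'.1.le
  · rw [cr_lerp63]
    exact hn

theorem neg_of_zero63 {a d τ σ : ℝ} (ha : a < 0) (hd : 0 ≤ d) (hz : (1 - τ) * a + τ * d = 0)
    (hσ : σ < τ) : (1 - σ) * a + σ * d < 0 := by
  nlinarith

/-- The new state after a step. -/
theorem InvU.step {T : Tri H} {E : Set H} {A : ℂ} {l L : ℝ} {h : H} {v : ℂ} {s s' : H × ℂ} {w : ℂ}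
    {ρ τ : ℝ} (hi : InvU T E A L h v s w ρ τ) (hc : T.Crs v s) (hA : 0 < cr v A)
    (hl0 : 0 < l) (hL : 20 * l ≤ L) (hgap : Gap T E L) (hins : Insertion T E)
    (hshort : ∀ g ∈ E, ‖T.vec g‖ ≤ l) (hAl : ‖A‖ ≤ l) (ht : 0 ≤ T.tin v s)
    (hs' : (0 < cr v (T.apex s) ∧ s' = T.up s) ∨ (cr v (T.apex s) < 0 ∧ s' = T.dn s))
    (hm : T.tin v s' * ‖v‖ ≤ L / 4) :
    T.tin v s < T.tin v s' ∧ s'.1 ∉ E ∧ ∃ (w' : ℂ) (ρ' τ' : ℝ), InvU T E A L h v s' w' ρ' τ' := by
  have hc' : T.Crs v s' := by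
    rcases hs' with ⟨ha, rfl⟩ | ⟨ha, rfl⟩
    · exact T.crs_up hc ha
    · exact T.crs_dn hc ha
  have he : 0 < cr (T.vec s.1) (pt63 T v s' - s.2) := by
    rcases hs' with ⟨ha, rfl⟩ | ⟨ha, rfl⟩
    · exact pt_east_up63 T hc'
    · exact pt_east_dn63 T hc'
  have he' : 0 ≤ cr (T.vec s.1) (s'.2 - s.2) := by
    rcases hs' with ⟨ha, rfl⟩ | ⟨ha, rfl⟩
    · exact (apex_east63 T s).le
    · have : (T.dn s).2 - s.2 = 0 := by
        show s.2 - s.2 = 0
        ring
      rw [this]; unfold cr; simp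
  have htt : T.tin v s < T.tin v s' := tin_lt63 T hc he
  obtain ⟨hd, hz, hew, hr, hwest⟩ := hi.toInvU0.facts hc
  -- the ray is ahead of `p'`
  have hb' : cr w (pt63 T v s' - A) < 0 := by
    have hvr : 0 < cr v (pt63 T v s + τ * (s.2 - pt63 T v s)) := by
      rw [cr_lerp0_63, cr_pt63, mul_zero, zero_add]
      exact mul_pos hi.hτ0 hc.1
    exact ahead63 hl0 hL hA hAl ht htt hm hi.hw hi.hρ hi.ray hvr hi.below
  -- finishing from the weak invariant
  have fin : ∀ (w' : ℂ) (ρ' τ' : ℝ), InvU0 T A L v s' w' ρ' τ' →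
      (∀ σ : ℝ, 0 < σ → σ < τ' →
        (1 - σ) * cr w (pt63 T v s' - A) + σ * cr w (s'.2 - A) < 0) →
      s'.1 ∉ E ∧ InvU T E A L h v s' w' ρ' τ' := by
    intro w' ρ' τ' hi' hneg
    have hE : s'.1 ∉ E := notE63 hi' hc' hl0 hL hshort hAl (ht.trans htt.le) hm
    refine ⟨hE, hi', ?_⟩
    intro σ h0 h1
    have hσ1 : σ < 1 := lt_of_lt_of_le h1 hi'.hτ1
    obtain ⟨g1, g2⟩ := hi.next hc hc' hA he he' h0 hσ1 (hneg σ h0 h1)
    refine ⟨g1, ?_⟩
    rcases hs' with ⟨ha, hs'⟩ | ⟨ha, hs'⟩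
    · have k := hi'.allow_up hc' hσ1
      have e1 : s'.2 = T.apex s := by rw [hs']; rfl
      have e2 : sh A s' = T.up (sh A s) := by rw [T.up_sh, hs']
      rw [e2]
      refine RunsE.up g2 ?_ ?_
      · rw [T.apex_sh, ← e1]; exact k
      · rw [← e2]; exact hE
    · have k := hi'.allow_dn hc' h0 hσ1
      have e1 : s'.2 + T.vec s'.1 = T.apex s := by rw [hs']; exact T.dn_end s
      have e2 : sh A s' = T.dn (sh A s) := by rw [T.dn_sh, hs']
      rw [e2]
      refine RunsE.dn g2 ?_ ?_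
      · rw [T.apex_sh, ← e1]; exact k
      · rw [← e2]; exact hE
  refine ⟨htt, ?_⟩
  by_cases hcase : 0 ≤ cr w (s'.2 - A)
  · -- same ray
    obtain ⟨ρ', τ', k1, k2, k3, k4⟩ := ray63 hew hr hb' hcase he.le he'
    have hi' : InvU0 T A L v s' w ρ' τ' := ⟨hi.hw, hi.hρ.trans k1, k2, k3, k4, hb'⟩
    obtain ⟨hd', hz', -, -, -⟩ := hi'.facts hc'
    obtain ⟨r1, r2⟩ := fin w ρ' τ' hi' (fun σ _ h1 => neg_of_zero63 hb' hd' hz' h1)
    exact ⟨r1, w, ρ', τ', r2⟩
  · push Not at hcase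
    rcases hs' with ⟨ha, hs'⟩ | ⟨ha, hs'⟩
    · -- new ray
      have e1 : s'.2 = T.apex s := by rw [hs']; rfl
      have hax : cr w (T.apex s - A) < 0 := by rw [← e1]; exact hcase
      obtain ⟨c1, c2⟩ := hi.cross hc hA (apex_east63 T s) ha.le hax
      have hwL : L < ‖T.apex s - A‖ := gap_saddle hgap hins c1 c2 (T.apex_sh A s)
      obtain ⟨t, ht0, ht1, htp⟩ := pt63_mem T hc'
      have e2 : T.vec s'.1 = s.2 + T.vec s.1 - s'.2 := by
        have := T.up_end s
        rw [← hs'] at this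
        rw [← this]; ring
      have hw63 : cr (s.2 + T.vec s.1 - s'.2) (A - s'.2) < 0 := by
        apply west63 (v := v) (U := s.2) (D := s.2 + T.vec s.1) (A := A) (U' := s'.2)
        · rw [show s.2 + T.vec s.1 - s.2 = T.vec s.1 by ring]; exact cr_vec_pos63 T hc
        · exact hc.2
        · exact hA
        · exact hc'.1
        · rw [show s.2 + T.vec s.1 - s.2 = T.vec s.1 by ring, e1]; exact apex_east63 T s
        · rw [show s.2 + T.vec s.1 - s.2 = T.vec s.1 by ring]; exact hwest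
      rw [← e2] at hw63
      have hbel : cr (s'.2 - A) (pt63 T v s' - A) < 0 := by
        have : cr (s'.2 - A) (pt63 T v s' - A) = t * cr (T.vec s'.1) (A - s'.2) := by
          rw [htp]; unfold cr; simp; ring
        rw [this]
        exact mul_neg_of_pos_of_neg ht0 hw63
      have hi' : InvU0 T A L v s' (s'.2 - A) 1 1 := by
        refine ⟨by rw [e1]; exact hwL, le_refl _, zero_lt_one, le_refl _, ?_, hbel⟩
        push_cast; ring
      obtain ⟨r1, r2⟩ := fin (s'.2 - A) 1 1 hi' (by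
        intro σ h0 h1
        have g1 : (1 - σ) * cr w (pt63 T v s' - A) < 0 := mul_neg_of_pos_of_neg (by linarith) hb'
        have g2 : σ * cr w (s'.2 - A) < 0 := mul_neg_of_pos_of_neg h0 hcase
        linarith)
      exact ⟨r1, _, _, _, r2⟩
    · exfalso
      have e1 : s'.2 = s.2 := by rw [hs']; rfl
      rw [e1] at hcase
      linarith

/-- The vertex on the line. -/
theorem InvU.vertex {T : Tri H} {E : Set H} {A : ℂ} {l L : ℝ} {h : H} {v : ℂ} {s : H × ℂ} {w : ℂ}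
    {ρ τ : ℝ} (hi : InvU T E A L h v s w ρ τ) (hc : T.Crs v s) (hA : 0 < cr v A)
    (hl0 : 0 < l) (hL : 20 * l ≤ L) (hgap : Gap T E L) (hins : Insertion T E)
    (hAl : ‖A‖ ≤ l) (ht : 0 ≤ T.tin v s) {t : ℝ} (hap : T.apex s = t * v) :
    L / 4 < t * ‖v‖ := by
  by_contra hcon
  push Not at hcon
  have he := apex_east63 T s
  have htt : T.tin v s < t := tin_lt63 T hc (by rw [← hap]; exact he)
  have hvr : 0 < cr v (pt63 T v s + τ * (s.2 - pt63 T v s)) := by
    rw [cr_lerp0_63, cr_pt63, mul_zero, zero_add]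
    exact mul_pos hi.hτ0 hc.1
  have hb' : cr w (t * v - A) < 0 :=
    ahead63 hl0 hL hA hAl ht htt hcon hi.hw hi.hρ hi.ray hvr hi.below
  rw [← hap] at hb'
  have hva : 0 ≤ cr v (T.apex s) := by rw [hap, cr_mul_right, cr_self, mul_zero]
  obtain ⟨c1, c2⟩ := hi.cross hc hA he hva hb'
  have hwL : L < ‖T.apex s - A‖ := gap_saddle hgap hins c1 c2 (T.apex_sh A s)
  have h1 : ‖T.apex s - A‖ ≤ L / 4 + l := by
    refine (norm_sub_le _ _).trans (add_le_add ?_ hAl)
    rw [hap, norm_mul, Complex.norm_real, Real.norm_of_nonneg (ht.trans htt.le)]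
    exact hcon
  linarith

theorem cst_up63 (T : Tri H) (g : H) (P : ℂ) : sh P (T.up (g, P)) = T.cst g := by
  unfold sh Tri.up Tri.cst Tri.apex Tri.prev
  have h := T.closed g
  simp only [Prod.mk.injEq, true_and]
  linear_combination h

/-- START. -/
theorem start63 {T : Tri H} {E : Set H} {L : ℝ} (hE : ∀ g, g ∈ E → T.opp g ∈ E)
    (hgap : Gap T E L) {g : H} {v P : ℂ} (hn : T.next g ∉ E) (hp : T.prev g ∉ E)
    (hc : T.Crs v (g, P)) (ha : 0 < cr v (T.apex (g, P))) :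
    InvU T E P L g v (T.up (g, P)) (T.apex (g, P) - P) 1 1 := by
  have hc' := T.crs_up hc ha
  obtain ⟨t, ht0, ht1, htp⟩ := pt63_mem T hc'
  have hcl := T.closed g
  have hw : T.apex (g, P) - P = -T.vec (T.prev g) := by
    unfold Tri.apex Tri.prev
    simp only
    linear_combination hcl
  have hw2 : T.apex (g, P) - P = T.vec g + T.vec (T.next g) := by
    unfold Tri.apex
    simp only
    ring
  have e1 : (T.up (g, P)).2 = T.apex (g, P) := rfl
  have e2 : T.vec (T.up (g, P)).1 = -T.vec (T.next g) := by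
    show T.vec (T.opp (T.next g)) = _
    exact T.vec_opp _
  have hpos := T.pos g
  refine ⟨⟨?_, le_refl _, zero_lt_one, le_refl _, ?_, ?_⟩, ?_⟩
  · rw [hw, norm_neg]
    exact hgap T Reach.refl _ hp
  · rw [e1]; push_cast; ring
  · have : cr (T.apex (g, P) - P) (pt63 T v (T.up (g, P)) - P) = -(t * cr (T.vec g) (T.vec (T.next g))) := by
      rw [htp, e1, e2, show T.apex (g, P) + (t : ℂ) * -T.vec (T.next g) - P
        = (T.apex (g, P) - P) + ((-t : ℝ) : ℂ) * T.vec (T.next g) by push_cast; ring, hw2]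
      unfold cr; simp; ring
    rw [this]
    have := mul_pos ht0 hpos
    linarith
  · intro σ h0 h1
    have hx : pt63 T v (T.up (g, P)) + (σ : ℂ) * ((T.up (g, P)).2 - pt63 T v (T.up (g, P))) - P
        = T.vec g + T.vec (T.next g) - ((t * (1 - σ) : ℝ) : ℂ) * T.vec (T.next g) := by
      rw [htp, e1, e2, ← hw2]; push_cast; ring
    have hθ0 : 0 < t * (1 - σ) := mul_pos ht0 (by linarith)
    have hθ1 : t * (1 - σ) < 1 := by nlinarith
    refine ⟨?_, ?_⟩
    · rw [hx]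
      refine ⟨?_, ?_⟩
      · have : cr (T.vec g) (T.vec g + T.vec (T.next g) - ((t * (1 - σ) : ℝ) : ℂ) * T.vec (T.next g))
            = (1 - t * (1 - σ)) * cr (T.vec g) (T.vec (T.next g)) := by
          rw [cr_sub_right, cr_add_right, cr_mul_right, cr_self]; ring
        rw [this]
        exact mul_pos (by linarith) hpos
      · rw [← hw, hw2]
        have : cr (T.vec g + T.vec (T.next g) - ((t * (1 - σ) : ℝ) : ℂ) * T.vec (T.next g))
            (T.vec g + T.vec (T.next g)) = (t * (1 - σ)) * cr (T.vec g) (T.vec (T.next g)) := by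
          unfold cr; simp; ring
        rw [this]
        exact mul_pos hθ0 hpos
    · rw [cst_up63]
      apply RunsE.refl
      intro hcon
      have : T.opp (T.opp (T.next g)) ∈ E := hE _ hcon
      rw [T.opp2] at this
      exact hn this

theorem crossing_up {T : Tri H} {E : Set H} {l L : ℝ} (hE : ∀ g, g ∈ E → T.opp g ∈ E)
    (hL : 20 * l ≤ L) (hgap : Gap T E L) (hins : Insertion T E) (hshort : ∀ g ∈ E, ‖T.vec g‖ ≤ l)
    {g : H} {v P : ℂ} (hg : g ∈ E) (hn : T.next g ∉ E) (hp : T.prev g ∉ E) (hc : T.Crs v (g, P))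
    (h0 : ∃ t : ℝ, 0 < t ∧ t < 1 ∧ P + t * T.vec g = 0) (ha : 0 < cr v (T.apex (g, P))) :
    ∀ s, T.Runs v (T.up (g, P)) s → T.tin v s * ‖v‖ ≤ L / 4 →
      s.1 ∉ E ∧ ∀ t : ℝ, T.apex s = t * v → L / 4 < t * ‖v‖ := by
  obtain ⟨t₀, ht0, ht1, htP⟩ := h0
  have hA : 0 < cr v P := hc.1
  have hgl := hshort g hg
  have hg0 : T.vec g ≠ 0 := by
    intro h
    have := T.pos g
    rw [h] at this
    unfold cr at this
    simp at this
  have hl0 : 0 < l := lt_of_lt_of_le (norm_pos_iff.2 hg0) hgl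
  have hP : P = ((-t₀ : ℝ) : ℂ) * T.vec g := by push_cast; linear_combination htP
  have hAl : ‖P‖ ≤ l := by
    rw [hP, norm_mul, Complex.norm_real, norm_neg, Real.norm_of_nonneg ht0.le]
    nlinarith [norm_nonneg (T.vec g)]
  have hc₁ := T.crs_up hc ha
  have htin0 : T.tin v (g, P) = 0 := by
    unfold Tri.tin
    have : cr P (T.vec g) = 0 := by rw [hP, cr_mul_left, cr_self, mul_zero]
    simp only
    rw [this, zero_div]
  have htin1 : 0 < T.tin v (T.up (g, P)) := by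
    have := tin_lt63 T hc (m := T.tin v (T.up (g, P))) (pt_east_up63 T hc₁)
    rw [htin0] at this
    exact this
  have main : ∀ s, T.Runs v (T.up (g, P)) s → T.tin v s * ‖v‖ ≤ L / 4 →
      s.1 ∉ E ∧ 0 ≤ T.tin v s ∧ ∃ (w : ℂ) (ρ τ : ℝ), InvU T E P L g v s w ρ τ := by
    intro s hs
    induction hs with
    | refl =>
      intro hm
      have hi := start63 hE hgap hn hp hc ha
      exact ⟨notE63 hi.toInvU0 hc₁ hl0 hL hshort hAl htin1.le hm, htin1.le, _, _, _, hi⟩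
    | @up s hs ha' ih =>
      intro hm
      have hcs := T.crs_runs hc₁ hs
      have hlt : T.tin v s < T.tin v (T.up s) :=
        tin_lt63 T hcs (pt_east_up63 T (T.crs_up hcs ha'))
      obtain ⟨-, h2, w, ρ, τ, hi⟩ := ih (le_trans (mul_le_mul_of_nonneg_right hlt.le (norm_nonneg _)) hm)
      obtain ⟨r1, r2, r3⟩ := hi.step hcs hA hl0 hL hgap hins hshort hAl h2 (Or.inl ⟨ha', rfl⟩) hm
      exact ⟨r2, h2.trans r1.le, r3⟩
    | @dn s hs ha' ih =>
      intro hm
      have hcs := T.crs_runs hc₁ hs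
      have hlt : T.tin v s < T.tin v (T.dn s) :=
        tin_lt63 T hcs (pt_east_dn63 T (T.crs_dn hcs ha'))
      obtain ⟨-, h2, w, ρ, τ, hi⟩ := ih (le_trans (mul_le_mul_of_nonneg_right hlt.le (norm_nonneg _)) hm)
      obtain ⟨r1, r2, r3⟩ := hi.step hcs hA hl0 hL hgap hins hshort hAl h2 (Or.inr ⟨ha', rfl⟩) hm
      exact ⟨r2, h2.trans r1.le, r3⟩
  intro s hs hm
  obtain ⟨m1, m2, w, ρ, τ, hi⟩ := main s hs hm
  refine ⟨m1, ?_⟩
  intro t hap
  exact hi.vertex (T.crs_runs hc₁ hs) hA hl0 hL hgap hins hAl m2 hap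

end Pool.Agent.Helper79.G
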