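import Pool.Agent.Helper79.G.CrossDn
import Pool.Agent.Helper79.G.CrossUp

/-!
# G3: the crossing lemma

A straight segment of length at most `L / 4` which starts at an interior point of an edge `g ∈ E` and
enters a triangle whose other sides are not in `E` meets no edge of `E` and no vertex.
-/

set_option autoImplicit false

open Pool.Agent.Helper87.LS

namespace Pool.Agent.Helper79.G

variable {H : Type}

theorem runs_cases {T : Tri H} {v : ℂ} {s t : H × ℂ} (h : T.Runs v s t) :
    t = s ∨ (0 < cr v (T.apex s) ∧ T.Runs v (T.up s) t) ∨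
      (cr v (T.apex s) < 0 ∧ T.Runs v (T.dn s) t) := by
  induction h with
  | refl => left; rfl
  | @up t _ ha ih =>
    right
    rcases ih with rfl | ⟨h1, h2⟩ | ⟨h1, h2⟩
    · left; exact ⟨ha, Tri.Runs.refl⟩
    · left; exact ⟨h1, Tri.Runs.up h2 ha⟩
    · right; exact ⟨h1, Tri.Runs.up h2 ha⟩
  | @dn t _ ha ih =>
    right
    rcases ih with rfl | ⟨h1, h2⟩ | ⟨h1, h2⟩
    · right; exact ⟨ha, Tri.Runs.refl⟩
    · left; exact ⟨h1, Tri.Runs.dn h2 ha⟩
    · right; exact ⟨h1, Tri.Runs.dn h2 ha⟩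

theorem crossing {T : Tri H} {E : Set H} {l L : ℝ} (hE : ∀ g, g ∈ E → T.opp g ∈ E)
    (hL : 20 * l ≤ L) (hgap : Gap T E L) (hins : Insertion T E) (hshort : ∀ g ∈ E, ‖T.vec g‖ ≤ l)
    {g : H} {v P : ℂ} (hg : g ∈ E) (hn : T.next g ∉ E) (hp : T.prev g ∉ E) (hc : T.Crs v (g, P))
    (h0 : ∃ t : ℝ, 0 < t ∧ t < 1 ∧ P + t * T.vec g = 0) :
    ∀ s, T.Runs v (g, P) s → T.tin v s * ‖v‖ ≤ L / 4 →
      (s = (g, P) ∨ s.1 ∉ E) ∧ ∀ t : ℝ, T.apex s = t * v → L / 4 < t * ‖v‖ := by
  intro s hs hl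
  rcases runs_cases hs with rfl | ⟨h1, h2⟩ | ⟨h1, h2⟩
  · refine ⟨Or.inl rfl, ?_⟩
    intro t ht
    -- the apex of the first triangle is on the line: `L < |apex - P| ≤ t ‖v‖ + l`
    obtain ⟨t0, ht0, ht1, hP⟩ := h0
    have h3 : L < ‖T.vec (T.prev g)‖ := hgap T Reach.refl _ hp
    have h4 : T.vec (T.prev g) = P - T.apex (g, P) := by
      unfold Tri.apex; rw [T.vec_prev]; ring
    have h5 : ‖P‖ ≤ l := by
      have : P = -(t0 * T.vec g) := by linear_combination hP
      rw [this, norm_neg, norm_mul, Complex.norm_real, Real.norm_of_nonneg ht0.le]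
      have h6 := hshort g hg
      have h7 := norm_nonneg (T.vec g)
      nlinarith
    have h8 : ‖P - T.apex (g, P)‖ ≤ ‖P‖ + ‖T.apex (g, P)‖ := norm_sub_le _ _
    have h9 : ‖T.apex (g, P)‖ = |t| * ‖v‖ := by rw [ht, norm_mul, Complex.norm_real, Real.norm_eq_abs]
    have h11 : 0 < ‖T.vec g‖ := norm_pos_iff.2 (T.vec_ne_zero g)
    have h12 := hshort g hg
    -- `t` is positive
    have h10 : 0 < t := by
      have e1 : cr (T.vec g) (T.apex (g, P) - P) = cr (T.vec g) (T.vec (T.next g)) := by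
        unfold Tri.apex; simp only
        rw [show P + T.vec g + T.vec (T.next g) - P = T.vec g + T.vec (T.next g) by ring,
          cr_add_right, cr_self, zero_add]
      have e2 : cr (T.vec g) P = 0 := by
        have : P = ((-t0 : ℝ) : ℂ) * T.vec g := by push_cast; linear_combination hP
        rw [this, cr_mul_right, cr_self, mul_zero]
      rw [cr_sub_right, e2, sub_zero, ht, cr_mul_right] at e1
      have e3 := T.pos g
      have e4 : 0 < cr (T.vec g) v := by
        have := T.crs_vec hc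
        simp only at this
        rw [cr_swap]; linarith
      by_contra hneg
      push Not at hneg
      have := mul_nonpos_of_nonpos_of_nonneg hneg e4.le
      nlinarith
    rw [abs_of_pos h10] at h9
    rw [h4] at h3
    linarith
  · obtain ⟨h3, h4⟩ := crossing_up hE hL hgap hins hshort hg hn hp hc h0 h1 s h2 hl
    exact ⟨Or.inr h3, h4⟩
  · obtain ⟨h3, h4⟩ := crossing_dn hE hL hgap hins hshort hg hn hp hc h0 h1 s h2 hl
    exact ⟨Or.inr h3, h4⟩

end Pool.Agent.Helper79.G
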