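import Pool.Agent.Helper79.G.Gap

/-!
# TF-G3-DN: the crossing lemma, case apex of the first triangle below the line

Setting: `Gap T E L`, `Insertion T E`, edges of `E` have length `≤ l`, `20 l ≤ L`. The line through `0`
in the direction `v` enters the triangle of `g ∈ E` (the other two sides are not in `E`) through the
interior point `0` of the edge `g`, placed at `P`. `A := P + vec g` is the lower end of the edge,
`h := next g` is the corner of this triangle at `A`. The apex `C` of the triangle is below the line, so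
the next state is `s₁ := dn (g, P)`, `s₁.2 = P`, lower end `C`.
CLAIM: for every state `s` reached from `s₁` with `|tin v s * v| = tin v s * ‖v‖ ≤ L / 4`:
`s.1 ∉ E`, and if the apex of `s` is the point `t * v` of the line then `t * ‖v‖ > L / 4`.

NOTATION for a state `s`: `U = s.2` (above: `cr v U > 0`), `D = s.2 + vec s.1` (below: `cr v D < 0`),
`p = tin v s * v` the point of the line on the edge (`tin_mem`: `p = U + t (D - U)`, `0 < t < 1`).
`|A| ≤ l` and `cr v A < 0`, because `0 = P + t₀ vec g`, `A = (1 - t₀) vec g`. Note `tin v s₁ ≥ 0` and `tin`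
increases along runs (`tin_lt_up`, `tin_lt_dn` below), because the apex is east of the edge.

INVARIANT `Inv s`: there are a vector `w` with `L < ‖w‖` and `1 ≤ ρ`, `0 < τ ≤ 1` such that
 (1) `r := A + ρ w = p + τ (D - p)` (the ray from `A` in direction `w` meets the lower part of the edge
     in `r`, at parameter at least one);
 (2) `0 < cr w (p - A)` (`p` is above the ray);
 (3) for every `0 < σ < τ` the point `x = p + σ (D - p)` satisfies: `Into h (x - A)` and
     `RunsE T E (x - A) (cst h) (sh A s)`, i.e. the straight run from the corner `A` to `x` passes through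
     the same triangles and avoids `E`.
Consequences of (1), (2): with `a = cr w (p - A) > 0`, `d = - cr w (D - A)`: `(1-τ) a = τ d`, so `d ≥ 0`;
`cr w (D - p) = -(a + d) < 0`; hence `cr (D - U) w > 0` and, as `r` is on the line of the edge, `A` is
strictly WEST of the edge: `cr (D - U) (A - U) < 0`.

START `s = s₁`: `w = C - A` (= `vec (next g)`, `L < ‖w‖` by `Gap` with `T' = T`), `ρ = τ = 1`, `r = D = C`.
 (3): `x` is on the open segment from `C` to `P`, so `x - A` is strictly inside the sector of the corner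
 `next g` (between `C - A = vec (next g)` and `P - A = - vec g`), and `cst (next g) = sh A s₁`.
 (2): `0 < cr (C - A) (p - A)` because `p` is strictly between `C` and `P` and `0 < cr (C-A) (P-A)` (area).

STEP from `s` to `s'` (`s' = up s` or `dn s`), with `p' = tin v s' * v`, `|p'| ≤ L/4`, `p' = p + c v`, `c > 0`.
 (a) If `cr w (p' - A) ≤ 0`: the ray meets the segment `[p, p']` at `q = A + ρ_q w`. Since
  `cr w (p' - p) < 0`, `cr v w > 0`; `cr v (A + ρ w) = cr v r < 0 = cr v q` gives `ρ_q > ρ ≥ 1`. So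
  `L < ‖w‖ ≤ |q - A| ≤ |q| + |A| ≤ L/4 + l`, contradiction. So `cr w (p' - A) > 0`.
 (b) CROSSING: let `x'` be a point strictly east of the edge of `s` (`0 < cr (D - U) (x' - U)`), with
  `cr v x' ≤ 0` and `0 < cr w (x' - A)`. Then the segment from `A` to `x'` meets the line of the edge in
  a point `x` strictly between `A` and `x'` (`A` is strictly west); `cr v x < 0` (as `cr v A < 0`) and
  `cr w (x - A) > 0`; so `x = p + σ (D - p)` with `σ > 0` and `a - σ (a + d) > 0`, i.e. `σ < τ`. By (3) and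
  `RunsE.smul` (the vectors `x - A` and `x' - A` are positively proportional): `Into h (x' - A)` and
  `RunsE T E (x' - A) (cst h) (sh A s)`.
 (c) case `s' = up s`: `U' = apex s`, `D' = D`. `r'` := the point of the ray on `[p', D]`:
  `τ' = a' / (a' + d)` with `a' = cr w (p' - A) > 0`; `cr (D-U) (r' - U) ≥ 0` gives `ρ' ≥ ρ`. (3) for `s'`:
  `x' = p' + σ' (D - p')`, `0 < σ' < τ'` satisfies (b); the step `up` is allowed in the direction
  `u' = x' - A`, because `cr u' (D - A) < 0` (`= (1-σ') ρ' cr w (D - p')`) and `x'` is strictly between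
  `D` and `U'`.
 (d) case `s' = dn s`, `D' = apex s`, `U' = U`, and `cr w (D' - A) ≤ 0`: as (c) with `[p', D']`; `D'` is
  strictly east of the edge, so `ρ' > ρ`.
 (e) case `s' = dn s` and `0 < cr w (D' - A)`: NEW RAY `w' = D' - A`, `ρ' = τ' = 1`, `r' = D'`.
  `L < ‖w'‖`: (b) for `x' = D'` and `gap_saddle` (apex of `sh A s` is `D' - A`).
  (2): `0 < cr w' (p' - A)`, because `A` is strictly west of the line of the new edge:
  WEST LEMMA: `cr (D' - U) (A - U) < 0`. (Write `e = D - U`; in the basis `e, v`: `D' - U = α e + β v`,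
  `A - U = a₁ e + a₂ v`, with `β > 0`, `a₂ < 0` (east/west of the old edge) and `α > 0`, `a₁ > 0` (below
  the line, `U` is above); `cr (D' - U) (A - U) = (α a₂ - β a₁) cr e v < 0`.)
  (3): `x' = p' + σ' (D' - p')`, `0 < σ' < 1`: (b) applies (`cr w (x'-A) > 0` since `p'` and `D'` are above
  the old ray); the step `dn` is allowed since `cr (x' - A) (D' - A) < 0`.
 (f) In all cases, if `s'.1 ∈ E`: `|p' - r'| ≤ ‖vec s'.1‖ ≤ l`, so
  `L < ‖w'‖ ≤ |r' - A| ≤ |r' - p'| + |p'| + |A| ≤ 2 l + L/4`: contradiction. (Show (1), (2) and `L < ‖w'‖`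
  first, then `s'.1 ∉ E`, then (3), which needs it.)
VERTEX on the line: `Inv s` and `apex s = t * v`, `t * ‖v‖ ≤ L/4`. If `cr w (apex - A) ≤ 0`: as (a). Otherwise
 (b) for `x' = apex` (east of the edge, `cr v x' = 0`) and `gap_saddle`: `L < |apex - A| ≤ L/4 + l`.
-/

set_option autoImplicit false

open Pool.Agent.Helper87.LS

namespace Pool.Agent.Helper79.G

variable {H : Type}

/-- expand `cr` -/
private theorem cr_pl (x y e v : ℂ) : cr x y * cr e v = cr x e * cr y v - cr x v * cr y e := by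
  unfold cr; ring

private theorem tin_up_eq (T : Tri H) (v : ℂ) (s : H × ℂ) : T.tin v (T.up s) =
    cr (s.2 + T.vec s.1) (T.vec (T.next s.1)) / cr v (T.vec (T.next s.1)) := by
  unfold Tri.tin Tri.up Tri.apex
  simp only
  rw [T.vec_opp]
  have h1 : cr (s.2 + T.vec s.1 + T.vec (T.next s.1)) (-T.vec (T.next s.1)) =
      -cr (s.2 + T.vec s.1) (T.vec (T.next s.1)) := by
    unfold cr; simp; ring
  have h2 : cr v (-T.vec (T.next s.1)) = -cr v (T.vec (T.next s.1)) := by
    unfold cr; simp; ring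
  rw [h1, h2, neg_div_neg_eq]

private theorem tin_dn_eq (T : Tri H) (v : ℂ) (s : H × ℂ) : T.tin v (T.dn s) =
    cr s.2 (T.vec s.1 + T.vec (T.next s.1)) / cr v (T.vec s.1 + T.vec (T.next s.1)) := by
  unfold Tri.tin Tri.dn
  simp only
  rw [T.vec_opp, T.vec_prev, neg_neg]

/-- `tin` increases. -/
theorem tin_lt_up (T : Tri H) {v : ℂ} {s : H × ℂ} (h : T.Crs v s) (ha : 0 < cr v (T.apex s)) :
    T.tin v s < T.tin v (T.up s) := by
  rw [tin_up_eq]
  have hv := T.crs_vec h
  obtain ⟨h1, h2⟩ := h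
  have hp := T.pos s.1
  unfold Tri.tin
  unfold Tri.apex at ha
  have hf : 0 < cr v (T.vec (T.next s.1)) := by
    rw [cr_add_right] at ha; linarith
  have h3 : cr s.2 (T.vec s.1) = cr (s.2 + T.vec s.1) (T.vec s.1) := by
    rw [cr_add_left, cr_self, add_zero]
  rw [h3, ← neg_div_neg_eq, div_lt_div_iff₀ (by linarith) hf]
  have h4 := cr_pl (s.2 + T.vec s.1) v (T.vec s.1) (T.vec (T.next s.1))
  have h5 : cr (s.2 + T.vec s.1) v = - cr v (s.2 + T.vec s.1) := cr_swap _ _
  rw [h5] at h4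
  nlinarith [mul_pos (neg_pos.2 h2) hp]

theorem tin_lt_dn (T : Tri H) {v : ℂ} {s : H × ℂ} (h : T.Crs v s) (ha : cr v (T.apex s) < 0) :
    T.tin v s < T.tin v (T.dn s) := by
  rw [tin_dn_eq]
  have hv := T.crs_vec h
  obtain ⟨h1, h2⟩ := h
  have hp := T.pos s.1
  unfold Tri.tin
  unfold Tri.apex at ha
  have hf : cr v (T.vec s.1 + T.vec (T.next s.1)) < 0 := by
    rw [cr_add_right, cr_add_right] at ha
    rw [cr_add_right]; linarith
  rw [← neg_div_neg_eq, ← neg_div_neg_eq (cr s.2 (T.vec s.1 + T.vec (T.next s.1))),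
    div_lt_div_iff₀ (by linarith) (by linarith)]
  have h4 := cr_pl s.2 v (T.vec s.1) (T.vec (T.next s.1))
  have h5 : cr s.2 v = - cr v s.2 := cr_swap _ _
  rw [h5] at h4
  rw [cr_add_right, cr_add_right]
  nlinarith [mul_pos h1 hp]

/-! ### plane lemmas -/

private theorem par_pl {w z : ℂ} (hw : w ≠ 0) (h : cr w z = 0) : ∃ ρ : ℝ, z = ρ * w := by
  have hn : 0 < w.re ^ 2 + w.im ^ 2 := by
    rcases eq_or_ne w.re 0 with h1 | h1
    · rcases eq_or_ne w.im 0 with h2 | h2
      · exact absurd (Complex.ext h1 h2) hw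
      · positivity
    · positivity
  unfold cr at h
  refine ⟨(z.re * w.re + z.im * w.im) / (w.re ^ 2 + w.im ^ 2), ?_⟩
  apply Complex.ext
  · rw [Complex.re_ofReal_mul, div_mul_eq_mul_div, eq_div_iff hn.ne']
    linear_combination -w.im * h
  · rw [Complex.im_ofReal_mul, div_mul_eq_mul_div, eq_div_iff hn.ne']
    linear_combination w.re * h

private theorem west_pl {U e A w p : ℂ} {t ρ τ : ℝ} (ht1 : t < 1) (hρ : 1 ≤ ρ) (hτ : 0 < τ)
    (hp : p = U + t * e) (h1 : A + ρ * w = p + τ * (U + e - p)) (h2 : 0 < cr w (p - A)) :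
    0 < cr e w ∧ cr e (A - U) < 0 := by
  have hA : A = U + (t + τ * (1 - t)) * e - ρ * w := by
    rw [hp] at h1
    linear_combination h1
  have e1 : cr w (p - A) = τ * (1 - t) * cr e w := by
    rw [hA, hp]
    simp only [cr, Complex.add_re, Complex.add_im, Complex.sub_re, Complex.sub_im,
      Complex.mul_re, Complex.mul_im, Complex.ofReal_re, Complex.ofReal_im,
      Complex.one_re, Complex.one_im]
    ring
  have e2 : cr e (A - U) = -(ρ * cr e w) := by
    rw [hA]
    simp only [cr, Complex.add_re, Complex.add_im, Complex.sub_re, Complex.sub_im,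
      Complex.mul_re, Complex.mul_im, Complex.ofReal_re, Complex.ofReal_im,
      Complex.one_re, Complex.one_im]
    ring
  have hpos : 0 < cr e w := by
    rw [e1] at h2
    have h3 : 0 < τ * (1 - t) := mul_pos hτ (by linarith)
    exact (mul_pos_iff_of_pos_left h3).1 h2
  refine ⟨hpos, ?_⟩
  rw [e2]
  nlinarith

private theorem low_pl {v w A : ℂ} {l L ρ c c' : ℝ} (hL : 20 * l ≤ L) (hl : 0 < l)
    (hA : ‖A‖ ≤ l) (hw : L < ‖w‖) (hρ : 1 ≤ ρ) (hr : cr v (A + ρ * w) < 0)
    (h1 : 0 < cr w (c * v - A)) (hcc : c < c') (hc0 : 0 ≤ c) (hc' : c' * ‖v‖ ≤ L / 4) :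
    0 < cr w (c' * v - A) := by
  by_contra hcon
  push Not at hcon
  have e1 : ∀ t : ℝ, cr w (t * v - A) = t * cr w v - cr w A := by
    intro t
    rw [cr_sub_right, cr_mul_right]
  rw [e1] at h1 hcon
  have hwv : cr w v < 0 := by nlinarith
  set t : ℝ := cr w A / cr w v with ht
  have ht' : t * cr w v = cr w A := by
    rw [ht, div_mul_cancel₀ _ hwv.ne]
  have htc : c < t := by nlinarith
  have htc' : t ≤ c' := by nlinarith
  have hw0 : w ≠ 0 := by
    rintro rfl
    rw [norm_zero] at hw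
    linarith
  obtain ⟨q, hq⟩ := par_pl (z := t * v - A) hw0 (by rw [e1, ht']; ring)
  have e2 : cr v (A + ρ * w) = (ρ - q) * cr v w := by
    have h3 : A = t * v - q * w := by linear_combination -hq
    rw [h3]
    simp only [cr, Complex.add_re, Complex.add_im, Complex.sub_re, Complex.sub_im,
      Complex.mul_re, Complex.mul_im, Complex.ofReal_re, Complex.ofReal_im]
    ring
  have hvw : 0 < cr v w := by
    have := cr_swap v w
    linarith
  have hqρ : ρ < q := by
    rw [e2] at hr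
    nlinarith
  have h4 : ‖(t : ℂ) * v - A‖ = q * ‖w‖ := by
    rw [hq, norm_mul, Complex.norm_real, Real.norm_eq_abs, abs_of_pos (by linarith)]
  have h5 : ‖(t : ℂ) * v - A‖ ≤ L / 4 + l := by
    refine (norm_sub_le _ _).trans (add_le_add ?_ hA)
    rw [norm_mul, Complex.norm_real, Real.norm_eq_abs, abs_of_pos (by linarith)]
    exact (mul_le_mul_of_nonneg_right htc' (norm_nonneg _)).trans hc'
  have h6 : ‖w‖ ≤ q * ‖w‖ := by nlinarith [norm_nonneg w]
  linarith

private theorem cross_pl {U e A w p x v : ℂ} {t ρ τ : ℝ} (ht1 : t < 1) (hρ : 1 ≤ ρ) (hτ : 0 < τ)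
    (hp : p = U + t * e) (h1 : A + ρ * w = p + τ * (U + e - p)) (h2 : 0 < cr w (p - A))
    (hvp : cr v p = 0) (hvD : cr v (U + e) < 0) (hvA : cr v A < 0) (he : 0 < cr e (x - U))
    (hvx : cr v x ≤ 0) (hwx : 0 < cr w (x - A)) :
    ∃ σ θ : ℝ, 0 < σ ∧ σ < τ ∧ 0 < θ ∧ p + σ * (U + e - p) - A = θ * (x - A) := by
  obtain ⟨hew, hwest⟩ := west_pl ht1 hρ hτ hp h1 h2
  have he0 : e ≠ 0 := by
    rintro rfl
    simp [cr] at hew
  have hden : 0 < cr e (x - U) - cr e (A - U) := by linarith
  set θ : ℝ := -cr e (A - U) / (cr e (x - U) - cr e (A - U)) with hθ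
  have hθ0 : 0 < θ := div_pos (by linarith) hden
  have hθ1 : θ < 1 := by
    rw [hθ, div_lt_one hden]; linarith
  have hθe : θ * (cr e (x - U) - cr e (A - U)) = -cr e (A - U) := by
    rw [hθ]; field_simp
  obtain ⟨κ, hκ⟩ := par_pl (z := A + θ * (x - A) - U) he0 (by
    have e1 : cr e (A + θ * (x - A) - U) =
        cr e (A - U) + θ * (cr e (x - U) - cr e (A - U)) := by
      simp only [cr, Complex.add_re, Complex.add_im, Complex.sub_re, Complex.sub_im,
        Complex.mul_re, Complex.mul_im, Complex.ofReal_re, Complex.ofReal_im]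
      ring
    rw [e1, hθe]; ring)
  have ht : 0 < 1 - t := by linarith
  set σ : ℝ := (κ - t) / (1 - t) with hσ
  have hσe : σ * (1 - t) = κ - t := by
    rw [hσ]; field_simp
  have hσc : (σ : ℂ) * (1 - t) = κ - t := by
    exact_mod_cast hσe
  have hx : p + σ * (U + e - p) = A + θ * (x - A) := by
    rw [hp]
    linear_combination e * hσc - hκ
  have hv1 : cr v (p + σ * (U + e - p)) = σ * cr v (U + e) := by
    have e1 : cr v (p + σ * (U + e - p)) = (1 - σ) * cr v p + σ * cr v (U + e) := by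
      simp only [cr, Complex.add_re, Complex.add_im, Complex.sub_re, Complex.sub_im,
        Complex.mul_re, Complex.mul_im, Complex.ofReal_re, Complex.ofReal_im]
      ring
    rw [e1, hvp]; ring
  have hv2 : cr v (A + θ * (x - A)) = (1 - θ) * cr v A + θ * cr v x := by
    simp only [cr, Complex.add_re, Complex.add_im, Complex.sub_re, Complex.sub_im,
      Complex.mul_re, Complex.mul_im, Complex.ofReal_re, Complex.ofReal_im]
    ring
  have hσ0 : 0 < σ := by
    have h3 : σ * cr v (U + e) < 0 := by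
      rw [← hv1, hx, hv2]
      nlinarith
    nlinarith
  refine ⟨σ, θ, hσ0, ?_, hθ0, by rw [hx]; ring⟩
  have hw1 : cr w (p + σ * (U + e - p) - A) = cr w (p - A) + σ * cr w (U + e - p) := by
    simp only [cr, Complex.add_re, Complex.add_im, Complex.sub_re, Complex.sub_im,
      Complex.mul_re, Complex.mul_im, Complex.ofReal_re, Complex.ofReal_im]
    ring
  have hw2 : cr w (A + ρ * w - A) = cr w (p - A) + τ * cr w (U + e - p) := by
    rw [h1]
    simp only [cr, Complex.add_re, Complex.add_im, Complex.sub_re, Complex.sub_im,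
      Complex.mul_re, Complex.mul_im, Complex.ofReal_re, Complex.ofReal_im]
    ring
  have hw3 : cr w (A + ρ * w - A) = 0 := by
    rw [add_sub_cancel_left, cr_mul_right, cr_self, mul_zero]
  have hw4 : cr w (p + σ * (U + e - p) - A) = θ * cr w (x - A) := by
    rw [hx, add_sub_cancel_left, cr_mul_right]
  have h5 : 0 < cr w (p - A) + σ * cr w (U + e - p) := by
    rw [← hw1, hw4]; exact mul_pos hθ0 hwx
  rw [hw3] at hw2
  by_contra hcon
  push Not at hcon
  have h6 : cr w (U + e - p) < 0 := by nlinarith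
  nlinarith

private theorem ray_pl {w A p D : ℂ} (hw : w ≠ 0) (ha : 0 < cr w (p - A)) (hd : cr w (D - A) ≤ 0) :
    ∃ τ ρ : ℝ, 0 < τ ∧ τ ≤ 1 ∧ A + ρ * w = p + τ * (D - p) ∧
      ∀ σ : ℝ, 0 < σ → σ < τ → 0 < cr w (p + σ * (D - p) - A) := by
  have hden : 0 < cr w (p - A) - cr w (D - A) := by linarith
  set τ : ℝ := cr w (p - A) / (cr w (p - A) - cr w (D - A)) with hτ
  have hτ0 : 0 < τ := div_pos ha hden
  have hτ1 : τ ≤ 1 := by
    rw [hτ, div_le_one hden]; linarith
  have hτe : τ * (cr w (p - A) - cr w (D - A)) = cr w (p - A) := by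
    rw [hτ]; field_simp
  have e1 : ∀ σ : ℝ, cr w (p + σ * (D - p) - A) =
      cr w (p - A) - σ * (cr w (p - A) - cr w (D - A)) := by
    intro σ
    simp only [cr, Complex.add_re, Complex.add_im, Complex.sub_re, Complex.sub_im,
      Complex.mul_re, Complex.mul_im, Complex.ofReal_re, Complex.ofReal_im]
    ring
  obtain ⟨ρ, hρ⟩ := par_pl (z := p + τ * (D - p) - A) hw (by rw [e1, hτe]; ring)
  refine ⟨τ, ρ, hτ0, hτ1, by linear_combination -hρ, ?_⟩
  intro σ _ hσ
  rw [e1]
  nlinarith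

/-! ### the invariant -/

private structure IV (T : Tri H) (E : Set H) (L : ℝ) (h : H) (A v : ℂ) (s : H × ℂ) (w : ℂ)
    (ρ τ : ℝ) : Prop where
  hw : L < ‖w‖
  hρ : 1 ≤ ρ
  hτ0 : 0 < τ
  hτ1 : τ ≤ 1
  h1 : A + ρ * w = T.tin v s * v + τ * (s.2 + T.vec s.1 - T.tin v s * v)
  h2 : 0 < cr w (T.tin v s * v - A)
  h3 : ∀ σ : ℝ, 0 < σ → σ < τ →
    T.Into h (T.tin v s * v + σ * (s.2 + T.vec s.1 - T.tin v s * v) - A) ∧
      RunsE T E (T.tin v s * v + σ * (s.2 + T.vec s.1 - T.tin v s * v) - A) (T.cst h) (sh A s)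

private theorem Into_smul {T : Tri H} {h : H} {v : ℂ} (hi : T.Into h v) {c : ℝ} (hc : 0 < c) :
    T.Into h (c * v) := by
  obtain ⟨h1, h2⟩ := hi
  refine ⟨?_, ?_⟩
  · rw [cr_mul_right]; exact mul_pos hc h1
  · rw [cr_mul_left]; exact mul_pos hc h2

private theorem IV.cross {T : Tri H} {E : Set H} {L : ℝ} {h : H} {A v w x : ℂ} {s : H × ℂ}
    {ρ τ : ℝ} (hiv : IV T E L h A v s w ρ τ) (hc : T.Crs v s) (hvA : cr v A < 0)
    (he : 0 < cr (T.vec s.1) (x - s.2)) (hvx : cr v x ≤ 0) (hwx : 0 < cr w (x - A)) :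
    T.Into h (x - A) ∧ RunsE T E (x - A) (T.cst h) (sh A s) := by
  obtain ⟨t, ht0, ht1, hp⟩ := T.tin_mem hc
  obtain ⟨σ, θ, hσ0, hστ, hθ0, hxe⟩ := cross_pl ht1 hiv.hρ hiv.hτ0 hp hiv.h1 hiv.h2
    (by rw [cr_mul_right, cr_self, mul_zero]) hc.2 hvA he hvx hwx
  obtain ⟨h4, h5⟩ := hiv.h3 σ hσ0 hστ
  have hθi : 0 < θ⁻¹ := inv_pos.2 hθ0
  have hθc : (θ : ℂ) ≠ 0 := by
    exact_mod_cast hθ0.ne'
  have hx : x - A = (θ⁻¹ : ℝ) * (T.tin v s * v + σ * (s.2 + T.vec s.1 - T.tin v s * v) - A) := by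
    rw [hxe]
    push_cast
    field_simp
  rw [hx]
  exact ⟨Into_smul h4 hθi, h5.smul hθi⟩

/-- new state, new data -/
private theorem IV.next {T : Tri H} {E : Set H} {L : ℝ} {h : H} {A v w : ℂ} {s s' : H × ℂ}
    {ρ τ : ℝ} (hiv : IV T E L h A v s w ρ τ) (hc : T.Crs v s) (hvA : cr v A < 0)
    (hc' : T.Crs v s') (hs' : (s' = T.up s ∧ 0 < cr v (T.apex s)) ∨
      (s' = T.dn s ∧ cr v (T.apex s) < 0)) (hE' : s'.1 ∉ E) {w' : ℂ} {ρ' τ' : ℝ}
    (hw : L < ‖w'‖) (hρ : 1 ≤ ρ') (hτ0 : 0 < τ') (hτ1 : τ' ≤ 1)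
    (h1 : A + ρ' * w' = T.tin v s' * v + τ' * (s'.2 + T.vec s'.1 - T.tin v s' * v))
    (h2 : 0 < cr w' (T.tin v s' * v - A))
    (hside : ∀ σ : ℝ, 0 < σ → σ < τ' →
      0 < cr (T.vec s.1) (T.tin v s' * v + σ * (s'.2 + T.vec s'.1 - T.tin v s' * v) - s.2) ∧
        0 < cr w (T.tin v s' * v + σ * (s'.2 + T.vec s'.1 - T.tin v s' * v) - A)) :
    IV T E L h A v s' w' ρ' τ' := by
  refine ⟨hw, hρ, hτ0, hτ1, h1, h2, ?_⟩
  intro σ hσ0 hστ
  obtain ⟨hs1, hs2⟩ := hside σ hσ0 hστ
  obtain ⟨t, ht0, ht1, hp⟩ := T.tin_mem hc'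
  obtain ⟨-, hwest⟩ := west_pl ht1 hρ hτ0 hp h1 h2
  have hσ1 : σ < 1 := lt_of_lt_of_le hστ hτ1
  have hvx : cr v (T.tin v s' * v + σ * (s'.2 + T.vec s'.1 - T.tin v s' * v)) ≤ 0 := by
    have e1 : cr v (T.tin v s' * v + σ * (s'.2 + T.vec s'.1 - T.tin v s' * v)) =
        σ * cr v (s'.2 + T.vec s'.1) := by
      rw [cr_add_right, cr_mul_right, cr_mul_right, cr_sub_right, cr_mul_right, cr_self]
      ring
    rw [e1]
    have := hc'.2
    nlinarith
  obtain ⟨h4, h5⟩ := hiv.cross hc hvA hs1 hvx hs2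
  refine ⟨h4, ?_⟩
  set κ : ℝ := t + σ * (1 - t) with hκ
  have hκ0 : 0 < κ := by
    have : 0 < σ * (1 - t) := mul_pos hσ0 (by linarith)
    rw [hκ]; linarith
  have hκ1 : κ < 1 := by
    rw [hκ]; nlinarith
  have hx : T.tin v s' * v + σ * (s'.2 + T.vec s'.1 - T.tin v s' * v) - A =
      s'.2 - A + κ * T.vec s'.1 := by
    rw [hp, hκ]; push_cast; ring
  rcases hs' with ⟨rfl, hap⟩ | ⟨rfl, hap⟩
  · rw [← T.up_sh]
    refine RunsE.up h5 ?_ ?_
    · rw [T.apex_sh, hx]
      have e2 : cr ((T.up s).2 - A + κ * T.vec (T.up s).1) (T.apex s - A) =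
          -(κ * cr (T.vec (T.up s).1) (A - (T.up s).2)) := by
        change cr (T.apex s - A + κ * T.vec (T.up s).1) (T.apex s - A) =
          -(κ * cr (T.vec (T.up s).1) (A - T.apex s))
        simp only [cr, Complex.add_re, Complex.add_im, Complex.sub_re, Complex.sub_im,
          Complex.mul_re, Complex.mul_im, Complex.ofReal_re, Complex.ofReal_im]
        ring
      rw [e2]
      nlinarith
    · rw [T.up_sh]; exact hE'
  · rw [← T.dn_sh]
    refine RunsE.dn h5 ?_ ?_
    · rw [T.apex_sh, hx]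
      have hD := T.dn_end s
      have e2 : cr ((T.dn s).2 - A + κ * T.vec (T.dn s).1) (T.apex s - A) =
          (1 - κ) * cr (T.vec (T.dn s).1) (A - (T.dn s).2) := by
        rw [← hD]
        simp only [cr, Complex.add_re, Complex.add_im, Complex.sub_re, Complex.sub_im,
          Complex.mul_re, Complex.mul_im, Complex.ofReal_re, Complex.ofReal_im]
        ring
      rw [e2]
      have : 0 < 1 - κ := by linarith
      nlinarith
    · rw [T.dn_sh]; exact hE'

/-- new states avoid `E` -/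
private theorem not_mem_pl {T : Tri H} {E : Set H} {l L : ℝ} (hL : 20 * l ≤ L) (hl : 0 < l)
    (hshort : ∀ g ∈ E, ‖T.vec g‖ ≤ l) {A v w : ℂ} {s : H × ℂ} {ρ τ : ℝ} (hA : ‖A‖ ≤ l)
    (hc : T.Crs v s) (hw : L < ‖w‖) (hρ : 1 ≤ ρ) (hτ0 : 0 < τ) (hτ1 : τ ≤ 1)
    (h1 : A + ρ * w = T.tin v s * v + τ * (s.2 + T.vec s.1 - T.tin v s * v))
    (ht0 : 0 ≤ T.tin v s) (htL : T.tin v s * ‖v‖ ≤ L / 4) : s.1 ∉ E := by
  intro hE
  have h2 := hshort _ hE
  obtain ⟨t, ht0', ht1, hp⟩ := T.tin_mem hc
  have h3 : (ρ : ℂ) * w = ((τ * (1 - t) : ℝ) : ℂ) * T.vec s.1 + T.tin v s * v - A := by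
    have h4 : (T.tin v s : ℂ) * v + τ * (s.2 + T.vec s.1 - T.tin v s * v) =
        T.tin v s * v + ((τ * (1 - t) : ℝ) : ℂ) * T.vec s.1 := by
      push_cast
      linear_combination -τ * hp
    linear_combination h1 + h4
  have h5 : ‖(ρ : ℂ) * w‖ = ρ * ‖w‖ := by
    rw [norm_mul, Complex.norm_real, Real.norm_eq_abs, abs_of_pos (by linarith)]
  have h6 : ‖(ρ : ℂ) * w‖ ≤ l + L / 4 + l := by
    rw [h3]
    refine (norm_sub_le _ _).trans (add_le_add ((norm_add_le _ _).trans (add_le_add ?_ ?_)) hA)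
    · rw [norm_mul, Complex.norm_real, Real.norm_eq_abs, abs_of_pos (mul_pos hτ0 (by linarith))]
      have : τ * (1 - t) ≤ 1 := by nlinarith
      calc τ * (1 - t) * ‖T.vec s.1‖ ≤ 1 * ‖T.vec s.1‖ :=
            mul_le_mul_of_nonneg_right this (norm_nonneg _)
        _ ≤ l := by rw [one_mul]; exact h2
    · rw [norm_mul, Complex.norm_real, Real.norm_eq_abs, abs_of_nonneg ht0]
      exact htL
  rw [h5] at h6
  have h7 : ‖w‖ ≤ ρ * ‖w‖ := by nlinarith [norm_nonneg w]
  linarith

private theorem west2_pl {e v U A D : ℂ} (hve : cr v e < 0) (heD : 0 < cr e (D - U))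
    (heA : cr e (A - U) < 0) (hvD : cr v (D - U) < 0) (hvA : cr v (A - U) < 0) :
    cr (D - U) (A - U) < 0 := by
  have h1 := cr_pl (D - U) (A - U) e v
  have h2 : cr (D - U) e = - cr e (D - U) := cr_swap _ _
  have h3 : cr (A - U) v = - cr v (A - U) := cr_swap _ _
  have h4 : cr (D - U) v = - cr v (D - U) := cr_swap _ _
  have h5 : cr (A - U) e = - cr e (A - U) := cr_swap _ _
  have h6 : cr e v = - cr v e := cr_swap _ _
  rw [h2, h3, h4, h5, h6] at h1
  have h7 : 0 < cr e (D - U) * (-cr v (A - U)) := mul_pos heD (by linarith)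
  have h8 : 0 < -cr v (D - U) * -cr e (A - U) := mul_pos (by linarith) (by linarith)
  by_contra hcon
  push Not at hcon
  have h9 : 0 ≤ cr (D - U) (A - U) * (-cr v e) := mul_nonneg hcon (by linarith)
  nlinarith

/-- one step of the induction -/
private theorem IV.step {T : Tri H} {E : Set H} {l L : ℝ}
    (hL : 20 * l ≤ L) (hl : 0 < l) (hgap : Gap T E L) (hins : Insertion T E)
    (hshort : ∀ g ∈ E, ‖T.vec g‖ ≤ l) {h : H} {A v w : ℂ} {s s' : H × ℂ}
    {ρ τ : ℝ} (hA : ‖A‖ ≤ l) (hiv : IV T E L h A v s w ρ τ) (hc : T.Crs v s) (hvA : cr v A < 0)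
    (hc' : T.Crs v s') (hs' : (s' = T.up s ∧ 0 < cr v (T.apex s)) ∨
      (s' = T.dn s ∧ cr v (T.apex s) < 0)) (ht0 : 0 ≤ T.tin v s) (htt : T.tin v s < T.tin v s')
    (htL : T.tin v s' * ‖v‖ ≤ L / 4) : s'.1 ∉ E ∧ ∃ w' ρ' τ', IV T E L h A v s' w' ρ' τ' := by
  have hpos := T.pos s.1
  have hw0 : w ≠ 0 := by
    rintro rfl
    have := hiv.hw
    rw [norm_zero] at this
    linarith
  obtain ⟨t, ht0', ht1, hp⟩ := T.tin_mem hc
  obtain ⟨t', ht0'', ht1', hp'⟩ := T.tin_mem hc'
  obtain ⟨hew, hwest⟩ := west_pl ht1 hiv.hρ hiv.hτ0 hp hiv.h1 hiv.h2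
  -- (a)
  have hr : cr v (A + ρ * w) < 0 := by
    rw [hiv.h1]
    have e1 : cr v (T.tin v s * v + τ * (s.2 + T.vec s.1 - T.tin v s * v)) =
        τ * cr v (s.2 + T.vec s.1) := by
      rw [cr_add_right, cr_mul_right, cr_mul_right, cr_sub_right, cr_mul_right, cr_self]
      ring
    rw [e1]
    have := hc.2
    have := hiv.hτ0
    nlinarith
  have ha' : 0 < cr w (T.tin v s' * v - A) :=
    low_pl hL hl hA hiv.hw hiv.hρ hr hiv.h2 htt ht0 htL
  -- apex is east of the old edge
  have hap : 0 < cr (T.vec s.1) (T.apex s - s.2) := by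
    have e1 : T.apex s - s.2 = T.vec s.1 + T.vec (T.next s.1) := by
      unfold Tri.apex; ring
    rw [e1, cr_add_right, cr_self, zero_add]
    exact hpos
  -- position of the new edge
  have hpe : 0 < cr (T.vec s.1) (T.tin v s' * v - s.2) ∧
      0 ≤ cr (T.vec s.1) (s'.2 + T.vec s'.1 - s.2) := by
    rcases hs' with ⟨rfl, -⟩ | ⟨rfl, -⟩
    · have hD := T.up_end s
      have e1 : T.tin v (T.up s) * v - s.2 = (1 - t') * (T.apex s - s.2) + t' * T.vec s.1 := by
        have e0 : T.vec (T.up s).1 = s.2 + T.vec s.1 - T.apex s := by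
          have : (T.up s).2 = T.apex s := rfl
          rw [this] at hD
          linear_combination hD
        rw [hp', e0]
        change T.apex s + t' * (s.2 + T.vec s.1 - T.apex s) - s.2 = _
        ring
      have e1' : (T.tin v (T.up s) : ℂ) * v - s.2 =
          ((1 - t' : ℝ) : ℂ) * (T.apex s - s.2) + (t' : ℝ) * T.vec s.1 := by
        rw [e1]; push_cast; ring
      refine ⟨?_, ?_⟩
      · rw [e1', cr_add_right, cr_mul_right, cr_mul_right, cr_self, mul_zero, add_zero]
        exact mul_pos (by linarith) hap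
      · rw [hD, add_sub_cancel_left, cr_self]
    · have hD := T.dn_end s
      have e0 : T.vec (T.dn s).1 = T.apex s - s.2 := by
        have : (T.dn s).2 = s.2 := rfl
        rw [this] at hD
        linear_combination hD
      have e1 : (T.tin v (T.dn s) : ℂ) * v - s.2 = (t' : ℝ) * (T.apex s - s.2) := by
        rw [hp', e0]
        change s.2 + t' * (T.apex s - s.2) - s.2 = _
        ring
      refine ⟨?_, ?_⟩
      · rw [e1, cr_mul_right]
        exact mul_pos ht0'' hap
      · rw [hD]; exact hap.le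
  obtain ⟨hpe1, hpe2⟩ := hpe
  have hmixe : ∀ σ : ℝ, cr (T.vec s.1) (T.tin v s' * v + σ * (s'.2 + T.vec s'.1 -
      T.tin v s' * v) - s.2) = (1 - σ) * cr (T.vec s.1) (T.tin v s' * v - s.2) +
        σ * cr (T.vec s.1) (s'.2 + T.vec s'.1 - s.2) := by
    intro σ
    simp only [cr, Complex.add_re, Complex.add_im, Complex.sub_re, Complex.sub_im,
      Complex.mul_re, Complex.mul_im, Complex.ofReal_re, Complex.ofReal_im]
    ring
  have hmixw : ∀ σ : ℝ, cr w (T.tin v s' * v + σ * (s'.2 + T.vec s'.1 -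
      T.tin v s' * v) - A) = (1 - σ) * cr w (T.tin v s' * v - A) +
        σ * cr w (s'.2 + T.vec s'.1 - A) := by
    intro σ
    simp only [cr, Complex.add_re, Complex.add_im, Complex.sub_re, Complex.sub_im,
      Complex.mul_re, Complex.mul_im, Complex.ofReal_re, Complex.ofReal_im]
    ring
  rcases le_or_gt (cr w (s'.2 + T.vec s'.1 - A)) 0 with hd | hd
  · -- cases (c), (d): same ray
    obtain ⟨τ', ρ', hτ0, hτ1, h1', hray⟩ := ray_pl hw0 ha' hd
    have hρ' : ρ ≤ ρ' := by
      have e1 : cr (T.vec s.1) (A + ρ' * w - s.2) =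
          cr (T.vec s.1) (A + ρ * w - s.2) + (ρ' - ρ) * cr (T.vec s.1) w := by
        simp only [cr, Complex.add_re, Complex.add_im, Complex.sub_re, Complex.sub_im,
          Complex.mul_re, Complex.mul_im, Complex.ofReal_re, Complex.ofReal_im]
        ring
      have e2 : cr (T.vec s.1) (A + ρ * w - s.2) = 0 := by
        rw [hiv.h1, hp]
        simp only [cr, Complex.add_re, Complex.add_im, Complex.sub_re, Complex.sub_im,
          Complex.mul_re, Complex.mul_im, Complex.ofReal_re, Complex.ofReal_im]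
        ring
      have e3 : 0 ≤ cr (T.vec s.1) (A + ρ' * w - s.2) := by
        rw [h1', hmixe]
        have := mul_nonneg hτ0.le hpe2
        have := mul_nonneg (sub_nonneg.2 hτ1) hpe1.le
        linarith
      rw [e1, e2, zero_add] at e3
      by_contra hcon
      push Not at hcon
      nlinarith
    have hρ1 : 1 ≤ ρ' := hiv.hρ.trans hρ'
    have hE' : s'.1 ∉ E :=
      not_mem_pl hL hl hshort hA hc' hiv.hw hρ1 hτ0 hτ1 h1' (by linarith) htL
    refine ⟨hE', w, ρ', τ', hiv.next hc hvA hc' hs' hE' hiv.hw hρ1 hτ0 hτ1 h1' ha' ?_⟩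
    intro σ hσ0 hστ
    refine ⟨?_, hray σ hσ0 hστ⟩
    rw [hmixe]
    have h5 : 0 < (1 - σ) * cr (T.vec s.1) (T.tin v s' * v - s.2) :=
      mul_pos (by linarith) hpe1
    have h6 := mul_nonneg hσ0.le hpe2
    linarith
  · -- case (e): new ray
    rcases hs' with ⟨rfl, hap'⟩ | ⟨rfl, hap'⟩
    · -- impossible for `up`: the lower end is below the ray
      exfalso
      rw [T.up_end] at hd
      have e1 : cr w (A + ρ * w - A) =
          (1 - τ) * cr w (T.tin v s * v - A) + τ * cr w (s.2 + T.vec s.1 - A) := by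
        rw [hiv.h1]
        simp only [cr, Complex.add_re, Complex.add_im, Complex.sub_re, Complex.sub_im,
          Complex.mul_re, Complex.mul_im, Complex.ofReal_re, Complex.ofReal_im]
        ring
      rw [add_sub_cancel_left, cr_mul_right, cr_self, mul_zero] at e1
      have h5 := mul_pos hiv.hτ0 hd
      have h6 := mul_nonneg (sub_nonneg.2 hiv.hτ1) hiv.h2.le
      linarith
    · have hD := T.dn_end s
      have hvx : cr v (T.apex s) ≤ 0 := hap'.le
      rw [hD] at hd
      obtain ⟨h5, h6⟩ := hiv.cross hc hvA hap hvx hd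
      have hw' : L < ‖T.apex s - A‖ :=
        gap_saddle hgap hins h5 h6 (T.apex_sh A s)
      have e0 : T.vec (T.dn s).1 = T.apex s - s.2 := by
        have : (T.dn s).2 = s.2 := rfl
        rw [this] at hD
        linear_combination hD
      have hwest2 : cr (T.apex s - s.2) (A - s.2) < 0 := by
        apply west2_pl (T.crs_vec hc) hap hwest
        · rw [cr_sub_right]; have := hc.1; linarith
        · rw [cr_sub_right]; have := hc.1; linarith
      have hpA : (T.tin v (T.dn s) : ℂ) * v - A =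
          (T.apex s - A) - ((1 - t' : ℝ) : ℂ) * (T.apex s - s.2) := by
        rw [hp', e0]
        change s.2 + t' * (T.apex s - s.2) - A = _
        push_cast
        ring
      have h2' : 0 < cr (T.apex s - A) (T.tin v (T.dn s) * v - A) := by
        have e1 : cr (T.apex s - A) (T.tin v (T.dn s) * v - A) =
            -((1 - t') * cr (T.apex s - s.2) (A - s.2)) := by
          rw [hpA]
          simp only [cr, Complex.add_re, Complex.add_im, Complex.sub_re, Complex.sub_im,
            Complex.mul_re, Complex.mul_im, Complex.ofReal_re, Complex.ofReal_im]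
          ring
        rw [e1]
        have : 0 < 1 - t' := by linarith
        nlinarith
      have h1' : A + ((1 : ℝ) : ℂ) * (T.apex s - A) = T.tin v (T.dn s) * v +
          ((1 : ℝ) : ℂ) * ((T.dn s).2 + T.vec (T.dn s).1 - T.tin v (T.dn s) * v) := by
        rw [hD]; push_cast; ring
      have hE' : (T.dn s).1 ∉ E :=
        not_mem_pl hL hl hshort hA hc' hw' le_rfl one_pos le_rfl h1' (by linarith) htL
      refine ⟨hE', T.apex s - A, 1, 1, hiv.next hc hvA hc' (Or.inr ⟨rfl, hap'⟩) hE' hw' le_rfl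
        one_pos le_rfl h1' h2' ?_⟩
      intro σ hσ0 hσ1
      rw [hmixe, hmixw, hD]
      have h7 : 0 < 1 - σ := by linarith
      refine ⟨?_, ?_⟩
      · have := mul_pos h7 hpe1
        have := mul_pos hσ0 hap
        linarith
      · have := mul_pos h7 ha'
        have := mul_pos hσ0 hd
        linarith

theorem crossing_dn {T : Tri H} {E : Set H} {l L : ℝ} (hE : ∀ g, g ∈ E → T.opp g ∈ E)
    (hL : 20 * l ≤ L) (hgap : Gap T E L) (hins : Insertion T E) (hshort : ∀ g ∈ E, ‖T.vec g‖ ≤ l)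
    {g : H} {v P : ℂ} (hg : g ∈ E) (hn : T.next g ∉ E) (hp : T.prev g ∉ E) (hc : T.Crs v (g, P))
    (h0 : ∃ t : ℝ, 0 < t ∧ t < 1 ∧ P + t * T.vec g = 0) (ha : cr v (T.apex (g, P)) < 0) :
    ∀ s, T.Runs v (T.dn (g, P)) s → T.tin v s * ‖v‖ ≤ L / 4 →
      s.1 ∉ E ∧ ∀ t : ℝ, T.apex s = t * v → L / 4 < t * ‖v‖ := by
  obtain ⟨t0, ht00, ht01, hP⟩ := h0
  have hgl := hshort g hg
  have hl : 0 < l := lt_of_lt_of_le (norm_pos_iff.2 (T.vec_ne_zero g)) hgl
  obtain ⟨A, hAdef⟩ : ∃ A : ℂ, A = P + T.vec g := ⟨_, rfl⟩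
  have hvA : cr v A < 0 := by rw [hAdef]; exact hc.2
  have hAn : ‖A‖ ≤ l := by
    have e1 : A = ((1 - t0 : ℝ) : ℂ) * T.vec g := by
      rw [hAdef]; push_cast; linear_combination hP
    rw [e1, norm_mul, Complex.norm_real, Real.norm_eq_abs, abs_of_pos (by linarith)]
    calc (1 - t0) * ‖T.vec g‖ ≤ 1 * ‖T.vec g‖ :=
          mul_le_mul_of_nonneg_right (by linarith) (norm_nonneg _)
      _ ≤ l := by rw [one_mul]; exact hgl
  have htin0 : T.tin v (g, P) = 0 := by
    unfold Tri.tin
    have e1 : P = ((-t0 : ℝ) : ℂ) * T.vec g := by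
      push_cast; linear_combination hP
    simp only
    rw [e1, cr_mul_left, cr_self, mul_zero, zero_div]
  have htin1 : 0 < T.tin v (T.dn (g, P)) := by
    rw [← htin0]
    exact tin_lt_dn T hc ha
  have hc1 : T.Crs v (T.dn (g, P)) := T.crs_dn hc ha
  have hpos := T.pos g
  have hopp : T.opp (T.prev g) ∉ E := by
    intro hx
    have := hE _ hx
    rw [T.opp2] at this
    exact hp this
  -- the start
  have hcst : T.cst (T.next g) = sh A (T.dn (g, P)) := by
    unfold Tri.cst sh Tri.dn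
    simp only
    rw [T.prev_next, hAdef]
    refine Prod.ext rfl ?_
    simp only
    ring
  have hstart : IV T E L (T.next g) A v (T.dn (g, P)) (T.vec (T.next g)) 1 1 := by
    have hD := T.dn_end (g, P)
    have hapx : T.apex (g, P) = A + T.vec (T.next g) := by
      rw [hAdef]; rfl
    have e0 : T.vec (T.dn (g, P)).1 = T.vec g + T.vec (T.next g) := by
      have : (T.dn (g, P)).2 = P := rfl
      rw [this, hapx, hAdef] at hD
      linear_combination hD
    obtain ⟨t, ht0, ht1, hpp⟩ := T.tin_mem hc1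
    have hpp' : (T.tin v (T.dn (g, P)) : ℂ) * v =
        A + T.vec (T.next g) - ((1 - t : ℝ) : ℂ) * (T.vec g + T.vec (T.next g)) := by
      rw [hpp, e0]
      change P + t * (T.vec g + T.vec (T.next g)) = _
      rw [hAdef]
      push_cast
      ring
    refine ⟨hgap T (Reach.refl) _ hn, le_rfl, one_pos, le_rfl, ?_, ?_, ?_⟩
    · rw [hD, hapx]; push_cast; ring
    · have e1 : cr (T.vec (T.next g)) (T.tin v (T.dn (g, P)) * v - A) =
          (1 - t) * cr (T.vec g) (T.vec (T.next g)) := by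
        rw [hpp']
        simp only [cr, Complex.add_re, Complex.add_im, Complex.sub_re, Complex.sub_im,
          Complex.mul_re, Complex.mul_im, Complex.ofReal_re, Complex.ofReal_im]
        ring
      rw [e1]
      exact mul_pos (by linarith) hpos
    · intro σ hσ0 hσ1
      set κ : ℝ := (1 - t) * (1 - σ) with hκ
      have hκ0 : 0 < κ := mul_pos (by linarith) (by linarith)
      have hκ1 : κ < 1 := by
        rw [hκ]; nlinarith
      have hx : (T.tin v (T.dn (g, P)) : ℂ) * v + σ * ((T.dn (g, P)).2 + T.vec (T.dn (g, P)).1 -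
          T.tin v (T.dn (g, P)) * v) - A =
          ((1 - κ : ℝ) : ℂ) * T.vec (T.next g) - (κ : ℝ) * T.vec g := by
        rw [hD, hapx, hpp', hκ]
        push_cast
        ring
      rw [hx]
      refine ⟨⟨?_, ?_⟩, ?_⟩
      · have e1 : cr (T.vec (T.next g)) (((1 - κ : ℝ) : ℂ) * T.vec (T.next g) -
            (κ : ℝ) * T.vec g) = κ * cr (T.vec g) (T.vec (T.next g)) := by
          simp only [cr, Complex.add_re, Complex.add_im, Complex.sub_re, Complex.sub_im,
            Complex.mul_re, Complex.mul_im, Complex.ofReal_re, Complex.ofReal_im]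
          ring
        rw [e1]
        exact mul_pos hκ0 hpos
      · rw [T.prev_next]
        have e1 : cr (((1 - κ : ℝ) : ℂ) * T.vec (T.next g) -
            (κ : ℝ) * T.vec g) (-T.vec g) = (1 - κ) * cr (T.vec g) (T.vec (T.next g)) := by
          simp only [cr, Complex.add_re, Complex.add_im, Complex.sub_re, Complex.sub_im,
            Complex.mul_re, Complex.mul_im, Complex.ofReal_re, Complex.ofReal_im,
            Complex.neg_re, Complex.neg_im]
          ring
        rw [e1]
        exact mul_pos (by linarith) hpos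
      · rw [← hcst]
        refine RunsE.refl ?_
        rw [hcst]
        exact hopp
  -- the induction
  have key : ∀ s, T.Runs v (T.dn (g, P)) s → T.Crs v s ∧ 0 < T.tin v s ∧
      (T.tin v s * ‖v‖ ≤ L / 4 → s.1 ∉ E ∧ ∃ w ρ τ, IV T E L (T.next g) A v s w ρ τ) := by
    intro s hs
    induction hs with
    | refl => exact ⟨hc1, htin1, fun _ => ⟨hopp, _, _, _, hstart⟩⟩
    | @up s hs hap ih =>
      obtain ⟨ih1, ih2, ih3⟩ := ih
      have hlt := tin_lt_up T ih1 hap
      have hc' := T.crs_up ih1 hap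
      refine ⟨hc', ih2.trans hlt, fun hle => ?_⟩
      obtain ⟨-, w, ρ, τ, hiv⟩ := ih3
        ((mul_le_mul_of_nonneg_right hlt.le (norm_nonneg _)).trans hle)
      exact hiv.step hL hl hgap hins hshort hAn ih1 hvA hc' (Or.inl ⟨rfl, hap⟩) ih2.le hlt hle
    | @dn s hs hap ih =>
      obtain ⟨ih1, ih2, ih3⟩ := ih
      have hlt := tin_lt_dn T ih1 hap
      have hc' := T.crs_dn ih1 hap
      refine ⟨hc', ih2.trans hlt, fun hle => ?_⟩
      obtain ⟨-, w, ρ, τ, hiv⟩ := ih3
        ((mul_le_mul_of_nonneg_right hlt.le (norm_nonneg _)).trans hle)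
      exact hiv.step hL hl hgap hins hshort hAn ih1 hvA hc' (Or.inr ⟨rfl, hap⟩) ih2.le hlt hle
  intro s hs hle
  obtain ⟨hcs, htp, h3⟩ := key s hs
  obtain ⟨hsE, w, ρ, τ, hiv⟩ := h3 hle
  refine ⟨hsE, ?_⟩
  intro t hap
  by_contra hcon
  push Not at hcon
  -- apex is east of the edge
  have hpos' := T.pos s.1
  have hape : 0 < cr (T.vec s.1) (T.apex s - s.2) := by
    have e1 : T.apex s - s.2 = T.vec s.1 + T.vec (T.next s.1) := by
      unfold Tri.apex; ring
    rw [e1, cr_add_right, cr_self, zero_add]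
    exact hpos'
  obtain ⟨t1, ht10, ht11, hp1⟩ := T.tin_mem hcs
  have hev : 0 < cr (T.vec s.1) v := by
    have h4 := T.crs_vec hcs
    have h5 := cr_swap (T.vec s.1) v
    linarith
  have hct : T.tin v s < t := by
    have e1 : cr (T.vec s.1) (T.apex s - s.2) = (t - T.tin v s) * cr (T.vec s.1) v := by
      have e2 : T.apex s - s.2 = ((t - T.tin v s : ℝ) : ℂ) * v + (t1 : ℝ) * T.vec s.1 := by
        rw [hap]
        push_cast
        linear_combination hp1
      rw [e2, cr_add_right, cr_mul_right, cr_mul_right, cr_self]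
      ring
    rw [e1] at hape
    have := (mul_pos_iff_of_pos_right hev).1 hape
    linarith
  have hr : cr v (A + ρ * w) < 0 := by
    rw [hiv.h1]
    have e1 : cr v (T.tin v s * v + τ * (s.2 + T.vec s.1 - T.tin v s * v)) =
        τ * cr v (s.2 + T.vec s.1) := by
      rw [cr_add_right, cr_mul_right, cr_mul_right, cr_sub_right, cr_mul_right, cr_self]
      ring
    rw [e1]
    have := hcs.2
    have := hiv.hτ0
    nlinarith
  have ha' : 0 < cr w (t * v - A) :=
    low_pl hL hl hAn hiv.hw hiv.hρ hr hiv.h2 hct htp.le hcon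
  obtain ⟨h5, h6⟩ := hiv.cross (x := T.apex s) hcs hvA hape
    (by rw [hap, cr_mul_right, cr_self, mul_zero]) (by rw [hap]; exact ha')
  have h7 : L < ‖T.apex s - A‖ := gap_saddle hgap hins h5 h6 (T.apex_sh A s)
  have h8 : ‖T.apex s - A‖ ≤ L / 4 + l := by
    refine (norm_sub_le _ _).trans (add_le_add ?_ hAn)
    rw [hap, norm_mul, Complex.norm_real, Real.norm_eq_abs, abs_of_pos (htp.trans hct)]
    exact hcon
  linarith

end Pool.Agent.Helper79.G
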