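import Pool.Agent.Helper79.G.Reg

/-!
# TF-G-CHART0: every triangulation has a chart

Take for `X` the set of equivalence classes of the codes `(h, z)` with `T.Reg h z`. Define the relation on
codes: `Same (h,z) (h',z')` :⟺ `(h' = h ∧ z' = z) ∨ (h' = next h ∧ z' = z - vec h) ∨
(h' = prev h ∧ z' = z + vec (prev h))` (the same point of the same triangle), and
`Rel c c'` :⟺ `Same c c'` or there are `k, w` with `T.Edg k w`, `Same c (k, w)` and
`Same (opp k, w - vec k) c'`. `Rel` is symmetric (`edg_opp`, `opp2`) and transitive: if `c ~ c'` through an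
edge point `(k, w)` and `c' ~ c''` through `(k', w')` then `(opp k, w - vec k)` and `(k', w')` are codes of
the same point of the same triangle, both on the edge (`Edg`), so they are equal (a point of `Edg k` is
in the interior of the edge `k` and on no other edge of the triangle, see `reg_cases` and the
definition of `Edg`), and `c''` is again `c`'s triangle. Take the quotient (or the set of codes related to
`(h, z)`). `φ h z` for `(h, z)` not regular: any value (the type `X` is nonempty if `H` is; if `H` is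
empty take `X = PUnit`... then `surj` fails, so assume `Nonempty H`).
-/

set_option autoImplicit false

open Pool.Agent.Helper87.LS

namespace Pool.Agent.Helper79.G

variable {H : Type}

namespace EC

/-- The same point of the same triangle. -/
def Same (T : Tri H) (c d : H × ℂ) : Prop :=
  (d.1 = c.1 ∧ d.2 = c.2) ∨ (d.1 = T.next c.1 ∧ d.2 = c.2 - T.vec c.1) ∨
    (d.1 = T.prev c.1 ∧ d.2 = c.2 + T.vec (T.prev c.1))

theorem same_refl (T : Tri H) (c : H × ℂ) : Same T c c := Or.inl ⟨rfl, rfl⟩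

theorem same_symm {T : Tri H} {c d : H × ℂ} (h : Same T c d) : Same T d c := by
  obtain ⟨h1, z1⟩ := c
  obtain ⟨h2, z2⟩ := d
  rcases h with ⟨h, h'⟩ | ⟨h, h'⟩ | ⟨h, h'⟩ <;> simp only at h h' <;> subst h <;> subst h'
  · exact Or.inl ⟨rfl, rfl⟩
  · right; right
    refine ⟨(T.prev_next h1).symm, ?_⟩
    simp only [T.prev_next]; ring
  · right; left
    refine ⟨(T.next_prev h1).symm, ?_⟩
    simp only; ring

theorem same_trans {T : Tri H} {c d e : H × ℂ} (h : Same T c d) (h' : Same T d e) : Same T c e := by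
  obtain ⟨h1, z1⟩ := c
  obtain ⟨h2, z2⟩ := d
  obtain ⟨h3, z3⟩ := e
  rcases h with ⟨h, k⟩ | ⟨h, k⟩ | ⟨h, k⟩ <;> simp only at h k <;> subst h <;> subst k <;>
    rcases h' with ⟨h, k⟩ | ⟨h, k⟩ | ⟨h, k⟩ <;> simp only at h k <;> subst h <;> subst k
  · exact Or.inl ⟨rfl, rfl⟩
  · exact Or.inr (Or.inl ⟨rfl, rfl⟩)
  · exact Or.inr (Or.inr ⟨rfl, rfl⟩)
  · exact Or.inr (Or.inl ⟨rfl, rfl⟩)
  · right; right
    refine ⟨rfl, ?_⟩
    simp only [T.vec_prev]; ring
  · left
    refine ⟨T.prev_next h1, ?_⟩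
    simp only [T.prev_next]; ring
  · exact Or.inr (Or.inr ⟨rfl, rfl⟩)
  · left
    refine ⟨T.next_prev h1, ?_⟩
    simp only; ring
  · right; left
    refine ⟨T.prev_prev h1, ?_⟩
    simp only [T.prev_prev, T.vec_prev]; ring

theorem same_int {T : Tri H} {c d : H × ℂ} (h : Same T c d) (hc : T.Int c.1 c.2) :
    T.Int d.1 d.2 := by
  rcases h with ⟨h, k⟩ | ⟨h, k⟩ | ⟨h, k⟩ <;> rw [h, k]
  · exact hc
  · exact T.int_next.2 hc
  · exact T.int_prev.2 hc

theorem same_edg {T : Tri H} {c d : H × ℂ} (h : Same T c d) (hc : T.Edg c.1 c.2)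
    (hd : T.Edg d.1 d.2) : d = c := by
  obtain ⟨h1, z1⟩ := c
  obtain ⟨h2, z2⟩ := d
  obtain ⟨e0, e1, e2⟩ := hc
  obtain ⟨f0, f1, f2⟩ := hd
  rcases h with ⟨h, k⟩ | ⟨h, k⟩ | ⟨h, k⟩ <;> simp only at h k e0 e1 e2 f0 f1 f2 <;> subst h <;>
    subst k
  · rfl
  · rw [T.a0_next] at f0
    exact absurd f0 e1.ne'
  · rw [T.a0_prev] at f0
    exact absurd f0 e2.ne'

/-- The same regular point. -/
def Rel (T : Tri H) (c d : H × ℂ) : Prop :=
  Same T c d ∨ ∃ k w, T.Edg k w ∧ Same T c (k, w) ∧ Same T (T.opp k, w - T.vec k) d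

theorem rel_symm {T : Tri H} {c d : H × ℂ} (h : Rel T c d) : Rel T d c := by
  rcases h with h | ⟨k, w, h1, h2, h3⟩
  · exact Or.inl (same_symm h)
  · right
    refine ⟨T.opp k, w - T.vec k, T.edg_opp.2 h1, same_symm h3, ?_⟩
    rw [T.opp2, T.vec_opp]
    have : w - T.vec k - -T.vec k = w := by ring
    rw [this]
    exact same_symm h2

theorem rel_trans {T : Tri H} {c d e : H × ℂ} (h : Rel T c d) (h' : Rel T d e) : Rel T c e := by
  rcases h with h | ⟨k, w, h1, h2, h3⟩
  · rcases h' with h' | ⟨k', w', h1', h2', h3'⟩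
    · exact Or.inl (same_trans h h')
    · exact Or.inr ⟨k', w', h1', same_trans h h2', h3'⟩
  · rcases h' with h' | ⟨k', w', h1', h2', h3'⟩
    · exact Or.inr ⟨k, w, h1, h2, same_trans h3 h'⟩
    · left
      have h4 : ((k', w') : H × ℂ) = (T.opp k, w - T.vec k) :=
        same_edg (same_trans h3 h2') (T.edg_opp.2 h1) h1'
      obtain ⟨rfl, rfl⟩ := Prod.mk.inj h4
      rw [T.opp2, T.vec_opp] at h3'
      have : w - T.vec k - -T.vec k = w := by ring
      rw [this] at h3'
      exact same_trans h2 h3'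

/-- The class of a code. -/
def cls (T : Tri H) (c : H × ℂ) : Set (H × ℂ) := {d | Rel T c d}

theorem cls_eq {T : Tri H} {c d : H × ℂ} : cls T c = cls T d ↔ Rel T c d := by
  constructor
  · intro h
    have : d ∈ cls T d := Or.inl (same_refl T d)
    rw [← h] at this
    exact this
  · intro h
    ext e
    exact ⟨fun he => rel_trans (rel_symm h) he, fun he => rel_trans h he⟩

/-- The set of regular points. -/
def XX (T : Tri H) : Type := {x : Set (H × ℂ) // ∃ h z, T.Reg h z ∧ x = cls T (h, z)}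

theorem exists_reg (T : Tri H) (h : H) : ∃ z, T.Reg h z :=
  ⟨((1 / 2 : ℝ) : ℂ) * T.vec h, Tri.Edg.reg T (T.edg_iff.2 ⟨1 / 2, by norm_num, by norm_num, rfl⟩)⟩

end EC

open EC in
theorem exists_chart [Nonempty H] (T : Tri H) : ∃ X : Type, Nonempty (Chart T X) := by
  classical
  obtain ⟨h0⟩ := ‹Nonempty H›
  obtain ⟨z0, hz0⟩ := exists_reg T h0
  let φ : H → ℂ → XX T := fun h z =>
    if hz : T.Reg h z then ⟨cls T (h, z), h, z, hz, rfl⟩ else ⟨cls T (h0, z0), h0, z0, hz0, rfl⟩
  have hφ : ∀ h z, T.Reg h z → (φ h z).1 = cls T (h, z) := by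
    intro h z hz
    have h1 : φ h z = ⟨cls T (h, z), h, z, hz, rfl⟩ := dif_pos hz
    rw [h1]
  have heq : ∀ h z h' z', T.Reg h z → T.Reg h' z' → (φ h z = φ h' z' ↔ Rel T (h, z) (h', z')) := by
    intro h z h' z' hz hz'
    rw [← cls_eq, ← hφ h z hz, ← hφ h' z' hz']
    exact ⟨fun h => by rw [h], fun h => Subtype.ext h⟩
  refine ⟨XX T, ⟨⟨φ, ?_, ?_, ?_, ?_, ?_⟩⟩⟩
  · intro h z hz
    rw [heq _ _ _ _ (T.reg_next.2 hz) hz]
    left
    exact same_symm (Or.inr (Or.inl ⟨rfl, rfl⟩))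
  · intro h z hz
    have h1 : T.Edg (T.opp h) (z - T.vec h) := T.edg_opp.2 hz
    rw [heq _ _ _ _ (Tri.Edg.reg T h1) (Tri.Edg.reg T hz)]
    apply rel_symm
    right
    exact ⟨h, z, hz, same_refl T _, same_refl T _⟩
  · rintro ⟨x, h, z, hz, rfl⟩
    exact ⟨h, z, hz, Subtype.ext (hφ h z hz)⟩
  · intro h z h' z' hz hz' he
    rw [heq _ _ _ _ (Tri.Int.reg T hz) hz'] at he
    rcases he with he | ⟨k, w, h1, h2, -⟩
    · exact he
    · have h3 := same_int h2 hz
      exact absurd h1.1 h3.1.ne'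
  · intro h z h' z' hz hz' he
    rw [heq _ _ _ _ (Tri.Edg.reg T hz) (Tri.Edg.reg T hz')] at he
    rcases he with he | ⟨k, w, h1, h2, h3⟩
    · left
      have := same_edg he hz hz'
      exact Prod.mk.inj this
    · right
      have h4 := same_edg h2 hz h1
      obtain ⟨rfl, rfl⟩ := Prod.mk.inj h4
      have h5 := same_edg h3 (T.edg_opp.2 h1) hz'
      exact Prod.mk.inj h5

end Pool.Agent.Helper79.G
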