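import Pool.Agent.Helper79.G.RunMv
import Pool.Agent.Helper79.G.Bound

/-!
# TF-G-EXT: continuation of straight lines

`ext`: from a state the line either reaches the parameter `b` or hits a vertex before (or at) `b`.
Proof: iterate the steps; by `runs_bound` after finitely many steps `tin > b` or the run stops at a
vertex (`cr v (apex) = 0`; then `apex = c v` with `c > tin`, because the apex is not on the line of the
edge; `Surf.cr_solve46`). Take the last state with `tin ≤ b`: `reg_between_up/dn/hit`.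
`ext_pt`: the same from an arbitrary regular point, formulated with motions. Proof: `p = C.φ h z`,
`reg_cases`. If `T.Int h z`: if `T.Reg h (z + v)` a hop; otherwise the segment leaves the closed triangle
at `z + t v`, `0 < t ≤ 1`, through a vertex (then `c = t`, `hop`s until there) or through the interior of
an edge `k` of the triangle: continue with `ext` from the state `(opp k, position)` with `v`; if the point
`z + v` itself is a vertex: `c = 1`. If `z` is on an edge: choose the side into which `v` points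
(state with `tin = 0`), or `v` is parallel to the edge (then the end is on the edge, or its end point is
hit).
-/

set_option autoImplicit false

open Pool.Agent.Helper87.LS

namespace Pool.Agent.Helper79.G

variable {H X : Type} {T : Tri H}

namespace EX56

theorem runs_of_runsN {v : ℂ} {s t : H × ℂ} {n : ℕ} (h : RunsN T v s n t) : T.Runs v s t := by
  induction h with
  | refl => exact Tri.Runs.refl
  | up _ ha ih => exact Tri.Runs.up ih ha
  | dn _ ha ih => exact Tri.Runs.dn ih ha

theorem ne_zero_of_crs {v : ℂ} {s : H × ℂ} (h : T.Crs v s) : v ≠ 0 := by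
  rintro rfl
  have := h.1
  simp [cr] at this

theorem exists_smul {v w : ℂ} (hv : v ≠ 0) (h : cr v w = 0) : ∃ c : ℝ, w = c * v := by
  have hn : 0 < v.re * v.re + v.im * v.im := by
    rw [← Complex.normSq_apply]; exact Complex.normSq_pos.2 hv
  refine ⟨(v.re * w.re + v.im * w.im) / (v.re * v.re + v.im * v.im), ?_⟩
  unfold cr at h
  apply Complex.ext
  · rw [Complex.re_ofReal_mul, div_mul_eq_mul_div, eq_div_iff hn.ne']
    linear_combination (-v.im) * h
  · rw [Complex.im_ofReal_mul, div_mul_eq_mul_div, eq_div_iff hn.ne']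
    linear_combination v.re * h

end EX56

open EX56

theorem ext [Finite H] {v : ℂ} {s : H × ℂ} (h : T.Crs v s) {b : ℝ} (hb : T.tin v s ≤ b) :
    (∃ t, T.Runs v s t ∧ T.tin v t ≤ b ∧ T.Reg t.1 (b * v - t.2)) ∨
      ∃ t, ∃ c : ℝ, T.Runs v s t ∧ T.apex t = c * v ∧ T.tin v t < c ∧ c ≤ b := by
  by_contra hcon
  have hv := ne_zero_of_crs h
  have key : ∀ n : ℕ, ∃ t, RunsN T v s n t ∧ T.tin v t ≤ b := by
    intro n
    induction n with
    | zero => exact ⟨s, RunsN.refl, hb⟩
    | succ n ih =>
      obtain ⟨t, hn, ht⟩ := ih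
      have hr := runs_of_runsN hn
      have hc := T.crs_runs h hr
      rcases lt_trichotomy 0 (cr v (T.apex t)) with ha | ha | ha
      · by_cases h1 : T.tin v (T.up t) ≤ b
        · exact ⟨T.up t, RunsN.up hn ha, h1⟩
        · exact absurd (Or.inl ⟨t, hr, ht, reg_between_up hc ha ht (not_le.1 h1).le⟩) hcon
      · obtain ⟨c, hcv⟩ := exists_smul hv ha.symm
        by_cases h1 : c ≤ b
        · exact absurd (Or.inr ⟨t, c, hr, hcv, tin_lt_hit hc hcv, h1⟩) hcon
        · exact absurd (Or.inl ⟨t, hr, ht, reg_between_hit hc hcv ht (not_le.1 h1)⟩) hcon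
      · by_cases h1 : T.tin v (T.dn t) ≤ b
        · exact ⟨T.dn t, RunsN.dn hn ha, h1⟩
        · exact absurd (Or.inl ⟨t, hr, ht, reg_between_dn hc ha ht (not_le.1 h1).le⟩) hcon
  obtain ⟨N, hN⟩ := runs_bound T ((b - T.tin v s) * ‖v‖ + 1)
  obtain ⟨t, hn, ht⟩ := key N
  have h1 := hN v s t N h hn le_rfl
  have h2 : (T.tin v t - T.tin v s) * ‖v‖ ≤ (b - T.tin v s) * ‖v‖ :=
    mul_le_mul_of_nonneg_right (by linarith) (norm_nonneg v)
  linarith

namespace EX56

/-- The conclusion of `ext_pt`. -/
def Goal (C : Chart T X) (v : ℂ) (p : X) : Prop :=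
  (∃ q, Mv C v p q) ∨ ∃ c : ℝ, 0 < c ∧ c ≤ 1 ∧ ∃ h, ∃ ε : ℝ, 0 < ε ∧ ε ≤ c ∧
      ∀ τ : ℝ, 0 < τ → τ < ε → T.Reg h (-(τ * v)) ∧
        Mv C (((c - τ : ℝ) : ℂ) * v) p (C.φ h (-(τ * v)))

theorem φ_prev (C : Chart T X) {h : H} {z : ℂ} (hz : T.Reg h z) :
    C.φ (T.prev h) (z + T.vec (T.prev h)) = C.φ h z := by
  have h1 := C.rot (T.prev h) (z + T.vec (T.prev h)) (T.reg_prev.2 hz)
  rw [T.next_prev, add_sub_cancel_right] at h1
  exact h1.symm

/-- A regular point scaled towards the vertex is regular. -/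
theorem reg_scale {h : H} {z : ℂ} (hz : T.Reg h z) {r : ℝ} (h0 : 0 < r) (h1 : r < 1) :
    T.Reg h (r * z) := by
  obtain ⟨p0, p1, p2, p3, p4, p5⟩ := hz
  have hp := T.pos h
  have e0 : T.a0 h (r * z) = r * T.a0 h z := by
    unfold Tri.a0; rw [cr_mul_right]
  have e2 : T.a2 h (r * z) = r * T.a2 h z := by
    unfold Tri.a2; rw [cr_mul_right]
  have s1 := T.a_sum h z
  have s2 := T.a_sum h (r * z)
  have e1 : T.a1 h (r * z) = r * T.a1 h z + (1 - r) * cr (T.vec h) (T.vec (T.next h)) := by
    rw [e0, e2] at s2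
    linear_combination s2 - r * s1
  have q1 : 0 < (1 - r) * cr (T.vec h) (T.vec (T.next h)) := mul_pos (by linarith) hp
  have r0 : 0 ≤ r * T.a0 h z := mul_nonneg h0.le p0
  have r1 : 0 ≤ r * T.a1 h z := mul_nonneg h0.le p1
  have r2 : 0 ≤ r * T.a2 h z := mul_nonneg h0.le p2
  unfold Tri.Reg
  rw [e0, e1, e2]
  refine ⟨r0, by linarith, r2, by linarith, by linarith, ?_⟩
  have := mul_pos h0 p5
  linarith

/-- The segment ends at the start of `h`. -/
theorem goal_vertex (C : Chart T X) {v : ℂ} {h : H} {z : ℂ} (hz : T.Reg h z) {c : ℝ} (hc : 0 < c)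
    (hc1 : c ≤ 1) (hzc : z + c * v = 0) : Goal C v (C.φ h z) := by
  right
  refine ⟨c, hc, hc1, h, c, hc, le_rfl, ?_⟩
  intro τ h0 h1
  have e1 : -((τ : ℂ) * v) = ((τ / c : ℝ) : ℂ) * z := by
    have hc' : (c : ℂ) ≠ 0 := by exact_mod_cast hc.ne'
    have hz' : z = -(c * v) := by linear_combination hzc
    rw [hz']
    push_cast
    field_simp
  have hreg : T.Reg h (-((τ : ℂ) * v)) := by
    rw [e1]
    exact reg_scale hz (div_pos h0 hc) ((div_lt_one hc).2 h1)
  refine ⟨hreg, ?_⟩
  have e2 : -((τ : ℂ) * v) = z + ((c - τ : ℝ) : ℂ) * v := by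
    push_cast
    linear_combination -hzc
  rw [e2] at hreg ⊢
  exact Mv.hop hz hreg

theorem eq_zero_of {h : H} {w : ℂ} (h2 : T.a2 h w = 0) (h0 : T.a0 h w = 0) : w = 0 :=
  Surf.cr_solve46 (T.pos_prev h).ne' h2 h0

/-- Motion along a segment of the closed triangle, possibly of length zero, followed by a motion. -/
theorem mv_cat (C : Chart T X) {v : ℂ} {h : H} {z : ℂ} {q : X} (hz : T.Reg h z) {a b : ℝ}
    (ha : 0 ≤ a) (hw : T.Reg h (z + a * v)) (hb : 0 < b)
    (hm : Mv C ((b : ℂ) * v) (C.φ h (z + a * v)) q) :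
    Mv C (((a + b : ℝ) : ℂ) * v) (C.φ h z) q := by
  rcases ha.eq_or_lt with rfl | ha'
  · simpa using hm
  · exact Mv.add ha' hb (Mv.hop hz hw) hm

theorem exit_edge [Finite H] (C : Chart T X) {v : ℂ} {k : H} {z : ℂ} (hz : T.Reg k z) {t : ℝ}
    (ht0 : 0 ≤ t) (ht1 : t < 1) (h0 : T.a0 k (z + t * v) = 0) (hd : cr (T.vec k) v < 0)
    (h1 : 0 ≤ T.a1 k (z + t * v)) (h2 : 0 ≤ T.a2 k (z + t * v)) : Goal C v (C.φ k z) := by
  rcases h2.eq_or_lt with h2' | h2'
  · -- the start of `k`
    have hw : z + t * v = 0 := eq_zero_of h2'.symm h0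
    rcases ht0.eq_or_lt with rfl | ht
    · exfalso
      have hw' : z = 0 := by simpa using hw
      have := hz.2.2.2.2.2
      rw [hw'] at this
      simp [Tri.a2, Tri.a0, cr] at this
    · exact goal_vertex C hz ht ht1.le hw
  rcases h1.eq_or_lt with h1' | h1'
  · -- the end of `k`
    have hw : (z - T.vec k) + t * v = 0 := by
      have e : (z - T.vec k) + t * v = (z + t * v) - T.vec k := by ring
      rw [e]
      apply eq_zero_of (T := T) (h := T.next k)
      · rw [T.a2_next]; exact h0
      · rw [T.a0_next]; exact h1'.symm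
    rcases ht0.eq_or_lt with rfl | ht
    · exfalso
      have := hz.2.2.2.1
      have e : z + ((0 : ℝ) : ℂ) * v = z := by simp
      rw [e] at h0 h1'
      linarith
    · rw [← C.rot k z hz]
      exact goal_vertex C (T.reg_next.2 hz) ht ht1.le hw
  -- an interior point of `k`
  have hE : T.Edg k (z + t * v) := ⟨h0, h1', h2'⟩
  obtain ⟨s, hs0, hs1, hs⟩ := T.edg_iff.1 hE
  have hEo : T.Edg (T.opp k) (z + t * v - T.vec k) := T.edg_opp.2 hE
  set P : ℂ := T.vec k - z with hP
  have hvk : 0 < cr v (T.vec k) := by rw [cr_swap]; linarith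
  have hz' : z = s * T.vec k - t * v := by linear_combination hs
  have hCrs : T.Crs v (T.opp k, P) := by
    refine ⟨?_, ?_⟩
    · simp only
      have e : P = ((1 - s : ℝ) : ℂ) * T.vec k + (t : ℂ) * v := by
        rw [hP, hz']; push_cast; ring
      rw [e, cr_add_right, cr_mul_right, cr_mul_right, cr_self, mul_zero, add_zero]
      exact mul_pos (by linarith) hvk
    · simp only
      have e : P + T.vec (T.opp k) = (t : ℂ) * v - (s : ℂ) * T.vec k := by
        rw [hP, hz', T.vec_opp]; ring
      rw [e, cr_sub_right, cr_mul_right, cr_mul_right, cr_self, mul_zero, zero_sub]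
      have := mul_pos hs0 hvk
      linarith
  have htin : T.tin v (T.opp k, P) = t := by
    unfold Tri.tin
    simp only
    have e : P = ((1 - s : ℝ) : ℂ) * T.vec k + (t : ℂ) * v := by
      rw [hP, hz']; push_cast; ring
    have e1 : cr P (T.vec (T.opp k)) = -(t * cr v (T.vec k)) := by
      rw [e, T.vec_opp]
      unfold cr
      simp only [Complex.add_re, Complex.add_im, Complex.re_ofReal_mul, Complex.im_ofReal_mul,
        Complex.neg_re, Complex.neg_im]
      ring
    have e2 : cr v (T.vec (T.opp k)) = -cr v (T.vec k) := by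
      rw [T.vec_opp]
      unfold cr
      simp only [Complex.neg_re, Complex.neg_im]
      ring
    rw [e1, e2, neg_div_neg_eq, mul_div_assoc, div_self hvk.ne', mul_one]
  have hpt : (t : ℂ) * v - P = z + t * v - T.vec k := by rw [hP]; ring
  have hrs : T.Reg (T.opp k) ((t : ℂ) * v - P) := by rw [hpt]; exact hEo.reg
  have hglue : C.φ (T.opp k) ((t : ℂ) * v - P) = C.φ k (z + t * v) := by
    rw [hpt]; exact C.glue k _ hE
  rcases ext (b := 1) hCrs (by rw [htin]; exact ht1.le) with ⟨q, hr, hq, hreg⟩ | ⟨q, c, hr, ha, hq, hc⟩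
  · left
    refine ⟨C.φ q.1 (((1 : ℝ) : ℂ) * v - q.2), ?_⟩
    have hm := Runs.mv C hCrs hr ht1 hrs hreg
    simp only at hm
    rw [hglue] at hm
    have := mv_cat C hz ht0 hE.reg (sub_pos.2 ht1) hm
    have e : t + (1 - t) = 1 := by ring
    rw [e, Complex.ofReal_one, one_mul] at this
    rw [Complex.ofReal_one, one_mul]
    exact this
  · right
    have hle : t ≤ T.tin v q := by
      have := runs_tin_le hCrs hr
      rwa [htin] at this
    refine ⟨c, by linarith, hc, T.prev q.1, c - T.tin v q, by linarith, by linarith, ?_⟩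
    intro τ hτ0 hτ1
    have hcq := T.crs_runs hCrs hr
    have hreg : T.Reg q.1 (((c - τ : ℝ) : ℂ) * v - q.2) :=
      reg_between_hit hcq ha (by linarith) (by linarith)
    have e1 : ((c - τ : ℝ) : ℂ) * v - q.2 + T.vec (T.prev q.1) = -((τ : ℂ) * v) := by
      unfold Tri.apex at ha
      rw [T.vec_prev]
      push_cast
      linear_combination -ha
    have hreg' := T.reg_prev.2 hreg
    have hφ := φ_prev C hreg
    rw [e1] at hreg' hφ
    refine ⟨hreg', ?_⟩
    rw [hφ]
    have hm := Runs.mv C hCrs hr (show t < c - τ by linarith) hrs hreg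
    simp only at hm
    rw [hglue] at hm
    have := mv_cat C hz ht0 hE.reg (sub_pos.2 (show t < c - τ by linarith)) hm
    have e : t + (c - τ - t) = c - τ := by ring
    rwa [e] at this

/-- The exit parameter. -/
theorem exit_param (a d : Fin 3 → ℝ) (ha : ∀ i, 0 ≤ a i) (h : ∃ i, a i + d i < 0) :
    ∃ t : ℝ, 0 ≤ t ∧ t < 1 ∧ (∀ i, 0 ≤ a i + t * d i) ∧ ∃ i, a i + t * d i = 0 ∧ d i < 0 := by
  obtain ⟨i0, hi0⟩ := h
  have hd0 : d i0 < 0 := by linarith [ha i0]
  obtain ⟨i, hi, hmin⟩ := Finset.exists_min_image (Finset.univ.filter fun i => d i < 0)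
    (fun i => a i / (-d i)) ⟨i0, by simp [hd0]⟩
  have hdi : d i < 0 := by simpa using hi
  refine ⟨a i / (-d i), div_nonneg (ha i) (by linarith), ?_, ?_, i, ?_, hdi⟩
  · have h1 := hmin i0 (by simp [hd0])
    have h2 : a i0 / (-d i0) < 1 := by
      rw [div_lt_one (by linarith)]; linarith
    linarith
  · intro j
    rcases lt_or_ge (d j) 0 with hj | hj
    · have h1 := hmin j (by simp [hj])
      have h2 : a j / (-d j) * (-d j) = a j := div_mul_cancel₀ _ (by linarith)
      have h3 : a i / (-d i) * (-d j) ≤ a j / (-d j) * (-d j) :=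
        mul_le_mul_of_nonneg_right h1 (by linarith)
      linarith
    · have h1 : 0 ≤ a i / (-d i) * d j := mul_nonneg (div_nonneg (ha i) (by linarith)) hj
      linarith [ha j]
  · have h2 : a i / (-d i) * (-d i) = a i := div_mul_cancel₀ _ (by linarith)
    linarith

end EX56

theorem ext_pt [Finite H] (C : Chart T X) {v : ℂ} (hv : v ≠ 0) (p : X) :
    (∃ q, Mv C v p q) ∨ ∃ c : ℝ, 0 < c ∧ c ≤ 1 ∧ ∃ h, ∃ ε : ℝ, 0 < ε ∧ ε ≤ c ∧
      ∀ τ : ℝ, 0 < τ → τ < ε → T.Reg h (-(τ * v)) ∧
        Mv C (((c - τ : ℝ) : ℂ) * v) p (C.φ h (-(τ * v))) := by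
  obtain ⟨h, z, hz, rfl⟩ := C.surj p
  change Goal C v (C.φ h z)
  by_cases hall : 0 ≤ T.a0 h (z + v) ∧ 0 ≤ T.a1 h (z + v) ∧ 0 ≤ T.a2 h (z + v)
  · -- the end is in the closed triangle
    obtain ⟨p0, p1, p2⟩ := hall
    by_cases hreg : T.Reg h (z + v)
    · exact Or.inl ⟨_, Mv.hop hz hreg⟩
    · by_cases h01 : 0 < T.a0 h (z + v) + T.a1 h (z + v)
      · by_cases h12 : 0 < T.a1 h (z + v) + T.a2 h (z + v)
        · by_cases h20 : 0 < T.a2 h (z + v) + T.a0 h (z + v)
          · exact absurd ⟨p0, p1, p2, h01, h12, h20⟩ hreg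
          · have hw : z + ((1 : ℝ) : ℂ) * v = 0 := by
              rw [Complex.ofReal_one, one_mul]
              exact eq_zero_of (by linarith) (by linarith)
            exact goal_vertex C hz one_pos le_rfl hw
        · have hw : (z + T.vec (T.prev h)) + ((1 : ℝ) : ℂ) * v = 0 := by
            rw [Complex.ofReal_one, one_mul]
            have e : z + T.vec (T.prev h) + v = (z + v) + T.vec (T.prev h) := by ring
            rw [e]
            apply eq_zero_of (T := T) (h := T.prev h)
            · rw [T.a2_prev]; linarith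
            · rw [T.a0_prev]; linarith
          rw [← φ_prev C hz]
          exact goal_vertex C (T.reg_prev.2 hz) one_pos le_rfl hw
      · have hw : (z - T.vec h) + ((1 : ℝ) : ℂ) * v = 0 := by
          rw [Complex.ofReal_one, one_mul]
          have e : z - T.vec h + v = (z + v) - T.vec h := by ring
          rw [e]
          apply eq_zero_of (T := T) (h := T.next h)
          · rw [T.a2_next]; linarith
          · rw [T.a0_next]; linarith
        rw [← C.rot h z hz]
        exact goal_vertex C (T.reg_next.2 hz) one_pos le_rfl hw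
  · -- the segment leaves the closed triangle
    obtain ⟨t, ht0, ht1, hnn, i, hi, hdi⟩ := exit_param
      ![T.a0 h z, T.a1 h z, T.a2 h z]
      ![cr (T.vec h) v, cr (T.vec (T.next h)) v, cr (T.vec (T.prev h)) v]
      (by
        intro i
        fin_cases i
        · exact hz.1
        · exact hz.2.1
        · exact hz.2.2.1)
      (by
        by_contra hcon
        push Not at hcon
        apply hall
        refine ⟨?_, ?_, ?_⟩
        · rw [T.a0_add]; exact hcon 0
        · rw [T.a1_add]; exact hcon 1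
        · rw [T.a2_add]; exact hcon 2)
    have n0 : 0 ≤ T.a0 h (z + t * v) := by
      rw [T.a0_add, cr_mul_right]; exact hnn 0
    have n1 : 0 ≤ T.a1 h (z + t * v) := by
      rw [T.a1_add, cr_mul_right]; exact hnn 1
    have n2 : 0 ≤ T.a2 h (z + t * v) := by
      rw [T.a2_add, cr_mul_right]; exact hnn 2
    have en : z - T.vec h + t * v = z + t * v - T.vec h := by ring
    have ep : z + T.vec (T.prev h) + t * v = z + t * v + T.vec (T.prev h) := by ring
    fin_cases i
    · have e0 : T.a0 h (z + t * v) = 0 := by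
        rw [T.a0_add, cr_mul_right]; exact hi
      exact exit_edge C hz ht0 ht1 e0 hdi n1 n2
    · have e0 : T.a1 h (z + t * v) = 0 := by
        rw [T.a1_add, cr_mul_right]; exact hi
      rw [← C.rot h z hz]
      refine exit_edge C (T.reg_next.2 hz) ht0 ht1 ?_ hdi ?_ ?_
      · rw [en, T.a0_next]; exact e0
      · rw [en, T.a1_next]; exact n2
      · rw [en, T.a2_next]; exact n0
    · have e0 : T.a2 h (z + t * v) = 0 := by
        rw [T.a2_add, cr_mul_right]; exact hi
      rw [← φ_prev C hz]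
      refine exit_edge C (T.reg_prev.2 hz) ht0 ht1 ?_ hdi ?_ ?_
      · rw [ep, T.a0_prev]; exact e0
      · rw [ep, T.a1_prev]; exact n0
      · rw [ep, T.a2_prev]; exact n1

end Pool.Agent.Helper79.G
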