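import Pool.Agent.Helper79.G.Area

/-!
# TF-G-GAP: existence of a gap

For `r` let `m r` be the maximum, over all `T'` reachable from `T`, of the number of darts `g` with
`‖A (T'.vec g)‖ ≤ r` (a natural number `≤ card H`). By assumption `1 ≤ m (L 0)` and
`m (L K) < card H` with `K = card H`, and `m (L k) ≤ m (L (k+1))`; so for some `k < K`
`m (L k) = m (L (k+1))` (otherwise `m (L K) ≥ 1 + K`). Take `T'` attaining `m (L k)` and
`E = {g : ‖A (T'.vec g)‖ ≤ L k}`. If `T''` is reachable from `T'` without flipping `E` and some `g ∉ E` has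
`‖A (T''.vec g)‖ ≤ L (k+1)` then `T''` has at least `card E + 1` darts `≤ L (k+1)` (`reach_vec`), but
`card E = m (L k) = m (L (k+1))`: contradiction.
-/

set_option autoImplicit false

open Pool.Agent.Helper87.LS Pool.Agent.Helper72.TF

namespace Pool.Agent.Helper79.G

variable {H : Type}

theorem Reach.trans {E : Set H} {T T' T'' : Tri H} (h1 : Reach E T T') (h2 : Reach E T' T'') :
    Reach E T T'' := by
  induction h2 with
  | refl => exact h1
  | flip e he hE hE' _ ih => exact Reach.flip e he hE hE' ih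

theorem Reach.mono {E F : Set H} (hEF : F ⊆ E) {T T' : Tri H} (h : Reach E T T') : Reach F T T' := by
  induction h with
  | refl => exact Reach.refl
  | flip e he hE hE' _ ih => exact Reach.flip e he (fun h => hE (hEF h)) (fun h => hE' (hEF h)) ih

theorem exists_gap [Fintype H] [Nonempty H] (T : Tri H) (A : ℂ ≃ₗ[ℝ] ℂ) (L : ℕ → ℝ)
    (hL : ∀ k < Fintype.card H, L k ≤ L (k + 1))
    (h0 : ∃ T', Reach ∅ T T' ∧ ∃ g, ‖A (T'.vec g)‖ ≤ L 0)
    (hK : ∀ T', Reach ∅ T T' → ∃ g, L (Fintype.card H) < ‖A (T'.vec g)‖) :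
    ∃ k < Fintype.card H, ∃ T', Reach ∅ T T' ∧ {g | ‖A (T'.vec g)‖ ≤ L k}.Nonempty ∧
      {g | ‖A (T'.vec g)‖ ≤ L k} ≠ Set.univ ∧
      ∀ T'', Reach {g | ‖A (T'.vec g)‖ ≤ L k} T' T'' →
        ∀ g, ¬ ‖A (T'.vec g)‖ ≤ L k → L (k + 1) < ‖A (T''.vec g)‖ := by
  classical
  set c : Tri H → ℕ → ℕ := fun T' k => (Finset.univ.filter fun g => ‖A (T'.vec g)‖ ≤ L k).card with hc
  set N := Fintype.card H with hN
  have hcN : ∀ T' k, c T' k ≤ N := fun T' k => Finset.card_le_univ _
  have hcm : ∀ T' k, k < N → c T' k ≤ c T' (k + 1) := by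
    intro T' k hk
    apply Finset.card_le_card
    intro g hg
    rw [Finset.mem_filter] at hg ⊢
    exact ⟨hg.1, hg.2.trans (hL k hk)⟩
  set S : ℕ → Set ℕ := fun k => {n | ∃ T', Reach ∅ T T' ∧ n = c T' k} with hS
  set m : ℕ → ℕ := fun k => sSup (S k) with hm
  have hne : ∀ k, (S k).Nonempty := fun k => ⟨c T k, T, Reach.refl, rfl⟩
  have hbd : ∀ k, BddAbove (S k) := by
    intro k
    refine ⟨N, ?_⟩
    rintro n ⟨T', -, rfl⟩
    exact hcN T' k
  have hle : ∀ T', Reach ∅ T T' → ∀ k, c T' k ≤ m k := fun T' hT' k =>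
    le_csSup (hbd k) ⟨T', hT', rfl⟩
  have hat : ∀ k, ∃ T', Reach ∅ T T' ∧ m k = c T' k := fun k => Nat.sSup_mem (hne k) (hbd k)
  have hmm : ∀ k, k < N → m k ≤ m (k + 1) := by
    intro k hk
    obtain ⟨T', hT', hTk⟩ := hat k
    rw [hTk]
    exact (hcm T' k hk).trans (hle T' hT' (k + 1))
  have hm0 : 1 ≤ m 0 := by
    obtain ⟨T', hT', g, hg⟩ := h0
    refine le_trans ?_ (hle T' hT' 0)
    apply Finset.card_pos.mpr
    exact ⟨g, Finset.mem_filter.mpr ⟨Finset.mem_univ _, hg⟩⟩
  have hmN : m N < N := by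
    obtain ⟨T', hT', hTN⟩ := hat N
    rw [hTN]
    obtain ⟨g, hg⟩ := hK T' hT'
    have h1 : (Finset.univ.filter fun g => ‖A (T'.vec g)‖ ≤ L N) ⊂ Finset.univ := by
      rw [Finset.ssubset_univ_iff]
      intro h2
      have h3 : g ∈ (Finset.univ.filter fun g => ‖A (T'.vec g)‖ ≤ L N) := by
        rw [h2]; exact Finset.mem_univ g
      have h4 := (Finset.mem_filter.mp h3).2
      linarith
    exact Finset.card_lt_card h1
  have hup : ∀ j k, j ≤ k → k ≤ N → m j ≤ m k := by
    intro j k hjk hk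
    induction k, hjk using Nat.le_induction with
    | base => exact le_rfl
    | succ k _ ih => exact (ih (by omega)).trans (hmm k (by omega))
  obtain ⟨k, hk, hkk⟩ : ∃ k < N, m k = m (k + 1) := by
    by_contra hno
    push Not at hno
    have h1 : ∀ k ≤ N, m 0 + k ≤ m k := by
      intro k
      induction k with
      | zero => intro _; exact le_rfl
      | succ k ih =>
        intro hk
        have h2 := ih (by omega)
        have h3 := hmm k (by omega)
        have h4 := hno k (by omega)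
        omega
    have h2 := h1 N le_rfl
    omega
  obtain ⟨T', hT', hTk⟩ := hat k
  have hmk : 1 ≤ m k := hm0.trans (hup 0 k (Nat.zero_le _) hk.le)
  have hmk2 : m k < N := by
    have h1 := hup (k + 1) N hk le_rfl
    omega
  refine ⟨k, hk, T', hT', ?_, ?_, ?_⟩
  · rw [hTk] at hmk
    obtain ⟨g, hg⟩ := Finset.card_pos.mp hmk
    exact ⟨g, (Finset.mem_filter.mp hg).2⟩
  · intro h1
    rw [hTk] at hmk2
    have h2 : (Finset.univ.filter fun g => ‖A (T'.vec g)‖ ≤ L k) = Finset.univ := by
      ext g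
      simp only [Finset.mem_filter, Finset.mem_univ, true_and, iff_true]
      have h3 : g ∈ {g | ‖A (T'.vec g)‖ ≤ L k} := by
        rw [h1]; exact Set.mem_univ g
      exact h3
    have h3 : c T' k = N := by
      simp only [hc]
      rw [h2, Finset.card_univ]
    omega
  · intro T'' hT'' g hg
    by_contra hgl
    push Not at hgl
    have hr : Reach ∅ T T'' := hT'.trans (Reach.mono (Set.empty_subset _) hT'')
    have h1 := hle T'' hr (k + 1)
    have h2 : insert g (Finset.univ.filter fun g => ‖A (T'.vec g)‖ ≤ L k) ⊆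
        Finset.univ.filter fun g => ‖A (T''.vec g)‖ ≤ L (k + 1) := by
      intro g' hg'
      rw [Finset.mem_filter]
      refine ⟨Finset.mem_univ _, ?_⟩
      rcases Finset.mem_insert.mp hg' with h3 | h3
      · rw [h3]; exact hgl
      · have h4 := (Finset.mem_filter.mp h3).2
        rw [reach_vec hT'' (show g' ∈ {g | ‖A (T'.vec g)‖ ≤ L k} from h4)]
        exact h4.trans (hL k hk)
    have h3 := Finset.card_le_card h2
    rw [Finset.card_insert_of_notMem] at h3
    · have h4 : c T' k + 1 ≤ c T'' (k + 1) := h3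
      omega
    · intro h4
      exact hg (Finset.mem_filter.mp h4).2

end Pool.Agent.Helper79.G
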