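import Pool.Agent.Helper79.G.Reg

/-!
# TF-G-MV1: straight motions (for hop_confl, unique, no_vertex see MvUnique.lean)

`Mv C v p q` of `G/Run.lean` (hops inside one closed triangle without its vertices, and composition).
* `symm`, `add` (as `straight_comp` in `Helper87/LS/Str.lean`), `sub`: every motion can be cut at every
  parameter (induction on the derivation; a hop is cut by `reg_segment`; `trans` at `r`: cases
  `t < r`, `t = r`, `t > r`, rescaling of the parameter; cf. `straight_sub`, `run_of_straight`).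
* `zero`: `Mv C 0 p q → p = q`.
* `hop_confl`: two hops from the same point in the same direction agree. If the start is inside the
  triangle: `int_inj` and `rot`. If the start is on an edge `k` of the triangle of `h` (`reg_cases`) then
  the other code is in the same triangle, or in the triangle of `opp k`; in the second case the hops go
  to the left (weakly) of `k` and to the left (weakly) of `opp k`, so `v` is parallel to `k`, both hops stay
  in the line of `k`, all points are `Edg` points, use `glue`.
* `unique`: motions are unique. Write both motions as finite lists of hops (as `Run` in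
  `Helper87/LS/Str.lean`), compare the first hops with `hop_confl`, cut the longer one
  (`run_confl` there is exactly this argument).
* `germ`: the end of a motion, seen from the left: `q = φ h z` and shortly before the end the motion is
  at `φ h (z - t v)` (same triangle).
* `no_vertex`: if the motion arrives at a vertex it cannot be continued: suppose that for all small
  `τ > 0` the motion by `(1 - τ) v` ends at `φ h (-(τ v))`, `T.Reg h (-(τ v))` (the start of `h` is the
  vertex). If `Mv C v p q` then by `germ` and uniqueness `φ k (z - τ v) = φ h (-(τ v))` for all small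
  `τ > 0` with `T.Reg k z`. If one of the points is inside a triangle, `int_inj` gives that `z` is a
  vertex of the triangle of `k`, not regular. Otherwise all the points are on edges, i.e. on one edge line
  for all small `τ`, use `edg_inj` (with `reg_cases`, `rot`): again `z` is a vertex.
-/

set_option autoImplicit false

open Pool.Agent.Helper87.LS

namespace Pool.Agent.Helper79.G

variable {H X : Type} {T : Tri H} {C : Chart T X}

theorem Mv.zero_aux {v : ℂ} {p q : X} (h : Mv C v p q) : v = 0 → p = q := by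
  induction h with
  | hop h1 h2 =>
    intro hv
    rw [hv, add_zero]
  | trans h0 h1 _ _ ih1 ih2 =>
    intro hv
    rw [hv, mul_zero] at ih1 ih2
    exact (ih1 rfl).trans (ih2 rfl)

theorem Mv.zero {p q : X} (h : Mv C 0 p q) : p = q := Mv.zero_aux h rfl

theorem Mv.refl (p : X) : Mv C 0 p p := by
  obtain ⟨h, z, hz, rfl⟩ := C.surj p
  have := Mv.hop (C := C) (h := h) (z := z) (v := 0) hz (by simpa using hz)
  simpa using this

theorem Mv.symm {v : ℂ} {p q : X} (h : Mv C v p q) : Mv C (-v) q p := by
  induction h with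
  | @hop h z v h1 h2 =>
    have := Mv.hop (C := C) (h := h) (z := z + v) (v := -v) h2 (by simpa using h1)
    simpa using this
  | @trans r v p q s h0 h1 _ _ ih1 ih2 =>
    refine Mv.trans (r := 1 - r) (by linarith) (by linarith) (q := q) ?_ ?_
    · rw [mul_neg]
      exact ih2
    · rw [mul_neg, sub_sub_cancel]
      exact ih1

theorem Mv.add {u : ℂ} {a b : ℝ} {p q r : X} (ha : 0 < a) (hb : 0 < b) (h1 : Mv C (a * u) p q)
    (h2 : Mv C (b * u) q r) : Mv C (((a + b : ℝ) : ℂ) * u) p r := by
  have hab : (a + b) ≠ 0 := by positivity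
  refine Mv.trans (r := a / (a + b)) (by positivity) ?_ (q := q) ?_ ?_
  · rw [div_lt_one (by positivity)]
    linarith
  · have e : ((a / (a + b) : ℝ) : ℂ) * (((a + b : ℝ) : ℂ) * u) = (a : ℂ) * u := by
      rw [← mul_assoc, ← Complex.ofReal_mul, div_mul_cancel₀ a hab]
    rw [e]
    exact h1
  · have e : ((1 - a / (a + b) : ℝ) : ℂ) * (((a + b : ℝ) : ℂ) * u) = (b : ℂ) * u := by
      rw [← mul_assoc, ← Complex.ofReal_mul, sub_mul, div_mul_cancel₀ a hab, one_mul,
        add_sub_cancel_left]
    rw [e]
    exact h2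

theorem Mv.sub {v : ℂ} {p q : X} (h : Mv C v p q) {t : ℝ} (h0 : 0 < t) (h1 : t < 1) :
    ∃ r, Mv C (t * v) p r ∧ Mv C (((1 - t : ℝ) : ℂ) * v) r q := by
  induction h generalizing t with
  | @hop h z v g1 g2 =>
    refine ⟨C.φ h (z + t * v), ?_, ?_⟩
    · exact Mv.hop g1 (T.reg_segment g1 g2 h0.le h1.le)
    · have e : z + v = z + t * v + ((1 - t : ℝ) : ℂ) * v := by push_cast; ring
      rw [e]
      refine Mv.hop (T.reg_segment g1 g2 h0.le h1.le) ?_
      rw [← e]
      exact g2
  | @trans r v p q s r0 r1 g1 g2 ih1 ih2 =>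
    rcases lt_trichotomy t r with hlt | heq | hgt
    · obtain ⟨w, hw1, hw2⟩ := ih1 (t := t / r) (by positivity) ((div_lt_one r0).2 hlt)
      refine ⟨w, ?_, ?_⟩
      · have e : ((t / r : ℝ) : ℂ) * ((r : ℂ) * v) = (t : ℂ) * v := by
          rw [← mul_assoc, ← Complex.ofReal_mul, div_mul_cancel₀ t r0.ne']
        rwa [e] at hw1
      · have e : ((1 - t / r : ℝ) : ℂ) * ((r : ℂ) * v) = ((r - t : ℝ) : ℂ) * v := by
          rw [← mul_assoc, ← Complex.ofReal_mul, sub_mul, div_mul_cancel₀ t r0.ne', one_mul]
        rw [e] at hw2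
        have := Mv.add (by linarith) (by linarith) hw2 g2
        have e2 : r - t + (1 - r) = 1 - t := by ring
        rwa [e2] at this
    · subst heq
      exact ⟨q, g1, g2⟩
    · have hr : 0 < 1 - r := by linarith
      obtain ⟨w, hw1, hw2⟩ := ih2 (t := (t - r) / (1 - r)) (div_pos (by linarith) hr)
        ((div_lt_one hr).2 (by linarith))
      refine ⟨w, ?_, ?_⟩
      · have e : (((t - r) / (1 - r) : ℝ) : ℂ) * (((1 - r : ℝ) : ℂ) * v)
            = ((t - r : ℝ) : ℂ) * v := by
          rw [← mul_assoc, ← Complex.ofReal_mul, div_mul_cancel₀ _ hr.ne']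
        rw [e] at hw1
        have := Mv.add r0 (by linarith) g1 hw1
        have e2 : r + (t - r) = t := by ring
        rwa [e2] at this
      · have e : ((1 - (t - r) / (1 - r) : ℝ) : ℂ) * (((1 - r : ℝ) : ℂ) * v)
            = ((1 - t : ℝ) : ℂ) * v := by
          rw [← mul_assoc, ← Complex.ofReal_mul, sub_mul, div_mul_cancel₀ _ hr.ne', one_mul]
          congr 2
          ring
        rwa [e] at hw2

theorem Mv.germ {v : ℂ} {p q : X} (h : Mv C v p q) : ∃ k z, T.Reg k z ∧ C.φ k z = q ∧
    ∃ ε : ℝ, 0 < ε ∧ ∀ τ : ℝ, 0 < τ → τ < ε → T.Reg k (z - τ * v) ∧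
      Mv C (((1 - τ : ℝ) : ℂ) * v) p (C.φ k (z - τ * v)) := by
  induction h with
  | @hop h z v g1 g2 =>
    refine ⟨h, z + v, g2, rfl, 1, one_pos, fun τ t0 t1 => ?_⟩
    have e : z + v - τ * v = z + ((1 - τ : ℝ) : ℂ) * v := by push_cast; ring
    have hr := T.reg_segment g1 g2 (t := 1 - τ) (by linarith) (by linarith)
    rw [e]
    exact ⟨hr, Mv.hop g1 hr⟩
  | @trans r v p q s r0 r1 g1 g2 ih1 ih2 =>
    obtain ⟨k, z, hz, hq, ε, hε, H⟩ := ih2
    have hr : 0 < 1 - r := by linarith
    refine ⟨k, z, hz, hq, min ε 1 * (1 - r), by positivity, fun τ t0 t1 => ?_⟩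
    have h2 : τ / (1 - r) < min ε 1 := by rwa [div_lt_iff₀ hr]
    obtain ⟨H1, H2⟩ := H (τ / (1 - r)) (by positivity) (lt_of_lt_of_le h2 (min_le_left _ _))
    have h3 : τ / (1 - r) < 1 := lt_of_lt_of_le h2 (min_le_right _ _)
    have h4 : τ < 1 - r := by rwa [div_lt_one hr] at h3
    have e : ((τ / (1 - r) : ℝ) : ℂ) * (((1 - r : ℝ) : ℂ) * v) = (τ : ℂ) * v := by
      rw [← mul_assoc, ← Complex.ofReal_mul, div_mul_cancel₀ _ hr.ne']
    have e1 : ((1 - τ / (1 - r) : ℝ) : ℂ) * (((1 - r : ℝ) : ℂ) * v)
        = ((1 - r - τ : ℝ) : ℂ) * v := by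
      rw [← mul_assoc, ← Complex.ofReal_mul, sub_mul, div_mul_cancel₀ _ hr.ne', one_mul]
    rw [e] at H1 H2
    rw [e1] at H2
    refine ⟨H1, ?_⟩
    have := Mv.add r0 (by linarith) g1 H2
    have e2 : r + (1 - r - τ) = 1 - τ := by ring
    rwa [e2] at this

end Pool.Agent.Helper79.G
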