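import Pool.Agent.Helper79.G.MvUnique
import Pool.Agent.Helper79.G.ChartFlip

/-!
# TF-G-MVF: flips do not change the straight motions

`quad_mv` (Q-LEMMA): for a flippable edge `e` and two points `ζ, ζ + v` of the closed quadrilateral
without its vertices, `Mv C v (quad e ζ) (quad e (ζ + v))`. Proof: if both are in the same triangle: a hop
(`quad_left`, `quad_right`). If `ζ` is strictly on the left of the diagonal and `ζ + v` strictly on the right
(or conversely), the segment meets the line of the diagonal at `ζ + t v`, `0 < t < 1`; this point is in the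
interior of the diagonal because the quadrilateral is strictly convex (`Flippable`) and the segment is in
the closed quadrilateral and `ζ`, `ζ+v` are not vertices: use `trans` with two hops.
`mv_flip`: (→) a hop of the flipped triangulation is a hop of the old one (dart outside the six labels)
or a segment in the quadrilateral (`quad_reg`, convexity of the new triangles): `quad_mv`.
(←) a hop of the old triangulation: outside the six labels it is a hop of the new one; inside, use the
Q-LEMMA for the NEW triangulation `T' = T.flip e he`, its flippable edge `e` and the chart `C.flip e he`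
(`flip_flippable`: `e` is flippable in `T'`; the quadrilateral of `T'` around `e` has its origin at `S`, the
start of `e` in `T'`): `flip_quad`: `(C.flip e he).quad e (ζ - vec (next (opp e))) = C.quad e ζ` on the
closed quadrilateral without vertices.
-/

set_option autoImplicit false

open Pool.Agent.Helper87.LS

namespace Pool.Agent.Helper79.G

variable {H X : Type} {T : Tri H}

/-- A point of the right triangle without vertices is strictly on the inner side of the edges `a` and `b`
of the left triangle. -/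
theorem right_inner83 {e : H} (he : T.Flippable e) {w : ℂ} (h : T.Reg (T.opp e) (w - T.vec e)) :
    0 < cr (T.vec (T.next e)) (w - T.vec e) ∧ 0 < cr (T.vec (T.prev e)) w := by
  have hb : T.vec (T.prev e) = -(T.vec e + T.vec (T.next e)) := T.vec_prev e
  have hd := vec_d43 T e
  have hop := T.vec_opp e
  have p1 := T.pos e
  have p2 := T.pos (T.opp e)
  obtain ⟨p3, p4⟩ := id he
  have q0 : T.a0 (T.opp e) (w - T.vec e) = - cr (T.vec e) w := by
    unfold Tri.a0
    rw [T.vec_opp]
    unfold cr; simp; ring
  have q1 : T.a1 (T.opp e) (w - T.vec e) = cr (T.vec (T.next (T.opp e))) w := by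
    unfold Tri.a1
    rw [T.vec_opp]
    congr 1; ring
  obtain ⟨g0, g1, g2, g3, g4, g5⟩ := h
  rw [q0] at g0 g3 g5
  rw [q1] at g1 g3 g4
  unfold Tri.a2 at g2 g4 g5
  rw [hop] at p2
  rw [hd] at g2 g4 g5 p4
  rw [hb] at p3 ⊢
  generalize T.vec (T.next (T.opp e)) = q at *
  generalize T.vec (T.next e) = p at *
  generalize T.vec e = u at *
  constructor
  · have key : cr (-u) q * cr p (w - u) = (- cr u w) * cr (u - q) p + cr (u - q) (w - u) * cr u p := by
      unfold cr; simp; ring
    have h1 : 0 < cr (-u) q * cr p (w - u) := by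
      rw [key]
      rcases g0.eq_or_lt with h0 | h0
      · rw [← h0] at g5 ⊢
        have : 0 < cr (u - q) (w - u) := by linarith
        positivity
      · have := mul_nonneg g2 p1.le
        have := mul_pos h0 p4
        linarith
    exact (mul_pos_iff_of_pos_left p2).1 h1
  · have key : cr (-u) q * cr (-(u + p)) w = (- cr u w) * cr (-(u + p)) q + cr q w * cr u p := by
      unfold cr; simp; ring
    have h1 : 0 < cr (-u) q * cr (-(u + p)) w := by
      rw [key]
      rcases g0.eq_or_lt with h0 | h0
      · rw [← h0] at g3 ⊢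
        have : 0 < cr q w := by linarith
        positivity
      · have := mul_nonneg g1 p1.le
        have := mul_pos h0 p3
        linarith
    exact (mul_pos_iff_of_pos_left p2).1 h1

theorem quad_mv_lr83 (C : Chart T X) {e : H} (he : T.Flippable e) {ζ v : ℂ}
    (h1 : T.Reg e ζ) (h2 : T.Reg (T.opp e) (ζ + v - T.vec e)) :
    Mv C v (C.quad e ζ) (C.quad e (ζ + v)) := by
  have q0 : T.a0 (T.opp e) (ζ + v - T.vec e) = - cr (T.vec e) (ζ + v) := by
    unfold Tri.a0
    rw [T.vec_opp]
    unfold cr; simp; ring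
  obtain ⟨A2, B2⟩ := right_inner83 he h2
  obtain ⟨f0, f1, f2, f3, f4, f5⟩ := id h1
  obtain ⟨g0, g1, g2, g3, g4, g5⟩ := id h2
  rw [q0] at g0
  have hz0 : 0 ≤ cr (T.vec e) ζ := f0
  rcases hz0.eq_or_lt with h0 | h0
  · -- the first point is on the diagonal
    have hE : T.Edg e ζ := by
      refine ⟨h0.symm, ?_, ?_⟩
      · have : T.a0 e ζ = 0 := h0.symm
        rw [this] at f3; linarith
      · have : T.a0 e ζ = 0 := h0.symm
        rw [this] at f5; linarith
    have hr := (T.edg_opp.2 hE).reg
    rw [quad_right C hr, quad_right C h2]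
    have e1 : ζ + v - T.vec e = (ζ - T.vec e) + v := by ring
    rw [e1] at h2 ⊢
    exact Mv.hop hr h2
  rcases g0.eq_or_lt with k0 | k0
  · -- the second point is on the diagonal
    have hE : T.Edg e (ζ + v) := by
      refine ⟨?_, A2, B2⟩
      unfold Tri.a0
      linarith
    rw [quad_left C h1, quad_left C hE.reg]
    exact Mv.hop h1 hE.reg
  -- the crossing point
  have hv : cr (T.vec e) (ζ + v) = cr (T.vec e) ζ + cr (T.vec e) v := cr_add_right _ _ _
  have hden : 0 < cr (T.vec e) ζ - cr (T.vec e) (ζ + v) := by linarith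
  set t : ℝ := cr (T.vec e) ζ / (cr (T.vec e) ζ - cr (T.vec e) (ζ + v)) with ht
  have t0 : 0 < t := div_pos h0 hden
  have t1 : t < 1 := by
    rw [ht, div_lt_one hden]; linarith
  have hE : T.Edg e (ζ + t * v) := by
    refine ⟨?_, ?_, ?_⟩
    · rw [T.a0_add, cr_mul_right]
      unfold Tri.a0
      have : t * (cr (T.vec e) ζ - cr (T.vec e) (ζ + v)) = cr (T.vec e) ζ :=
        div_mul_cancel₀ _ hden.ne'
      rw [hv] at this
      linarith
    · rw [T.a1_add, cr_mul_right]
      have : 0 < T.a1 e (ζ + v) := A2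
      rw [T.a1_add] at this
      nlinarith
    · rw [T.a2_add, cr_mul_right]
      have : 0 < T.a2 e (ζ + v) := B2
      rw [T.a2_add] at this
      nlinarith
  refine Mv.trans t0 t1 (q := C.quad e (ζ + t * v)) ?_ ?_
  · rw [quad_left C h1, quad_left C hE.reg]
    exact Mv.hop h1 hE.reg
  · have hr := (T.edg_opp.2 hE).reg
    rw [quad_right C hr, quad_right C h2]
    have e1 : ζ + v - T.vec e = (ζ + t * v - T.vec e) + ((1 - t : ℝ) : ℂ) * v := by
      push_cast; ring
    rw [e1] at h2 ⊢
    exact Mv.hop hr h2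

theorem quad_mv (C : Chart T X) {e : H} (he : T.Flippable e) {ζ v : ℂ}
    (h1 : T.Reg e ζ ∨ T.Reg (T.opp e) (ζ - T.vec e))
    (h2 : T.Reg e (ζ + v) ∨ T.Reg (T.opp e) (ζ + v - T.vec e)) :
    Mv C v (C.quad e ζ) (C.quad e (ζ + v)) := by
  rcases h1 with h1 | h1 <;> rcases h2 with h2 | h2
  · rw [quad_left C h1, quad_left C h2]
    exact Mv.hop h1 h2
  · exact quad_mv_lr83 C he h1 h2
  · have h3 : T.Reg (T.opp e) (ζ + v + -v - T.vec e) := by
      rwa [add_neg_cancel_right]
    have := (quad_mv_lr83 C he h2 h3).symm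
    rwa [neg_neg, add_neg_cancel_right] at this
  · rw [quad_right C h1, quad_right C h2]
    have e1 : ζ + v - T.vec e = (ζ - T.vec e) + v := by ring
    rw [e1] at h2 ⊢
    exact Mv.hop h1 h2

theorem flip_flippable {e : H} (he : T.Flippable e) : (T.flip e he).Flippable e := by
  have hs := T.six e
  have e1 : (T.flip e he).prev e = T.next (T.opp e) := by
    rw [flip_prev4, T.flipNext_e, T.flipNext_b]
  have e2 : (T.flip e he).next (T.opp e) = T.prev (T.opp e) := T.flipNext_e' e
  have e3 : (T.flip e he).prev (T.opp e) = T.next e := by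
    rw [flip_prev4, T.flipNext_e', T.flipNext_d]
  have e4 : (T.flip e he).next e = T.prev e := T.flipNext_e e
  refine ⟨?_, ?_⟩
  · change 0 < cr ((T.flip e he).vec ((T.flip e he).prev e))
      ((T.flip e he).vec ((T.flip e he).next (T.opp e)))
    rw [e1, e2, flip_vec_c43, flip_vec_d43]
    exact T.pos (T.next (T.opp e))
  · change 0 < cr ((T.flip e he).vec ((T.flip e he).prev (T.opp e)))
      ((T.flip e he).vec ((T.flip e he).next e))
    rw [e3, e4, flip_vec_a43, flip_vec_b43]
    exact T.pos (T.next e)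

theorem flip_quad83 (C : Chart T X) {e : H} (he : T.Flippable e) (ζ : ℂ) :
    (C.flip e he).quad e (ζ - T.vec (T.next (T.opp e))) = C.quad e ζ := by
  have hb : T.vec (T.prev e) = -(T.vec e + T.vec (T.next e)) := T.vec_prev e
  have hd := vec_d43 T e
  have e1 : (C.flip e he).φ e (ζ - T.vec (T.next (T.opp e))) = C.quad e ζ := by
    change C.flipφ e e (ζ - T.vec (T.next (T.opp e))) = C.quad e ζ
    rw [flipφ_at_e, sub_add_cancel]
  have e2 : (C.flip e he).φ ((T.flip e he).opp e)
      (ζ - T.vec (T.next (T.opp e)) - (T.flip e he).vec e) = C.quad e ζ := by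
    change C.flipφ e (T.opp e) (ζ - T.vec (T.next (T.opp e)) - (T.flip e he).vec e) = C.quad e ζ
    rw [flipφ_at_e', flip_vec_e43]
    congr 1
    rw [hb, hd]; ring
  unfold Chart.quad
  split_ifs with h0 h1 h1
  · rw [e1]; unfold Chart.quad; rw [if_pos h1]
  · rw [e1]; unfold Chart.quad; rw [if_neg h1]
  · rw [e2]; unfold Chart.quad; rw [if_pos h1]
  · rw [e2]; unfold Chart.quad; rw [if_neg h1]

theorem flip_quad (C : Chart T X) {e : H} (he : T.Flippable e) {ζ : ℂ}
    (h1 : T.Reg e ζ ∨ T.Reg (T.opp e) (ζ - T.vec e)) :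
    (C.flip e he).quad e (ζ - T.vec (T.next (T.opp e))) = C.quad e ζ := by
  have _ := h1
  exact flip_quad83 C he ζ

/-- The closed quadrilateral of the new triangulation. -/
theorem new_quad_reg83 {e : H} (he : T.Flippable e) {ζ : ℂ}
    (h : T.Reg e ζ ∨ T.Reg (T.opp e) (ζ - T.vec e)) :
    (T.flip e he).Reg e (ζ - T.vec (T.next (T.opp e))) ∨
      (T.flip e he).Reg ((T.flip e he).opp e)
        (ζ - T.vec (T.next (T.opp e)) - (T.flip e he).vec e) := by
  have hd := vec_d43 T e
  rcases (quad_reg he ζ).1 h with h1 | h1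
  · left
    have := ((T.flip e he).reg_next (h := T.next (T.opp e)) (z := ζ)).2 h1
    rwa [flip_next_c43, flip_vec_c43] at this
  · right
    have := ((T.flip e he).reg_next (h := T.next e) (z := ζ - T.vec e)).2 h1
    rw [flip_next_a43, flip_vec_a43] at this
    change (T.flip e he).Reg (T.opp e) _
    rw [flip_vec_e43]
    have e1 : ζ - T.vec (T.next (T.opp e)) - (T.vec (T.prev (T.opp e)) + T.vec (T.next e))
        = ζ - T.vec e - T.vec (T.next e) := by
      rw [hd]; ring
    rw [e1]
    exact this

theorem new_mv83 (C : Chart T X) {e : H} (he : T.Flippable e) {ζ v : ℂ}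
    (h1 : T.Reg e ζ ∨ T.Reg (T.opp e) (ζ - T.vec e))
    (h2 : T.Reg e (ζ + v) ∨ T.Reg (T.opp e) (ζ + v - T.vec e)) :
    Mv (C.flip e he) v (C.quad e ζ) (C.quad e (ζ + v)) := by
  rw [← flip_quad83 C he ζ, ← flip_quad83 C he (ζ + v)]
  have e1 : ζ + v - T.vec (T.next (T.opp e)) = ζ - T.vec (T.next (T.opp e)) + v := by ring
  have g1 := new_quad_reg83 he h1
  have g2 := new_quad_reg83 he h2
  rw [e1] at g2 ⊢
  exact quad_mv (C.flip e he) (flip_flippable he) g1 g2

/-- Old charts of the six labels in the quadrilateral. -/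
theorem old_six83 (C : Chart T X) {e h : H} (ho : ¬ T.Out e h) :
    ∃ s : ℂ, ∀ z, T.Reg h z → (T.Reg e (z + s) ∨ T.Reg (T.opp e) (z + s - T.vec e)) ∧
      C.φ h z = C.quad e (z + s) := by
  have hop := T.vec_opp e
  rcases T.cases_six e h with ho' | rfl | rfl | rfl | rfl | rfl | rfl
  · exact absurd ho' ho
  · refine ⟨0, fun z hz => ?_⟩
    rw [add_zero]
    exact ⟨Or.inl hz, (quad_left C hz).symm⟩
  · refine ⟨T.vec e, fun z hz => ?_⟩
    have hz' : T.Reg e (z + T.vec e) := by
      rw [← T.reg_next]; rwa [add_sub_cancel_right]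
    have h1 := C.rot e _ hz'
    rw [add_sub_cancel_right] at h1
    exact ⟨Or.inl hz', by rw [h1, quad_left C hz']⟩
  · refine ⟨-T.vec (T.prev e), fun z hz => ?_⟩
    rw [← sub_eq_add_neg]
    have hz' : T.Reg e (z - T.vec (T.prev e)) := by
      rw [← T.reg_prev]; rwa [sub_add_cancel]
    have h1 := C.rot (T.prev e) z hz
    rw [T.next_prev] at h1
    exact ⟨Or.inl hz', by rw [← h1, quad_left C hz']⟩
  · refine ⟨T.vec e, fun z hz => ?_⟩
    have hz' : T.Reg (T.opp e) (z + T.vec e - T.vec e) := by rwa [add_sub_cancel_right]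
    exact ⟨Or.inr hz', by rw [quad_right C hz', add_sub_cancel_right]⟩
  · refine ⟨0, fun z hz => ?_⟩
    rw [add_zero]
    have hz' : T.Reg (T.opp e) (z - T.vec e) := by
      rw [← T.reg_next]
      rwa [show z - T.vec e - T.vec (T.opp e) = z by rw [hop]; ring]
    have h1 := C.rot (T.opp e) _ hz'
    rw [show z - T.vec e - T.vec (T.opp e) = z by rw [hop]; ring] at h1
    exact ⟨Or.inr hz', by rw [h1, quad_right C hz']⟩
  · refine ⟨T.vec (T.next (T.opp e)), fun z hz => ?_⟩
    have e1 : z + T.vec (T.next (T.opp e)) - T.vec e = z - T.vec (T.prev (T.opp e)) := by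
      rw [vec_d43]; ring
    rw [e1]
    have hz' : T.Reg (T.opp e) (z - T.vec (T.prev (T.opp e))) := by
      rw [← T.reg_prev]; rwa [sub_add_cancel]
    have h1 := C.rot (T.prev (T.opp e)) z hz
    rw [T.next_prev] at h1
    exact ⟨Or.inr hz', by rw [← h1, quad_right C (by rwa [e1]), e1]⟩

/-- New charts of the six labels in the quadrilateral. -/
theorem new_six83 (C : Chart T X) {e h : H} (he : T.Flippable e) (ho : ¬ T.Out e h) :
    ∃ s : ℂ, ∀ z, (T.flip e he).Reg h z →
      (T.Reg e (z + s) ∨ T.Reg (T.opp e) (z + s - T.vec e)) ∧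
      C.flipφ e h z = C.quad e (z + s) := by
  have hb : T.vec (T.prev e) = -(T.vec e + T.vec (T.next e)) := T.vec_prev e
  have hd := vec_d43 T e
  rcases T.cases_six e h with ho' | rfl | rfl | rfl | rfl | rfl | rfl
  · exact absurd ho' ho
  · refine ⟨_, fun z hz => ⟨?_, flipφ_at_e C h z⟩⟩
    rw [quad_reg he]
    left
    rw [← (T.flip h he).reg_next, flip_next_c43, flip_vec_c43, add_sub_cancel_right]
    exact hz
  · refine ⟨_, fun z hz => ⟨?_, flipφ_at_a C e z⟩⟩
    rw [quad_reg he]
    right
    rw [add_sub_cancel_right]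
    exact hz
  · refine ⟨-T.vec (T.prev e), fun z hz => ⟨?_, ?_⟩⟩
    · rw [quad_reg he]
      left
      rw [← (T.flip e he).reg_prev, flip_prev_c43, flip_vec_b43, neg_add_cancel_right]
      exact hz
    · rw [flipφ_at_b, sub_eq_add_neg]
  · refine ⟨-T.vec (T.prev e), fun z hz => ⟨?_, ?_⟩⟩
    · rw [quad_reg he]
      right
      rw [← (T.flip e he).reg_next, flip_next_a43, flip_vec_a43]
      have e1 : z + -T.vec (T.prev e) - T.vec e - T.vec (T.next e) = z := by
        rw [hb]; ring
      rw [e1]
      exact hz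
    · rw [flipφ_at_e', sub_eq_add_neg]
  · refine ⟨0, fun z hz => ⟨?_, ?_⟩⟩
    · rw [quad_reg he, add_zero]
      left
      exact hz
    · rw [flipφ_at_c, add_zero]
  · refine ⟨_, fun z hz => ⟨?_, flipφ_at_d C e z⟩⟩
    rw [quad_reg he]
    right
    rw [← (T.flip e he).reg_prev, flip_prev_a43, flip_vec_d43]
    have e1 : z + T.vec (T.next (T.opp e)) - T.vec e + T.vec (T.prev (T.opp e)) = z := by
      rw [hd]; ring
    rw [e1]
    exact hz

theorem mv_flip (C : Chart T X) {e : H} (he : T.Flippable e) {v : ℂ} {p q : X} :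
    Mv (C.flip e he) v p q ↔ Mv C v p q := by
  constructor
  · intro h
    induction h with
    | @hop h z v h1 h2 =>
      change Mv C v (C.flipφ e h z) (C.flipφ e h (z + v))
      by_cases ho : T.Out e h
      · rw [flipφ_out C ho, flipφ_out C ho]
        exact Mv.hop ((flip_reg_out43 he ho).1 h1) ((flip_reg_out43 he ho).1 h2)
      · obtain ⟨s, hs⟩ := new_six83 C he ho
        obtain ⟨g1, g2⟩ := hs z h1
        obtain ⟨k1, k2⟩ := hs (z + v) h2
        have e1 : z + v + s = z + s + v := by ring
        rw [e1] at k1 k2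
        rw [g2, k2]
        exact quad_mv C he g1 k1
    | trans h0 h1 _ _ ih1 ih2 => exact Mv.trans h0 h1 ih1 ih2
  · intro h
    induction h with
    | @hop h z v h1 h2 =>
      by_cases ho : T.Out e h
      · rw [← flipφ_out C ho, ← flipφ_out C ho]
        exact Mv.hop (C := C.flip e he) ((flip_reg_out43 he ho).2 h1)
          ((flip_reg_out43 he ho).2 h2)
      · obtain ⟨s, hs⟩ := old_six83 C ho
        obtain ⟨g1, g2⟩ := hs z h1
        obtain ⟨k1, k2⟩ := hs (z + v) h2
        have e1 : z + v + s = z + s + v := by ring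
        rw [e1] at k1 k2
        rw [g2, k2]
        exact new_mv83 C he g1 k1
    | trans h0 h1 _ _ ih1 ih2 => exact Mv.trans h0 h1 ih1 ih2

end Pool.Agent.Helper79.G
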