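import Pool.Agent.Helper79.G.MvBasic

/-!
# TF-G-MV2: uniqueness of straight motions (proofs in words: header of MvBasic.lean, items
`hop_confl`, `unique`, `no_vertex`)
-/

set_option autoImplicit false

open Pool.Agent.Helper87.LS

namespace Pool.Agent.Helper79.G

variable {H X : Type} {T : Tri H} {C : Chart T X}

/-- The codes `(h, z)` and `(h', z')` describe the same position, in the same triangle. -/
private def Same26 (C : Chart T X) (h : H) (z : ℂ) (h' : H) (z' : ℂ) : Prop :=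
  ∀ v : ℂ, (T.Reg h (z + v) ↔ T.Reg h' (z' + v)) ∧
    (T.Reg h (z + v) → C.φ h (z + v) = C.φ h' (z' + v))

private theorem Same26.refl (h : H) (z : ℂ) : Same26 C h z h z :=
  fun _ => ⟨Iff.rfl, fun _ => rfl⟩

private theorem Same26.symm {h h' : H} {z z' : ℂ} (s : Same26 C h z h' z') :
    Same26 C h' z' h z :=
  fun v => ⟨(s v).1.symm, fun r => ((s v).2 ((s v).1.2 r)).symm⟩

private theorem Same26.trans {h h' h'' : H} {z z' z'' : ℂ} (s : Same26 C h z h' z')
    (s' : Same26 C h' z' h'' z'') : Same26 C h z h'' z'' :=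
  fun v => ⟨(s v).1.trans (s' v).1, fun r => ((s v).2 r).trans ((s' v).2 ((s v).1.1 r))⟩

private theorem same_next26 (h : H) (z : ℂ) : Same26 C h z (T.next h) (z - T.vec h) := by
  intro v
  have e : z - T.vec h + v = (z + v) - T.vec h := by ring
  rw [e]
  exact ⟨T.reg_next.symm, fun r => (C.rot h (z + v) r).symm⟩

private theorem same_prev26 (h : H) (z : ℂ) :
    Same26 C h z (T.prev h) (z + T.vec (T.prev h)) := by
  have := same_next26 (C := C) (T.prev h) (z + T.vec (T.prev h))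
  rw [T.next_prev, add_sub_cancel_right] at this
  exact this.symm

private theorem Same26.reg {h h' : H} {z z' : ℂ} (s : Same26 C h z h' z') :
    T.Reg h z ↔ T.Reg h' z' := by
  have := (s 0).1
  rwa [add_zero, add_zero] at this

private theorem Same26.φ {h h' : H} {z z' : ℂ} (s : Same26 C h z h' z') (r : T.Reg h z) :
    C.φ h z = C.φ h' z' := by
  have := (s 0).2
  rw [add_zero, add_zero] at this
  exact this r

private theorem edge_code26 {h : H} {z : ℂ} (hz : T.Reg h z) :
    T.Int h z ∨ ∃ e w, T.Edg e w ∧ Same26 C h z e w := by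
  rcases T.reg_cases hz with h0 | h0 | h0 | h0
  · exact Or.inl h0
  · exact Or.inr ⟨h, z, h0, Same26.refl h z⟩
  · exact Or.inr ⟨T.next h, z - T.vec h, h0, same_next26 h z⟩
  · exact Or.inr ⟨T.prev h, z + T.vec (T.prev h), h0, same_prev26 h z⟩

private theorem int_same26 {h h' : H} {z z' : ℂ} (hz : T.Int h z) (hz' : T.Reg h' z')
    (heq : C.φ h z = C.φ h' z') : Same26 C h z h' z' := by
  rcases C.int_inj h z h' z' hz hz' heq with ⟨rfl, rfl⟩ | ⟨rfl, rfl⟩ | ⟨rfl, rfl⟩
  · exact Same26.refl _ _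
  · exact same_next26 _ _
  · exact same_prev26 _ _

private theorem codes26 {h h' : H} {z z' : ℂ} (hz : T.Reg h z) (hz' : T.Reg h' z')
    (heq : C.φ h z = C.φ h' z') : Same26 C h z h' z' ∨
      ∃ e w, T.Edg e w ∧ Same26 C h z e w ∧ Same26 C h' z' (T.opp e) (w - T.vec e) := by
  rcases edge_code26 (C := C) hz with h1 | ⟨e, w, hw, s⟩
  · exact Or.inl (int_same26 h1 hz' heq)
  rcases edge_code26 (C := C) hz' with h1 | ⟨e', w', hw', s'⟩
  · exact Or.inl (int_same26 h1 hz heq.symm).symm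
  have h2 : C.φ e w = C.φ e' w' := by
    rw [← s.φ hz, ← s'.φ hz', heq]
  rcases C.edg_inj e w e' w' hw hw' h2 with ⟨h3, h4⟩ | ⟨h3, h4⟩
  · rw [h3, h4] at s'
    exact Or.inl (s.trans s'.symm)
  · rw [h3, h4] at s'
    exact Or.inr ⟨e, w, hw, s, s'⟩

/-- If a segment leaves a point of the edge `e` to both sides then it is parallel to `e`. -/
private theorem par26 {e : H} {w v : ℂ} {a b : ℝ} (ha : 0 < a) (hb : 0 < b) (hw : T.Edg e w)
    (h1 : T.Reg e (w + a * v)) (h2 : T.Reg (T.opp e) (w - T.vec e + b * v)) :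
    cr (T.vec e) v = 0 := by
  have e1 := h1.1
  have e2 := h2.1
  have hw' := T.edg_opp.2 hw
  rw [T.a0_add, cr_mul_right, hw.1, zero_add] at e1
  rw [T.a0_add, cr_mul_right, hw'.1, zero_add, T.vec_opp] at e2
  have e3 : cr (-T.vec e) v = - cr (T.vec e) v := by simp [cr]; ring
  rw [e3] at e2
  have e4 : 0 ≤ cr (T.vec e) v := by
    by_contra hcon
    push Not at hcon
    nlinarith
  have e5 : cr (T.vec e) v ≤ 0 := by
    by_contra hcon
    push Not at hcon
    nlinarith
  linarith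

private theorem edg_of_par26 {e : H} {w v : ℂ} {a : ℝ} (hw : T.Edg e w)
    (h1 : T.Reg e (w + a * v)) (hp : cr (T.vec e) v = 0) : T.Edg e (w + a * v) := by
  have e0 : T.a0 e (w + a * v) = 0 := by
    rw [T.a0_add, cr_mul_right, hw.1, hp]
    ring
  obtain ⟨-, -, -, h3, -, h5⟩ := h1
  rw [e0] at h3 h5
  exact ⟨e0, by linarith, by linarith⟩

theorem hop_confl {h h' : H} {z z' v : ℂ} {a b : ℝ} (ha : 0 < a) (hab : a ≤ b) (hz : T.Reg h z)
    (hza : T.Reg h (z + a * v)) (hz' : T.Reg h' z') (hzb : T.Reg h' (z' + b * v))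
    (heq : C.φ h z = C.φ h' z') : C.φ h (z + a * v) = C.φ h' (z' + a * v) := by
  have hb : 0 < b := lt_of_lt_of_le ha hab
  rcases codes26 hz hz' heq with s | ⟨e, w, hw, s, s'⟩
  · exact (s _).2 hza
  · have h1 : T.Reg e (w + a * v) := (s _).1.1 hza
    have h2 : T.Reg (T.opp e) (w - T.vec e + b * v) := (s' _).1.1 hzb
    have hp := par26 ha hb hw h1 h2
    have h3 := edg_of_par26 hw h1 hp
    have h4 := C.glue e (w + a * v) h3
    have h5 : T.Reg (T.opp e) (w - T.vec e + a * v) := by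
      have := T.edg_opp.2 h3
      have e1 : w + a * v - T.vec e = w - T.vec e + a * v := by ring
      rw [e1] at this
      exact Tri.Edg.reg T this
    have e1 : w + a * v - T.vec e = w - T.vec e + a * v := by ring
    rw [e1] at h4
    rw [(s _).2 hza, ← h4]
    exact (s'.symm _).2 h5

private def HopX26 (C : Chart T X) (v : ℂ) (p q : X) : Prop :=
  ∃ h z, T.Reg h z ∧ T.Reg h (z + v) ∧ C.φ h z = p ∧ C.φ h (z + v) = q

private theorem hop_unique26 {v : ℂ} {x y z : X} (h1 : HopX26 C v x y) (h2 : HopX26 C v x z) :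
    y = z := by
  obtain ⟨h, w, a1, a2, a3, a4⟩ := h1
  obtain ⟨h', w', b1, b2, b3, b4⟩ := h2
  have := hop_confl (C := C) (h := h) (h' := h') (z := w) (z' := w') (v := v) (a := 1) (b := 1)
    one_pos le_rfl a1 (by simpa using a2) b1 (by simpa using b2) (a3.trans b3.symm)
  rw [Complex.ofReal_one, one_mul, a4, b4] at this
  exact this

private theorem hop_hop26 {u : ℂ} {a b : ℝ} {x y z : X} (ha : 0 < a) (hab : a < b)
    (h1 : HopX26 C (a * u) x y) (h2 : HopX26 C (b * u) x z) :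
    HopX26 C (((b - a : ℝ) : ℂ) * u) y z := by
  obtain ⟨h, w, a1, a2, a3, a4⟩ := h1
  obtain ⟨h', w', b1, b2, b3, b4⟩ := h2
  have h3 := hop_confl (C := C) ha hab.le a1 a2 b1 b2 (a3.trans b3.symm)
  have hb : 0 < b := ha.trans hab
  have h4 : T.Reg h' (w' + a * u) := by
    have := T.reg_segment b1 b2 (t := a / b) (by positivity) ((div_le_one hb).2 hab.le)
    have e : ((a / b : ℝ) : ℂ) * ((b : ℂ) * u) = (a : ℂ) * u := by
      rw [← mul_assoc, ← Complex.ofReal_mul, div_mul_cancel₀ a hb.ne']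
    rwa [e] at this
  have e : w' + a * u + ((b - a : ℝ) : ℂ) * u = w' + b * u := by push_cast; ring
  refine ⟨h', w' + a * u, h4, ?_, ?_, ?_⟩
  · rw [e]; exact b2
  · rw [← h3, a4]
  · rw [e]; exact b4

private inductive RunX26 (C : Chart T X) (u : ℂ) : ℕ → ℝ → X → X → Prop
  | nil (x : X) : RunX26 C u 0 0 x x
  | cons {m : ℕ} {t t' : ℝ} {x y z : X} : 0 < t → HopX26 C (t * u) x y → RunX26 C u m t' y z →
      RunX26 C u (m + 1) (t + t') x z

private theorem RunX26.nonneg {u : ℂ} {x y : X} {m : ℕ} {t : ℝ} (h : RunX26 C u m t x y) :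
    0 ≤ t := by
  induction h with
  | nil => exact le_refl _
  | cons h _ _ ih => linarith

private theorem RunX26.eq_of_zero {u : ℂ} {x y : X} {m : ℕ} {t : ℝ} (h : RunX26 C u m t x y)
    (ht : t = 0) : x = y := by
  cases h with
  | nil => rfl
  | cons h _ h' =>
    have := h'.nonneg
    linarith

private theorem RunX26.append {u : ℂ} {x y z : X} {m n : ℕ} {t t' : ℝ}
    (h : RunX26 C u m t x y) (h' : RunX26 C u n t' y z) : ∃ k, RunX26 C u k (t + t') x z := by
  induction h with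
  | nil =>
    rw [zero_add]
    exact ⟨n, h'⟩
  | cons h0 h1 _ ih =>
    obtain ⟨k, hk⟩ := ih h'
    refine ⟨k + 1, ?_⟩
    rw [add_assoc]
    exact RunX26.cons h0 h1 hk

private theorem run_of_mv26 {v : ℂ} {x y : X} (h : Mv C v x y) :
    ∀ (u : ℂ) (t : ℝ), 0 < t → v = t * u → ∃ m, RunX26 C u m t x y := by
  induction h with
  | @hop h z v h1 h2 =>
    intro u t ht hv
    subst hv
    refine ⟨1, ?_⟩
    have := RunX26.cons ht ⟨h, z, h1, h2, rfl, rfl⟩ (RunX26.nil (C := C) (u := u) _)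
    rwa [add_zero, zero_add] at this
  | @trans r v x y z h0 h1 _ _ ih1 ih2 =>
    intro u t ht hv
    obtain ⟨m, hm⟩ := ih1 u (r * t) (mul_pos h0 ht) (by rw [hv]; push_cast; ring)
    obtain ⟨n, hn⟩ := ih2 u ((1 - r) * t) (mul_pos (by linarith) ht)
      (by rw [hv]; push_cast; ring)
    obtain ⟨k, hk⟩ := hm.append hn
    refine ⟨k, ?_⟩
    have e : r * t + (1 - r) * t = t := by ring
    rwa [e] at hk

private theorem run_confl26 (u : ℂ) : ∀ (N m n : ℕ) (a b : ℝ) (x y z : X), m + n ≤ N →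
    RunX26 C u m a x y → RunX26 C u n b x z → a ≤ b → ∃ k, RunX26 C u k (b - a) y z := by
  intro N
  induction N with
  | zero =>
    intro m n a b x y z hN h1 h2 _
    cases h1 with
    | nil =>
      rw [sub_zero]
      exact ⟨n, h2⟩
    | cons => omega
  | succ N ih =>
    intro m n a b x y z hN h1 h2 hab
    cases h1 with
    | nil =>
      rw [sub_zero]
      exact ⟨n, h2⟩
    | @cons m' a₁ a' _ y₁ _ ha₁ g1 r1 =>
      have hr1 := r1.nonneg
      cases h2 with
      | nil => linarith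
      | @cons n' b₁ b' _ z₁ _ hb₁ g2 r2 =>
        rcases lt_trichotomy a₁ b₁ with hlt | heq | hgt
        · have g3 := hop_hop26 ha₁ hlt g1 g2
          have r3 := RunX26.cons (by linarith) g3 r2
          obtain ⟨k, hk⟩ := ih m' (n' + 1) a' (b₁ - a₁ + b') y₁ y z (by omega) r1 r3
            (by linarith)
          refine ⟨k, ?_⟩
          have e : b₁ - a₁ + b' - a' = b₁ + b' - (a₁ + a') := by ring
          rwa [e] at hk
        · subst heq
          have e := hop_unique26 g1 g2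
          subst e
          obtain ⟨k, hk⟩ := ih m' n' a' b' y₁ y z (by omega) r1 r2 (by linarith)
          refine ⟨k, ?_⟩
          have e : b' - a' = a₁ + b' - (a₁ + a') := by ring
          rwa [e] at hk
        · have g3 := hop_hop26 hb₁ hgt g2 g1
          have r3 := RunX26.cons (by linarith) g3 r1
          obtain ⟨k, hk⟩ := ih (m' + 1) n' (a₁ - b₁ + a') b' z₁ y z (by omega) r3 r2
            (by linarith)
          refine ⟨k, ?_⟩
          have e : b' - (a₁ - b₁ + a') = b₁ + b' - (a₁ + a') := by ring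
          rwa [e] at hk

theorem Mv.unique {v : ℂ} {p q q' : X} (h : Mv C v p q) (h' : Mv C v p q') : q = q' := by
  obtain ⟨m, hm⟩ := run_of_mv26 h v 1 one_pos (by simp)
  obtain ⟨n, hn⟩ := run_of_mv26 h' v 1 one_pos (by simp)
  obtain ⟨k, hk⟩ := run_confl26 v (m + n) m n 1 1 p q q' le_rfl hm hn le_rfl
  exact hk.eq_of_zero (sub_self 1)

theorem Mv.no_vertex {v : ℂ} (hv : v ≠ 0) {p q : X} {h : H} {ε : ℝ} (hε : 0 < ε)
    (hg : ∀ τ : ℝ, 0 < τ → τ < ε → T.Reg h (-(τ * v)) ∧
      Mv C (((1 - τ : ℝ) : ℂ) * v) p (C.φ h (-(τ * v)))) : ¬ Mv C v p q := by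
  intro hm
  obtain ⟨k, z, hz, -, ε', hε', hk⟩ := hm.germ
  have h0 : ¬ T.Reg h 0 := by
    rintro ⟨-, -, -, -, -, h5⟩
    simp [Tri.a0, Tri.a2, cr] at h5
  set τ : ℝ := min ε ε' / 2 with hτ
  have hτ0 : 0 < τ := by positivity
  have hτ1 : τ < ε := by
    have := min_le_left ε ε'
    have : 0 < min ε ε' := lt_min hε hε'
    linarith
  have hτ2 : τ < ε' := by
    have := min_le_right ε ε'
    have : 0 < min ε ε' := lt_min hε hε'
    linarith
  obtain ⟨a1, a2⟩ := hg τ hτ0 hτ1
  obtain ⟨b1, b2⟩ := hk τ hτ0 hτ2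
  have heq := a2.unique b2
  rcases codes26 a1 b1 heq with s | ⟨e, w, hw, s, s'⟩
  · have h1 := (s (τ * v)).1
    rw [neg_add_cancel, sub_add_cancel] at h1
    exact h0 (h1.2 hz)
  · obtain ⟨a3, -⟩ := hg (τ / 2) (by positivity) (by linarith)
    have h2 : T.Reg e (w + ((τ / 2 : ℝ) : ℂ) * v) := by
      have e1 : -(((τ / 2 : ℝ) : ℂ) * v) = -((τ : ℂ) * v) + ((τ / 2 : ℝ) : ℂ) * v := by
        push_cast
        ring
      rw [e1] at a3
      exact (s _).1.1 a3
    have h3 : T.Reg (T.opp e) (w - T.vec e + (τ : ℂ) * v) := by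
      have e1 : z = z - (τ : ℂ) * v + (τ : ℂ) * v := by ring
      rw [e1] at hz
      exact (s' _).1.1 hz
    have hp := par26 (by positivity) hτ0 hw h2 h3
    have hp' : cr (T.vec (T.opp e)) v = 0 := by
      rw [T.vec_opp]
      simp [cr] at hp ⊢
      linarith
    have h4 := edg_of_par26 (T.edg_opp.2 hw) h3 hp'
    have e1 : w - T.vec e + (τ : ℂ) * v = w + (τ : ℂ) * v - T.vec e := by ring
    rw [e1] at h4
    have h5 := Tri.Edg.reg T (T.edg_opp.1 h4)
    have h6 := (s (τ * v)).1.2 h5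
    rw [neg_add_cancel] at h6
    exact h0 h6

end Pool.Agent.Helper79.G
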