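import Pool.Agent.Helper79.G.System

/-!
# MP_e98778_an (full), module G: nondivergence for a triangulated surface (output of G1-G4, G8)

Input for G9 (tail and large deviations).
-/

set_option autoImplicit false

open MeasureTheory Pool.Agent.Helper87.LS Pool.Agent.Helper72.TF Pool.Agent.Helper79.K

namespace Pool.Agent.Helper79.G

variable {H : Type}

/-- Nondivergence. The constants depend only on the number of darts and the area. -/
theorem kms_tri [Fintype H] [Nonempty H] (hins : ∀ X : Type, InsertionX H X) (area : ℝ)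
    (ha : 0 < area) : ∃ C α : ℝ, 0 < C ∧ 0 < α ∧
    ∀ T : Tri H, T.Conn → T.area = area → ∀ s' u0 t lam : ℝ, 0 ≤ t → 0 < lam →
      (∀ T', Reach ∅ T T' → ∀ g, lam ≤ ‖gsu s' u0 (T'.vec g)‖) → ∀ r : ℝ, 0 < r →
      volume {u : ℝ | |u - u0| ≤ Real.exp (-2 * s') ∧
          ∃ T', Reach ∅ T T' ∧ ∃ g, ‖gsu (s' + t) u (T'.vec g)‖ ≤ r} ≤
        ENNReal.ofReal (C * (r / min (Real.sqrt (area / Fintype.card H)) (lam * Real.exp t)) ^ α *
          Real.exp (-2 * s')) := by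
  have hcard : (0 : ℝ) < Fintype.card H := by exact_mod_cast Fintype.card_pos
  obtain ⟨C, α, hC, hα, hk⟩ := kms (Fintype.card H) (Fintype.card H) Fintype.card_pos
    (Real.sqrt (area / Fintype.card H)) (Real.sqrt_pos.2 (div_pos ha hcard))
  refine ⟨C, α, hC, hα, ?_⟩
  intro T hc hTa s' u0 t lam ht hlam hl r hr
  subst hTa
  obtain ⟨S, Z, hZ1, hZ2⟩ := exists_ssys hins T hc
  refine le_trans (measure_mono ?_) (hk S Z s' u0 t lam ht hlam ?_ r hr)
  · rintro u ⟨hu, T', hT', g, hg⟩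
    obtain ⟨a, ha⟩ := hZ1 T' hT' g
    exact ⟨hu, a, by unfold len; rw [ha]; exact hg⟩
  · intro a
    obtain ⟨T', g, hT', hg⟩ := hZ2 a
    unfold len
    rw [← hg]
    exact hl T' hT' g

/-- The lengths of the saddles of a fixed surface are bounded below. -/
theorem exists_min [Fintype H] [Nonempty H] (hins : ∀ X : Type, InsertionX H X) (T : Tri H) :
    ∃ ε : ℝ, 0 < ε ∧ ∀ T', Reach ∅ T T' → ∀ g, ε ≤ ‖T'.vec g‖ := by
  obtain ⟨X, ⟨C⟩⟩ := exists_chart T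
  let c : CT H X := ⟨T, C⟩
  have hf := saddles_finite c 1
  obtain ⟨ε, hε, hmin⟩ : ∃ ε : ℝ, 0 < ε ∧ ∀ z ∈ {z : ℂ | (∃ a : Sdl c, a.v = z) ∧ ‖z‖ ≤ 1}, ε ≤ ‖z‖ := by
    by_cases hne : {z : ℂ | (∃ a : Sdl c, a.v = z) ∧ ‖z‖ ≤ 1}.Nonempty
    · obtain ⟨z, hz, hz'⟩ := hf.toFinset.exists_min_image (fun z => ‖z‖)
        (by rwa [Set.Finite.toFinset_nonempty])
      rw [Set.Finite.mem_toFinset] at hz
      obtain ⟨⟨a, rfl⟩, -⟩ := hz
      exact ⟨‖a.v‖, norm_pos_iff.2 a.vp.ne, fun z hz => hz' z (by rwa [Set.Finite.mem_toFinset])⟩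
    · exact ⟨1, one_pos, fun z hz => (hne ⟨z, hz⟩).elim⟩
  refine ⟨min ε 1, lt_min hε one_pos, ?_⟩
  intro T' hT' g
  obtain ⟨c', hc', rfl⟩ := hT'.lift C
  by_cases h1 : ‖c'.T.vec g‖ ≤ 1
  · exact (min_le_left _ _).trans (hmin _ ⟨⟨Sdl.edge hc' g, rfl⟩, h1⟩)
  · push Not at h1
    exact (min_le_right _ _).trans h1.le

end Pool.Agent.Helper79.G
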