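import Pool.Agent.Helper79.G.System
import Pool.Agent.Helper79.G.InsX
import Pool.Agent.Helper86.TF.SConn
import Pool.Agent.Helper58.TF.Tame

/-!
# MP_e98778_an (full), module G: the final statements `tail` and `ld`
-/

set_option autoImplicit false

open MeasureTheory Set Pool.Agent.Helper87.LS Pool.Agent.Helper72.TF

namespace Pool.Agent.Helper79.G

/-- The saddle connections of a triangulated connected surface. -/
theorem ssys_of {H : Type} [Fintype H] [Nonempty H] (T : Tri H) (hc : T.Conn) :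
    ∃ (A : Type) (Z : Pool.Agent.Helper79.K.SSys A (Fintype.card H) (Fintype.card H)
      (Real.sqrt (T.area / Fintype.card H))),
      ∀ z, z ∈ Pool.Agent.Helper86.TF.Sadv T ↔ ∃ a, Z.vec a = z := by
  obtain ⟨A, Z, h1, h2⟩ := exists_ssys (fun X => insertionX H X) T hc
  refine ⟨A, Z, fun z => ⟨?_, ?_⟩⟩
  · rintro ⟨T', g, hT', rfl⟩
    exact h1 T' hT' g
  · rintro ⟨a, rfl⟩
    obtain ⟨T', g, hT', hg⟩ := h2 a
    exact ⟨T', g, hT', hg⟩

/-- TAIL (the statement of `Skel.lean`). -/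
theorem tail (S : Surf) (hS : Connected S) : ∃ C β : ℝ, 0 < C ∧ 0 < β ∧ ∀ a b : ℝ, a < b →
    ∃ s₀ : ℝ, ∀ s K : ℝ, s₀ ≤ s → 1 ≤ K →
      volume ({u | ¬ TameAt S K s u} ∩ Icc a b) ≤
        ENNReal.ofReal (C * K ^ (-β) * (b - a)) := by
  haveI : Nonempty (Fin S.n × Fin 3) := ⟨(⟨0, S.pos⟩, 0)⟩
  obtain ⟨A, Z, hZ⟩ := ssys_of (ofSurf S) hS
  have hcard : (0 : ℝ) < Fintype.card (Fin S.n × Fin 3) := by exact_mod_cast Fintype.card_pos
  exact Pool.Agent.Helper86.TF.tail_of_ssys Fintype.card_pos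
    (Real.sqrt_pos.2 (div_pos (area_pos _) hcard)) Z hZ (Pool.Agent.Helper58.TF.tame_input S hS)

/-- LD (the statement of `Skel.lean`). -/
theorem ld (S : Surf) (hS : Connected S) : ∃ K ε₁ C c : ℝ, 1 ≤ K ∧ 0 < ε₁ ∧ 0 < C ∧ 0 < c ∧
    ∀ a b : ℝ, a < b → ∃ s₀ : ℝ, ∀ s : ℝ, s₀ ≤ s → ∀ N : ℕ,
      volume ({u | ({j : ℕ | j < N ∧ TameAt S K (s + j) u}.ncard : ℝ) < ε₁ * N} ∩ Icc a b) ≤
        ENNReal.ofReal (C * Real.exp (-(c * N)) * (b - a)) := by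
  haveI : Nonempty (Fin S.n × Fin 3) := ⟨(⟨0, S.pos⟩, 0)⟩
  obtain ⟨A, Z, hZ⟩ := ssys_of (ofSurf S) hS
  have hcard : (0 : ℝ) < Fintype.card (Fin S.n × Fin 3) := by exact_mod_cast Fintype.card_pos
  exact Pool.Agent.Helper86.TF.ld_of_ssys Fintype.card_pos
    (Real.sqrt_pos.2 (div_pos (area_pos _) hcard)) Z hZ (Pool.Agent.Helper58.TF.tame_input S hS)

end Pool.Agent.Helper79.G
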