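import Pool.Agent.Helper79.G.Run

/-!
# MP_e98778_an (full): points of the triangles
-/

set_option autoImplicit false

open Pool.Agent.Helper87.LS

namespace Pool.Agent.Helper79.G

namespace Tri

variable {H : Type} (T : Tri H)

theorem pos_prev (h : H) : 0 < cr (T.vec (T.prev h)) (T.vec h) := by
  have := T.pos (T.prev h)
  rwa [T.next_prev] at this

theorem cr_next (h : H) :
    cr (T.vec (T.next h)) (T.vec (T.prev h)) = cr (T.vec h) (T.vec (T.next h)) := by
  rw [T.vec_prev]; unfold cr; simp; ring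

theorem cr_prev (h : H) :
    cr (T.vec (T.prev h)) (T.vec h) = cr (T.vec h) (T.vec (T.next h)) := by
  rw [T.vec_prev]; unfold cr; simp; ring

theorem a0_next (h : H) (z : ℂ) : T.a0 (T.next h) (z - T.vec h) = T.a1 h z := rfl

theorem a1_next (h : H) (z : ℂ) : T.a1 (T.next h) (z - T.vec h) = T.a2 h z := by
  unfold a1 a2
  rw [T.next_next, T.vec_prev]
  unfold cr; simp; ring

theorem a2_next (h : H) (z : ℂ) : T.a2 (T.next h) (z - T.vec h) = T.a0 h z := by
  unfold a2 a0
  rw [T.prev_next]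
  unfold cr; simp; ring

theorem a0_prev (h : H) (z : ℂ) : T.a0 (T.prev h) (z + T.vec (T.prev h)) = T.a2 h z := by
  unfold a0 a2; unfold cr; simp; ring

theorem a1_prev (h : H) (z : ℂ) : T.a1 (T.prev h) (z + T.vec (T.prev h)) = T.a0 h z := by
  unfold a1 a0
  rw [T.next_prev]
  congr 1
  ring

theorem a2_prev (h : H) (z : ℂ) : T.a2 (T.prev h) (z + T.vec (T.prev h)) = T.a1 h z := by
  unfold a2 a1
  rw [T.prev_prev, T.vec_prev]
  unfold cr; simp; ring

theorem a_sum (h : H) (z : ℂ) :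
    T.a0 h z + T.a1 h z + T.a2 h z = cr (T.vec h) (T.vec (T.next h)) := by
  unfold a0 a1 a2
  rw [T.vec_prev]
  unfold cr; simp; ring

theorem reg_next {h : H} {z : ℂ} : T.Reg (T.next h) (z - T.vec h) ↔ T.Reg h z := by
  unfold Reg
  rw [a0_next, a1_next, a2_next]
  constructor
  · rintro ⟨h1, h2, h3, h4, h5, h6⟩; exact ⟨h3, h1, h2, h6, h4, h5⟩
  · rintro ⟨h1, h2, h3, h4, h5, h6⟩; exact ⟨h2, h3, h1, h5, h6, h4⟩

theorem reg_prev {h : H} {z : ℂ} : T.Reg (T.prev h) (z + T.vec (T.prev h)) ↔ T.Reg h z := by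
  unfold Reg
  rw [a0_prev, a1_prev, a2_prev]
  constructor
  · rintro ⟨h1, h2, h3, h4, h5, h6⟩; exact ⟨h2, h3, h1, h5, h6, h4⟩
  · rintro ⟨h1, h2, h3, h4, h5, h6⟩; exact ⟨h3, h1, h2, h6, h4, h5⟩

theorem int_next {h : H} {z : ℂ} : T.Int (T.next h) (z - T.vec h) ↔ T.Int h z := by
  unfold Int
  rw [a0_next, a1_next, a2_next]
  tauto

theorem int_prev {h : H} {z : ℂ} : T.Int (T.prev h) (z + T.vec (T.prev h)) ↔ T.Int h z := by
  unfold Int
  rw [a0_prev, a1_prev, a2_prev]
  tauto

theorem edg_iff {h : H} {z : ℂ} : T.Edg h z ↔ ∃ t : ℝ, 0 < t ∧ t < 1 ∧ z = t * T.vec h := by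
  have hp := T.pos h
  constructor
  · rintro ⟨h0, h1, h2⟩
    refine ⟨T.a2 h z / cr (T.vec h) (T.vec (T.next h)), by positivity, ?_, ?_⟩
    · rw [div_lt_one hp, ← T.a_sum h z]; linarith
    · have hne : cr (T.vec h) (T.vec (T.next h)) ≠ 0 := hp.ne'
      have h3 : z - ((T.a2 h z / cr (T.vec h) (T.vec (T.next h)) : ℝ) : ℂ) * T.vec h = 0 := by
        apply Surf.cr_solve46 hne
        · rw [cr_sub_right, cr_mul_right, cr_self, mul_zero, sub_zero]; exact h0
        · rw [cr_sub_right, cr_mul_right]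
          have h4 : cr (T.vec (T.next h)) (T.vec h) = - cr (T.vec h) (T.vec (T.next h)) := cr_swap _ _
          rw [h4]
          have h5 : cr (T.vec (T.next h)) z = T.a1 h z + cr (T.vec (T.next h)) (T.vec h) := by
            unfold a1; rw [cr_sub_right]; ring
          rw [h5, h4]
          have h6 := T.a_sum h z
          field_simp
          rw [← h6, h0]; ring
      linear_combination h3
  · rintro ⟨t, ht0, ht1, rfl⟩
    refine ⟨?_, ?_, ?_⟩
    · unfold a0; rw [cr_mul_right, cr_self, mul_zero]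
    · unfold a1; rw [cr_sub_right, cr_mul_right]
      have h4 : cr (T.vec (T.next h)) (T.vec h) = - cr (T.vec h) (T.vec (T.next h)) := cr_swap _ _
      rw [h4]; nlinarith
    · unfold a2; rw [cr_mul_right, T.cr_prev]; positivity

theorem edg_opp {h : H} {z : ℂ} : T.Edg (T.opp h) (z - T.vec h) ↔ T.Edg h z := by
  rw [edg_iff, edg_iff, T.vec_opp]
  constructor
  · rintro ⟨t, h0, h1, h2⟩
    refine ⟨1 - t, by linarith, by linarith, ?_⟩
    push_cast
    linear_combination h2
  · rintro ⟨t, h0, h1, h2⟩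
    refine ⟨1 - t, by linarith, by linarith, ?_⟩
    push_cast
    linear_combination h2

theorem Int.reg {h : H} {z : ℂ} (hz : T.Int h z) : T.Reg h z := by
  obtain ⟨h0, h1, h2⟩ := hz
  exact ⟨h0.le, h1.le, h2.le, by linarith, by linarith, by linarith⟩

theorem Edg.reg {h : H} {z : ℂ} (hz : T.Edg h z) : T.Reg h z := by
  obtain ⟨h0, h1, h2⟩ := hz
  exact ⟨h0.ge, h1.le, h2.le, by linarith, by linarith, by linarith⟩

/-- A regular point of the closed triangle is inside or on exactly one of the edges. -/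
theorem reg_cases {h : H} {z : ℂ} (hz : T.Reg h z) :
    T.Int h z ∨ T.Edg h z ∨ T.Edg (T.next h) (z - T.vec h) ∨
      T.Edg (T.prev h) (z + T.vec (T.prev h)) := by
  obtain ⟨h0, h1, h2, h3, h4, h5⟩ := hz
  unfold Int Edg
  rw [a0_next, a1_next, a2_next, a0_prev, a1_prev, a2_prev]
  rcases h0.eq_or_lt with h0 | h0
  · right; left; exact ⟨h0.symm, by linarith, by linarith⟩
  rcases h1.eq_or_lt with h1 | h1
  · right; right; left; exact ⟨h1.symm, by linarith, by linarith⟩
  rcases h2.eq_or_lt with h2 | h2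
  · right; right; right; exact ⟨h2.symm, by linarith, by linarith⟩
  · left; exact ⟨h0, h1, h2⟩

/-- The barycentric coordinates are affine along segments. -/
theorem a0_add (h : H) (z w : ℂ) : T.a0 h (z + w) = T.a0 h z + cr (T.vec h) w := by
  unfold a0; rw [cr_add_right]
theorem a1_add (h : H) (z w : ℂ) : T.a1 h (z + w) = T.a1 h z + cr (T.vec (T.next h)) w := by
  unfold a1; rw [show z + w - T.vec h = (z - T.vec h) + w by ring, cr_add_right]
theorem a2_add (h : H) (z w : ℂ) : T.a2 h (z + w) = T.a2 h z + cr (T.vec (T.prev h)) w := by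
  unfold a2; rw [cr_add_right]

theorem mix_pos {A B t : ℝ} (hA : 0 < A) (hB : 0 < A + B) (ht0 : 0 ≤ t) (ht1 : t ≤ 1) :
    0 < A + t * B := by
  rcases le_total 0 B with h | h
  · have := mul_nonneg ht0 h; linarith
  · nlinarith

/-- The closed triangle without vertices is convex. -/
theorem reg_segment {h : H} {z v : ℂ} (h0 : T.Reg h z) (h1 : T.Reg h (z + v)) {t : ℝ} (ht0 : 0 ≤ t)
    (ht1 : t ≤ 1) : T.Reg h (z + t * v) := by
  obtain ⟨p0, p1, p2, p3, p4, p5⟩ := h0
  obtain ⟨q0, q1, q2, q3, q4, q5⟩ := h1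
  rw [a0_add] at q0 q3 q5
  rw [a1_add] at q1 q3 q4
  rw [a2_add] at q2 q4 q5
  unfold Reg
  rw [a0_add, a1_add, a2_add, cr_mul_right, cr_mul_right, cr_mul_right]
  refine ⟨by nlinarith, by nlinarith, by nlinarith, ?_, ?_, ?_⟩
  · have := mix_pos p3 (B := cr (T.vec h) v + cr (T.vec (T.next h)) v) (by linarith) ht0 ht1
    linarith
  · have := mix_pos p4 (B := cr (T.vec (T.next h)) v + cr (T.vec (T.prev h)) v) (by linarith) ht0 ht1
    linarith
  · have := mix_pos p5 (B := cr (T.vec (T.prev h)) v + cr (T.vec h) v) (by linarith) ht0 ht1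
    linarith

/-- The interior of the triangle: a point of the open segment is inside if one end is. -/
theorem int_segment {h : H} {z v : ℂ} (h0 : T.Int h z) (h1 : T.Reg h (z + v)) {t : ℝ} (ht0 : 0 ≤ t)
    (ht1 : t < 1) : T.Int h (z + t * v) := by
  obtain ⟨p0, p1, p2⟩ := h0
  obtain ⟨q0, q1, q2, -⟩ := h1
  rw [a0_add] at q0
  rw [a1_add] at q1
  rw [a2_add] at q2
  unfold Int
  rw [a0_add, a1_add, a2_add, cr_mul_right, cr_mul_right, cr_mul_right]
  refine ⟨by nlinarith, by nlinarith, by nlinarith⟩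

end Tri

end Pool.Agent.Helper79.G
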