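import Pool.Agent.Helper79.G.Flip

/-!
# MP_e98778_an (full): straight runs through a triangulation

A straight line through the origin in the direction `v` crosses the developed triangles of a
triangulation. A STATE `s = (g, P)` means: the line enters the triangle of the dart `g` through the
edge `g`, which is placed with its start at `P`; `Crs v s` says that the start of `g` is on the left
of the line (above) and the end of `g` on the right (below), strictly. `apex s` is the third
vertex of the triangle which is entered. If it is above, the line leaves through `next g` and the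
next state is `up s`; if it is below the line leaves through `prev g` and the next state is `dn s`.

`Hits v s l`: the run which starts in the state `s` ends at a vertex with position `v`, and `l` is
the list of its states (with `s` as first element).

`Sad h v l`: the saddle connection which starts in the corner `h` (strictly inside) with the vector
`v`; `l` is the (nonempty) list of its states.
-/

set_option autoImplicit false

open Pool.Agent.Helper87.LS

namespace Pool.Agent.Helper79.G

namespace Tri

variable {H : Type} (T : Tri H)

/-- The line through `0` in the direction `v` crosses the edge of the state. -/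
def Crs (v : ℂ) (s : H × ℂ) : Prop := 0 < cr v s.2 ∧ cr v (s.2 + T.vec s.1) < 0

/-- The third vertex of the triangle which is entered. -/
def apex (s : H × ℂ) : ℂ := s.2 + T.vec s.1 + T.vec (T.next s.1)

/-- The next state if the apex is above the line. -/
def up (s : H × ℂ) : H × ℂ := (T.opp (T.next s.1), T.apex s)

/-- The next state if the apex is below the line. -/
def dn (s : H × ℂ) : H × ℂ := (T.opp (T.prev s.1), s.2)

/-- The run from the state `s` in direction `v` ends at a vertex with position `v`; the list of its
states is `l`. -/
inductive Hits (v : ℂ) : H × ℂ → List (H × ℂ) → Prop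
  | hit {s : H × ℂ} : T.apex s = v → Hits v s [s]
  | up {s : H × ℂ} {l : List (H × ℂ)} : 0 < cr v (T.apex s) → Hits v (T.up s) l → Hits v s (s :: l)
  | dn {s : H × ℂ} {l : List (H × ℂ)} : cr v (T.apex s) < 0 → Hits v (T.dn s) l → Hits v s (s :: l)

/-- The first state of a run which starts in the corner `h`. -/
def cst (h : H) : H × ℂ := (T.opp (T.next h), -T.vec (T.prev h))

/-- The vector `v` points strictly into the triangle at the corner `h`. -/
def Into (h : H) (v : ℂ) : Prop := 0 < cr (T.vec h) v ∧ 0 < cr v (-T.vec (T.prev h))

/-- The saddle connection from the corner `h` with vector `v`, which crosses at least one edge; `l` is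
the list of its states. -/
def Sad (h : H) (v : ℂ) (l : List (H × ℂ)) : Prop := T.Into h v ∧ T.Hits v (T.cst h) l

/-- The run from the state `s` in direction `v` reaches the state `t`. -/
inductive Runs (v : ℂ) (s : H × ℂ) : H × ℂ → Prop
  | refl : Runs v s s
  | up {t : H × ℂ} : Runs v s t → 0 < cr v (T.apex t) → Runs v s (T.up t)
  | dn {t : H × ℂ} : Runs v s t → cr v (T.apex t) < 0 → Runs v s (T.dn t)

/-- The parameter at which the line through `0` in the direction `v` meets the line of the edge of the
state: the point is `tin v s * v`. -/
noncomputable def tin (v : ℂ) (s : H × ℂ) : ℝ := cr s.2 (T.vec s.1) / cr v (T.vec s.1)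

end Tri

/-! ### Charts -/

/-- A chart of a triangulated surface in a set `X` (the regular points of the surface): `φ h z` is
the point of the closed triangle of `h` (without its vertices) with position `z` relative to the
start of `h`. -/
structure Chart {H : Type} (T : Tri H) (X : Type) where
  φ : H → ℂ → X
  rot : ∀ h z, T.Reg h z → φ (T.next h) (z - T.vec h) = φ h z
  glue : ∀ h z, T.Edg h z → φ (T.opp h) (z - T.vec h) = φ h z
  surj : ∀ x, ∃ h z, T.Reg h z ∧ φ h z = x
  int_inj : ∀ h z h' z', T.Int h z → T.Reg h' z' → φ h z = φ h' z' →
    (h' = h ∧ z' = z) ∨ (h' = T.next h ∧ z' = z - T.vec h) ∨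
      (h' = T.prev h ∧ z' = z + T.vec (T.prev h))
  edg_inj : ∀ h z h' z', T.Edg h z → T.Edg h' z' → φ h z = φ h' z' →
    (h' = h ∧ z' = z) ∨ (h' = T.opp h ∧ z' = z - T.vec h)

/-- The straight motion: `q` is reached from `p` by the vector `v` along a segment without
vertices. -/
inductive Mv {H X : Type} {T : Tri H} (C : Chart T X) : ℂ → X → X → Prop
  | hop {h : H} {z v : ℂ} : T.Reg h z → T.Reg h (z + v) → Mv C v (C.φ h z) (C.φ h (z + v))
  | trans {r : ℝ} {v : ℂ} {p q s : X} : 0 < r → r < 1 → Mv C (r * v) p q →
      Mv C (((1 - r : ℝ) : ℂ) * v) q s → Mv C v p s

section quad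

open Classical

variable {H X : Type} {T : Tri H}

/-- The chart of the quadrilateral around the edge `e`; the origin is the start of `e`. -/
noncomputable def Chart.quad (C : Chart T X) (e : H) (ζ : ℂ) : X :=
  if 0 ≤ cr (T.vec e) ζ then C.φ e ζ else C.φ (T.opp e) (ζ - T.vec e)

/-- The new charts after the flip of `e`. -/
noncomputable def Chart.flipφ (C : Chart T X) (e h : H) (z : ℂ) : X :=
  if h = e then C.quad e (z + T.vec (T.next (T.opp e)))
  else if h = T.prev e then C.quad e (z - T.vec (T.prev e))
  else if h = T.next (T.opp e) then C.quad e z
  else if h = T.opp e then C.quad e (z - T.vec (T.prev e))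
  else if h = T.prev (T.opp e) then C.quad e (z + T.vec (T.next (T.opp e)))
  else if h = T.next e then C.quad e (z + T.vec e)
  else C.φ h z

end quad

end Pool.Agent.Helper79.G
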