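import Pool.Agent.Helper79.G.MvUnique
import Pool.Agent.Helper79.G.CrossDn

/-!
# TF-G-RUN: runs and motions

Notation of `G/Run.lean`, `G/Gap.lean`. For a state `s` with `Crs v s` the line is inside the triangle of
`s.1` from the parameter `tin v s` until the next edge or the apex.
* `edg_tin`: the entering point is an interior point of the edge (`tin_mem`).
* `reg_between_up`: if the apex is above, for `tin v s ≤ t ≤ tin v (up s)` the point `t v` is in the closed
  triangle without vertices; moreover it is inside (`Int`) for `tin v s < t < tin v (up s)`.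
  `reg_between_dn`, `reg_between_hit` similarly (apex `= c v` : `tin v s ≤ t < c`).
  (Barycentric coordinates are affine in `t`: `a0 s.1 (t v - s.2)` vanishes at `tin v s` and increases
  (`cr (vec s.1) v > 0`); `up s`, `dn s` are the edges `next s.1`, `prev s.1`.)
* `reg_only`: conversely, if `T.Reg s.1 (t v - s.2)` then `tin v s ≤ t` and `t ≤ tin v (up s)` (resp.
  `dn`), resp. `t < c`.
* `runs_tin_le`: `tin` is monotone along runs.
* `Runs.mv`: if `Runs v s t`, the points `a v` in the triangle of `s` and `b v` in the triangle of `t`,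
  `a < b`, then there is the motion by `(b - a) v` between them (induction on `Runs`; glue at the crossing
  points: the point `tin v (up s) * v` has the two codes `(s.1, ..)` and `((up s).1, ..)`, see `glue`, `rot`).
-/

set_option autoImplicit false

open Pool.Agent.Helper87.LS

namespace Pool.Agent.Helper79.G

variable {H X : Type} {T : Tri H}

/-- first coordinate along the line -/
private theorem h99_a0 {v : ℂ} {s : H × ℂ} (hne : cr v (T.vec s.1) ≠ 0) (t : ℝ) :
    T.a0 s.1 (t * v - s.2) = -cr v (T.vec s.1) * (t - T.tin v s) := by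
  have h1 : T.tin v s * cr v (T.vec s.1) = cr s.2 (T.vec s.1) := by
    unfold Tri.tin
    field_simp
  have h2 : T.a0 s.1 (t * v - s.2) = -(t * cr v (T.vec s.1)) + cr s.2 (T.vec s.1) := by
    unfold Tri.a0 cr
    simp
    ring
  rw [h2, ← h1]
  ring

private theorem h99_vec_up (s : H × ℂ) : T.vec (T.up s).1 = -T.vec (T.next s.1) := by
  unfold Tri.up
  exact T.vec_opp _

private theorem h99_vec_dn (s : H × ℂ) : T.vec (T.dn s).1 = -T.vec (T.prev s.1) := by
  unfold Tri.dn
  exact T.vec_opp _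

/-- second coordinate along the line -/
private theorem h99_a1 {v : ℂ} {s : H × ℂ} (hne : cr v (T.vec (T.up s).1) ≠ 0) (t : ℝ) :
    T.a1 s.1 (t * v - s.2) = -cr v (T.vec (T.up s).1) * (T.tin v (T.up s) - t) := by
  have h1 : T.tin v (T.up s) * cr v (T.vec (T.up s).1) = cr (T.up s).2 (T.vec (T.up s).1) := by
    unfold Tri.tin
    field_simp
  have h2 : T.a1 s.1 (t * v - s.2) =
      t * cr v (T.vec (T.up s).1) - cr (T.up s).2 (T.vec (T.up s).1) := by
    rw [h99_vec_up]
    unfold Tri.a1 Tri.up Tri.apex cr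
    simp
    ring
  rw [h2, ← h1]
  ring

/-- third coordinate along the line -/
private theorem h99_a2 {v : ℂ} {s : H × ℂ} (hne : cr v (T.vec (T.dn s).1) ≠ 0) (t : ℝ) :
    T.a2 s.1 (t * v - s.2) = -cr v (T.vec (T.dn s).1) * (T.tin v (T.dn s) - t) := by
  have h1 : T.tin v (T.dn s) * cr v (T.vec (T.dn s).1) = cr (T.dn s).2 (T.vec (T.dn s).1) := by
    unfold Tri.tin
    field_simp
  have h2 : T.a2 s.1 (t * v - s.2) =
      t * cr v (T.vec (T.dn s).1) - cr (T.dn s).2 (T.vec (T.dn s).1) := by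
    rw [h99_vec_dn]
    unfold Tri.a2 Tri.dn cr
    simp
    ring
  rw [h2, ← h1]
  ring

theorem edg_tin {v : ℂ} {s : H × ℂ} (h : T.Crs v s) : T.Edg s.1 (T.tin v s * v - s.2) := by
  obtain ⟨t, h0, h1, h2⟩ := T.tin_mem h
  rw [Tri.edg_iff]
  refine ⟨t, h0, h1, ?_⟩
  linear_combination h2

/-- the crossing point of the next edge, upper case, in the triangle of `s` -/
private theorem h99_edg_up {v : ℂ} {s : H × ℂ} (h : T.Crs v s) (ha : 0 < cr v (T.apex s)) :
    T.Edg (T.next s.1) ((T.tin v (T.up s) * v - s.2) - T.vec s.1) := by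
  have h1 := edg_tin (T.crs_up h ha)
  have h2 : (T.tin v (T.up s) : ℂ) * v - (T.up s).2 =
      ((T.tin v (T.up s) * v - s.2) - T.vec s.1) - T.vec (T.next s.1) := by
    unfold Tri.up Tri.apex
    simp only
    ring
  rw [h2] at h1
  exact T.edg_opp.1 h1

private theorem h99_edg_dn {v : ℂ} {s : H × ℂ} (h : T.Crs v s) (ha : cr v (T.apex s) < 0) :
    T.Edg (T.prev s.1) ((T.tin v (T.dn s) * v - s.2) + T.vec (T.prev s.1)) := by
  have h1 := edg_tin (T.crs_dn h ha)
  have h2 : (T.tin v (T.dn s) : ℂ) * v - (T.dn s).2 =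
      ((T.tin v (T.dn s) * v - s.2) + T.vec (T.prev s.1)) - T.vec (T.prev s.1) := by
    unfold Tri.dn
    simp only
    ring
  rw [h2] at h1
  exact T.edg_opp.1 h1

private theorem h99_reg_up {v : ℂ} {s : H × ℂ} (h : T.Crs v s) (ha : 0 < cr v (T.apex s)) :
    T.Reg s.1 (T.tin v (T.up s) * v - s.2) := T.reg_next.1 (h99_edg_up h ha).reg

private theorem h99_reg_dn {v : ℂ} {s : H × ℂ} (h : T.Crs v s) (ha : cr v (T.apex s) < 0) :
    T.Reg s.1 (T.tin v (T.dn s) * v - s.2) := T.reg_prev.1 (h99_edg_dn h ha).reg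

private theorem h99_between {v : ℂ} {s : H × ℂ} {a b t : ℝ} (hab : a < b)
    (ha : T.Reg s.1 (a * v - s.2)) (hb : T.Reg s.1 (b * v - s.2)) (h1 : a ≤ t) (h2 : t ≤ b) :
    T.Reg s.1 (t * v - s.2) := by
  have e1 : (b : ℂ) * v - s.2 = (a * v - s.2) + ((b - a : ℝ) : ℂ) * v := by
    push_cast; ring
  rw [e1] at hb
  have hba : 0 < b - a := by linarith
  have e2 := T.reg_segment ha hb (t := (t - a) / (b - a)) (div_nonneg (by linarith) hba.le)
    (by rw [div_le_one hba]; linarith)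
  have e3 : (t : ℂ) * v - s.2 = (a * v - s.2) + (((t - a) / (b - a) : ℝ) : ℂ) * (((b - a : ℝ) : ℂ) * v) := by
    have : (((t - a) / (b - a) : ℝ) : ℂ) * (((b - a : ℝ) : ℂ) * v) = ((t - a : ℝ) : ℂ) * v := by
      rw [← mul_assoc, ← Complex.ofReal_mul, div_mul_cancel₀ _ hba.ne']
    rw [this]
    push_cast
    ring
  rw [e3]
  exact e2

theorem reg_between_up {v : ℂ} {s : H × ℂ} (h : T.Crs v s) (ha : 0 < cr v (T.apex s)) {t : ℝ}
    (h1 : T.tin v s ≤ t) (h2 : t ≤ T.tin v (T.up s)) : T.Reg s.1 (t * v - s.2) :=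
  h99_between (tin_lt_up T h ha) (edg_tin h).reg (h99_reg_up h ha) h1 h2

theorem reg_between_dn {v : ℂ} {s : H × ℂ} (h : T.Crs v s) (ha : cr v (T.apex s) < 0) {t : ℝ}
    (h1 : T.tin v s ≤ t) (h2 : t ≤ T.tin v (T.dn s)) : T.Reg s.1 (t * v - s.2) :=
  h99_between (tin_lt_dn T h ha) (edg_tin h).reg (h99_reg_dn h ha) h1 h2

private theorem h99_apex {v : ℂ} {s : H × ℂ} {c : ℝ} (ha : T.apex s = c * v) :
    T.a0 s.1 (c * v - s.2) = cr (T.vec s.1) (T.vec (T.next s.1)) ∧ T.a1 s.1 (c * v - s.2) = 0 ∧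
      T.a2 s.1 (c * v - s.2) = 0 := by
  have h1 : (c : ℂ) * v - s.2 = T.vec s.1 + T.vec (T.next s.1) := by
    rw [← ha]
    unfold Tri.apex
    ring
  rw [h1]
  refine ⟨?_, ?_, ?_⟩
  · unfold Tri.a0
    rw [cr_add_right, cr_self, zero_add]
  · unfold Tri.a1
    rw [show T.vec s.1 + T.vec (T.next s.1) - T.vec s.1 = T.vec (T.next s.1) by ring, cr_self]
  · unfold Tri.a2
    have : T.vec s.1 + T.vec (T.next s.1) = ((-1 : ℝ) : ℂ) * T.vec (T.prev s.1) := by
      rw [T.vec_prev]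
      push_cast
      ring
    rw [this, cr_mul_right, cr_self, mul_zero]

theorem tin_lt_hit {v : ℂ} {s : H × ℂ} (h : T.Crs v s) {c : ℝ} (ha : T.apex s = c * v) :
    T.tin v s < c := by
  have h1 := T.crs_vec h
  obtain ⟨h2, _, _⟩ := h99_apex ha
  rw [h99_a0 h1.ne] at h2
  have h3 := T.pos s.1
  by_contra hcon
  push Not at hcon
  nlinarith

theorem reg_between_hit {v : ℂ} {s : H × ℂ} (h : T.Crs v s) {c : ℝ} (ha : T.apex s = c * v) {t : ℝ}
    (h1 : T.tin v s ≤ t) (h2 : t < c) : T.Reg s.1 (t * v - s.2) := by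
  have hlt := tin_lt_hit h ha
  obtain ⟨e0, e1, e2⟩ := h99_apex ha
  obtain ⟨f0, f1, f2⟩ := edg_tin h
  have hk : 0 < c - T.tin v s := by linarith
  set lam : ℝ := (t - T.tin v s) / (c - T.tin v s) with hlam
  have hl0 : 0 ≤ lam := div_nonneg (by linarith) hk.le
  have hl1 : lam < 1 := by rw [hlam, div_lt_one hk]; linarith
  have hz : (t : ℂ) * v - s.2 = (T.tin v s * v - s.2) + ((lam : ℝ) : ℂ) * ((c * v - s.2) -
      (T.tin v s * v - s.2)) := by
    have e3 : lam * (c - T.tin v s) = t - T.tin v s := by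
      rw [hlam, div_mul_cancel₀ _ hk.ne']
    have e4 : ((lam * (c - T.tin v s) : ℝ) : ℂ) = ((t - T.tin v s : ℝ) : ℂ) := by rw [e3]
    push_cast at e4
    linear_combination (-v) * e4
  have hc0 : T.a0 s.1 (c * v - s.2) = T.a0 s.1 (T.tin v s * v - s.2) +
      cr (T.vec s.1) ((c * v - s.2) - (T.tin v s * v - s.2)) := by
    rw [← T.a0_add]
    congr 1
    ring
  have hc1 : T.a1 s.1 (c * v - s.2) = T.a1 s.1 (T.tin v s * v - s.2) +
      cr (T.vec (T.next s.1)) ((c * v - s.2) - (T.tin v s * v - s.2)) := by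
    rw [← T.a1_add]
    congr 1
    ring
  have hc2 : T.a2 s.1 (c * v - s.2) = T.a2 s.1 (T.tin v s * v - s.2) +
      cr (T.vec (T.prev s.1)) ((c * v - s.2) - (T.tin v s * v - s.2)) := by
    rw [← T.a2_add]
    congr 1
    ring
  rw [e0, f0, zero_add] at hc0
  rw [e1] at hc1
  rw [e2] at hc2
  have hp := T.pos s.1
  unfold Tri.Reg
  rw [hz, T.a0_add, T.a1_add, T.a2_add, cr_mul_right, cr_mul_right, cr_mul_right, f0, ← hc0]
  have g1 : cr (T.vec (T.next s.1)) ((c * v - s.2) - (T.tin v s * v - s.2)) =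
      -T.a1 s.1 (T.tin v s * v - s.2) := by linarith
  have g2 : cr (T.vec (T.prev s.1)) ((c * v - s.2) - (T.tin v s * v - s.2)) =
      -T.a2 s.1 (T.tin v s * v - s.2) := by linarith
  rw [g1, g2]
  have k0 : 0 ≤ lam * cr (T.vec s.1) (T.vec (T.next s.1)) := mul_nonneg hl0 hp.le
  have k1 : 0 < T.a1 s.1 (T.tin v s * v - s.2) + lam * -T.a1 s.1 (T.tin v s * v - s.2) := by
    nlinarith
  have k2 : 0 < T.a2 s.1 (T.tin v s * v - s.2) + lam * -T.a2 s.1 (T.tin v s * v - s.2) := by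
    nlinarith
  refine ⟨by linarith, k1.le, k2.le, by linarith, by linarith, by linarith⟩

theorem reg_tin_le {v : ℂ} {s : H × ℂ} (h : T.Crs v s) {t : ℝ} (ht : T.Reg s.1 (t * v - s.2)) :
    T.tin v s ≤ t := by
  have h1 := T.crs_vec h
  have h2 := ht.1
  rw [h99_a0 h1.ne] at h2
  by_contra hcon
  push Not at hcon
  nlinarith

theorem reg_le_up {v : ℂ} {s : H × ℂ} (h : T.Crs v s) (ha : 0 < cr v (T.apex s)) {t : ℝ}
    (ht : T.Reg s.1 (t * v - s.2)) : t ≤ T.tin v (T.up s) := by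
  have h1 := T.crs_vec (T.crs_up h ha)
  have h2 := ht.2.1
  rw [h99_a1 h1.ne] at h2
  by_contra hcon
  push Not at hcon
  nlinarith

theorem reg_le_dn {v : ℂ} {s : H × ℂ} (h : T.Crs v s) (ha : cr v (T.apex s) < 0) {t : ℝ}
    (ht : T.Reg s.1 (t * v - s.2)) : t ≤ T.tin v (T.dn s) := by
  have h1 := T.crs_vec (T.crs_dn h ha)
  have h2 := ht.2.2.1
  rw [h99_a2 h1.ne] at h2
  by_contra hcon
  push Not at hcon
  nlinarith

theorem runs_tin_le {v : ℂ} {s t : H × ℂ} (h : T.Crs v s) (hr : T.Runs v s t) :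
    T.tin v s ≤ T.tin v t := by
  induction hr with
  | refl => exact le_rfl
  | up hr ha ih => exact ih.trans (tin_lt_up T (T.crs_runs h hr) ha).le
  | dn hr ha ih => exact ih.trans (tin_lt_dn T (T.crs_runs h hr) ha).le

/-- a point of the first triangle comes before all later crossing points -/
private theorem h99_before {v : ℂ} {s t : H × ℂ} (h : T.Crs v s) (hr : T.Runs v s t) {a : ℝ}
    (ha : T.Reg s.1 (a * v - s.2)) :
    (0 < cr v (T.apex t) → a ≤ T.tin v (T.up t)) ∧ (cr v (T.apex t) < 0 → a ≤ T.tin v (T.dn t)) := by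
  induction hr with
  | refl => exact ⟨fun hp => reg_le_up h hp ha, fun hp => reg_le_dn h hp ha⟩
  | up hr hp ih =>
    have hc := T.crs_up (T.crs_runs h hr) hp
    exact ⟨fun hq => (ih.1 hp).trans (tin_lt_up T hc hq).le,
      fun hq => (ih.1 hp).trans (tin_lt_dn T hc hq).le⟩
  | dn hr hp ih =>
    have hc := T.crs_dn (T.crs_runs h hr) hp
    exact ⟨fun hq => (ih.2 hp).trans (tin_lt_up T hc hq).le,
      fun hq => (ih.2 hp).trans (tin_lt_dn T hc hq).le⟩

private theorem h99_mv_add (C : Chart T X) {u : ℂ} {a b : ℝ} {p q r : X} (ha : 0 ≤ a) (hb : 0 ≤ b)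
    (h1 : Mv C (a * u) p q) (h2 : Mv C (b * u) q r) : Mv C (((a + b : ℝ) : ℂ) * u) p r := by
  rcases ha.eq_or_lt with ha | ha
  · subst ha
    rw [Complex.ofReal_zero, zero_mul] at h1
    have := h1.zero
    subst this
    rwa [zero_add]
  · rcases hb.eq_or_lt with hb | hb
    · subst hb
      rw [Complex.ofReal_zero, zero_mul] at h2
      have := h2.zero
      subst this
      rwa [add_zero]
    · exact Mv.add ha hb h1 h2

private theorem h99_hop (C : Chart T X) {v : ℂ} {s : H × ℂ} {a b : ℝ}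
    (ha : T.Reg s.1 (a * v - s.2)) (hb : T.Reg s.1 (b * v - s.2)) :
    Mv C (((b - a : ℝ) : ℂ) * v) (C.φ s.1 (a * v - s.2)) (C.φ s.1 (b * v - s.2)) := by
  have e1 : (b : ℂ) * v - s.2 = (a * v - s.2) + ((b - a : ℝ) : ℂ) * v := by
    push_cast; ring
  rw [e1] at hb ⊢
  exact Mv.hop ha hb

/-- the crossing point has two codes, upper case -/
private theorem h99_code_up (C : Chart T X) {v : ℂ} {s : H × ℂ} (h : T.Crs v s)
    (ha : 0 < cr v (T.apex s)) :
    C.φ s.1 (T.tin v (T.up s) * v - s.2) = C.φ (T.up s).1 (T.tin v (T.up s) * v - (T.up s).2) := by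
  have h2 : (T.tin v (T.up s) : ℂ) * v - (T.up s).2 =
      ((T.tin v (T.up s) * v - s.2) - T.vec s.1) - T.vec (T.next s.1) := by
    unfold Tri.up Tri.apex
    simp only
    ring
  rw [h2]
  have h3 := C.glue _ _ (h99_edg_up h ha)
  have h4 := C.rot _ _ (h99_reg_up h ha)
  rw [← h4, ← h3]
  rfl

private theorem h99_code_dn (C : Chart T X) {v : ℂ} {s : H × ℂ} (h : T.Crs v s)
    (ha : cr v (T.apex s) < 0) :
    C.φ s.1 (T.tin v (T.dn s) * v - s.2) = C.φ (T.dn s).1 (T.tin v (T.dn s) * v - (T.dn s).2) := by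
  have h2 : (T.tin v (T.dn s) : ℂ) * v - (T.dn s).2 =
      ((T.tin v (T.dn s) * v - s.2) + T.vec (T.prev s.1)) - T.vec (T.prev s.1) := by
    unfold Tri.dn
    simp only
    ring
  rw [h2]
  have h3 := C.glue _ _ (h99_edg_dn h ha)
  have h4 := C.rot _ _ (h99_edg_dn h ha).reg
  have h5 : T.next (T.prev s.1) = s.1 := T.next_prev _
  rw [h5] at h4
  have h6 : (T.tin v (T.dn s) * v - s.2) + T.vec (T.prev s.1) - T.vec (T.prev s.1) =
      T.tin v (T.dn s) * v - s.2 := by ring
  have h7 : C.φ s.1 (T.tin v (T.dn s) * v - s.2) =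
      C.φ (T.prev s.1) (T.tin v (T.dn s) * v - s.2 + T.vec (T.prev s.1)) := by
    rw [← h4, h6]
  rw [h7, ← h3]
  rfl

private theorem h99_mv_runs (C : Chart T X) {v : ℂ} {s t : H × ℂ} (h : T.Crs v s) (hr : T.Runs v s t)
    {a : ℝ} (ha : T.Reg s.1 (a * v - s.2)) : ∀ b : ℝ, a ≤ b → T.Reg t.1 (b * v - t.2) →
    Mv C (((b - a : ℝ) : ℂ) * v) (C.φ s.1 (a * v - s.2)) (C.φ t.1 (b * v - t.2)) := by
  induction hr with
  | refl => exact fun b _ hb => h99_hop C ha hb
  | @up t hr hp ih =>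
    intro b hab hb
    have hct := T.crs_runs h hr
    have hcu := T.crs_up hct hp
    have h1 := (h99_before h hr ha).1 hp
    have h2 := ih (T.tin v (T.up t)) h1 (h99_reg_up hct hp)
    have h3 := reg_tin_le hcu hb
    have h4 := h99_hop C (s := T.up t) (edg_tin hcu).reg hb
    rw [h99_code_up C hct hp] at h2
    have h5 := h99_mv_add C (by linarith) (by linarith) h2 h4
    have h6 : T.tin v (T.up t) - a + (b - T.tin v (T.up t)) = b - a := by ring
    rwa [h6] at h5
  | @dn t hr hp ih =>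
    intro b hab hb
    have hct := T.crs_runs h hr
    have hcu := T.crs_dn hct hp
    have h1 := (h99_before h hr ha).2 hp
    have h2 := ih (T.tin v (T.dn t)) h1 (h99_reg_dn hct hp)
    have h3 := reg_tin_le hcu hb
    have h4 := h99_hop C (s := T.dn t) (edg_tin hcu).reg hb
    rw [h99_code_dn C hct hp] at h2
    have h5 := h99_mv_add C (by linarith) (by linarith) h2 h4
    have h6 : T.tin v (T.dn t) - a + (b - T.tin v (T.dn t)) = b - a := by ring
    rwa [h6] at h5

theorem Runs.mv (C : Chart T X) {v : ℂ} {s t : H × ℂ} (h : T.Crs v s) (hr : T.Runs v s t) {a b : ℝ}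
    (hab : a < b) (ha : T.Reg s.1 (a * v - s.2)) (hb : T.Reg t.1 (b * v - t.2)) :
    Mv C (((b - a : ℝ) : ℂ) * v) (C.φ s.1 (a * v - s.2)) (C.φ t.1 (b * v - t.2)) :=
  h99_mv_runs C h hr ha b hab.le hb

end Pool.Agent.Helper79.G
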