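import Pool.Agent.Helper79.G.Bound

/-!
# TF-G-FIN: finitely many saddle vectors of bounded length

If `T.Sad h v l` with `‖v‖ ≤ R` then the number of states is bounded by `N = N(T, R)` (`runs_bound`: all the
states have `0 < tin v s < 1`; here the hypothesis `hl` gives it, so consecutive states are at distance
`(tin t - tin s) ‖v‖ < R`; take `R + 1`), and `v` is determined by `h` and the list of the choices
`up/dn` (the vector is the apex of the last state, which is computed from `cst h` by the choices). There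
are finitely many such lists of length `≤ N`.
-/

set_option autoImplicit false

open Pool.Agent.Helper87.LS

namespace Pool.Agent.Helper79.G

variable {H : Type}

/-- The state reached by a list of choices. -/
noncomputable def walk63 (T : Tri H) : H × ℂ → List Bool → H × ℂ
  | s, [] => s
  | s, true :: w => walk63 T (T.up s) w
  | s, false :: w => walk63 T (T.dn s) w

theorem hits_walk63 {T : Tri H} {v : ℂ} {s : H × ℂ} {l : List (H × ℂ)} (h : T.Hits v s l) :
    ∃ w : List Bool, w.length + 1 = l.length ∧ T.apex (walk63 T s w) = v := by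
  induction h with
  | hit ha => exact ⟨[], rfl, ha⟩
  | up _ _ ih =>
    obtain ⟨w, h1, h2⟩ := ih
    exact ⟨true :: w, by simp [← h1], h2⟩
  | dn _ _ ih =>
    obtain ⟨w, h1, h2⟩ := ih
    exact ⟨false :: w, by simp [← h1], h2⟩

theorem runsN_up63 {T : Tri H} {v : ℂ} {s t : H × ℂ} {n : ℕ} (ha : 0 < cr v (T.apex s))
    (h : RunsN T v (T.up s) n t) : RunsN T v s (n + 1) t := by
  induction h with
  | refl => exact RunsN.up RunsN.refl ha
  | up _ hb ih => exact RunsN.up ih hb
  | dn _ hb ih => exact RunsN.dn ih hb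

theorem runsN_dn63 {T : Tri H} {v : ℂ} {s t : H × ℂ} {n : ℕ} (ha : cr v (T.apex s) < 0)
    (h : RunsN T v (T.dn s) n t) : RunsN T v s (n + 1) t := by
  induction h with
  | refl => exact RunsN.dn RunsN.refl ha
  | up _ hb ih => exact RunsN.up ih hb
  | dn _ hb ih => exact RunsN.dn ih hb

theorem hits_runsN63 {T : Tri H} {v : ℂ} {s : H × ℂ} {l : List (H × ℂ)} (h : T.Hits v s l) :
    s ∈ l ∧ ∃ t ∈ l, ∃ n, n + 1 = l.length ∧ RunsN T v s n t := by
  induction h with
  | @hit s ha => exact ⟨List.mem_singleton.2 rfl, s, List.mem_singleton.2 rfl, 0, rfl, RunsN.refl⟩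
  | @up s l ha _ ih =>
    obtain ⟨_, t, ht, n, hn, hr⟩ := ih
    refine ⟨List.mem_cons_self, t, List.mem_cons_of_mem _ ht, n + 1, ?_, runsN_up63 ha hr⟩
    simp [← hn]
  | @dn s l ha _ ih =>
    obtain ⟨_, t, ht, n, hn, hr⟩ := ih
    refine ⟨List.mem_cons_self, t, List.mem_cons_of_mem _ ht, n + 1, ?_, runsN_dn63 ha hr⟩
    simp [← hn]

theorem crs_cst63 (T : Tri H) {h : H} {v : ℂ} (hi : T.Into h v) : T.Crs v (T.cst h) := by
  obtain ⟨h1, h2⟩ := hi
  refine ⟨h2, ?_⟩
  have hcl := T.closed h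
  have e : (T.cst h).2 + T.vec (T.cst h).1 = T.vec h := by
    show -T.vec (T.prev h) + T.vec (T.opp (T.next h)) = _
    rw [T.vec_opp]
    unfold Tri.prev
    linear_combination -hcl
  rw [e, cr_swap]
  linarith

theorem sad_finite [Finite H] (T : Tri H) (R : ℝ) :
    {v : ℂ | ‖v‖ ≤ R ∧ ∃ h l, T.Sad h v l ∧ ∀ s ∈ l, 0 < T.tin v s ∧ T.tin v s < 1}.Finite := by
  obtain ⟨N, hN⟩ := runs_bound T (R + 1)
  have hfin : ((Set.univ : Set H) ×ˢ {w : List Bool | w.length ≤ N}).Finite :=
    Set.finite_univ.prod (List.finite_length_le Bool N)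
  refine (hfin.image (fun x => T.apex (walk63 T (T.cst x.1) x.2))).subset ?_
  rintro v ⟨hv, h, l, ⟨hi, hh⟩, hl⟩
  obtain ⟨w, hw1, hw2⟩ := hits_walk63 hh
  obtain ⟨hs, t, ht, n, hn, hr⟩ := hits_runsN63 hh
  refine ⟨(h, w), ⟨Set.mem_univ _, ?_⟩, hw2⟩
  show w.length ≤ N
  by_contra hcon
  push Not at hcon
  have h1 := hN v _ t n (crs_cst63 T hi) hr (by omega)
  have h2 := (hl _ hs).1
  have h3 := (hl _ ht).2
  have h4 : (T.tin v t - T.tin v (T.cst h)) * ‖v‖ ≤ 1 * ‖v‖ :=
    mul_le_mul_of_nonneg_right (by linarith) (norm_nonneg _)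
  linarith

end Pool.Agent.Helper79.G
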