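import Pool.Agent.Helper79.G.CT

/-!
# MP_e98778_an (full), module G: saddle connections as a type

`Sdl c`: the (oriented) saddle connections of the charted triangulation `c`: a vector and a vertex path,
normalised outside `(0, 1)`. `Cross a b`: the two saddles meet and are different (also up to
orientation). `Sdl.edge`: the edge `g` of a reachable charted triangulation `c'` as a saddle of `c`.
-/

set_option autoImplicit false

open Pool.Agent.Helper87.LS

namespace Pool.Agent.Helper79.G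

variable {H X : Type}

@[ext] structure Sdl (c : CT H X) where
  v : ℂ
  f : ℝ → X
  vp : VP c.C v f
  out : ∀ t : ℝ, ¬ (0 < t ∧ t < 1) → f t = f (1 / 2)

/-- Normalisation of a path outside `(0, 1)`. -/
noncomputable def nrm (f : ℝ → X) : ℝ → X := by
  classical
  exact fun t => if 0 < t ∧ t < 1 then f t else f (1 / 2)

theorem nrm_in (f : ℝ → X) {t : ℝ} (h0 : 0 < t) (h1 : t < 1) : nrm f t = f t := by
  unfold nrm; rw [if_pos ⟨h0, h1⟩]

theorem nrm_out (f : ℝ → X) {t : ℝ} (h : ¬ (0 < t ∧ t < 1)) : nrm f t = nrm f (1 / 2) := by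
  have h1 : nrm f (1 / 2) = f (1 / 2) := nrm_in f (t := 1 / 2) (by norm_num) (by norm_num)
  rw [h1]
  unfold nrm
  rw [if_neg h]

theorem VP.congr {T : Tri H} {C : Chart T X} {v : ℂ} {f f' : ℝ → X} (h : VP C v f)
    (hf : ∀ t : ℝ, 0 < t → t < 1 → f' t = f t) : VP C v f' := by
  refine ⟨h.ne, ?_, ?_, ?_⟩
  · intro a b ha hab hb
    rw [hf a ha (by linarith), hf b (by linarith) hb]
    exact h.mv a b ha hab hb
  · intro a ha hb
    rw [hf a ha hb]
    exact h.fwd a ha hb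
  · intro a ha hb
    rw [hf a ha hb]
    exact h.bwd a ha hb

/-- The reversed saddle. -/
def Sdl.rev {c : CT H X} (a : Sdl c) : Sdl c where
  v := -a.v
  f t := a.f (1 - t)
  vp := a.vp.rev
  out := by
    intro t ht
    rw [a.out (1 - t) (by rintro ⟨h1, h2⟩; exact ht ⟨by linarith, by linarith⟩)]
    norm_num

theorem Sdl.rev_rev {c : CT H X} (a : Sdl c) : a.rev.rev = a := by
  apply Sdl.ext
  · simp [Sdl.rev]
  · funext t; simp [Sdl.rev]

/-- Two saddles meet and are different (up to orientation). -/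
def Cross {c : CT H X} (a b : Sdl c) : Prop :=
  (∃ x y : ℝ, 0 < x ∧ x < 1 ∧ 0 < y ∧ y < 1 ∧ a.f x = b.f y) ∧ a ≠ b ∧ a ≠ b.rev

theorem Cross.symm {c : CT H X} {a b : Sdl c} (h : Cross a b) : Cross b a := by
  obtain ⟨⟨x, y, h1, h2, h3, h4, h5⟩, h6, h7⟩ := h
  refine ⟨⟨y, x, h3, h4, h1, h2, h5.symm⟩, fun h => h6 h.symm, fun h => h7 ?_⟩
  rw [h, Sdl.rev_rev]

theorem Cross.irr {c : CT H X} (a : Sdl c) : ¬ Cross a a := fun h => h.2.1 rfl

/-- The edge `g` of a reachable charted triangulation as a saddle. -/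
noncomputable def Sdl.edge {c c' : CT H X} {E : Set H} (h : CReach E c c') (g : H) : Sdl c where
  v := c'.T.vec g
  f := nrm fun t => c'.C.φ g (t * c'.T.vec g)
  vp := ((VP.creach h).1 (edge_vp c'.C g)).congr fun t h0 h1 => nrm_in _ h0 h1
  out _ ht := nrm_out _ ht

theorem Sdl.edge_f {c c' : CT H X} {E : Set H} (h : CReach E c c') (g : H) {t : ℝ} (h0 : 0 < t)
    (h1 : t < 1) : (Sdl.edge h g).f t = c'.C.φ g (t * c'.T.vec g) :=
  nrm_in (fun t : ℝ => c'.C.φ g (t * c'.T.vec g)) h0 h1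

/-- Insertion with charts (proved by helper60). -/
def InsertionX (H X : Type) : Prop :=
  ∀ (c : CT H X) (E : Set H), (∀ g, g ∈ E → c.T.opp g ∈ E) → ∀ (h : H) (v : ℂ) (l : List (H × ℂ)),
    c.T.Sad h v l → (∀ s ∈ l, s.1 ∉ E) → ∃ c' g, CReach E c c' ∧ g ∉ E ∧ c'.T.vec g = v ∧
      ∃ ε : ℝ, 0 < ε ∧ ∀ τ : ℝ, 0 < τ → τ < ε → c'.C.φ g (τ * v) = c.C.φ h (τ * v)

end Pool.Agent.Helper79.G
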