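import Pool.Agent.Helper79.G.VP

/-!
# TF-G-STRUCT: vertex paths and saddle codes (proofs in words: header of `G/VP.lean`)
-/

set_option autoImplicit false

open Pool.Agent.Helper87.LS

namespace Pool.Agent.Helper79.G

variable {H X : Type} {T : Tri H}

namespace ST46

/-- The point of a vertex path at the parameter `b`, reached by a motion from the parameter `a`. -/
theorem vp_pt {C : Chart T X} {v : ℂ} {f : ℝ → X} (h : VP C v f) {a b : ℝ} (ha0 : 0 < a) (ha1 : a < 1)
    (hb0 : 0 < b) (hb1 : b < 1) {p q : X} (hp : f a = p) (hm : Mv C (((b - a : ℝ) : ℂ) * v) p q) :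
    f b = q := by
  rcases lt_trichotomy a b with hab | rfl | hab
  · exact Mv.unique (h.mv a b ha0 hab hb1) (hp ▸ hm)
  · rw [sub_self, Complex.ofReal_zero, zero_mul] at hm
    rw [hp]
    exact hm.zero
  · have h1 := (h.mv b a hb0 hab ha1).symm
    have e : -(((a - b : ℝ) : ℂ) * v) = ((b - a : ℝ) : ℂ) * v := by push_cast; ring
    rw [e] at h1
    exact Mv.unique h1 (hp ▸ hm)

/-- All motions between points of a vertex path. -/
theorem vp_mv {C : Chart T X} {v : ℂ} {f : ℝ → X} (h : VP C v f) {a b : ℝ} (ha0 : 0 < a) (ha1 : a < 1)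
    (hb0 : 0 < b) (hb1 : b < 1) : Mv C (((b - a : ℝ) : ℂ) * v) (f a) (f b) := by
  rcases lt_trichotomy a b with hab | rfl | hab
  · exact h.mv a b ha0 hab hb1
  · rw [sub_self, Complex.ofReal_zero, zero_mul]
    exact Mv.refl _
  · have h1 := (h.mv b a hb0 hab ha1).symm
    have e : -(((a - b : ℝ) : ℂ) * v) = ((b - a : ℝ) : ℂ) * v := by push_cast; ring
    rwa [e] at h1

/-- Two vertex paths in the same direction which meet are equal. -/
theorem vp_same {C : Chart T X} {w : ℂ} {c : ℝ} {f f' : ℝ → X} (hc : 0 < c)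
    (h : VP C ((c : ℂ) * w) f) (h' : VP C w f') {a b : ℝ} (ha0 : 0 < a) (ha1 : a < 1)
    (hb0 : 0 < b) (hb1 : b < 1) (heq : f a = f' b) :
    c = 1 ∧ ∀ t : ℝ, 0 < t → t < 1 → f t = f' t := by
  have h1 : c * (1 - a) = 1 - b := by
    rcases lt_trichotomy (c * (1 - a)) (1 - b) with hlt | he | hgt
    · exfalso
      have hp : 0 < c * (1 - a) := mul_pos hc (by linarith)
      have hm := vp_mv h' hb0 hb1 (b := b + c * (1 - a)) (by linarith) (by linarith)
      rw [← heq] at hm
      refine h.fwd a ha0 ha1 (f' (b + c * (1 - a))) ?_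
      have e : ((1 - a : ℝ) : ℂ) * (c * w) = ((b + c * (1 - a) - b : ℝ) : ℂ) * w := by
        push_cast; ring
      rw [e]
      exact hm
    · exact he
    · exfalso
      have hp : 0 < (1 - b) / c := div_pos (by linarith) hc
      have hp1 : (1 - b) / c < 1 - a := by
        rw [div_lt_iff₀ hc]; linarith
      have hm := vp_mv h ha0 ha1 (b := a + (1 - b) / c) (by linarith) (by linarith)
      rw [heq] at hm
      refine h'.fwd b hb0 hb1 (f (a + (1 - b) / c)) ?_
      have e : ((a + (1 - b) / c - a : ℝ) : ℂ) * (c * w) = ((1 - b : ℝ) : ℂ) * w := by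
        have e1 : (a + (1 - b) / c - a) * c = 1 - b := by
          field_simp
          ring
        rw [← mul_assoc, ← Complex.ofReal_mul, e1]
      rw [e] at hm
      exact hm
  have h2 : c * a = b := by
    rcases lt_trichotomy (c * a) b with hlt | he | hgt
    · exfalso
      have hp : 0 < c * a := mul_pos hc ha0
      have hm := vp_mv h' hb0 hb1 (b := b - c * a) (by linarith) (by linarith)
      rw [← heq] at hm
      refine h.bwd a ha0 ha1 (f' (b - c * a)) ?_
      have e : -((a : ℂ) * (c * w)) = ((b - c * a - b : ℝ) : ℂ) * w := by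
        push_cast; ring
      rw [e]
      exact hm
    · exact he
    · exfalso
      have hp : 0 < b / c := div_pos hb0 hc
      have hp1 : b / c < a := by
        rw [div_lt_iff₀ hc]; linarith
      have hm := vp_mv h ha0 ha1 (b := a - b / c) (by linarith) (by linarith)
      rw [heq] at hm
      refine h'.bwd b hb0 hb1 (f (a - b / c)) ?_
      have e : ((a - b / c - a : ℝ) : ℂ) * (c * w) = -((b : ℂ) * w) := by
        have e1 : (a - b / c - a) * c = -b := by
          field_simp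
          ring
        rw [← mul_assoc, ← Complex.ofReal_mul, e1]
        push_cast
        ring
      rw [e] at hm
      exact hm
  have h3 : c = 1 := by linarith
  subst h3
  have h4 : a = b := by linarith
  subst h4
  refine ⟨rfl, fun t ht0 ht1 => ?_⟩
  have hm := vp_mv h' ha0 ha1 ht0 ht1
  rw [← heq] at hm
  refine vp_pt h ha0 ha1 ht0 ht1 rfl ?_
  rw [Complex.ofReal_one, one_mul]
  exact hm

end ST46

open ST46

theorem VP.parallel {C : Chart T X} {v : ℂ} {f : ℝ → X} (h : VP C v f) {g : H} {z : ℂ}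
    (hz : T.Edg g z) {a : ℝ} (ha0 : 0 < a) (ha1 : a < 1) (hf : f a = C.φ g z)
    (hp : cr v (T.vec g) = 0) :
    (v = T.vec g ∧ ∀ t : ℝ, 0 < t → t < 1 → f t = C.φ g (t * T.vec g)) ∨
      (v = -T.vec g ∧ ∀ t : ℝ, 0 < t → t < 1 → f t = C.φ g (((1 - t : ℝ) : ℂ) * T.vec g)) := by
  obtain ⟨b, hb0, hb1, rfl⟩ := T.edg_iff.1 hz
  obtain ⟨c, hc⟩ := EX56.exists_smul (T.vec_ne_zero g) (w := v) (by rw [cr_swap, hp, neg_zero])
  have hv := h.ne
  rcases lt_trichotomy c 0 with hlt | rfl | hgt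
  · right
    have hr := h.rev
    have e : -v = ((-c : ℝ) : ℂ) * T.vec g := by rw [hc]; push_cast; ring
    rw [e] at hr
    obtain ⟨h1, h2⟩ := vp_same (by linarith) hr (edge_vp C g) (a := 1 - a) (b := b) (by linarith)
      (by linarith) hb0 hb1 (by
        rw [sub_sub_cancel]
        exact hf)
    refine ⟨?_, ?_⟩
    · have h3 : c = -1 := by linarith
      rw [hc, h3]
      push_cast
      ring
    · intro t ht0 ht1
      have := h2 (1 - t) (by linarith) (by linarith)
      rw [sub_sub_cancel] at this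
      exact this
  · exfalso
    apply hv
    rw [hc, Complex.ofReal_zero, zero_mul]
  · left
    rw [hc] at h
    obtain ⟨h1, h2⟩ := vp_same hgt h (edge_vp C g) ha0 ha1 hb0 hb1 hf
    refine ⟨?_, h2⟩
    rw [hc, h1, Complex.ofReal_one, one_mul]

namespace ST46

theorem hits_of_runs {v : ℂ} {s t : H × ℂ} (hr : T.Runs v s t) :
    ∀ l, T.Hits v t l → ∃ l', T.Hits v s l' := by
  induction hr with
  | refl => exact fun l hl => ⟨l, hl⟩
  | up _ ha ih => exact fun l hl => ih _ (Tri.Hits.up ha hl)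
  | dn _ ha ih => exact fun l hl => ih _ (Tri.Hits.dn ha hl)

theorem hits_tin_lt {v : ℂ} {s : H × ℂ} {l : List (H × ℂ)} (hh : T.Hits v s l) :
    T.Crs v s → T.tin v s < 1 := by
  induction hh with
  | hit ha =>
    intro hc
    exact tin_lt_hit hc (c := 1) (by rw [ha, Complex.ofReal_one, one_mul])
  | up ha _ ih => exact fun hc => (tin_lt_up T hc ha).trans (ih (T.crs_up hc ha))
  | dn ha _ ih => exact fun hc => (tin_lt_dn T hc ha).trans (ih (T.crs_dn hc ha))

/-- The states of a run are passed by the vertex path. -/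
theorem hits_pts {C : Chart T X} {v : ℂ} {f : ℝ → X} (h : VP C v f) {s : H × ℂ}
    {l : List (H × ℂ)} (hh : T.Hits v s l) :
    T.Crs v s → 0 < T.tin v s → f (T.tin v s) = C.φ s.1 (T.tin v s * v - s.2) →
      ∀ u ∈ l, 0 < T.tin v u ∧ T.tin v u < 1 ∧ T.Crs v u ∧
        f (T.tin v u) = C.φ u.1 (T.tin v u * v - u.2) := by
  induction hh with
  | hit ha =>
    intro hc h0 hf u hu
    rw [List.mem_singleton] at hu
    subst hu
    exact ⟨h0, hits_tin_lt (Tri.Hits.hit ha) hc, hc, hf⟩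
  | @up s l ha hl ih =>
    intro hc h0 hf u hu
    have h1 := hits_tin_lt (Tri.Hits.up ha hl) hc
    rcases List.mem_cons.1 hu with rfl | hu
    · exact ⟨h0, h1, hc, hf⟩
    · have hcu := T.crs_up hc ha
      have h2 := tin_lt_up T hc ha
      have h3 := hits_tin_lt hl hcu
      refine ih hcu (h0.trans h2) ?_ u hu
      refine vp_pt h h0 h1 (h0.trans h2) h3 hf ?_
      exact Runs.mv C hc (Tri.Runs.up Tri.Runs.refl ha) h2 (edg_tin hc).reg (edg_tin hcu).reg
  | @dn s l ha hl ih =>
    intro hc h0 hf u hu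
    have h1 := hits_tin_lt (Tri.Hits.dn ha hl) hc
    rcases List.mem_cons.1 hu with rfl | hu
    · exact ⟨h0, h1, hc, hf⟩
    · have hcu := T.crs_dn hc ha
      have h2 := tin_lt_dn T hc ha
      have h3 := hits_tin_lt hl hcu
      refine ih hcu (h0.trans h2) ?_ u hu
      refine vp_pt h h0 h1 (h0.trans h2) h3 hf ?_
      exact Runs.mv C hc (Tri.Runs.dn Tri.Runs.refl ha) h2 (edg_tin hc).reg (edg_tin hcu).reg

theorem crs_cst {k : H} {v : ℂ} (hi : T.Into k v) : T.Crs v (T.cst k) := by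
  obtain ⟨h1, h2⟩ := hi
  refine ⟨h2, ?_⟩
  unfold Tri.cst
  simp only
  rw [T.vec_opp, T.vec_prev]
  have e : -(-(T.vec k + T.vec (T.next k))) + -T.vec (T.next k) = T.vec k := by ring
  rw [e, cr_swap]
  linarith

theorem tin_cst_pos {k : H} {v : ℂ} (hi : T.Into k v) : 0 < T.tin v (T.cst k) := by
  have hc := T.crs_vec (crs_cst hi)
  unfold Tri.tin
  apply div_pos_of_neg_of_neg _ hc
  unfold Tri.cst
  simp only
  rw [T.vec_opp]
  have h1 := T.pos (T.next k)
  rw [T.next_next] at h1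
  have e : cr (-T.vec (T.prev k)) (-T.vec (T.next k)) = -cr (T.vec (T.next k)) (T.vec (T.prev k)) := by
    unfold cr; simp; ring
  rw [e]
  linarith

/-- The crossing point of the first state of a corner in the triangle of the corner. -/
theorem edg_cst {k : H} {v : ℂ} (hi : T.Into k v) :
    T.Edg (T.next k) ((T.tin v (T.cst k) : ℂ) * v - T.vec k) := by
  have h1 := edg_tin (crs_cst hi)
  have e : (T.tin v (T.cst k) : ℂ) * v - (T.cst k).2 =
      ((T.tin v (T.cst k) : ℂ) * v - T.vec k) - T.vec (T.next k) := by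
    have : (T.cst k).2 = -T.vec (T.prev k) := rfl
    rw [this, T.vec_prev]
    ring
  rw [e] at h1
  exact T.edg_opp.1 h1

theorem φ_cst (C : Chart T X) {k : H} {v : ℂ} (hi : T.Into k v) :
    C.φ k ((T.tin v (T.cst k) : ℂ) * v) =
      C.φ (T.cst k).1 ((T.tin v (T.cst k) : ℂ) * v - (T.cst k).2) := by
  have h1 := edg_cst hi
  have e : (T.tin v (T.cst k) : ℂ) * v - (T.cst k).2 =
      ((T.tin v (T.cst k) : ℂ) * v - T.vec k) - T.vec (T.next k) := by
    have : (T.cst k).2 = -T.vec (T.prev k) := rfl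
    rw [this, T.vec_prev]
    ring
  rw [e]
  have h2 := C.glue _ _ h1
  have h3 := C.rot k ((T.tin v (T.cst k) : ℂ) * v) (T.reg_next.1 h1.reg)
  rw [← h3, ← h2]
  rfl

end ST46

theorem VP.struct [Finite H] {C : Chart T X} {v : ℂ} {f : ℝ → X} (h : VP C v f) :
    (∃ g, T.vec g = v ∧ ∀ t : ℝ, 0 < t → t < 1 → f t = C.φ g (t * v)) ∨
      ∃ k l, T.Sad k v l ∧ (∃ ε : ℝ, 0 < ε ∧ ∀ τ : ℝ, 0 < τ → τ < ε → f τ = C.φ k (τ * v)) ∧
        ∀ s ∈ l, 0 < T.tin v s ∧ T.tin v s < 1 ∧ T.Crs v s ∧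
          f (T.tin v s) = C.φ s.1 (T.tin v s * v - s.2) := by
  obtain ⟨k, ε, hε, hst⟩ := h.start
  have hpt : ∀ r : ℝ, 0 < r → ∃ τ : ℝ, 0 < τ ∧ τ < 1 ∧ τ < r ∧ T.Reg k (τ * v) ∧
      f τ = C.φ k (τ * v) := by
    intro r hr
    have hm : 0 < min (min ε 1) r := lt_min (lt_min hε one_pos) hr
    have h1 : min (min ε 1) r ≤ ε := (min_le_left _ _).trans (min_le_left _ _)
    have h2 : min (min ε 1) r ≤ 1 := (min_le_left _ _).trans (min_le_right _ _)
    have h3 : min (min ε 1) r ≤ r := min_le_right _ _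
    have h4 := hst (min (min ε 1) r / 2) (by linarith) (by linarith)
    exact ⟨min (min ε 1) r / 2, by linarith, by linarith, by linarith, h4.1, h4.2⟩
  obtain ⟨τ, hτ0, hτ1, -, hreg, hfτ⟩ := hpt 1 one_pos
  have e0 : T.a0 k (τ * v) = τ * cr (T.vec k) v := by unfold Tri.a0; rw [cr_mul_right]
  have e2 : T.a2 k (τ * v) = τ * cr (T.vec (T.prev k)) v := by unfold Tri.a2; rw [cr_mul_right]
  obtain ⟨p0, p1, p2, p3, p4, p5⟩ := id hreg
  have hk := T.pos k
  rcases p0.eq_or_lt with q0 | q0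
  · -- the path starts along `k`
    left
    have hE : T.Edg k (τ * v) := ⟨q0.symm, by linarith, by linarith⟩
    have hcr : cr v (T.vec k) = 0 := by
      rw [e0] at q0
      have : cr (T.vec k) v = 0 := by
        rcases mul_eq_zero.1 q0.symm with h1 | h1
        · exact absurd h1 hτ0.ne'
        · exact h1
      rw [cr_swap, this, neg_zero]
    rcases h.parallel hE hτ0 hτ1 hfτ hcr with ⟨h1, h2⟩ | ⟨h1, -⟩
    · exact ⟨k, h1.symm, fun t ht0 ht1 => by rw [h2 t ht0 ht1, h1]⟩
    · exfalso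
      have h3 : 0 < T.a2 k (τ * v) := by linarith
      rw [e2, h1] at h3
      have h4 : cr (T.vec (T.prev k)) (-T.vec k) = -cr (T.vec (T.prev k)) (T.vec k) := by
        unfold cr; simp; ring
      rw [h4, T.cr_prev] at h3
      have := mul_pos hτ0 hk
      linarith
  rcases p2.eq_or_lt with q2 | q2
  · -- the path starts along `prev k`
    left
    have hE : T.Edg (T.prev k) (τ * v + T.vec (T.prev k)) := by
      refine ⟨?_, ?_, ?_⟩
      · rw [T.a0_prev]; exact q2.symm
      · rw [T.a1_prev]; exact q0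
      · rw [T.a2_prev]; linarith
    have hEo : T.Edg (T.opp (T.prev k)) (τ * v) := by
      have := T.edg_opp.2 hE
      rwa [add_sub_cancel_right] at this
    have hf2 : f τ = C.φ (T.opp (T.prev k)) (τ * v) := by
      have h1 := C.glue _ _ hE
      rw [add_sub_cancel_right, EX56.φ_prev C hreg] at h1
      rw [h1]
      exact hfτ
    have hcr : cr v (T.vec (T.opp (T.prev k))) = 0 := by
      rw [e2] at q2
      have : cr (T.vec (T.prev k)) v = 0 := by
        rcases mul_eq_zero.1 q2.symm with h1 | h1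
        · exact absurd h1 hτ0.ne'
        · exact h1
      rw [T.vec_opp]
      have h4 : cr v (-T.vec (T.prev k)) = cr (T.vec (T.prev k)) v := by
        unfold cr; simp; ring
      rw [h4, this]
    rcases h.parallel hEo hτ0 hτ1 hf2 hcr with ⟨h1, h2⟩ | ⟨h1, -⟩
    · exact ⟨_, h1.symm, fun t ht0 ht1 => by rw [h2 t ht0 ht1, h1]⟩
    · exfalso
      rw [e0, h1, T.vec_opp, neg_neg] at q0
      have h4 : cr (T.vec k) (T.vec (T.prev k)) = -cr (T.vec (T.prev k)) (T.vec k) := cr_swap _ _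
      rw [h4, T.cr_prev] at q0
      have := mul_pos hτ0 hk
      linarith
  -- the path starts inside the sector of `k`
  right
  have hi : T.Into k v := by
    rw [e0] at q0
    rw [e2] at q2
    refine ⟨(mul_pos_iff_of_pos_left hτ0).1 q0, ?_⟩
    have h4 : cr v (-T.vec (T.prev k)) = cr (T.vec (T.prev k)) v := by
      unfold cr; simp; ring
    rw [h4]
    exact (mul_pos_iff_of_pos_left hτ0).1 q2
  have hcrs := crs_cst hi
  set t0 : ℝ := T.tin v (T.cst k) with ht0
  have htp : 0 < t0 := tin_cst_pos hi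
  have hEc := edg_cst hi
  have hrc : T.Reg k ((t0 : ℂ) * v) := T.reg_next.1 hEc.reg
  -- motions inside the triangle of `k`
  have hop : ∀ a b c : ℝ, a < c → a ≤ b → b ≤ c → T.Reg k ((a : ℂ) * v) → T.Reg k ((c : ℂ) * v) →
      T.Reg k ((b : ℂ) * v) ∧ Mv C (((b - a : ℝ) : ℂ) * v) (C.φ k (a * v)) (C.φ k (b * v)) := by
    intro a b c hac hab hbc ha hc
    have hca : 0 < c - a := by linarith
    have e1 : (c : ℂ) * v = a * v + ((c - a : ℝ) : ℂ) * v := by push_cast; ring
    have e3 : (b : ℂ) * v = a * v + ((b - a : ℝ) : ℂ) * v := by push_cast; ring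
    rw [e1] at hc
    have h5 := T.reg_segment ha hc (t := (b - a) / (c - a)) (div_nonneg (by linarith) hca.le)
      (by rw [div_le_one hca]; linarith)
    have e4 : (((b - a) / (c - a) : ℝ) : ℂ) * (((c - a : ℝ) : ℂ) * v) = ((b - a : ℝ) : ℂ) * v := by
      rw [← mul_assoc, ← Complex.ofReal_mul, div_mul_cancel₀ _ hca.ne']
    rw [e4] at h5
    refine ⟨by rw [e3]; exact h5, ?_⟩
    rw [e3]
    exact Mv.hop ha h5
  obtain ⟨σ, hσ0, hσ1, hσt, hσr, hσf⟩ := hpt t0 htp
  have ht1 : t0 < 1 := by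
    by_contra hcon
    push Not at hcon
    obtain ⟨-, h6⟩ := hop σ 1 t0 hσt hσ1.le hcon hσr hrc
    rw [← hσf] at h6
    exact h.fwd σ hσ0 hσ1 _ h6
  have hft0 : f t0 = C.φ (T.cst k).1 ((t0 : ℂ) * v - (T.cst k).2) := by
    rw [← φ_cst C hi]
    obtain ⟨-, h6⟩ := hop σ t0 t0 hσt hσt.le le_rfl hσr hrc
    exact vp_pt h hσ0 hσ1 htp ht1 hσf h6
  have hE0 := (edg_tin hcrs).reg
  rcases ext (b := 1) hcrs ht1.le with ⟨t, hr, -, hreg1⟩ | ⟨t, c, hr, ha, htc, hc1⟩
  · exfalso
    have hm := Runs.mv C hcrs hr ht1 hE0 hreg1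
    rw [← hft0] at hm
    exact h.fwd t0 htp ht1 _ hm
  have hcq := T.crs_runs hcrs hr
  have htt : t0 ≤ T.tin v t := runs_tin_le hcrs hr
  have hc2 : c = 1 := by
    by_contra hne
    have hlt : c < 1 := lt_of_le_of_ne hc1 hne
    have hD : 0 < c - t0 := by linarith
    have hm := h.mv t0 c htp (by linarith) hlt
    refine Mv.no_vertex (v := ((c - t0 : ℝ) : ℂ) * v) ?_ (h := T.prev t.1) (p := f t0) (q := f c)
      (ε := (c - T.tin v t) / (c - t0)) (div_pos (by linarith) hD) ?_ hm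
    · exact mul_ne_zero (by exact_mod_cast hD.ne') h.ne
    · intro x hx0 hx1
      have hy : x * (c - t0) < c - T.tin v t := by rwa [lt_div_iff₀ hD] at hx1
      have hy0 : 0 < x * (c - t0) := mul_pos hx0 hD
      have hregq : T.Reg t.1 (((c - x * (c - t0) : ℝ) : ℂ) * v - t.2) :=
        reg_between_hit hcq ha (by linarith) (by linarith)
      have e1 : ((c - x * (c - t0) : ℝ) : ℂ) * v - t.2 + T.vec (T.prev t.1) =
          -((x : ℂ) * (((c - t0 : ℝ) : ℂ) * v)) := by
        unfold Tri.apex at ha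
        rw [T.vec_prev]
        push_cast
        linear_combination -ha
      have hreg' := T.reg_prev.2 hregq
      have hφ := EX56.φ_prev C hregq
      rw [e1] at hreg' hφ
      refine ⟨hreg', ?_⟩
      rw [hφ]
      have hm2 := Runs.mv C hcrs hr (show t0 < c - x * (c - t0) by linarith) hE0 hregq
      rw [← hft0] at hm2
      have e5 : ((1 - x : ℝ) : ℂ) * (((c - t0 : ℝ) : ℂ) * v) =
          ((c - x * (c - t0) - t0 : ℝ) : ℂ) * v := by
        push_cast; ring
      rw [e5]
      exact hm2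
  rw [hc2, Complex.ofReal_one, one_mul] at ha
  obtain ⟨l, hl⟩ := hits_of_runs hr [t] (Tri.Hits.hit ha)
  exact ⟨k, l, ⟨hi, hl⟩, ⟨ε, hε, fun τ h1 h2 => (hst τ h1 h2).2⟩, hits_pts h hl hcrs htp hft0⟩

end Pool.Agent.Helper79.G
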