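import Pool.Agent.Helper79.G.Sdl
import Pool.Agent.Helper79.G.GapEx

/-!
# TF-G-UNC1: insertion without charts, after a linear map

`insertion_of`: `InsertionX` implies the chart free `Insertion (act T A hA) E` for every `T` with a chart.
The flips of `act T A hA` are the images of the flips of `T` (`reach_act'`); a code `Sad` of `act T A hA` with
the vector `v` and the list `l` is the image of a code of `T` with the vector `A.symm v` and the list of the
states `(s.1, A.symm s.2)`: `Hits` and `Into` transform by `cr_act`, `apex_act`. Note that the vector of the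
edge `g` of `act T' A hA` is `A (T'.vec g)`.
-/

set_option autoImplicit false

open Pool.Agent.Helper87.LS Pool.Agent.Helper72.TF

namespace Pool.Agent.Helper79.G

variable {H X : Type}

/-- The state before the linear map. -/
private noncomputable def pull47 (A : ℂ ≃ₗ[ℝ] ℂ) (s : H × ℂ) : H × ℂ := (s.1, A.symm s.2)

private theorem push_pull47 (A : ℂ ≃ₗ[ℝ] ℂ) (s : H × ℂ) : ((pull47 A s).1, A (pull47 A s).2) = s := by
  unfold pull47
  exact Prod.ext rfl (A.apply_symm_apply s.2)

private theorem pull_push47 (A : ℂ ≃ₗ[ℝ] ℂ) (s : H × ℂ) : pull47 A (s.1, A s.2) = s := by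
  unfold pull47
  exact Prod.ext rfl (A.symm_apply_apply s.2)

private theorem hits_pull47 {T : Tri H} {A : ℂ ≃ₗ[ℝ] ℂ} (hA : LinearMap.det (A : ℂ →ₗ[ℝ] ℂ) = 1)
    {v : ℂ} {s : H × ℂ} {l : List (H × ℂ)} (h : (act T A hA).Hits (A v) s l) :
    T.Hits v (pull47 A s) (l.map (pull47 A)) := by
  induction h with
  | @hit s ha =>
    rw [List.map_cons, List.map_nil]
    refine Tri.Hits.hit ?_
    rw [← push_pull47 A s, apex_act hA] at ha
    exact A.injective ha
  | @up s l ha _ ih =>
    rw [List.map_cons]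
    have h1 : (act T A hA).up s = ((T.up (pull47 A s)).1, A (T.up (pull47 A s)).2) := by
      conv_lhs => rw [← push_pull47 A s]
      exact Prod.ext rfl (apex_act (s := pull47 A s) hA)
    rw [h1, pull_push47] at ih
    refine Tri.Hits.up ?_ ih
    rw [← push_pull47 A s, apex_act hA, cr_act hA] at ha
    exact ha
  | @dn s l ha _ ih =>
    rw [List.map_cons]
    have h1 : (act T A hA).dn s = ((T.dn (pull47 A s)).1, A (T.dn (pull47 A s)).2) := by
      conv_lhs => rw [← push_pull47 A s]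
      rfl
    rw [h1, pull_push47] at ih
    refine Tri.Hits.dn ?_ ih
    rw [← push_pull47 A s, apex_act hA, cr_act hA] at ha
    exact ha

private theorem into_pull47 {T : Tri H} {A : ℂ ≃ₗ[ℝ] ℂ} (hA : LinearMap.det (A : ℂ →ₗ[ℝ] ℂ) = 1)
    {v : ℂ} {h : H} (hi : (act T A hA).Into h (A v)) : T.Into h v := by
  have h1 : 0 < cr (A (T.vec h)) (A v) ∧ 0 < cr (A v) (-A (T.vec (T.prev h))) := hi
  rw [← map_neg, cr_act hA, cr_act hA] at h1
  exact h1

private theorem cst_pull47 (T : Tri H) {A : ℂ ≃ₗ[ℝ] ℂ} (hA : LinearMap.det (A : ℂ →ₗ[ℝ] ℂ) = 1)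
    (h : H) : pull47 A ((act T A hA).cst h) = T.cst h := by
  have h1 : (act T A hA).cst h = ((T.cst h).1, A (T.cst h).2) := by
    refine Prod.ext rfl ?_
    change -A (T.vec (T.prev h)) = A (-T.vec (T.prev h))
    rw [map_neg]
  rw [h1, pull_push47]

theorem insertion_of (hins : InsertionX H X) (c : CT H X) {A : ℂ ≃ₗ[ℝ] ℂ}
    (hA : LinearMap.det (A : ℂ →ₗ[ℝ] ℂ) = 1) (E : Set H) (hE : ∀ g, g ∈ E → c.T.opp g ∈ E) :
    Insertion (act c.T A hA) E := by
  intro h v l hl hlE
  obtain ⟨hi, hh⟩ := hl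
  obtain ⟨w, rfl⟩ : ∃ w, A w = v := ⟨A.symm v, A.apply_symm_apply v⟩
  have h2 := hits_pull47 hA hh
  rw [cst_pull47] at h2
  obtain ⟨c', g, hr, hg, hv, -⟩ := hins c E hE h w (l.map (pull47 A)) ⟨into_pull47 hA hi, h2⟩ (by
    intro s hs
    obtain ⟨s', hs', rfl⟩ := List.mem_map.1 hs
    exact hlE s' hs')
  refine ⟨act c'.T A hA, g, reach_act' hA hr.reach, hg, ?_⟩
  change A (c'.T.vec g) = A w
  rw [hv]

end Pool.Agent.Helper79.G
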