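import Pool.Agent.Helper79.G.Sdl
import Pool.Agent.Helper79.G.GapEx
import Pool.Agent.Helper79.G.Unc1

/-!
# TF-G-UNC2: an uncrossed short saddle (G4)

(`insertion_of` is in `G/Unc1.lean`.)

`uncrossed`: let `c'` be reachable from `c`, `A` of determinant one, `E` the set of the edges with
`‖A vec g‖ ≤ l`, `20 l ≤ L`, all edges outside `E` of all triangulations reachable from `c'` by flips outside
`E` are longer than `L` after `A`, and `g ∈ E` has both other sides of its triangle outside `E`. Then no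
saddle `a` with `‖A a.v‖ ≤ L / 4` crosses `Sdl.edge h g`.
Proof. Let `Cross a (Sdl.edge h g)`: `a.f x = φ g (y vec g)`, `0 < x, y < 1`. If `cr a.v (vec g) = 0` then
`VP.parallel` in `c'` (`VP.creach`) gives `a = Sdl.edge h g` or its reverse: excluded. Replacing `a` by
`a.rev` if necessary (`Cross a b → Cross a.rev b`, same length) we may assume `cr a.v (vec g) < 0`. Let
`v = a.v`, `s = (g, -(y vec g))`: `Crs v s`, `tin v s = 0`. By `ext` with `b = 1 - x`: either a state `t`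
with `T.Reg t.1 (b v - t.2)` is reached: then by `Runs.mv` (from parameter `0`) there is a motion by
`(1 - x) v` from `a.f x`: contradiction to `VP.fwd`. Or a state `t` with `T.apex t = c v`,
`tin v t < c ≤ 1 - x`. Transform by `A` (`runs_act`, `tin_act`, `apex_act`, `crs_act`) and apply `crossing` in
`act c'.T A hA`: `Gap` from the assumption and `reach_act`, `Insertion` from `insertion_of`; since
`tin * ‖A v‖ ≤ ‖A v‖ ≤ L/4`, `L / 4 < c ‖A v‖ ≤ ‖A v‖`: contradiction.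
-/

set_option autoImplicit false

open Pool.Agent.Helper87.LS Pool.Agent.Helper72.TF

namespace Pool.Agent.Helper79.G

variable {H X : Type}

private theorem map_real_mul10 (A : ℂ ≃ₗ[ℝ] ℂ) (r : ℝ) (z : ℂ) : A ((r : ℂ) * z) = (r : ℂ) * A z := by
  have h := A.map_smul r z
  rwa [Complex.real_smul, Complex.real_smul] at h

private theorem no_cross10 [Finite H] (hins : InsertionX H X) {c c' : CT H X} (h : CReach ∅ c c')
    {A : ℂ ≃ₗ[ℝ] ℂ} (hA : LinearMap.det (A : ℂ →ₗ[ℝ] ℂ) = 1) {l L : ℝ} (hL : 20 * l ≤ L)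
    (hgap : ∀ T'', Reach {g | ‖A (c'.T.vec g)‖ ≤ l} c'.T T'' →
      ∀ g, ¬ ‖A (c'.T.vec g)‖ ≤ l → L < ‖A (T''.vec g)‖)
    {g : H} (hg : ‖A (c'.T.vec g)‖ ≤ l) (hn : ¬ ‖A (c'.T.vec (c'.T.next g))‖ ≤ l)
    (hp : ¬ ‖A (c'.T.vec (c'.T.prev g))‖ ≤ l) (a : Sdl c) (ha : ‖A a.v‖ ≤ L / 4) {x y : ℝ}
    (hx0 : 0 < x) (hx1 : x < 1) (hy0 : 0 < y) (hy1 : y < 1)
    (hxy : a.f x = c'.C.φ g (y * c'.T.vec g)) (hneg : cr a.v (c'.T.vec g) < 0) : False := by
  have hvp : VP c'.C a.v a.f := (VP.creach h).2 a.vp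
  set v := a.v with hv
  set P : ℂ := -((y : ℂ) * c'.T.vec g) with hP
  have hP' : P = ((-y : ℝ) : ℂ) * c'.T.vec g := by rw [hP]; push_cast; ring
  have hcP : cr v P = -y * cr v (c'.T.vec g) := by rw [hP', cr_mul_right]
  have hCrs : c'.T.Crs v (g, P) := by
    refine ⟨?_, ?_⟩
    · change 0 < cr v P
      rw [hcP]
      nlinarith
    · change cr v (P + c'.T.vec g) < 0
      rw [cr_add_right, hcP]
      nlinarith
  have htin : c'.T.tin v (g, P) = 0 := by
    unfold Tri.tin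
    change cr P (c'.T.vec g) / cr v (c'.T.vec g) = 0
    rw [hP', cr_mul_left, cr_self, mul_zero, zero_div]
  have hEdg : c'.T.Edg g ((y : ℂ) * c'.T.vec g) := c'.T.edg_iff.2 ⟨y, hy0, hy1, rfl⟩
  rcases ext (b := 1 - x) hCrs (by rw [htin]; linarith) with ⟨t, hr, -, hreg⟩ | ⟨t, c₀, hr, hap, htc, hc1⟩
  · have e0 : ((0 : ℝ) : ℂ) * v - P = (y : ℂ) * c'.T.vec g := by rw [hP]; simp
    have hm := Runs.mv c'.C hCrs hr (a := 0) (b := 1 - x) (by linarith)
      (by
        change c'.T.Reg g (((0 : ℝ) : ℂ) * v - P)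
        rw [e0]
        exact hEdg.reg) hreg
    change Mv c'.C (((1 - x - 0 : ℝ) : ℂ) * v) (c'.C.φ g (((0 : ℝ) : ℂ) * v - P)) _ at hm
    rw [e0, ← hxy, sub_zero] at hm
    exact hvp.fwd x hx0 hx1 _ hm
  · set E : Set H := {g | ‖A (c'.T.vec g)‖ ≤ l} with hE
    have hEopp : ∀ g, g ∈ E → c'.T.opp g ∈ E := by
      intro g hg
      change ‖A (c'.T.vec (c'.T.opp g))‖ ≤ l
      rw [c'.T.vec_opp, map_neg, norm_neg]
      exact hg
    have hgap' : Gap (act c'.T A hA) E L := by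
      intro T' hT' g hg
      obtain ⟨T₁, h1, rfl⟩ := reach_act hA hT'
      exact hgap T₁ h1 g hg
    have hins' : Insertion (act c'.T A hA) E := insertion_of hins c' hA E hEopp
    have h0 : ∃ t : ℝ, 0 < t ∧ t < 1 ∧ A P + t * (act c'.T A hA).vec g = 0 := by
      refine ⟨y, hy0, hy1, ?_⟩
      change A P + (y : ℂ) * A (c'.T.vec g) = 0
      rw [hP, map_neg, map_real_mul10]
      ring
    have hcr := crossing (T := act c'.T A hA) (E := E) (l := l) (L := L) hEopp hL hgap' hins'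
      (fun g hg => hg) (g := g) (v := A v) (P := A P) hg hn hp
      ((crs_act hA (s := (g, P))).2 hCrs) h0 (t.1, A t.2) (runs_act hA hr)
    have hN : 0 ≤ ‖A v‖ := norm_nonneg _
    have htin2 : (act c'.T A hA).tin (A v) (t.1, A t.2) * ‖A v‖ ≤ L / 4 := by
      rw [tin_act hA]
      have : c'.T.tin v t ≤ 1 := by linarith
      nlinarith
    have h1 := (hcr htin2).2 c₀ (by rw [apex_act hA, hap, map_real_mul10])
    have h2 : c₀ * ‖A v‖ ≤ ‖A v‖ := by
      have : c₀ ≤ 1 := by linarith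
      nlinarith
    linarith

theorem uncrossed [Finite H] (hins : InsertionX H X) {c c' : CT H X} (h : CReach ∅ c c')
    {A : ℂ ≃ₗ[ℝ] ℂ} (hA : LinearMap.det (A : ℂ →ₗ[ℝ] ℂ) = 1) {l L : ℝ} (hL : 20 * l ≤ L)
    (hgap : ∀ T'', Reach {g | ‖A (c'.T.vec g)‖ ≤ l} c'.T T'' →
      ∀ g, ¬ ‖A (c'.T.vec g)‖ ≤ l → L < ‖A (T''.vec g)‖)
    {g : H} (hg : ‖A (c'.T.vec g)‖ ≤ l) (hn : ¬ ‖A (c'.T.vec (c'.T.next g))‖ ≤ l)
    (hp : ¬ ‖A (c'.T.vec (c'.T.prev g))‖ ≤ l) (a : Sdl c) (ha : ‖A a.v‖ ≤ L / 4) :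
    ¬ Cross a (Sdl.edge h g) := by
  rintro ⟨⟨x, y, hx0, hx1, hy0, hy1, hxy⟩, hne, hner⟩
  rw [Sdl.edge_f h g hy0 hy1] at hxy
  rcases lt_trichotomy (cr a.v (c'.T.vec g)) 0 with hlt | heq | hgt
  · exact no_cross10 hins h hA hL hgap hg hn hp a ha hx0 hx1 hy0 hy1 hxy hlt
  · have hvp : VP c'.C a.v a.f := (VP.creach h).2 a.vp
    have hEdg : c'.T.Edg g ((y : ℂ) * c'.T.vec g) := c'.T.edg_iff.2 ⟨y, hy0, hy1, rfl⟩
    rcases hvp.parallel hEdg hx0 hx1 hxy heq with ⟨h1, h2⟩ | ⟨h1, h2⟩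
    · apply hne
      apply Sdl.ext
      · exact h1
      · funext t
        by_cases ht : 0 < t ∧ t < 1
        · rw [Sdl.edge_f h g ht.1 ht.2]
          exact h2 t ht.1 ht.2
        · rw [a.out t ht, (Sdl.edge h g).out t ht,
            Sdl.edge_f h g (t := 1 / 2) (by norm_num) (by norm_num)]
          exact h2 (1 / 2) (by norm_num) (by norm_num)
    · apply hner
      apply Sdl.ext
      · exact h1
      · funext t
        by_cases ht : 0 < t ∧ t < 1
        · change a.f t = (Sdl.edge h g).f (1 - t)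
          rw [Sdl.edge_f h g (t := 1 - t) (by linarith) (by linarith)]
          exact h2 t ht.1 ht.2
        · rw [a.out t ht, (Sdl.edge h g).rev.out t ht]
          change a.f (1 / 2) = (Sdl.edge h g).f (1 - 1 / 2)
          rw [Sdl.edge_f h g (t := 1 - 1 / 2) (by norm_num) (by norm_num)]
          exact h2 (1 / 2) (by norm_num) (by norm_num)
  · refine no_cross10 hins h hA hL hgap hg hn hp a.rev ?_ (x := 1 - x) (by linarith) (by linarith)
      hy0 hy1 ?_ ?_
    · change ‖A (-a.v)‖ ≤ L / 4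
      rw [map_neg, norm_neg]
      exact ha
    · change a.f (1 - (1 - x)) = _
      rw [sub_sub_cancel]
      exact hxy
    · change cr (-a.v) (c'.T.vec g) < 0
      have : cr (-a.v) (c'.T.vec g) = -cr a.v (c'.T.vec g) := by unfold cr; simp; ring
      rw [this]
      linarith

end Pool.Agent.Helper79.G
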