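import Pool.Agent.Helper79.G.Clique
import Pool.Agent.Helper79.G.Unc
import Pool.Agent.Helper79.G.SadFin
import Pool.Agent.Helper79.G.ExistsChart
import Pool.Agent.Helper79.K.Main

/-!
# MP_e98778_an (full), module G: the saddle connections of a surface form an `SSys`

Together with `K.kms` this is the nondivergence estimate.
-/

set_option autoImplicit false

open Pool.Agent.Helper87.LS Pool.Agent.Helper72.TF Pool.Agent.Helper79.K

namespace Pool.Agent.Helper79.G

variable {H : Type}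

/-- Every saddle is an edge of a reachable triangulation. -/
theorem saddle_edge [Finite H] {X : Type} (hins : InsertionX H X) {c : CT H X} (a : Sdl c) :
    ∃ T' g, Reach ∅ c.T T' ∧ T'.vec g = a.v := by
  rcases a.vp.struct with ⟨g, hg, -⟩ | ⟨k, l, hl, -, -⟩
  · exact ⟨c.T, g, Reach.refl, hg⟩
  · obtain ⟨c', g, hc', -, hv, -⟩ := hins c ∅ (fun g hg => hg) k a.v l hl (fun s _ h => h)
    exact ⟨c'.T, g, hc'.reach, hv⟩

theorem saddles_finite [Finite H] {X : Type} (c : CT H X) (R : ℝ) :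
    {z : ℂ | (∃ a : Sdl c, a.v = z) ∧ ‖z‖ ≤ R}.Finite := by
  refine ((Set.finite_range c.T.vec).union (sad_finite c.T R)).subset ?_
  rintro z ⟨⟨a, rfl⟩, hR⟩
  rcases a.vp.struct with ⟨g, hg, -⟩ | ⟨k, l, hl, -, hs⟩
  · left; exact ⟨g, hg⟩
  · right; exact ⟨hR, k, l, hl, fun s hs' => ⟨(hs s hs').1, (hs s hs').2.1⟩⟩

theorem mono_of_step {L : ℕ → ℝ} {K : ℕ} (h0 : 0 < L 0) (h : ∀ k < K, 20 * L k ≤ L (k + 1)) :
    ∀ k ≤ K, 0 < L k := by
  intro k
  induction k with
  | zero => intro _; exact h0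
  | succ k ih =>
    intro hk
    have h1 := ih (by omega)
    have h2 := h k (by omega)
    linarith

theorem exists_ssys [Fintype H] [Nonempty H] (hins : ∀ X : Type, InsertionX H X) (T : Tri H)
    (hc : T.Conn) :
    ∃ (S : Type) (Z : SSys S (Fintype.card H) (Fintype.card H)
      (Real.sqrt (T.area / Fintype.card H))),
      (∀ T', Reach ∅ T T' → ∀ g, ∃ a, Z.vec a = T'.vec g) ∧
        ∀ a, ∃ T' g, Reach ∅ T T' ∧ T'.vec g = Z.vec a := by
  obtain ⟨X, ⟨C⟩⟩ := exists_chart T
  let c : CT H X := ⟨T, C⟩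
  have hcard : (0 : ℝ) < Fintype.card H := by exact_mod_cast Fintype.card_pos
  refine ⟨Sdl c, ⟨Sdl.v, Cross, fun a b h => h.symm, Cross.irr, fun a => a.vp.ne,
    fun F hF => clique (hins X) F hF, saddles_finite c, ?_⟩, ?_, ?_⟩
  · intro L h0 hstep hLK s u hex
    obtain ⟨a0, ha0⟩ := hex
    have hpos := mono_of_step h0 hstep
    have hA := det_gsu s u
    have hgap := exists_gap T (gsu s u) L
      (fun k hk => by have h1 := hstep k hk; have h2 := hpos k hk.le; linarith)
      (by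
        obtain ⟨T', g, h1, h2⟩ := saddle_edge (hins X) a0
        exact ⟨T', h1, g, by rw [h2]; exact ha0⟩)
      (fun T' hT' => exists_long hT' hA (hpos _ le_rfl).le (by
        have h1 := hpos _ le_rfl
        have h2 : L (Fintype.card H) ^ 2 ≤ T.area / Fintype.card H := by
          have h3 : 0 ≤ T.area / Fintype.card H := div_nonneg (area_pos T).le hcard.le
          calc L (Fintype.card H) ^ 2 ≤ Real.sqrt (T.area / Fintype.card H) ^ 2 := by gcongr
            _ = _ := Real.sq_sqrt h3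
        rw [le_div_iff₀ hcard] at h2
        linarith))
    obtain ⟨k, hk, T', hT', hne, hnu, hg⟩ := hgap
    obtain ⟨c', hc', rfl⟩ := hT'.lift C
    have hopp : ∀ g, g ∈ {g | ‖gsu s u (c'.T.vec g)‖ ≤ L k} →
        c'.T.opp g ∈ {g | ‖gsu s u (c'.T.vec g)‖ ≤ L k} := by
      intro g hg
      simp only [Set.mem_setOf_eq, c'.T.vec_opp, map_neg, norm_neg] at hg ⊢
      exact hg
    have hk0 := hpos k hk.le
    have hk1 := hstep k hk
    obtain ⟨g, hgE, hn, hp⟩ := bdry_edge (conn_reach hT' hc) hopp hne hnu (A := gsu s u)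
      (l := L k) (L := L (k + 1)) (by linarith) (fun g hg => hg)
      (fun g hg' => hg c'.T Reach.refl g hg')
    refine ⟨k, hk, Sdl.edge hc' g, hgE, ?_⟩
    intro a ha
    exact uncrossed (hins X) hc' hA hk1 hg hgE hn hp a ha
  · intro T' hT' g
    obtain ⟨c', hc', rfl⟩ := hT'.lift C
    exact ⟨Sdl.edge hc' g, rfl⟩
  · intro a
    exact saddle_edge (hins X) a

end Pool.Agent.Helper79.G
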