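import Pool.Agent.Helper79.G.MvFlip
import Pool.Agent.Helper79.G.Ext

/-!
# TF-G-VP: vertex paths (saddle connections as curves in the set of regular points)

`VP C v f`: `f t`, `0 < t < 1`, is a straight path with total vector `v`, which cannot be continued at
either end (so it goes from a vertex to a vertex). The definition uses only the motions `Mv`, so it does not
depend on the triangulation (`mv_flip`).
* `VP.rev`: the reversed path. (`Mv.symm`.)
* `VP.start` (needs `ext_pt`): near `0` the path is in one triangle and starts at a vertex of it. Apply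
  `ext_pt` to `p = f (1/2)` and the vector `-(1/2) v`: the first case contradicts `bwd`; in the second case
  the point at parameter `1/2 - (c - τ)/2` is `φ h (τ/2 v)` (`Mv.unique`, `symm`); if `c < 1` the motion by
  `-(c/2) v` from `f (1/2)` exists (to `f ((1-c)/2)`) and contradicts `Mv.no_vertex`; so `c = 1`.
* `VP.eq_of_germ`: two vertex paths with the same vector which agree near `0` agree (`Mv.unique`).
* `edge_vp`: an edge is a vertex path. `fwd`: `Mv.no_vertex` with the corner at the end of `g` (the dart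
  `next g` starts there; positions `φ g (vec g - τ v) = φ (next g) (-(τ v))` by `rot`); `bwd`: `rot`,
  `glue`-free: the corner `g` itself.
* `VP.parallel` (file Struct.lean, block TF-G-STRUCT): a vertex path which passes through a point of the edge `g` parallel to it is the edge or
  the reversed edge. (Say `v = c vec g`, `f a = φ g (t vec g)`. By `Mv.unique` and `symm`
  `f (a + x) = φ g ((t + c x) vec g)` as long as both sides make sense; if one of the two paths
  stopped before the other this would contradict `Mv.no_vertex` (resp. `fwd`, `bwd`); so both ends agree: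
  for `c > 0`: `c = 1` and `a = t`; for `c < 0` apply it to the reversed path.)
* `VP.struct` (file Struct.lean, block TF-G-STRUCT): a vertex path is an edge or comes from a saddle code. From `VP.start` we get the corner `h`
  with `T.Reg h (τ v)` for small `τ`: so `v` is in the closed sector. If `v` is parallel to `vec h` or to
  `vec (prev h)`: `VP.parallel` with `g = h`, resp. `g = opp (prev h)` (`rot`, `glue`; the reversed edge
  is excluded because of the direction). Otherwise `Into h v`; the state `T.cst h` satisfies `Crs v`;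
  by `ext` with `b = 1`: if a state `t` with `T.Reg t.1 (1 * v - t.2)` is reached then (`Runs.mv`, starting at
  the crossing point of `cst h`, preceded by a hop inside the triangle of `h`) there is a motion from
  `f τ` to the parameter `1`: contradiction to `fwd`. So a state `t` with `T.apex t = c v`, `c ≤ 1` is
  reached; `c < 1` contradicts `Mv.no_vertex` (motion to `f c`). So `c = 1` and `T.Hits` follows
  (list of the states). For each state `s` of the list: `0 < tin v s < 1`, and
  `f (tin v s) = φ s.1 (tin v s * v - s.2)` by `Runs.mv` and `Mv.unique`.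
-/

set_option autoImplicit false

open Pool.Agent.Helper87.LS

namespace Pool.Agent.Helper79.G

variable {H X : Type} {T : Tri H}

/-- Vertex paths. -/
structure VP (C : Chart T X) (v : ℂ) (f : ℝ → X) : Prop where
  ne : v ≠ 0
  mv : ∀ a b : ℝ, 0 < a → a < b → b < 1 → Mv C (((b - a : ℝ) : ℂ) * v) (f a) (f b)
  fwd : ∀ a : ℝ, 0 < a → a < 1 → ∀ q, ¬ Mv C (((1 - a : ℝ) : ℂ) * v) (f a) q
  bwd : ∀ a : ℝ, 0 < a → a < 1 → ∀ q, ¬ Mv C (-((a : ℂ) * v)) (f a) q

theorem VP.flip_iff {C : Chart T X} {e : H} (he : T.Flippable e) {v : ℂ} {f : ℝ → X} :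
    VP (C.flip e he) v f ↔ VP C v f := by
  constructor
  · rintro ⟨h0, h1, h2, h3⟩
    exact ⟨h0, fun a b ha hab hb => (mv_flip C he).1 (h1 a b ha hab hb),
      fun a ha hb q hq => h2 a ha hb q ((mv_flip C he).2 hq),
      fun a ha hb q hq => h3 a ha hb q ((mv_flip C he).2 hq)⟩
  · rintro ⟨h0, h1, h2, h3⟩
    exact ⟨h0, fun a b ha hab hb => (mv_flip C he).2 (h1 a b ha hab hb),
      fun a ha hb q hq => h2 a ha hb q ((mv_flip C he).1 hq),
      fun a ha hb q hq => h3 a ha hb q ((mv_flip C he).1 hq)⟩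

theorem VP.rev {C : Chart T X} {v : ℂ} {f : ℝ → X} (h : VP C v f) : VP C (-v) fun t => f (1 - t) := by
  refine ⟨neg_ne_zero.mpr h.ne, ?_, ?_, ?_⟩
  · intro a b ha hab hb
    have h1 := (h.mv (1 - b) (1 - a) (by linarith) (by linarith) (by linarith)).symm
    have e : -(((1 - a - (1 - b) : ℝ) : ℂ) * v) = ((b - a : ℝ) : ℂ) * -v := by
      push_cast
      ring
    rwa [e] at h1
  · intro a ha ha1 q hq
    refine h.bwd (1 - a) (by linarith) (by linarith) q ?_
    have e : -(((1 - a : ℝ) : ℂ) * v) = ((1 - a : ℝ) : ℂ) * -v := by ring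
    rwa [e]
  · intro a ha ha1 q hq
    refine h.fwd (1 - a) (by linarith) (by linarith) q ?_
    have e : ((1 - (1 - a) : ℝ) : ℂ) * v = -((a : ℂ) * -v) := by
      push_cast
      ring
    rwa [e]

theorem VP.eq_of_germ {C : Chart T X} {v : ℂ} {f f' : ℝ → X} (h : VP C v f) (h' : VP C v f')
    {ε : ℝ} (hε : 0 < ε) (hg : ∀ τ : ℝ, 0 < τ → τ < ε → f τ = f' τ) :
    ∀ t : ℝ, 0 < t → t < 1 → f t = f' t := by
  intro t ht ht1
  have hm : 0 < min ε t := lt_min hε ht
  have h1 : min ε t / 2 < ε := by linarith [min_le_left ε t]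
  have h2 : min ε t / 2 < t := by linarith [min_le_right ε t]
  have h3 := h.mv (min ε t / 2) t (by linarith) h2 ht1
  have h4 := h'.mv (min ε t / 2) t (by linarith) h2 ht1
  rw [hg (min ε t / 2) (by linarith) h1] at h3
  exact h3.unique h4

theorem edge_vp (C : Chart T X) (g : H) : VP C (T.vec g) fun t => C.φ g (t * T.vec g) := by
  have hne : T.vec g ≠ 0 := by
    intro h0
    have h1 := T.pos g
    rw [h0] at h1
    simp [cr] at h1
  have hE : ∀ t : ℝ, 0 < t → t < 1 → T.Reg g (t * T.vec g) := fun t h0 h1 =>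
    (T.edg_iff.2 ⟨t, h0, h1, rfl⟩ : T.Edg g (t * T.vec g)).reg
  -- hops along the edge
  have hop : ∀ a b : ℝ, 0 < a → a < 1 → 0 < b → b < 1 →
      Mv C (((b - a : ℝ) : ℂ) * T.vec g) (C.φ g (a * T.vec g)) (C.φ g (b * T.vec g)) := by
    intro a b ha ha1 hb hb1
    have e : (b : ℂ) * T.vec g = a * T.vec g + ((b - a : ℝ) : ℂ) * T.vec g := by
      push_cast
      ring
    rw [e]
    refine Mv.hop (hE a ha ha1) ?_
    rw [← e]
    exact hE b hb hb1
  refine ⟨hne, ?_, ?_, ?_⟩
  · intro a b ha hab hb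
    exact hop a b ha (by linarith) (by linarith) hb
  · intro a ha ha1 q
    have h1a : ((1 - a : ℝ) : ℂ) ≠ 0 := by
      exact_mod_cast (by linarith : (0 : ℝ) < 1 - a).ne'
    refine Mv.no_vertex (mul_ne_zero h1a hne) (h := T.next g) one_pos ?_
    intro τ h0 h1
    have hp : 0 < τ * (1 - a) := mul_pos h0 (by linarith)
    have hp1 : τ * (1 - a) < 1 := by nlinarith
    have e1 : -((τ : ℂ) * (((1 - a : ℝ) : ℂ) * T.vec g)) =
        ((1 - τ * (1 - a) : ℝ) : ℂ) * T.vec g - T.vec g := by
      push_cast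
      ring
    have hr := hE (1 - τ * (1 - a)) (by linarith) (by linarith)
    rw [e1]
    refine ⟨T.reg_next.2 hr, ?_⟩
    rw [C.rot g _ hr]
    have h2 := hop a (1 - τ * (1 - a)) ha ha1 (by linarith) (by linarith)
    have e2 : ((1 - τ * (1 - a) - a : ℝ) : ℂ) * T.vec g =
        ((1 - τ : ℝ) : ℂ) * (((1 - a : ℝ) : ℂ) * T.vec g) := by
      push_cast
      ring
    rwa [e2] at h2
  · intro a ha ha1 q
    have h1a : (a : ℂ) ≠ 0 := by exact_mod_cast ha.ne'
    refine Mv.no_vertex (neg_ne_zero.mpr (mul_ne_zero h1a hne)) (h := g) one_pos ?_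
    intro τ h0 h1
    have hp : 0 < τ * a := mul_pos h0 ha
    have hp1 : τ * a < 1 := by nlinarith
    have e1 : -((τ : ℂ) * -((a : ℂ) * T.vec g)) = ((τ * a : ℝ) : ℂ) * T.vec g := by
      push_cast
      ring
    rw [e1]
    refine ⟨hE (τ * a) hp hp1, ?_⟩
    have h2 := hop a (τ * a) ha ha1 hp hp1
    have e2 : ((τ * a - a : ℝ) : ℂ) * T.vec g = ((1 - τ : ℝ) : ℂ) * -((a : ℂ) * T.vec g) := by
      push_cast
      ring
    rwa [e2] at h2

theorem VP.start [Finite H] {C : Chart T X} {v : ℂ} {f : ℝ → X} (h : VP C v f) :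
    ∃ k, ∃ ε : ℝ, 0 < ε ∧ ∀ τ : ℝ, 0 < τ → τ < ε → T.Reg k (τ * v) ∧ f τ = C.φ k (τ * v) := by
  have h2 : ((1 / 2 : ℝ) : ℂ) ≠ 0 := by
    exact_mod_cast (by norm_num : (1 / 2 : ℝ) ≠ 0)
  -- motions from the middle back
  have back : ∀ x : ℝ, 0 < x → x < 1 / 2 →
      Mv C (-(((1 / 2 - x : ℝ) : ℂ) * v)) (f (1 / 2)) (f x) := fun x h0 h1 =>
    (h.mv x (1 / 2) h0 h1 (by norm_num)).symm
  rcases ext_pt C (v := -(((1 / 2 : ℝ) : ℂ) * v)) (neg_ne_zero.mpr (mul_ne_zero h2 h.ne))
    (f (1 / 2)) with ⟨q, hq⟩ | ⟨c, hc0, hc1, k, ε, hε, hεc, H⟩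
  · exact absurd hq (h.bwd (1 / 2) (by norm_num) (by norm_num) q)
  · rcases hc1.lt_or_eq with hlt | heq
    · exfalso
      have hcne : (c : ℂ) ≠ 0 := by exact_mod_cast hc0.ne'
      have hm := back ((1 - c) / 2) (by linarith) (by linarith)
      have e0 : -(((1 / 2 - (1 - c) / 2 : ℝ) : ℂ) * v) = (c : ℂ) * -(((1 / 2 : ℝ) : ℂ) * v) := by
        push_cast
        ring
      rw [e0] at hm
      refine Mv.no_vertex (mul_ne_zero hcne (neg_ne_zero.mpr (mul_ne_zero h2 h.ne)))
        (h := k) (div_pos hε hc0) ?_ hm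
      intro τ h0 h1
      have h3 : τ * c < ε := by rwa [lt_div_iff₀ hc0] at h1
      obtain ⟨H1, H2⟩ := H (τ * c) (mul_pos h0 hc0) h3
      have e1 : -(((τ * c : ℝ) : ℂ) * -(((1 / 2 : ℝ) : ℂ) * v)) =
          -((τ : ℂ) * ((c : ℂ) * -(((1 / 2 : ℝ) : ℂ) * v))) := by
        push_cast
        ring
      have e2 : ((c - τ * c : ℝ) : ℂ) * -(((1 / 2 : ℝ) : ℂ) * v) =
          ((1 - τ : ℝ) : ℂ) * ((c : ℂ) * -(((1 / 2 : ℝ) : ℂ) * v)) := by
        push_cast
        ring
      rw [e1] at H1 H2
      rw [e2] at H2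
      exact ⟨H1, H2⟩
    · subst heq
      refine ⟨k, ε / 2, by linarith, fun τ h0 h1 => ?_⟩
      obtain ⟨H1, H2⟩ := H (2 * τ) (by linarith) (by linarith)
      have e1 : -(((2 * τ : ℝ) : ℂ) * -(((1 / 2 : ℝ) : ℂ) * v)) = (τ : ℂ) * v := by
        push_cast
        ring
      rw [e1] at H1 H2
      refine ⟨H1, ?_⟩
      have hm := back τ h0 (by linarith)
      have e2 : ((1 - 2 * τ : ℝ) : ℂ) * -(((1 / 2 : ℝ) : ℂ) * v) =
          -(((1 / 2 - τ : ℝ) : ℂ) * v) := by
        push_cast
        ring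
      rw [e2] at H2
      exact hm.unique H2

end Pool.Agent.Helper79.G
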